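import Pool.Agent.U566.BMPoly

/-! Polynomial behaviour of Breuil–Mézard cycles, and reduction to Hodge types deep in the Weyl
chamber. -/

namespace U566.BM

open MvPolynomial Finset

set_option linter.unusedSectionVars false

noncomputable section

lemma class_orbit {G : Type*} [Monoid G] {q d : ℕ} {a : Fin d → G} (ha : IsClass q a)
    (i : Fin d) : ∃ k, 1 ≤ k ∧ k ≤ d ∧ a i ^ (q ^ k) = a i := by
  classical
  unfold IsClass at ha
  set A : Finset G := Finset.univ.image a with hA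
  have hmem : ∀ x ∈ A, x ^ q ∈ A := by
    intro x hx
    obtain ⟨i, -, rfl⟩ := Finset.mem_image.1 hx
    have h1 : a i ^ q ∈ Multiset.map (fun i => a i ^ q) univ.val :=
      Multiset.mem_map.2 ⟨i, Finset.mem_univ i, rfl⟩
    rw [ha] at h1
    obtain ⟨k, -, hk⟩ := Multiset.mem_map.1 h1
    exact Finset.mem_image.2 ⟨k, Finset.mem_univ k, hk⟩
  let φ : A → A := fun x => ⟨x.1 ^ q, hmem x.1 x.2⟩
  have hφs : Function.Surjective φ := by
    rintro ⟨x, hx⟩
    obtain ⟨i, -, rfl⟩ := Finset.mem_image.1 hx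
    have h1 : a i ∈ Multiset.map a univ.val := Multiset.mem_map.2 ⟨i, Finset.mem_univ i, rfl⟩
    rw [← ha] at h1
    obtain ⟨k, -, hk⟩ := Multiset.mem_map.1 h1
    exact ⟨⟨a k, Finset.mem_image.2 ⟨k, Finset.mem_univ k, rfl⟩⟩, Subtype.ext hk⟩
  have hφ : Function.Injective φ := Finite.injective_iff_surjective.2 hφs
  have hiter : ∀ (k : ℕ) (x : A), (φ^[k] x).1 = x.1 ^ (q ^ k) := by
    intro k
    induction k with
    | zero => intro x; simp
    | succ k ih =>
      intro x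
      rw [Function.iterate_succ_apply', pow_succ, pow_mul, ← ih]
  let x : A := ⟨a i, Finset.mem_image.2 ⟨i, Finset.mem_univ i, rfl⟩⟩
  have hcard : Fintype.card A < Fintype.card (Fin (d + 1)) := by
    rw [Fintype.card_coe, Fintype.card_fin]
    have := Finset.card_image_le (s := (Finset.univ : Finset (Fin d))) (f := a)
    rw [Finset.card_univ, Fintype.card_fin, ← hA] at this
    omega
  obtain ⟨k, l, hkl, he⟩ := Fintype.exists_ne_map_eq_of_card_lt
    (fun k : Fin (d + 1) => φ^[(k : ℕ)] x) hcard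
  have hmain : ∀ k l : Fin (d + 1), (k : ℕ) < l → φ^[(k : ℕ)] x = φ^[(l : ℕ)] x →
      ∃ k, 1 ≤ k ∧ k ≤ d ∧ a i ^ (q ^ k) = a i := by
    intro k l h e
    have e1 : (l : ℕ) = k + (l - k) := by omega
    rw [e1, Function.iterate_add_apply] at e
    have e2 := (hφ.iterate k) e
    refine ⟨l - k, by omega, by have := l.2; omega, ?_⟩
    have e3 := congrArg Subtype.val e2
    rw [hiter] at e3
    exact e3.symm
  rcases lt_or_gt_of_ne (fun h => hkl (Fin.ext h) : (k : ℕ) ≠ l) with h | h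
  · exact hmain k l h he
  · exact hmain l k h he.symm

lemma class_pow {G : Type*} [Group G] {q d N : ℕ} (hq : 1 ≤ q) {a : Fin d → G}
    (ha : IsClass q a) (hN : ∀ k, 1 ≤ k → k ≤ d → (q ^ k - 1) ∣ N) (i : Fin d) :
    a i ^ N = 1 := by
  obtain ⟨k, h1, h2, h3⟩ := class_orbit ha i
  obtain ⟨c, hc⟩ := hN k h1 h2
  have h4 : a i ^ (q ^ k - 1) = 1 := by
    have h5 : a i ^ (q ^ k - 1) * a i = a i := by
      rw [← pow_succ, Nat.sub_add_cancel (Nat.one_le_pow _ _ hq)]
      exact h3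
    exact mul_eq_right.1 h5
  rw [hc, pow_mul, h4, one_pow]

variable {S : Type} [Fintype S] [DecidableEq S] {d : ℕ} {p f : ℕ} [Fact p.Prime] [NeZero f]
  {j : S → ZMod f} {T W : Type} [Fintype W] {M : Type*} [AddCommGroup M]

lemma brauer_eSum_N {N : ℕ} (hN : ∀ k, 1 ≤ k → k ≤ d → ((p ^ f) ^ k - 1) ∣ N) (μ : Wt S d)
    (σ : S) (r : ℕ) : eSum (brauer p f j) μ σ r N = cr d r • brauer p f j μ := by
  have hp : p.Prime := Fact.out
  funext a
  unfold eSum
  rw [Finset.sum_apply, brauer_pieri, Pi.smul_apply, zsmul_eq_mul]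
  congr 1
  have h1 : ∀ i, ts a i ^ (p ^ (j σ).val * N) = 1 := by
    intro i
    have h2 := class_pow (Nat.one_le_pow _ _ hp.pos) a.2 hN i
    have h3 : ts a i ^ N = 1 := by
      have h4 := congrArg (fun z : (AlgebraicClosure (ZMod p))ˣ =>
        WittVector.teichmuller p (z : AlgebraicClosure (ZMod p))) h2
      simp only [Units.val_pow_eq_pow_val, map_pow, Units.val_one, map_one] at h4
      exact h4
    rw [mul_comm, pow_mul, h3, one_pow]
  simp only [h1]
  rw [cr]
  have := hom_aeval (Int.castRingHom (WittVector p (AlgebraicClosure (ZMod p))))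
    (fun _ : Fin d => (1 : ℤ)) (esymm (Fin d) ℤ r)
  rw [eq_intCast] at this
  rw [this]
  simp

theorem brauer_diff {N : ℕ} (hN : ∀ k, 1 ≤ k → k ≤ d → ((p ^ f) ^ k - 1) ∣ N)
    (s : Finset S) (v : S → Fin d → ℕ) (hv : ∀ σ, σ ∉ s → ∀ i, v σ i = 0) (μ : Wt S d) :
    diffSum (brauer p f j) (s.card * tri d + 1) N v μ = 0 :=
  diff_of_eSum (brauer p f j) N (brauer_eSum_N hN) s v hv μ

lemma diffSum_pair {F : Type*} [CommRing F] (g : Wt S d → F) (θ : F) (h : Wt S d → M) (n N : ℕ)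
    (v : S → Fin d → ℕ) (μ : Wt S d) :
    diffSum (fun μ => (g μ * θ, h μ)) n N v μ = (diffSum g n N v μ * θ, diffSum h n N v μ) := by
  unfold diffSum
  ext1
  · rw [Prod.fst_sum, Finset.sum_mul]
    refine Finset.sum_congr rfl fun k _ => ?_
    rw [Prod.smul_fst, smul_mul_assoc]
  · rw [Prod.snd_sum]
    refine Finset.sum_congr rfl fun k _ => ?_
    rw [Prod.smul_snd]

/-- the shifted tuple is regular -/
lemma shift_reg (μ : Reg S d) (N : ℕ) {v : S → Fin d → ℕ} (hv : ∀ σ, Antitone (v σ)) (k : ℕ)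
    (σ : S) : StrictAnti (shiftBy μ.1 N v k σ) := by
  intro a b hab
  have h1 := μ.2 σ hab
  have h2 := hv σ hab.le
  have h3 : k * N * v σ b ≤ k * N * v σ a := Nat.mul_le_mul_left _ h2
  unfold shiftBy
  have h4 : ((k * N * v σ b : ℕ) : ℤ) ≤ ((k * N * v σ a : ℕ) : ℤ) := by exact_mod_cast h3
  linarith

/-- The direction `ρ = (d-1, …, 1, 0)` at the embedding `σ`, zero at the others. -/
def rhoAt (d : ℕ) (σ : S) : S → Fin d → ℕ := fun τ i => if τ = σ then (i.rev : ℕ) else 0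

lemma rhoAt_anti (σ τ : S) : Antitone (rhoAt d σ τ) := by
  intro a b hab
  unfold rhoAt
  have h1 : (a : ℕ) ≤ b := hab
  split_ifs
  · simp only [Fin.val_rev]
    omega
  · exact le_rfl

lemma rhoAt_supp (σ τ : S) (h : τ ∉ ({σ} : Finset S)) (i : Fin d) : rhoAt d σ τ i = 0 := by
  unfold rhoAt
  rw [if_neg (fun e => h (Finset.mem_singleton.2 e))]

/-- All gaps between consecutive Hodge–Tate weights are at least `C`. -/
def Deep (C : ℕ) (μ : Wt S d) : Prop :=
  ∀ (σ : S) (a b : Fin d), (a : ℕ) + 1 = b → (C : ℤ) ≤ μ σ a - μ σ b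

/-- the tuple `μ + N ∑_σ m_σ ρ_σ` -/
def shiftM (μ : Wt S d) (N : ℕ) (m : S → ℕ) : Wt S d :=
  fun σ i => μ σ i + ((m σ * N * (i.rev : ℕ) : ℕ) : ℤ)

lemma gapM (μ : Wt S d) (N : ℕ) (m : S → ℕ) (σ : S) (a b : Fin d) (hab : (a : ℕ) + 1 = b) :
    shiftM μ N m σ a - shiftM μ N m σ b = μ σ a - μ σ b + ((m σ * N : ℕ) : ℤ) := by
  unfold shiftM
  have h1 : ((a.rev : ℕ) : ℤ) = (b.rev : ℕ) + 1 := by
    simp only [Fin.val_rev]
    have := b.2
    omega
  push_cast
  rw [h1]
  ring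

lemma gapBy (μ : Wt S d) (N k : ℕ) (σ τ : S) (a b : Fin d) (hab : (a : ℕ) + 1 = b) :
    shiftBy μ N (rhoAt d σ) k τ a - shiftBy μ N (rhoAt d σ) k τ b
      = μ τ a - μ τ b + if τ = σ then ((k * N : ℕ) : ℤ) else 0 := by
  unfold shiftBy rhoAt
  have h1 : ((a.rev : ℕ) : ℤ) = (b.rev : ℕ) + 1 := by
    simp only [Fin.val_rev]
    have := b.2
    omega
  split_ifs
  · push_cast
    rw [h1]
    ring
  · push_cast
    ring

/-- membership spreads from the deep tuples to all regular tuples -/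
lemma mem_of_deep {A : Type*} [AddCommGroup A] (X : Wt S d → A) (G : Submodule ℤ A) {n N C : ℕ}
    (hN : 0 < N) (hX : ∀ (σ : S) (μ : Reg S d), diffSum X n N (rhoAt d σ) μ.1 = 0)
    (hG : ∀ μ : Reg S d, Deep C μ.1 → X μ.1 ∈ G) (μ : Reg S d) : X μ.1 ∈ G := by
  have key : ∀ (t : ℕ) (m : S → ℕ), ∑ σ, m σ = t → ∀ μ : Reg S d,
      Deep C (shiftM μ.1 N m) → X μ.1 ∈ G := by
    intro t
    induction t with
    | zero =>
      intro m hm μ h
      refine hG μ ?_
      have hm0 : ∀ σ, m σ = 0 := fun σ => (Finset.sum_eq_zero_iff.1 hm) σ (Finset.mem_univ σ)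
      have e : shiftM μ.1 N m = μ.1 := by
        funext σ i
        simp [shiftM, hm0 σ]
      rwa [e] at h
    | succ t ih =>
      intro m hm μ h
      obtain ⟨σ, hσ⟩ : ∃ σ, m σ ≠ 0 := by
        by_contra hcon
        push Not at hcon
        rw [Finset.sum_eq_zero (fun σ _ => hcon σ)] at hm
        omega
      have h1 := hX σ μ
      unfold diffSum at h1
      rw [Finset.sum_range_succ'] at h1
      have e : shiftBy μ.1 N (rhoAt d σ) 0 = μ.1 := by
        funext σ i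
        simp [shiftBy]
      rw [e, Nat.choose_zero_right, Nat.sub_zero, Nat.cast_one, mul_one] at h1
      have h2 : ∑ k ∈ range n, ((-1) ^ (n - (k + 1)) * (n.choose (k + 1) : ℤ)) •
          X (shiftBy μ.1 N (rhoAt d σ) (k + 1)) ∈ G := by
        refine Submodule.sum_mem _ fun k _ => Submodule.smul_mem _ _ ?_
        have hsum : ∑ τ, Function.update m σ (m σ - 1) τ = t := by
          rw [Finset.sum_update_of_mem (Finset.mem_univ σ)]
          have h3 := Finset.add_sum_erase univ m (Finset.mem_univ σ)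
          rw [Finset.erase_eq] at h3
          omega
        refine ih (Function.update m σ (m σ - 1)) hsum
          ⟨shiftBy μ.1 N (rhoAt d σ) (k + 1), shift_reg μ N (rhoAt_anti σ) _⟩ ?_
        intro τ a b hab
        have h4 := h τ a b hab
        rw [gapM _ _ _ _ _ _ hab] at h4 ⊢
        change (C : ℤ) ≤ shiftBy μ.1 N (rhoAt d σ) (k + 1) τ a
          - shiftBy μ.1 N (rhoAt d σ) (k + 1) τ b + _
        rw [gapBy _ _ _ _ _ _ _ hab]
        by_cases hτ : τ = σ
        · subst hτ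
          rw [if_pos rfl, Function.update_self]
          have h5 : m τ * N ≤ (k + 1) * N + (m τ - 1) * N := by
            rw [← add_mul]
            exact Nat.mul_le_mul_right _ (by omega)
          have h6 : ((m τ * N : ℕ) : ℤ) ≤ (((k + 1) * N + (m τ - 1) * N : ℕ) : ℤ) := by
            exact_mod_cast h5
          rw [Nat.cast_add] at h6
          linarith
        · rw [if_neg hτ, Function.update_of_ne hτ]
          linarith
      have h3 : ((-1 : ℤ) ^ n) • X μ.1 ∈ G := by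
        have h4 : ((-1 : ℤ) ^ n) • X μ.1
            = - ∑ k ∈ range n, ((-1) ^ (n - (k + 1)) * (n.choose (k + 1) : ℤ)) •
          X (shiftBy μ.1 N (rhoAt d σ) (k + 1)) := by
          rw [eq_neg_iff_add_eq_zero, add_comm]
          exact h1
        rw [h4]
        exact G.neg_mem h2
      have h5 := G.smul_mem ((-1 : ℤ) ^ n) h3
      rw [smul_smul, ← pow_add, Even.neg_one_pow ⟨n, rfl⟩, one_smul] at h5
      exact h5
  refine key _ (fun _ => C) rfl μ ?_
  intro σ a b hab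
  rw [gapM _ _ _ _ _ _ hab]
  have h1 : a < b := by
    change (a : ℕ) < b
    omega
  have h2 := μ.2 σ h1
  have h3 : C ≤ C * N := Nat.le_mul_of_pos_right C hN
  have h4 : ((C : ℕ) : ℤ) ≤ ((C * N : ℕ) : ℤ) := by exact_mod_cast h3
  linarith

/-- Polynomial behaviour of degree at most `d(d-1)/2` along the progressions `μ + k N ρ_σ` of
regular tuples, for each embedding `σ` and each type. -/
def RhoPoly (N : ℕ) (Z : T → Wt S d → M) : Prop :=
  ∀ (τ : T) (σ : S) (μ : Reg S d), diffSum (Z τ) (d * (d - 1) / 2 + 1) N (rhoAt d σ) μ.1 = 0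

lemma tri_eq (d : ℕ) : tri d = d * (d - 1) / 2 := Finset.sum_range_id d

lemma brauer_rho {N : ℕ} (hN : ∀ k, 1 ≤ k → k ≤ d → ((p ^ f) ^ k - 1) ∣ N) (σ : S)
    (μ : Wt S d) : diffSum (brauer p f j) (d * (d - 1) / 2 + 1) N (rhoAt d σ) μ = 0 := by
  have h := brauer_diff (p := p) (f := f) (j := j) hN {σ} (rhoAt d σ) (rhoAt_supp σ) μ
  rwa [Finset.card_singleton, one_mul, tri_eq] at h

/-- The Breuil–Mézard relations between pairs `(μ, τ)` with all gaps of `μ` at least `C`. -/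
def DeepRelations (p f : ℕ) [Fact p.Prime] (j : S → ZMod f) (C : ℕ)
    (θ : T → (Cls p f d → WittVector p (AlgebraicClosure (ZMod p)))) (Z : T → Wt S d → M) :
    Prop :=
  ∀ c : ({μ : Reg S d // Deep C μ.1} × T) →₀ ℤ,
    Finsupp.linearCombination ℤ (fun x : {μ : Reg S d // Deep C μ.1} × T =>
      brauer p f j x.1.1.1 * θ x.2) c = 0 →
      Finsupp.linearCombination ℤ (fun x : {μ : Reg S d // Deep C μ.1} × T =>
        Z x.2 x.1.1.1) c = 0

variable {θ : T → (Cls p f d → WittVector p (AlgebraicClosure (ZMod p)))} {Z : T → Wt S d → M}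

/-- **Polynomiality.** -/
theorem poly_of_rel (h : PairRelations p f j θ Z) {N : ℕ}
    (hN : ∀ k, 1 ≤ k → k ≤ d → ((p ^ f) ^ k - 1) ∣ N) (τ : T) (μ : Reg S d) (s : Finset S)
    {v : S → Fin d → ℕ} (hv : ∀ σ, Antitone (v σ)) (hv0 : ∀ σ, σ ∉ s → ∀ i, v σ i = 0) :
    diffSum (Z τ) (s.card * (d * (d - 1) / 2) + 1) N v μ.1 = 0 := by
  unfold PairRelations at h
  rw [rel_iff_graph] at h
  refine h _ ?_
  have h1 : diffSum (fun μ => (brauer p f j μ * θ τ, Z τ μ)) (s.card * (d * (d - 1) / 2) + 1)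
      N v μ.1 ∈ GrI (fun x : Reg S d × T => brauer p f j x.1.1 * θ x.2)
        (fun x : Reg S d × T => Z x.2 x.1.1) := by
    unfold diffSum
    refine Submodule.sum_mem _ fun k _ => Submodule.smul_mem _ _ ?_
    exact Submodule.subset_span ⟨(⟨shiftBy μ.1 N v k, shift_reg μ N hv k⟩, τ), rfl⟩
  rw [diffSum_pair, ← tri_eq, brauer_diff hN s v hv0, zero_mul, tri_eq] at h1
  exact h1

lemma rho_of_rel (h : PairRelations p f j θ Z) {N : ℕ}
    (hN : ∀ k, 1 ≤ k → k ≤ d → ((p ^ f) ^ k - 1) ∣ N) : RhoPoly N Z := by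
  intro τ σ μ
  have h1 := poly_of_rel h hN τ μ {σ} (v := rhoAt d σ) (rhoAt_anti σ) (rhoAt_supp σ)
  rwa [Finset.card_singleton, one_mul] at h1

/-- **Reduction to deep Hodge types, relation form.** -/
theorem pairRel_iff_deep (θ : T → (Cls p f d → WittVector p (AlgebraicClosure (ZMod p))))
    {N : ℕ} (hN0 : 0 < N) (hN : ∀ k, 1 ≤ k → k ≤ d → ((p ^ f) ^ k - 1) ∣ N) (C : ℕ) :
    PairRelations p f j θ Z ↔ DeepRelations p f j C θ Z ∧ RhoPoly N Z := by
  constructor
  · intro h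
    refine ⟨?_, rho_of_rel h hN⟩
    unfold PairRelations at h
    unfold DeepRelations
    rw [rel_iff_graph] at h ⊢
    intro z hz
    refine h z ?_
    have hle : GrI (fun x : {μ : Reg S d // Deep C μ.1} × T => brauer p f j x.1.1.1 * θ x.2)
          (fun x : {μ : Reg S d // Deep C μ.1} × T => Z x.2 x.1.1.1)
        ≤ GrI (fun x : Reg S d × T => brauer p f j x.1.1 * θ x.2)
          (fun x : Reg S d × T => Z x.2 x.1.1) := by
      conv_lhs => unfold GrI
      rw [Submodule.span_le]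
      rintro _ ⟨x, rfl⟩
      exact Submodule.subset_span ⟨(x.1.1, x.2), rfl⟩
    exact hle hz
  · rintro ⟨h1, h2⟩
    unfold PairRelations
    unfold DeepRelations at h1
    rw [rel_iff_graph] at h1 ⊢
    intro z hz
    refine h1 z ?_
    have hle : GrI (fun x : Reg S d × T => brauer p f j x.1.1 * θ x.2)
          (fun x : Reg S d × T => Z x.2 x.1.1)
        ≤ GrI (fun x : {μ : Reg S d // Deep C μ.1} × T => brauer p f j x.1.1.1 * θ x.2)
          (fun x : {μ : Reg S d // Deep C μ.1} × T => Z x.2 x.1.1.1) := by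
      conv_lhs => unfold GrI
      rw [Submodule.span_le]
      rintro _ ⟨x, rfl⟩
      refine mem_of_deep (fun μ => (brauer p f j μ * θ x.2, Z x.2 μ)) _
        (n := d * (d - 1) / 2 + 1) (C := C) hN0 ?_ ?_ x.1
      · intro σ μ
        rw [diffSum_pair, brauer_rho hN, h2 x.2 σ μ, zero_mul]
        rfl
      · intro μ hμ
        exact Submodule.subset_span ⟨(⟨μ, hμ⟩, x.2), rfl⟩
    exact hle hz

/-- **Reduction to deep Hodge types, with given cycles.** -/
theorem deep_iff (D : PairData p f d j T W) {N : ℕ} (hN0 : 0 < N)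
    (hN : ∀ k, 1 ≤ k → k ≤ d → ((p ^ f) ^ k - 1) ∣ N) (C : ℕ) (Y : W → M) :
    (∀ (μ : Reg S d) (τ : T), Z τ μ.1 = ∑ k, D.n k μ τ • Y k) ↔
      (∀ μ : Reg S d, Deep C μ.1 → ∀ τ : T, Z τ μ.1 = ∑ k, D.n k μ τ • Y k) ∧
        RhoPoly N Z := by
  constructor
  · intro h
    refine ⟨fun μ _ τ => h μ τ, fun τ σ μ => ?_⟩
    have h1 : diffSum (fun μ => (brauer p f j μ * D.θ τ, Z τ μ)) (d * (d - 1) / 2 + 1) N
        (rhoAt d σ) μ.1 ∈ GrG D.β Y := by
      unfold diffSum
      refine Submodule.sum_mem _ fun k _ => Submodule.smul_mem _ _ ?_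
      exact (grG_reg D Y ⟨shiftBy μ.1 N (rhoAt d σ) k, shift_reg μ N (rhoAt_anti σ) k⟩ τ _).2
        (h ⟨shiftBy μ.1 N (rhoAt d σ) k, shift_reg μ N (rhoAt_anti σ) k⟩ τ)
    rw [diffSum_pair, brauer_rho hN, zero_mul] at h1
    exact grG_unique D.β Y D.indep h1 (Submodule.zero_mem _)
  · rintro ⟨h1, h2⟩ μ τ
    refine (grG_reg D Y μ τ _).1 ?_
    refine mem_of_deep (fun μ => (brauer p f j μ * D.θ τ, Z τ μ)) (GrG D.β Y)
      (n := d * (d - 1) / 2 + 1) (C := C) hN0 ?_ ?_ μ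
    · intro σ μ
      rw [diffSum_pair, brauer_rho hN, h2 τ σ μ, zero_mul]
      rfl
    · intro μ hμ
      exact (grG_reg D Y μ τ _).2 (h1 μ hμ τ)

end

end U566.BM
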