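import Pool.Agent.U566.BMRel
import Pool.Agent.U566.BMDeep

/-! Alternating sums of Weyl characters over the Weyl group. -/

namespace U566.BM

open MvPolynomial Finset

set_option linter.unusedSectionVars false

noncomputable section

variable {d : ℕ}

/-- orbit sum `∑_w ∏_i y_i^(ν (w i))` -/
def orb (ν : Fin d → ℕ) : MvPolynomial (Fin d) ℤ :=
  ∑ w : Equiv.Perm (Fin d), ∏ i, (X i) ^ (ν (w i))

/-- `ν + N ρ∘w` -/
def rhoAdd (N : ℕ) (ν : Fin d → ℕ) (w : Equiv.Perm (Fin d)) : Fin d → ℕ :=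
  fun i => ν i + N * ((w i).rev : ℕ)

lemma alt_sum (N : ℕ) (ν : Fin d → ℕ) :
    ∑ w : Equiv.Perm (Fin d), (Equiv.Perm.sign w : ℤ) • alt (rhoAdd N ν w)
      = orb ν * alt (fun i : Fin d => N * (i.rev : ℕ)) := by
  simp only [alt_eq, orb, rhoAdd]
  rw [Finset.sum_mul]
  simp only [Finset.smul_sum, Finset.mul_sum]
  rw [Finset.sum_comm]
  refine Finset.sum_congr rfl fun v _ => ?_
  refine Finset.sum_bij' (fun w _ => w * v) (fun u _ => u * v⁻¹) (by simp) (by simp)
    (by intro a _; simp) (by intro a _; simp) ?_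
  intro w _
  rw [smul_smul, Equiv.Perm.sign_mul, mul_smul_comm]
  congr 1
  rw [Equiv.Perm.coe_mul]
  simp only [pow_add, Finset.prod_mul_distrib, Function.comp]

lemma schur_sum (N : ℕ) (ν : Fin d → ℕ) :
    ∑ w : Equiv.Perm (Fin d), (Equiv.Perm.sign w : ℤ) • schur (rhoAdd N ν w)
      = orb ν * schur (fun i : Fin d => N * (i.rev : ℕ)) := by
  apply mul_right_cancel₀ (vdm_ne_zero (d := d))
  rw [Finset.sum_mul, mul_assoc, schur_mul_vdm, ← alt_sum]
  refine Finset.sum_congr rfl fun w _ => ?_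
  rw [smul_mul_assoc, schur_mul_vdm]

/-- `∏_{i<j} ∑_{k<N} y_j^k y_i^(N-1-k)` -/
def stN (N d : ℕ) : MvPolynomial (Fin d) ℤ :=
  ∏ i : Fin d, ∏ l ∈ Finset.Ioi i, ∑ k ∈ range N, (X l) ^ k * (X i) ^ (N - 1 - k)

lemma alt_rho (N : ℕ) : alt (fun i : Fin d => N * (i.rev : ℕ))
    = (Equiv.Perm.sign (Fin.revPerm (n := d)) : ℤ)
      • ∏ i : Fin d, ∏ l ∈ Finset.Ioi i, ((X l : MvPolynomial (Fin d) ℤ) ^ N - (X i) ^ N) := by
  have h : alt (fun i : Fin d => N * (i.rev : ℕ))
      = ((Matrix.vandermonde (fun i : Fin d => (X i : MvPolynomial (Fin d) ℤ) ^ N)).transpose.submatrix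
      Fin.revPerm id).det := by
    rw [alt]; congr 1
    ext1 i k
    simp [Matrix.vandermonde, pow_mul]
  rw [h, Matrix.det_permute, Matrix.det_transpose, Matrix.det_vandermonde, zsmul_eq_mul]

lemma schur_rho (N : ℕ) : schur (fun i : Fin d => N * (i.rev : ℕ)) = stN N d := by
  apply mul_right_cancel₀ (vdm_ne_zero (d := d))
  rw [schur_mul_vdm, alt_rho]
  have h1 : vdm d = (Equiv.Perm.sign (Fin.revPerm (n := d)) : ℤ)
      • ∏ i : Fin d, ∏ l ∈ Finset.Ioi i, ((X l : MvPolynomial (Fin d) ℤ) - (X i)) := by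
    have := alt_rho (d := d) 1
    simp only [one_mul, pow_one] at this
    exact this
  rw [h1, mul_smul_comm, stN, ← Finset.prod_mul_distrib]
  congr 1
  refine Finset.prod_congr rfl fun i _ => ?_
  rw [← Finset.prod_mul_distrib]
  refine Finset.prod_congr rfl fun l _ => ?_
  rw [Commute.geom_sum₂_mul (Commute.all _ _)]

section eval

variable {R : Type*} [CommRing R]

/-- the orbit sum at units, integral exponents -/
def orbU (t : Fin d → Rˣ) (μ : Fin d → ℤ) : R :=
  ∑ w : Equiv.Perm (Fin d), ((∏ i, (t i) ^ (μ (w i)) : Rˣ) : R)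

/-- `μ + N ρ∘w` for integral tuples -/
def rhoAddZ (N : ℕ) (μ : Fin d → ℤ) (w : Equiv.Perm (Fin d)) : Fin d → ℤ :=
  fun i => μ i + (N : ℤ) * ((w i).rev : ℕ)

lemma weyl_sum (N : ℕ) (t : Fin d → Rˣ) (μ : Fin d → ℤ) :
    ∑ w : Equiv.Perm (Fin d), (Equiv.Perm.sign w : ℤ) • weylChar t (rhoAddZ N μ w)
      = orbU t μ * aeval (fun k => (t k : R)) (stN N d) := by
  set A := ∑ i, (μ i).natAbs with hA
  have hA' : ∀ i, 0 ≤ μ i + A := by
    intro i
    have h1 : (μ i).natAbs ≤ A :=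
      Finset.single_le_sum (f := fun i => (μ i).natAbs) (fun _ _ => Nat.zero_le _)
        (Finset.mem_univ i)
    omega
  have h1 : ∀ w : Equiv.Perm (Fin d), weylChar t (rhoAddZ N μ w)
      = (((∏ k, t k)⁻¹ ^ A : Rˣ) : R) * aeval (fun k => (t k : R))
        (schur (rhoAdd N (fun i => (μ i + (A : ℤ)).toNat) w)) := by
    intro w
    rw [weylChar_eq t _ A]
    · congr 3
      funext i
      have := hA' i
      simp only [rhoAddZ, rhoAdd]
      have h2 : (0 : ℤ) ≤ (N : ℤ) * ((w i).rev : ℕ) := by positivity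
      have h3 : ((N * ((w i).rev : ℕ) : ℕ) : ℤ) = (N : ℤ) * ((w i).rev : ℕ) := by push_cast; rfl
      omega
    · intro i
      have := hA' i
      unfold rhoAddZ
      have h2 : (0 : ℤ) ≤ (N : ℤ) * ((w i).rev : ℕ) := by positivity
      omega
  simp only [h1, ← mul_smul_comm]
  rw [← Finset.mul_sum]
  simp only [← map_zsmul]
  rw [← map_sum, schur_sum, schur_rho, map_mul, ← mul_assoc]
  congr 1
  unfold orbU orb
  rw [map_sum, Finset.mul_sum]
  refine Finset.sum_congr rfl fun w _ => ?_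
  rw [map_prod]
  simp only [map_pow, aeval_X]
  have h4 : ∀ i, (t i : R) ^ (μ (w i) + (A : ℤ)).toNat = ((t i ^ (μ (w i)) * (t i) ^ A : Rˣ) : R) := by
    intro i
    have := hA' (w i)
    rw [← zpow_natCast (t i) A, ← zpow_add, ← Units.val_pow_eq_pow_val]
    congr 1
    rw [← zpow_natCast]
    congr 1
    omega
  simp only [h4]
  rw [← Units.coe_prod, ← Units.val_mul]
  congr 1
  rw [Finset.prod_mul_distrib, Finset.prod_pow, inv_pow]
  rw [mul_comm, mul_assoc, mul_inv_cancel, mul_one]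

lemma stN_zero [IsDomain R] (N : ℕ) (t : Fin d → Rˣ) (ht : ∀ i, t i ^ N = 1) {i l : Fin d}
    (h : t i ≠ t l) : aeval (fun k => (t k : R)) (stN N d) = 0 := by
  have key : ∀ a b : Fin d, t b ≠ t a →
      ∑ k ∈ range N, (t b : R) ^ k * (t a : R) ^ (N - 1 - k) = 0 := by
    intro a b hab
    have h1 := Commute.geom_sum₂_mul (Commute.all (t b : R) (t a : R)) N
    have h2 : ∀ i, (t i : R) ^ N = 1 := by
      intro i
      have := ht i
      rw [← Units.val_pow_eq_pow_val, this, Units.val_one]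
    rw [h2, h2, sub_self] at h1
    rcases mul_eq_zero.1 h1 with h3 | h3
    · exact h3
    · exact absurd (Units.ext (sub_eq_zero.1 h3)) hab
  rw [stN, map_prod]
  rcases lt_or_gt_of_ne (fun e => h (by rw [e]) : i ≠ l) with hl | hl
  · refine Finset.prod_eq_zero (Finset.mem_univ i) ?_
    rw [map_prod]
    refine Finset.prod_eq_zero (Finset.mem_Ioi.2 hl) ?_
    rw [map_sum]
    simp only [map_mul, map_pow, aeval_X]
    exact key i l (Ne.symm h)
  · refine Finset.prod_eq_zero (Finset.mem_univ l) ?_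
    rw [map_prod]
    refine Finset.prod_eq_zero (Finset.mem_Ioi.2 hl) ?_
    rw [map_sum]
    simp only [map_mul, map_pow, aeval_X]
    exact key l i h

lemma prod_zpow_sum {G ι : Type*} [CommGroup G] (s : Finset ι) (c : G) (f : ι → ℤ) :
    ∏ i ∈ s, c ^ f i = c ^ ∑ i ∈ s, f i := by
  classical
  induction s using Finset.induction_on with
  | empty => simp
  | insert a s ha ih => rw [prod_insert ha, sum_insert ha, zpow_add, ih]

lemma orbU_scalar (c : Rˣ) (μ : Fin d → ℤ) :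
    orbU (fun _ => c) μ = (d.factorial : R) * ((c ^ (∑ i, μ i) : Rˣ) : R) := by
  unfold orbU
  have h1 : ∀ w : Equiv.Perm (Fin d), ((∏ i, c ^ (μ (w i)) : Rˣ) : R)
      = ((c ^ (∑ i, μ i) : Rˣ) : R) := by
    intro w
    rw [prod_zpow_sum, Equiv.sum_comp w μ]
  simp only [h1]
  rw [Finset.sum_const, Finset.card_univ, Fintype.card_perm, Fintype.card_fin, nsmul_eq_mul]

end eval

end

end U566.BM
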