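import Pool.Agent.U566.BMOneEq2

/-! The case of `ℚ_p` with inertial types: one explicit equation for each pair. -/

namespace U566.BM

open MvPolynomial Finset

set_option linter.unusedSectionVars false

noncomputable section

variable {n : ℕ} {p : ℕ} [Fact p.Prime] {T W : Type} [Fintype W]

/-- Serre weights and inertial types of `GL_n` over `ℚ_p`. -/
structure QpTypes (p : ℕ) [Fact p.Prime] (n : ℕ) (T W : Type) [Fintype W] where
  /-- Brauer characters of the reductions of the `σ(τ)` -/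
  θ : T → (Cls p 1 n → WittVector p (AlgebraicClosure (ZMod p)))
  /-- Brauer characters of the Serre weights -/
  β : W → (Cls p 1 n → WittVector p (AlgebraicClosure (ZMod p)))
  /-- multiplicities `n_{λ,τ}(V)` -/
  mlt : W → Dom n → T → ℤ
  /-- the trivial inertial type -/
  t0 : T
  /-- `σ(t0)` is the trivial representation -/
  triv : θ t0 = 1
  /-- Brauer: irreducible Brauer characters are linearly independent -/
  indep : LinearIndependent ℤ β
  /-- definition of the multiplicities -/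
  mult : ∀ (h : Dom n) (τ : T), weylFun p h.1 * θ τ = ∑ k, mlt k h τ • β k
  /-- Steinberg: the reductions of the algebraic representations span the Grothendieck group -/
  span : ∀ k, β k ∈ Submodule.span ℤ (Set.range fun h : Dom n => weylFun p h.1)

/-- the crystalline part -/
def QpTypes.crys (D : QpTypes p n T W) : QpWeights p n W where
  β := D.β
  mlt := fun k h => D.mlt k h D.t0
  indep := D.indep
  mult := fun h => by rw [← D.mult h D.t0, D.triv, mul_one]
  span := D.span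

/-- Normalised restricted Hodge–Tate weights: all gaps are at most `p` and the last weight lies in
`{0, …, p - 2}`.  There are `p^(n-1) (p-1)` of them. -/
abbrev NDom (p n : ℕ) : Type :=
  {h : Dom n // GapsLe p h.1 ∧ ∀ i : Fin n, (i : ℕ) + 1 = n → 0 ≤ h.1 i ∧ h.1 i + 1 < p}

lemma bd_last {i : Fin n} (hi : (i : ℕ) + 1 = n) : bd n (p ^ 1) i = p - 1 := by
  unfold bd
  rw [if_pos hi, pow_one]

lemma bd_mid {i : Fin n} (hi : ¬ (i : ℕ) + 1 = n) : bd n (p ^ 1) i = p := by
  unfold bd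
  rw [if_neg hi, pow_one]

lemma gfun_of (b : Idx n p) (i : Fin n) :
    gfun b i = ((b i : ℕ) : ℤ) + (if (i : ℕ) + 1 = n then 0 else 1) := by
  unfold gfun
  rw [dif_pos i.2]

lemma hb_succ (b : Idx n p) (i : Fin n) :
    hb b () i = gfun b i + ∑ l ∈ Finset.Ico ((i : ℕ) + 1) n, gfun b l := by
  unfold hb
  rw [Finset.sum_eq_sum_Ico_succ_bot i.2]

lemma hb_last (b : Idx n p) (i : Fin n) (hi : (i : ℕ) + 1 = n) :
    hb b () i = ((b i : ℕ) : ℤ) := by
  rw [hb_succ, gfun_of, if_pos hi, hi]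
  simp

lemma hb_gap (b : Idx n p) (i k : Fin n) (hk : (i : ℕ) + 1 = k) :
    hb b () i = hb b () k + ((b i : ℕ) : ℤ) + 1 := by
  have h : ¬ ((i : ℕ) + 1 = n) := by have := k.2; omega
  rw [hb_succ, gfun_of, if_neg h, hk]
  unfold hb
  ring

lemma hb_anti (b : Idx n p) : StrictAnti (hb b ()) := by
  intro a c hac
  have hac' : (a : ℕ) < c := hac
  have h1 : hb b () a = ∑ l ∈ Finset.Ico (a : ℕ) c, gfun b l + hb b () c := by
    unfold hb
    rw [Finset.sum_Ico_consecutive _ hac'.le c.2.le]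
  have h2 : (0 : ℤ) < ∑ l ∈ Finset.Ico (a : ℕ) c, gfun b l := by
    refine Finset.sum_pos (fun l hl => ?_) ⟨a, Finset.mem_Ico.2 ⟨le_rfl, hac'⟩⟩
    have hl2 := (Finset.mem_Ico.1 hl).2
    have hc := c.2
    have hl3 : l < n := by omega
    have := gfun_of b ⟨l, hl3⟩
    have h4 : ¬ (l + 1 = n) := by omega
    simp only [h4, if_false] at this
    rw [this]
    positivity
  rw [h1]
  linarith

/-- the normalised restricted tuple with index `b` -/
def nd (b : Idx n p) : NDom p n :=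
  ⟨⟨hb b (), hb_anti b⟩, by
    have hp : p.Prime := Fact.out
    constructor
    · intro i k hk
      have h : ¬ ((i : ℕ) + 1 = n) := by have := k.2; omega
      have h1 := hb_gap b i k hk
      have h2 := lt_of_lt_of_eq (b i).2 (bd_mid h)
      change hb b () i - hb b () k ≤ p
      omega
    · intro i hi
      have h1 := hb_last b i hi
      have h2 := lt_of_lt_of_eq (b i).2 (bd_last hi)
      change 0 ≤ hb b () i ∧ hb b () i + 1 < p
      omega⟩

lemma nd_surj (h : NDom p n) : ∃ b : Idx n p, hb b () = h.1.1 := by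
  have hp : p.Prime := Fact.out
  have hp2 := hp.two_le
  have hr : Restricted p jQ sQ (fun _ : Unit => h.1.1) := by
    intro σ a c hac
    rw [show gapBound p jQ sQ σ = p from gapBoundQ]
    exact h.2.1 a c hac
  obtain ⟨b, m, hb'⟩ := restricted_norm (p := p) ⟨fun _ => h.1.1, fun _ => h.1.2⟩ hr
  have h1 : ∀ i, h.1.1 i = hb b () i + ((p ^ 1 - 1 : ℕ) : ℤ) * m := fun i =>
    congrFun (congrFun hb' ()) i
  refine ⟨b, ?_⟩
  by_cases hn : n = 0
  · subst hn
    funext i
    exact i.elim0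
  have hn' : n - 1 < n := by omega
  have hl : ((⟨n - 1, hn'⟩ : Fin n) : ℕ) + 1 = n := by simp; omega
  have h2 := h1 ⟨n - 1, hn'⟩
  have h3 := h.2.2 ⟨n - 1, hn'⟩ hl
  have h4 := hb_last b ⟨n - 1, hn'⟩ hl
  have h5 := lt_of_lt_of_eq (b ⟨n - 1, hn'⟩).2 (bd_last hl)
  have h6 : m = 0 := by
    have hpp : ((p ^ 1 - 1 : ℕ) : ℤ) = ((p - 1 : ℕ) : ℤ) := by rw [pow_one]
    rw [h4, hpp] at h2
    by_contra hm
    rcases lt_or_gt_of_ne hm with hm | hm
    · have : ((p - 1 : ℕ) : ℤ) * m ≤ ((p - 1 : ℕ) : ℤ) * (-1) :=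
        mul_le_mul_of_nonneg_left (by omega) (by omega)
      omega
    · have : ((p - 1 : ℕ) : ℤ) * 1 ≤ ((p - 1 : ℕ) : ℤ) * m :=
        mul_le_mul_of_nonneg_left (by omega) (by omega)
      omega
  funext i
  rw [h1 i, h6]
  ring

lemma indep_nd : LinearIndependent ℤ (fun h : NDom p n => weylFun p h.1.1) := by
  choose g hg using nd_surj (p := p) (n := n)
  have hinj : Function.Injective g := by
    intro h h' e
    have h1 := hg h
    rw [e, hg h'] at h1
    exact Subtype.ext (Subtype.ext h1.symm)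
  have h := (indep_hb (p := p) (n := n)).comp g hinj
  have e : (fun b : Idx n p => brauer p 1 jQ (hb b)) ∘ g
      = fun h : NDom p n => weylFun p h.1.1 := by
    funext h
    simp only [Function.comp]
    rw [brauer_eq_weylFun, hg]
  rwa [e] at h

lemma span_nd (μ : Wt Unit n) : brauer p 1 jQ μ
    ∈ Submodule.span ℤ (Set.range fun h : NDom p n => weylFun p h.1.1) := by
  have hle : Submodule.span ℤ (Set.range fun b : Idx n p => brauer p 1 jQ (hb b))
      ≤ Submodule.span ℤ (Set.range fun h : NDom p n => weylFun p h.1.1) := by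
    rw [Submodule.span_le]
    rintro _ ⟨b, rfl⟩
    have e : brauer p 1 jQ (hb b) = weylFun p (nd b).1.1 := brauer_eq_weylFun (hb b)
    have e2 : weylFun p (nd b).1.1
        ∈ Submodule.span ℤ (Set.range fun h : NDom p n => weylFun p h.1.1) :=
      Submodule.subset_span ⟨nd b, rfl⟩
    rw [← e] at e2
    exact e2
  exact hle (span_hb (p := p) μ)

/-- exactly one expression by the normalised restricted reductions -/
lemma exists_unique_coeff {x : Cls p 1 n → WittVector p (AlgebraicClosure (ZMod p))}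
    (h : x ∈ Submodule.span ℤ (Set.range fun h : Dom n => weylFun p h.1)) :
    ∃! c : NDom p n →₀ ℤ,
      x = Finsupp.linearCombination ℤ (fun h : NDom p n => weylFun p h.1.1) c := by
  have hle : Submodule.span ℤ (Set.range fun h : Dom n => weylFun p h.1)
      ≤ Submodule.span ℤ (Set.range fun h : NDom p n => weylFun p h.1.1) := by
    rw [Submodule.span_le]
    rintro _ ⟨h, rfl⟩
    have := span_nd (p := p) (fun _ => h.1)
    rwa [brauer_eq_weylFun] at this
  have h1 := hle h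
  rw [Finsupp.mem_span_range_iff_exists_finsupp] at h1
  obtain ⟨c, hc⟩ := h1
  have hc' : x = Finsupp.linearCombination ℤ (fun h : NDom p n => weylFun p h.1.1) c := by
    rw [Finsupp.linearCombination_apply]; exact hc.symm
  refine ⟨c, hc', fun c' h' => ?_⟩
  exact indep_nd (h'.symm.trans hc')

lemma type_mem (D : QpTypes p n T W) (h : Dom n) (τ : T) : weylFun p h.1 * D.θ τ
    ∈ Submodule.span ℤ (Set.range fun h : Dom n => weylFun p h.1) := by
  rw [D.mult h τ]
  exact Submodule.sum_mem _ fun k _ => Submodule.smul_mem _ _ (D.span k)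

variable {M : Type*} [AddCommGroup M]

/-- The change of type equation at a normalised restricted tuple `h` and an inertial type `τ`: the
reduction for `(h, τ)` is an integral combination (exactly one, see the theorem) of the reductions
for `(h', trivial type)`, `h'` normalised restricted, and `Z` satisfies the same relation. -/
def TypeEqQ (D : QpTypes p n T W) (Z : T → (Fin n → ℤ) → M) : Prop :=
  ∀ (τ : T) (h : NDom p n) (c : NDom p n →₀ ℤ),
    weylFun p h.1.1 * D.θ τ
      = Finsupp.linearCombination ℤ (fun h' : NDom p n => weylFun p h'.1.1) c →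
    Z τ h.1.1 = Finsupp.linearCombination ℤ (fun h' : NDom p n => Z D.t0 h'.1.1) c

/-- `y` is the value predicted for the Serre weight `k`: the combination of the crystalline
values at normalised restricted tuples which expresses the Brauer character of `k`. -/
def PredictedQ (D : QpTypes p n T W) (Z : T → (Fin n → ℤ) → M) (k : W) (y : M) : Prop :=
  ∃ c : NDom p n →₀ ℤ,
    D.β k = Finsupp.linearCombination ℤ (fun h' : NDom p n => weylFun p h'.1.1) c ∧
      y = Finsupp.linearCombination ℤ (fun h' : NDom p n => Z D.t0 h'.1.1) c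

variable (D : QpTypes p n T W) {Z : T → (Fin n → ℤ) → M}

lemma predictedQ_exists (k : W) : ∃! y, PredictedQ D Z k y := by
  obtain ⟨c, hc, hu⟩ := exists_unique_coeff (D.span k)
  refine ⟨_, ⟨c, hc, rfl⟩, ?_⟩
  rintro y ⟨c', hc', rfl⟩
  rw [hu c' hc']

lemma memQ [IsAddTorsionFree M] (hZ : ∀ τ, SignRule (Z τ)) (Y : W → M)
    (hY : ∀ (h : Dom n) (τ : T), Z τ h.1 = ∑ k, D.mlt k h τ • Y k) (τ : T) (μ : Wt Unit n) :
    (brauer p 1 jQ μ * D.θ τ, liftQ (Z τ) μ) ∈ GrG D.β Y := by
  obtain ⟨ε, ν, h1, h2⟩ := exists_reg (p := p) (f := 1) (j := jQ) (isAlt_lift (hZ τ)) μ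
  have h0 : (weylFun p (ν.1 ()) * D.θ τ, Z τ (ν.1 ())) ∈ GrG D.β Y :=
    (grG_iff D.β Y _ _).2 ⟨fun k => D.mlt k ⟨ν.1 (), ν.2 ()⟩ τ, D.mult ⟨ν.1 (), ν.2 ()⟩ τ,
      hY ⟨ν.1 (), ν.2 ()⟩ τ⟩
  have h3 := Submodule.smul_mem _ ε h0
  rw [h1, h2, smul_mul_assoc, brauer_eq_weylFun]
  exact h3

lemma memQ0 [IsAddTorsionFree M] (hZ : ∀ τ, SignRule (Z τ)) (Y : W → M)
    (hY : ∀ (h : Dom n) (τ : T), Z τ h.1 = ∑ k, D.mlt k h τ • Y k) (h : Fin n → ℤ) :
    (weylFun p h, Z D.t0 h) ∈ GrG D.β Y := by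
  have := memQ D hZ Y hY D.t0 (fun _ => h)
  rw [D.triv, mul_one, brauer_eq_weylFun] at this
  exact this

lemma twistQ_of [IsAddTorsionFree M] (hZ : ∀ τ, SignRule (Z τ)) (Y : W → M)
    (hY : ∀ (h : Dom n) (τ : T), Z τ h.1 = ∑ k, D.mlt k h τ • Y k) (τ : T) :
    TwistQ p (Z τ) := by
  rw [twQ]
  intro μ
  have h1 := memQ D hZ Y hY τ (bump μ () univ ((p ^ 1 - 1 : ℕ) : ℤ))
  rw [brauer_tw] at h1
  exact grG_unique D.β Y D.indep h1 (memQ D hZ Y hY τ μ)

lemma eqAtT_of [IsAddTorsionFree M] (hZ : ∀ τ, SignRule (Z τ)) (Y : W → M)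
    (hY : ∀ (h : Dom n) (τ : T), Z τ h.1 = ∑ k, D.mlt k h τ • Y k) (τ : T) (h : Fin n → ℤ)
    (r : ℕ) : EqAt p (Z τ) h r := by
  have key : ∀ (κ : Wt Unit n) (σ : Unit) (r : ℕ) (m : ℤ),
      (eSum (brauer p 1 jQ) κ σ r m * D.θ τ, eSum (liftQ (Z τ)) κ σ r m) ∈ GrG D.β Y := by
    intro κ σ r m
    have : (eSum (brauer p 1 jQ) κ σ r m * D.θ τ, eSum (liftQ (Z τ)) κ σ r m)
        = ∑ I ∈ powersetCard r (univ : Finset (Fin n)),
          (brauer p 1 jQ (bump κ σ I m) * D.θ τ, liftQ (Z τ) (bump κ σ I m)) := by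
      unfold eSum
      ext1
      · rw [Prod.fst_sum, Finset.sum_mul]
      · rw [Prod.snd_sum]
    rw [this]
    exact Submodule.sum_mem _ fun I _ => memQ D hZ Y hY τ _
  have hb := reduce_of_eqs (p := p) (s := sQ) (fun k => Subsingleton.elim _ _)
    (brauer_fibre (p := p) (j := jQ)) brauer_frob (fun _ => h) () r
  have := (reduceQ (p := p) (Z := Z τ) (fun _ => h) r)
  rw [← this]
  unfold ReduceEq at *
  have e1 := key (bump (fun _ => h) () (low n r) (-(gapBound p jQ sQ () : ℤ))) () r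
    (gapBound p jQ sQ () : ℤ)
  have e2 := key (bump (fun _ => h) () (low n r) (-(gapBound p jQ sQ () : ℤ)))
    (target jQ sQ ()) r 1
  rw [hb] at e1
  exact grG_unique D.β Y D.indep e1 e2

/-- the values are forced -/
theorem forcedQ [IsAddTorsionFree M] (hZ : ∀ τ, SignRule (Z τ)) (Y : W → M)
    (hY : ∀ (h : Dom n) (τ : T), Z τ h.1 = ∑ k, D.mlt k h τ • Y k) (k : W) (y : M)
    (hy : PredictedQ D Z k y) : Y k = y := by
  obtain ⟨c, hc, rfl⟩ := hy
  have h1 : (D.β k, Y k) ∈ GrG D.β Y := Submodule.subset_span ⟨k, rfl⟩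
  have h2 := pair_lc (GrG D.β Y) (fun h : NDom p n => memQ0 D hZ Y hY h.1.1) c
  rw [← hc] at h2
  exact grG_unique D.β Y D.indep h1 h2

lemma graphQ [IsAddTorsionFree M] (hZ : ∀ τ, SignRule (Z τ)) (hT : ∀ τ, TwistQ p (Z τ))
    (hE : ∀ τ, OneEq p (Z τ)) (hC : TypeEqQ D Z) (τ : T) (μ : Wt Unit n) :
    (brauer p 1 jQ μ * D.θ τ, liftQ (Z τ) μ) ∈ GrG (fun b : Idx n p => brauer p 1 jQ (hb b))
      (fun b : Idx n p => liftQ (Z D.t0) (hb b)) := by
  have hp : p.Prime := Fact.out
  refine reduce_mem hp.two_le (j := jQ) (s := sQ) (fun k => Subsingleton.elim _ _)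
    (fun μ => (brauer p 1 jQ μ * D.θ τ, liftQ (Z τ) μ)) _ ?_ ?_ ?_ μ
  · apply sort_cases
    · intro μ e
      rw [brauer_alt, isAlt_lift (hZ τ) μ e, smul_mul_assoc]
      rfl
    · intro μ σ i k hik h
      rw [brauer_rep μ σ hik h, alt_rep (isAlt_lift (hZ τ)) μ σ hik h, zero_mul]
      rfl
  · intro ν hν
    obtain ⟨b, m, h⟩ := restricted_norm ν hν
    rw [h, tw_int (X := brauer p 1 jQ) brauer_tw m (hb b),
      tw_int (X := liftQ (Z τ)) (twQ.1 (hT τ)) m (hb b)]
    obtain ⟨c, hc, -⟩ := exists_unique_coeff (type_mem D (nd b).1 τ)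
    have h1 := hC τ (nd b) c hc
    have h2 := pair_lc (GrG (fun b : Idx n p => brauer p 1 jQ (hb b))
      (fun b : Idx n p => liftQ (Z D.t0) (hb b))) (u := fun h' : NDom p n => weylFun p h'.1.1)
      (v := fun h' : NDom p n => Z D.t0 h'.1.1) (fun h' => by
        have := graph_mem (p := p) (hZ D.t0) (hT D.t0) (hE D.t0) (fun _ => h'.1.1)
        rw [brauer_eq_weylFun] at this
        exact this) c
    rw [← hc, ← h1] at h2
    rw [brauer_eq_weylFun]
    exact h2
  · intro ν hν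
    unfold Restricted at hν
    push Not at hν
    obtain ⟨σ, a, b, hab, hg⟩ := hν
    rw [show gapBound p jQ sQ σ = p from gapBoundQ] at hg
    obtain ⟨a', b', hab', hg', he⟩ := hE τ ⟨ν.1 (), ν.2 ()⟩ ⟨a, b, hab, hg⟩
    refine ⟨(), a', b', hab', by rw [gapBoundQ]; exact hg', ?_⟩
    have h1 := reduce_of_eqs (p := p) (s := sQ) (fun k => Subsingleton.elim _ _)
      (brauer_fibre (p := p) (j := jQ)) brauer_frob ν.1 () (b' : ℕ)
    have h2 := (reduceQ (p := p) (Z := Z τ) ν.1 b').2 he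
    unfold ReduceEq at *
    have key : ∀ (κ : Wt Unit n) (σ : Unit) (r : ℕ) (m : ℤ),
        eSum (fun μ => (brauer p 1 jQ μ * D.θ τ, liftQ (Z τ) μ)) κ σ r m
          = (eSum (brauer p 1 jQ) κ σ r m * D.θ τ, eSum (liftQ (Z τ)) κ σ r m) := by
      intro κ σ r m
      unfold eSum
      ext1
      · rw [Prod.fst_sum, Finset.sum_mul]
      · rw [Prod.snd_sum]
    rw [key, key, h1, h2]

/-- **Main theorem over `ℚ_p`.** -/
theorem typesQ_iff [IsAddTorsionFree M] (hZ : ∀ τ, SignRule (Z τ)) (P : Set M) :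
    (∃ Y : W → M, (∀ k, Y k ∈ P) ∧
      ∀ (h : Dom n) (τ : T), Z τ h.1 = ∑ k, D.mlt k h τ • Y k) ↔
      (∀ τ, TwistQ p (Z τ)) ∧ (∀ τ, OneEq p (Z τ)) ∧ TypeEqQ D Z ∧
        ∀ k y, PredictedQ D Z k y → y ∈ P := by
  constructor
  · rintro ⟨Y, hP, hY⟩
    refine ⟨twistQ_of D hZ Y hY, ?_, ?_, ?_⟩
    · rintro τ h ⟨a, b, hab, hg⟩
      exact ⟨a, b, hab, hg, eqAtT_of D hZ Y hY τ h.1 b⟩
    · intro τ h c hc
      have h1 := memQ D hZ Y hY τ (fun _ => h.1.1)
      rw [brauer_eq_weylFun] at h1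
      have h2 := pair_lc (GrG D.β Y) (fun h : NDom p n => memQ0 D hZ Y hY h.1.1) c
      rw [← hc] at h2
      exact grG_unique D.β Y D.indep h1 h2
    · intro k y hy
      rw [← forcedQ D hZ Y hY k y hy]
      exact hP k
  · rintro ⟨hT, hE, hC, hP⟩
    have hG := graphQ D hZ hT hE hC
    choose c hc using fun k => (exists_unique_coeff (D.span k)).exists
    have hall : ∀ h : NDom p n, (weylFun p h.1.1, Z D.t0 h.1.1)
        ∈ GrG (fun b : Idx n p => brauer p 1 jQ (hb b))
          (fun b : Idx n p => liftQ (Z D.t0) (hb b)) := by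
      intro h
      have := hG D.t0 (fun _ => h.1.1)
      rw [D.triv, mul_one, brauer_eq_weylFun] at this
      exact this
    refine ⟨fun k => Finsupp.linearCombination ℤ (fun h' : NDom p n => Z D.t0 h'.1.1) (c k),
      fun k => hP k _ ⟨c k, hc k, rfl⟩, fun h τ => ?_⟩
    have h1 : ∀ k, (D.β k,
        Finsupp.linearCombination ℤ (fun h' : NDom p n => Z D.t0 h'.1.1) (c k))
        ∈ GrG (fun b : Idx n p => brauer p 1 jQ (hb b))
          (fun b : Idx n p => liftQ (Z D.t0) (hb b)) := by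
      intro k
      have := pair_lc _ hall (c k)
      rw [← hc k] at this
      exact this
    have h2 := sum_pair _ h1 (fun k => D.mlt k h τ)
    rw [← D.mult h τ] at h2
    have h3 := hG τ (fun _ => h.1)
    rw [brauer_eq_weylFun] at h3
    exact grG_unique _ _ indep_hb h3 h2

end

end U566.BM
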