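import Pool.Agent.U566.BMRel
import Pool.Agent.U566.BMTypesQ

/-! The Breuil–Mézard relations for pairs over `ℚ_p`, without any assumption on the
representation side. -/

namespace U566.BM

open MvPolynomial Finset

set_option linter.unusedSectionVars false

noncomputable section

variable {n : ℕ} {p : ℕ} [Fact p.Prime] {T : Type} {M : Type*} [AddCommGroup M]

/-- Breuil–Mézard in relation form over `ℚ_p`: every integral linear relation between the
reductions mod `p` for pairs `(h, τ)` holds between the `Z τ h`. -/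
def PairRelationsQ (p : ℕ) [Fact p.Prime] {n : ℕ}
    (θ : T → (Cls p 1 n → WittVector p (AlgebraicClosure (ZMod p))))
    (Z : T → (Fin n → ℤ) → M) : Prop :=
  ∀ c : (Dom n × T) →₀ ℤ,
    Finsupp.linearCombination ℤ (fun x : Dom n × T => weylFun p x.1.1 * θ x.2) c = 0 →
      Finsupp.linearCombination ℤ (fun x : Dom n × T => Z x.2 x.1.1) c = 0

/-- The same relations between pairs `(h, τ)` with `h` normalised restricted. -/
def BaseRelationsQ (p : ℕ) [Fact p.Prime] {n : ℕ}
    (θ : T → (Cls p 1 n → WittVector p (AlgebraicClosure (ZMod p))))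
    (Z : T → (Fin n → ℤ) → M) : Prop :=
  ∀ c : (NDom p n × T) →₀ ℤ,
    Finsupp.linearCombination ℤ (fun x : NDom p n × T => weylFun p x.1.1.1 * θ x.2) c = 0 →
      Finsupp.linearCombination ℤ (fun x : NDom p n × T => Z x.2 x.1.1.1) c = 0

variable {θ : T → (Cls p 1 n → WittVector p (AlgebraicClosure (ZMod p)))}
  {Z : T → (Fin n → ℤ) → M}

lemma eSum_pairQ (τ : T) (μ : Wt Unit n) (σ : Unit) (r : ℕ) (k : ℤ) :
    eSum (fun μ => (brauer p 1 jQ μ * θ τ, liftQ (Z τ) μ)) μ σ r k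
      = (eSum (brauer p 1 jQ) μ σ r k * θ τ, eSum (liftQ (Z τ)) μ σ r k) := by
  unfold eSum
  ext1
  · rw [Prod.fst_sum, Finset.sum_mul]
  · rw [Prod.snd_sum]

lemma graph_baseQ [IsAddTorsionFree M] (hZ : ∀ τ, SignRule (Z τ))
    (hT : ∀ τ, TwistQ p (Z τ)) (hE : ∀ τ, OneEq p (Z τ)) (τ : T) (μ : Wt Unit n) :
    (brauer p 1 jQ μ * θ τ, liftQ (Z τ) μ)
      ∈ GrI (fun x : NDom p n × T => weylFun p x.1.1.1 * θ x.2)
          (fun x : NDom p n × T => Z x.2 x.1.1.1) := by
  have hp : p.Prime := Fact.out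
  refine reduce_mem hp.two_le (j := jQ) (s := sQ) (fun k => Subsingleton.elim _ _)
    (fun μ => (brauer p 1 jQ μ * θ τ, liftQ (Z τ) μ)) _ ?_ ?_ ?_ μ
  · apply sort_cases
    · intro μ e
      rw [brauer_alt, isAlt_lift (hZ τ) μ e, smul_mul_assoc]
      rfl
    · intro μ σ i k hik h
      rw [brauer_rep μ σ hik h, alt_rep (isAlt_lift (hZ τ)) μ σ hik h, zero_mul]
      rfl
  · intro ν hν
    obtain ⟨b, m, h⟩ := restricted_norm ν hν
    rw [h, tw_int (X := brauer p 1 jQ) brauer_tw m (hb b),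
      tw_int (X := liftQ (Z τ)) (twQ.1 (hT τ)) m (hb b), brauer_eq_weylFun]
    exact Submodule.subset_span ⟨(nd b, τ), rfl⟩
  · intro ν hν
    unfold Restricted at hν
    push Not at hν
    obtain ⟨σ, a, b, hab, hg⟩ := hν
    rw [show gapBound p jQ sQ σ = p from gapBoundQ] at hg
    obtain ⟨a', b', hab', hg', he⟩ := hE τ ⟨ν.1 (), ν.2 ()⟩ ⟨a, b, hab, hg⟩
    refine ⟨(), a', b', hab', by rw [gapBoundQ]; exact hg', ?_⟩
    have h1 := reduce_of_eqs (p := p) (s := sQ) (fun k => Subsingleton.elim _ _)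
      (brauer_fibre (p := p) (j := jQ)) brauer_frob ν.1 () (b' : ℕ)
    have h2 := (reduceQ (p := p) (Z := Z τ) ν.1 b').2 he
    unfold ReduceEq at *
    rw [eSum_pairQ, eSum_pairQ, h1, h2]

lemma graph_allQ [IsAddTorsionFree M] (hZ : ∀ τ, SignRule (Z τ)) (τ : T) (μ : Wt Unit n) :
    (brauer p 1 jQ μ * θ τ, liftQ (Z τ) μ)
      ∈ GrI (fun x : Dom n × T => weylFun p x.1.1 * θ x.2)
          (fun x : Dom n × T => Z x.2 x.1.1) := by
  obtain ⟨ε, ν, h1, h2⟩ := exists_reg (p := p) (f := 1) (j := jQ) (isAlt_lift (hZ τ)) μ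
  have h3 : (weylFun p (ν.1 ()) * θ τ, Z τ (ν.1 ()))
      ∈ GrI (fun x : Dom n × T => weylFun p x.1.1 * θ x.2)
          (fun x : Dom n × T => Z x.2 x.1.1) :=
    Submodule.subset_span ⟨(⟨ν.1 (), ν.2 ()⟩, τ), rfl⟩
  have h4 := Submodule.smul_mem _ ε h3
  rw [h1, h2, smul_mul_assoc, brauer_eq_weylFun]
  exact h4

/-- **Relation form for pairs over `ℚ_p`, no assumption.** -/
theorem pairRelQ_iff [IsAddTorsionFree M]
    (θ : T → (Cls p 1 n → WittVector p (AlgebraicClosure (ZMod p))))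
    (hZ : ∀ τ, SignRule (Z τ)) :
    PairRelationsQ p θ Z ↔
      (∀ τ, TwistQ p (Z τ)) ∧ (∀ τ, OneEq p (Z τ)) ∧ BaseRelationsQ p θ Z := by
  unfold PairRelationsQ BaseRelationsQ
  rw [rel_iff_graph, rel_iff_graph]
  constructor
  · intro h
    refine ⟨fun τ => ?_, ?_, ?_⟩
    · rw [twQ]
      intro μ
      have h1 := graph_allQ (θ := θ) (p := p) hZ τ (bump μ () univ ((p ^ 1 - 1 : ℕ) : ℤ))
      rw [brauer_tw] at h1
      exact eq_of_graph h h1 (graph_allQ hZ τ μ)
    · rintro τ h' ⟨a, b, hab, hg⟩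
      refine ⟨a, b, hab, hg, ?_⟩
      have hsum : ∀ (μ : Wt Unit n) (σ : Unit) (r : ℕ) (k : ℤ),
          (eSum (brauer p 1 jQ) μ σ r k * θ τ, eSum (liftQ (Z τ)) μ σ r k)
            ∈ GrI (fun x : Dom n × T => weylFun p x.1.1 * θ x.2)
              (fun x : Dom n × T => Z x.2 x.1.1) := by
        intro μ σ r k
        rw [← eSum_pairQ]
        exact Submodule.sum_mem _ fun I _ => graph_allQ hZ τ _
      have hr := reduce_of_eqs (p := p) (s := sQ) (fun k => Subsingleton.elim _ _)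
        (brauer_fibre (p := p) (j := jQ)) brauer_frob (fun _ => h'.1) () (b : ℕ)
      rw [← reduceQ (p := p) (Z := Z τ) (fun _ => h'.1) b]
      unfold ReduceEq at *
      have e1 := hsum (bump (fun _ => h'.1) () (low n b) (-(gapBound p jQ sQ () : ℤ))) () b
        (gapBound p jQ sQ () : ℤ)
      have e2 := hsum (bump (fun _ => h'.1) () (low n b) (-(gapBound p jQ sQ () : ℤ)))
        (target jQ sQ ()) b 1
      rw [hr] at e1
      exact eq_of_graph h e1 e2
    · intro z hz
      refine h z ?_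
      have hle : GrI (fun x : NDom p n × T => weylFun p x.1.1.1 * θ x.2)
          (fun x : NDom p n × T => Z x.2 x.1.1.1)
          ≤ GrI (fun x : Dom n × T => weylFun p x.1.1 * θ x.2)
              (fun x : Dom n × T => Z x.2 x.1.1) := by
        conv_lhs => unfold GrI
        rw [Submodule.span_le]
        rintro _ ⟨x, rfl⟩
        exact Submodule.subset_span ⟨(x.1.1, x.2), rfl⟩
      exact hle hz
  · rintro ⟨hT, hE, hB⟩ z hz
    refine hB z ?_
    have hle : GrI (fun x : Dom n × T => weylFun p x.1.1 * θ x.2)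
          (fun x : Dom n × T => Z x.2 x.1.1)
        ≤ GrI (fun x : NDom p n × T => weylFun p x.1.1.1 * θ x.2)
          (fun x : NDom p n × T => Z x.2 x.1.1.1) := by
      conv_lhs => unfold GrI
      rw [Submodule.span_le]
      rintro _ ⟨x, rfl⟩
      have h1 := graph_baseQ (θ := θ) hZ hT hE x.2 (fun _ => x.1.1)
      rw [brauer_eq_weylFun] at h1
      exact h1
    exact hle hz

end

end U566.BM
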