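import Pool.Agent.U566.BMEqui3
import Pool.Agent.U566.BMRelQ

/-! Alternating sums of multiplicities over the Weyl group, `GL_n` over `ℚ_p`. -/

namespace U566.BM

open MvPolynomial Finset

set_option linter.unusedSectionVars false

noncomputable section

variable {n : ℕ} {p : ℕ} [Fact p.Prime] {T : Type} {M : Type*} [AddCommGroup M]

/-- `∑_w sgn(w) X(h + N ρ∘w)`, `ρ = (n-1, …, 1, 0)`, over all permutations `w`. -/
def altSum (N : ℕ) (X : (Fin n → ℤ) → M) (h : Fin n → ℤ) : M :=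
  ∑ w : Equiv.Perm (Fin n), (Equiv.Perm.sign w : ℤ) • X (fun i => h i + (N : ℤ) * ((w i).rev : ℕ))

/-- all differences `h_i - h_l`, `i < l`, are larger than `N (n-1)` -/
def Wide (N : ℕ) (h : Fin n → ℤ) : Prop := ∀ i l, i < l → (N : ℤ) * (n - 1 : ℕ) < h i - h l

lemma wide_reg {N : ℕ} {h : Fin n → ℤ} (hw : Wide N h) (w : Equiv.Perm (Fin n)) :
    StrictAnti fun i => h i + (N : ℤ) * ((w i).rev : ℕ) := by
  intro i l hil
  have h1 := hw i l hil
  have h2 : ((w l).rev : ℕ) ≤ n - 1 := by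
    have := (w l).rev.2
    omega
  have h3 : (N : ℤ) * ((w l).rev : ℕ) ≤ (N : ℤ) * (n - 1 : ℕ) := by
    exact_mod_cast Nat.mul_le_mul_left N h2
  have h4 : (0 : ℤ) ≤ (N : ℤ) * ((w i).rev : ℕ) := by positivity
  change h l + (N : ℤ) * ((w l).rev : ℕ) < h i + (N : ℤ) * ((w i).rev : ℕ)
  linarith

lemma alt_weyl (N : ℕ) (h : Fin n → ℤ) (a : Cls p 1 n) :
    altSum N (weylFun p) h a
      = orbU (tt a) h * aeval (fun k => ((tt a k :
        (WittVector p (AlgebraicClosure (ZMod p)))ˣ) : WittVector p (AlgebraicClosure (ZMod p))))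
          (stN N n) := by
  rw [← weyl_sum]
  unfold altSum
  rw [Finset.sum_apply]
  rfl

lemma altSum_pair (N : ℕ) (θ : Cls p 1 n → WittVector p (AlgebraicClosure (ZMod p)))
    (Z : (Fin n → ℤ) → M) (h : Fin n → ℤ) :
    altSum N (fun h => (weylFun p h * θ, Z h)) h = (altSum N (weylFun p) h * θ, altSum N Z h) := by
  unfold altSum
  ext1
  · rw [Prod.fst_sum, Finset.sum_mul]
    refine Finset.sum_congr rfl fun A _ => ?_
    rw [Prod.smul_fst, smul_mul_assoc]
  · rw [Prod.snd_sum]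
    rfl

lemma altQ_fun (D : TypeChars p 1 n T) {N : ℕ} (hn : 0 < n)
    (hN : ∀ k, 1 ≤ k → k ≤ n → (p ^ k - 1) ∣ N) (h h' : Fin n → ℤ) (τ τ' : T)
    (e : sumChar p h * D.ω τ = sumChar p h' * D.ω τ') :
    (D.deg τ' : ℤ) • (altSum N (weylFun p) h * D.θ τ)
      = (D.deg τ : ℤ) • (altSum N (weylFun p) h' * D.θ τ') := by
  have hp : p.Prime := Fact.out
  have hN' : ∀ k, 1 ≤ k → k ≤ n → ((p ^ 1) ^ k - 1) ∣ N := fun k h1 h2 => by
    rw [pow_one]; exact hN k h1 h2
  funext a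
  rw [Pi.smul_apply, Pi.smul_apply, Pi.mul_apply, Pi.mul_apply, alt_weyl, alt_weyl]
  by_cases ha : ∀ i l, a.1 i = a.1 l
  · have hx : (a.1 ⟨0, hn⟩) ^ (p ^ 1 - 1) = 1 := by
      have h1 := a.2
      unfold IsClass at h1
      have h2 : (a.1 ⟨0, hn⟩) ^ (p ^ 1) ∈ Multiset.map a.1 univ.val := by
        rw [← h1]
        exact Multiset.mem_map.2 ⟨⟨0, hn⟩, Finset.mem_univ (⟨0, hn⟩ : Fin n), rfl⟩
      obtain ⟨k, -, hk⟩ := Multiset.mem_map.1 h2
      rw [ha k ⟨0, hn⟩] at hk
      exact pow_pred_one (Nat.one_le_pow _ _ hp.pos) hk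
    have hax : a = scal n (⟨a.1 ⟨0, hn⟩, hx⟩ : Fq p 1) := by
      apply Subtype.ext
      funext i
      exact ha i ⟨0, hn⟩
    set x : Fq p 1 := ⟨a.1 ⟨0, hn⟩, hx⟩ with hxdef
    rw [hax, D.scalar, D.scalar]
    have h1 := congrArg (fun φ : Fq p 1 →* (WittVector p (AlgebraicClosure (ZMod p)))ˣ =>
      ((φ x : (WittVector p (AlgebraicClosure (ZMod p)))ˣ) :
        WittVector p (AlgebraicClosure (ZMod p)))) e
    simp only [MonoidHom.mul_apply, Units.val_mul] at h1
    have h2 : ∀ h : Fin n → ℤ, orbU (tt (scal n x)) h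
        = ((n.factorial : ℕ) : WittVector p (AlgebraicClosure (ZMod p)))
          * ((sumChar p h x : (WittVector p (AlgebraicClosure (ZMod p)))ˣ) :
            WittVector p (AlgebraicClosure (ZMod p))) :=
      fun h => by
        have hut : tt (scal n x) = fun _ =>
          Units.map (WittVector.teichmuller p : AlgebraicClosure (ZMod p) →* _) x.1 := rfl
        have hsc : sumChar p h x
          = (Units.map (WittVector.teichmuller p : AlgebraicClosure (ZMod p) →* _) x.1)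
            ^ (∑ i, h i) := rfl
        rw [hut, orbU_scalar, hsc]
    rw [h2, h2, zsmul_eq_mul, zsmul_eq_mul]
    push_cast
    linear_combination ((D.deg τ : WittVector p (AlgebraicClosure (ZMod p))) * (D.deg τ')
      * ((n.factorial : ℕ) : WittVector p (AlgebraicClosure (ZMod p)))
      * aeval (fun k => ((tt (scal n x) k :
        (WittVector p (AlgebraicClosure (ZMod p)))ˣ) : WittVector p (AlgebraicClosure (ZMod p))))
          (stN N n)) * h1
  · push Not at ha
    obtain ⟨i, l, hil⟩ := ha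
    rw [stN_zero N (tt a) (fun i => tt_pow_N hN' a i) (fun e => hil (teich_inj e)), mul_zero,
      mul_zero, zero_mul, zero_mul, smul_zero, smul_zero]

/-- **Alternating sums.** -/
theorem altQ_law (D : TypeChars p 1 n T) {N : ℕ} (hn : 0 < n)
    (hN : ∀ k, 1 ≤ k → k ≤ n → (p ^ k - 1) ∣ N) {Z : T → (Fin n → ℤ) → M}
    (hR : PairRelationsQ p D.θ Z) {h h' : Fin n → ℤ} (hw : Wide N h) (hw' : Wide N h') (τ τ' : T)
    (e : sumChar p h * D.ω τ = sumChar p h' * D.ω τ') :
    (D.deg τ' : ℤ) • altSum N (Z τ) h = (D.deg τ : ℤ) • altSum N (Z τ') h' := by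
  unfold PairRelationsQ at hR
  rw [rel_iff_graph] at hR
  set G := GrI (fun x : Dom n × T => weylFun p x.1.1 * D.θ x.2)
    (fun x : Dom n × T => Z x.2 x.1.1) with hG
  have key : ∀ (h : Fin n → ℤ) (_ : Wide N h) (τ : T),
      (altSum N (weylFun p) h * D.θ τ, altSum N (Z τ) h) ∈ G := by
    intro h hw τ
    rw [← altSum_pair]
    unfold altSum
    refine Submodule.sum_mem _ fun w _ => Submodule.smul_mem _ _ ?_
    exact Submodule.subset_span ⟨(⟨_, wide_reg hw w⟩, τ), rfl⟩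
  have h3 := Submodule.smul_mem G (D.deg τ' : ℤ) (key h hw τ)
  have h4 := Submodule.smul_mem G (D.deg τ : ℤ) (key h' hw' τ')
  rw [Prod.smul_mk] at h3 h4
  rw [altQ_fun D hn hN h h' τ τ' e] at h3
  exact eq_of_graph hR h3 h4

end

end U566.BM
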