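import Pool.Agent.U566.BMWeyl

/-! The equations imply the Breuil–Mézard relations. -/

namespace U566.BM

open MvPolynomial Finset

set_option linter.unusedSectionVars false

noncomputable section

variable {S : Type} [Fintype S] [DecidableEq S] {d : ℕ} {M : Type*} [AddCommGroup M]

lemma powersetCard_full : powersetCard d (univ : Finset (Fin d)) = {univ} := by
  have h := Finset.powersetCard_self (univ : Finset (Fin d))
  rwa [Finset.card_fin] at h

lemma eSum_full (Z : Wt S d → M) (μ : Wt S d) (σ : S) (m : ℤ) :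
    eSum Z μ σ d m = Z (bump μ σ univ m) := by
  rw [eSum, powersetCard_full, Finset.sum_singleton]

lemma bump_bump (μ : Wt S d) (σ : S) (m n : ℤ) :
    bump (bump μ σ univ m) σ univ n = bump μ σ univ (m + n) := by
  funext τ i
  simp only [bump]
  split_ifs <;> ring

lemma bump_comm (μ : Wt S d) (σ τ : S) (m n : ℤ) :
    bump (bump μ σ univ m) τ univ n = bump (bump μ τ univ n) σ univ m := by
  funext x i
  simp only [bump]
  ring

lemma bump_zero (μ : Wt S d) (σ : S) (I : Finset (Fin d)) : bump μ σ I 0 = μ := by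
  funext x i
  simp [bump]

lemma det_fibre {f : ℕ} {j : S → ZMod f} {Z : Wt S d → M} (h : FibreEq j Z) {σ σ' : S}
    (hj : j σ = j σ') (m : ℕ) (μ : Wt S d) :
    Z (bump μ σ univ m) = Z (bump μ σ' univ m) := by
  induction m generalizing μ with
  | zero => simp [bump_zero]
  | succ m ih =>
    have h1 : Z (bump μ σ univ ((m + 1 : ℕ) : ℤ)) = Z (bump (bump μ σ univ m) σ univ 1) := by
      rw [bump_bump]; push_cast; rfl
    have h2 := h (bump μ σ univ m) σ σ' hj d
    rw [eSum_full, eSum_full] at h2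
    rw [h1, h2, bump_comm, ih, bump_bump]
    push_cast
    rw [add_comm]

lemma det_frob {p f : ℕ} {j : S → ZMod f} {Z : Wt S d → M} (h : FrobEq p j Z) {σ σ' : S}
    (hj : j σ' = j σ + 1) (m : ℕ) (μ : Wt S d) :
    Z (bump μ σ univ ((p * m : ℕ) : ℤ)) = Z (bump μ σ' univ m) := by
  induction m generalizing μ with
  | zero => simp [bump_zero]
  | succ m ih =>
    have h1 : Z (bump μ σ univ ((p * (m + 1) : ℕ) : ℤ))
        = Z (bump (bump μ σ univ ((p * m : ℕ) : ℤ)) σ univ p) := by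
      rw [bump_bump]; push_cast; congr 2
    have h2 := h (bump μ σ univ ((p * m : ℕ) : ℤ)) σ σ' hj d
    rw [eSum_full, eSum_full] at h2
    rw [h1, h2, bump_comm, ih, bump_bump]
    push_cast
    rw [add_comm]

variable {p f : ℕ} [NeZero f] {j : S → ZMod f} {Z : Wt S d → M}

lemma det_chain (hj : Function.Surjective j) (h1 : FibreEq j Z) (h2 : FrobEq p j Z) (k : ℕ)
    (σ τ : S) (hk : j τ = j σ + k) (m : ℕ) (μ : Wt S d) :
    Z (bump μ σ univ ((p ^ k * m : ℕ) : ℤ)) = Z (bump μ τ univ m) := by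
  induction k generalizing σ with
  | zero =>
    rw [pow_zero, one_mul]
    exact det_fibre h1 (by simpa using hk.symm) m μ
  | succ k ih =>
    obtain ⟨σ', hσ'⟩ := hj (j σ + 1)
    have e : p ^ (k + 1) * m = p * (p ^ k * m) := by ring
    rw [e, det_frob h2 hσ']
    refine ih σ' ?_
    rw [hk, hσ']
    push_cast
    ring

lemma period (hj : Function.Surjective j) (h1 : FibreEq j Z) (h2 : FrobEq p j Z) (hp : 1 ≤ p ^ f)
    (σ : S) (m : ℕ) (μ : Wt S d) :
    Z (bump μ σ univ (((p ^ f - 1) * m : ℕ) : ℤ)) = Z μ := by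
  have h := det_chain hj h1 h2 f σ σ (by simp) m (bump μ σ univ (-(m : ℤ)))
  rw [bump_bump, bump_bump] at h
  have e1 : (-(m : ℤ) + ((p ^ f * m : ℕ) : ℤ)) = (((p ^ f - 1) * m : ℕ) : ℤ) := by
    rw [Nat.sub_mul, Nat.cast_sub (Nat.mul_le_mul_right m hp)]
    push_cast
    ring
  rw [e1] at h
  rw [h]
  simp [bump_zero]

lemma period_all (hj : Function.Surjective j) (h1 : FibreEq j Z) (h2 : FrobEq p j Z)
    (hp : 1 ≤ p ^ f) (m : ℕ) (μ : Wt S d) :
    Z (fun σ i => μ σ i + (((p ^ f - 1) * m : ℕ) : ℤ)) = Z μ := by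
  have key : ∀ A : Finset S, Z (fun σ i => μ σ i + if σ ∈ A then (((p ^ f - 1) * m : ℕ) : ℤ) else 0)
      = Z μ := by
    intro A
    induction A using Finset.induction_on with
    | empty => simp
    | insert a A ha ih =>
      rw [← ih, ← period hj h1 h2 hp a m
        (fun σ i => μ σ i + if σ ∈ A then (((p ^ f - 1) * m : ℕ) : ℤ) else 0)]
      congr 1
      funext σ i
      simp only [bump, Finset.mem_univ, and_true, Finset.mem_insert]
      by_cases h : σ = a
      · subst h; simp [ha]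
      · simp [h]
  simpa using key univ

/-- The additive map `x^ν ↦ Z(ν)`. -/
def Psi (Z : Wt S d → M) : MvPolynomial (S × Fin d) ℤ →ₗ[ℤ] M :=
  (basisMonomials (S × Fin d) ℤ).constr ℤ (fun m => Z (fun σ i => (m (σ, i) : ℤ)))

lemma Psi_monomial (m : (S × Fin d) →₀ ℕ) :
    Psi Z (monomial m 1) = Z (fun σ i => (m (σ, i) : ℤ)) := by
  have := (basisMonomials (S × Fin d) ℤ).constr_basis ℤ
    (fun m => Z (fun σ i => (m (σ, i) : ℤ))) m
  rw [coe_basisMonomials] at this
  exact this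

lemma Psi_prod (m : S → Fin d → ℕ) :
    Psi Z (∏ σ, ∏ i, X (σ, i) ^ (m σ i)) = Z (fun σ i => (m σ i : ℤ)) := by
  have h : (∏ σ, ∏ i, (X (σ, i) : MvPolynomial (S × Fin d) ℤ) ^ (m σ i))
      = monomial (Finsupp.equivFunOnFinite.symm (fun x : S × Fin d => m x.1 x.2)) 1 := by
    rw [MvPolynomial.monomial_eq, Finsupp.prod_fintype _ _ (by intro i; simp), map_one, one_mul,
      Fintype.prod_prod_type]
    rfl
  rw [h, Psi_monomial]
  rfl

/-- `e_r` of the `m`-th powers of the variables of block `σ`. -/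
def eps (σ : S) (r m : ℕ) : MvPolynomial (S × Fin d) ℤ :=
  aeval (fun k : Fin d => (X (σ, k) : MvPolynomial (S × Fin d) ℤ) ^ m) (esymm (Fin d) ℤ r)

lemma eps_eq (σ : S) (r m : ℕ) : (eps σ r m : MvPolynomial (S × Fin d) ℤ)
    = ∑ I ∈ powersetCard r (univ : Finset (Fin d)), ∏ i ∈ I, X (σ, i) ^ m := by
  rw [eps, esymm, map_sum]
  refine Finset.sum_congr rfl fun I _ => ?_
  rw [map_prod]
  simp

lemma Psi_eps (ν : (S × Fin d) →₀ ℕ) (σ : S) (r m : ℕ) :
    Psi Z (monomial ν 1 * eps σ r m) = eSum Z (fun σ i => (ν (σ, i) : ℤ)) σ r m := by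
  rw [eps_eq, Finset.mul_sum, map_sum, eSum]
  refine Finset.sum_congr rfl fun I _ => ?_
  have h : (∏ i ∈ I, (X (σ, i) : MvPolynomial (S × Fin d) ℤ) ^ m)
      = monomial (∑ i ∈ I, Finsupp.single (σ, i) m) 1 := by
    rw [monomial_sum_one]
    refine Finset.prod_congr rfl fun i _ => ?_
    rw [X_pow_eq_monomial]
  rw [h, monomial_mul, one_mul, Psi_monomial]
  congr 1
  funext τ k
  rw [Finsupp.add_apply, Finsupp.finsetSum_apply]
  simp only [Finsupp.single_apply, Prod.mk.injEq, bump]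
  push_cast
  congr 1
  by_cases h : τ = σ ∧ k ∈ I
  · obtain ⟨rfl, hk⟩ := h
    simp [hk]
  · rw [if_neg h]
    apply Finset.sum_eq_zero
    intro i hi
    rw [if_neg]
    rintro ⟨rfl, rfl⟩
    exact h ⟨rfl, hi⟩

/-- the generators of the ideal of equations -/
def gensJ (p f : ℕ) (j : S → ZMod f) : Set (MvPolynomial (S × Fin d) ℤ) :=
  {F | (∃ σ σ' r, j σ = j σ' ∧ F = eps σ r 1 - eps σ' r 1) ∨
    (∃ σ σ' r, j σ' = j σ + 1 ∧ F = eps σ r p - eps σ' r 1) ∨
    ∃ σ, F = eps σ d (p ^ f - 1) - 1}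

lemma Psi_kill (hj : Function.Surjective j) (h1 : FibreEq j Z) (h2 : FrobEq p j Z)
    (hp : 1 ≤ p ^ f) {F : MvPolynomial (S × Fin d) ℤ}
    (hF : F ∈ Ideal.span (gensJ (d := d) p f j)) (A : MvPolynomial (S × Fin d) ℤ) :
    Psi Z (A * F) = 0 := by
  induction hF using Submodule.span_induction generalizing A with
  | zero => simp
  | add x y _ _ hx hy => rw [mul_add, map_add, hx, hy, add_zero]
  | smul a x _ hx => rw [smul_eq_mul, ← mul_assoc, hx]
  | mem x hx =>
    have key : ∀ ν : (S × Fin d) →₀ ℕ, Psi Z (monomial ν 1 * x) = 0 := by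
      intro ν
      rcases hx with ⟨σ, σ', r, hσ, rfl⟩ | ⟨σ, σ', r, hσ, rfl⟩ | ⟨σ, rfl⟩
      · rw [mul_sub, map_sub, Psi_eps, Psi_eps, sub_eq_zero]
        exact_mod_cast h1 _ σ σ' hσ r
      · rw [mul_sub, map_sub, Psi_eps, Psi_eps, sub_eq_zero]
        exact_mod_cast h2 _ σ σ' hσ r
      · rw [mul_sub, map_sub, Psi_eps, eSum_full, mul_one, Psi_monomial, sub_eq_zero]
        have := period hj h1 h2 hp σ 1 (fun σ i => (ν (σ, i) : ℤ))
        rw [mul_one] at this
        exact this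
    have : (Psi Z) ∘ₗ (LinearMap.mulRight ℤ x) = 0 := by
      apply (basisMonomials (S × Fin d) ℤ).ext
      intro ν
      rw [coe_basisMonomials]
      exact key ν
    exact congrArg (fun φ => φ A) this

lemma Psi_alt (hZ : IsAlt Z) (μ : S → Fin d → ℕ) :
    Psi Z (∏ σ, aeval (fun k : Fin d => (X (σ, k) : MvPolynomial (S × Fin d) ℤ)) (alt (μ σ)))
      = (Fintype.card (S → Equiv.Perm (Fin d)) : ℤ) • Z (fun σ i => (μ σ i : ℤ)) := by
  have h : ∀ σ : S, aeval (fun k : Fin d => (X (σ, k) : MvPolynomial (S × Fin d) ℤ)) (alt (μ σ))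
      = ∑ w : Equiv.Perm (Fin d), (Equiv.Perm.sign w : ℤ) • ∏ i, (X (σ, i)) ^ (μ σ (w i)) := by
    intro σ
    rw [alt_eq, map_sum]
    refine Finset.sum_congr rfl fun w _ => ?_
    rw [map_zsmul, map_prod]
    simp
  simp only [h]
  rw [Finset.prod_univ_sum, map_sum]
  have h2 : ∀ w ∈ Fintype.piFinset (fun _ : S => (univ : Finset (Equiv.Perm (Fin d)))),
      Psi Z (∏ σ, (Equiv.Perm.sign (w σ) : ℤ) •
        ∏ i, (X (σ, i) : MvPolynomial (S × Fin d) ℤ) ^ (μ σ (w σ i)))
        = Z (fun σ i => (μ σ i : ℤ)) := by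
    intro w _
    have e : (∏ σ, (Equiv.Perm.sign (w σ) : ℤ) •
        ∏ i, (X (σ, i) : MvPolynomial (S × Fin d) ℤ) ^ (μ σ (w σ i)))
        = (∏ σ, (Equiv.Perm.sign (w σ) : ℤ)) •
          ∏ σ, ∏ i, (X (σ, i) : MvPolynomial (S × Fin d) ℤ) ^ (μ σ (w σ i)) := by
      simp only [zsmul_eq_mul, Finset.prod_mul_distrib]
      push_cast
      rfl
    rw [e, map_zsmul, Psi_prod (fun σ i => μ σ (w σ i))]
    have := hZ (fun σ i => (μ σ i : ℤ)) w
    rw [this, smul_smul, ← Finset.prod_mul_distrib]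
    have h3 : ∀ σ, ((Equiv.Perm.sign (w σ) : ℤ) * (Equiv.Perm.sign (w σ) : ℤ)) = 1 := by
      intro σ
      rw [← Units.val_mul]
      simp
    simp [h3]
  rw [Finset.sum_congr rfl h2, Finset.sum_const, Fintype.piFinset_univ, Finset.card_univ,
    natCast_zsmul]

section hom

variable {B : Type*} [CommRing B] (φ : MvPolynomial (S × Fin d) ℤ →+* B)

/-- the images of the variables of block `σ` -/
def uu (σ : S) : Fin d → B := fun k => φ (X (σ, k))

lemma hom_eps (σ : S) (r m : ℕ) :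
    φ (eps σ r m) = aeval (fun k => uu φ σ k ^ m) (esymm (Fin d) ℤ r) := by
  rw [eps, hom_aeval]
  simp [uu]

lemma hom_eps_one (σ : S) (r : ℕ) :
    φ (eps σ r 1) = aeval (uu φ σ) (esymm (Fin d) ℤ r) := by
  rw [hom_eps]
  simp only [pow_one]

lemma aeval_aeval_pow (u : Fin d → B) (m : ℕ) (F : MvPolynomial (Fin d) ℤ) :
    aeval u (aeval (fun k : Fin d => (X k : MvPolynomial (Fin d) ℤ) ^ m) F)
      = aeval (fun k => u k ^ m) F := by
  rw [← AlgHom.comp_apply]
  congr 1
  apply MvPolynomial.algHom_ext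
  intro i
  simp

lemma block_red (hφ : ∀ F ∈ gensJ (d := d) p f j, φ F = 0) (hj : Function.Surjective j)
    {σ0 : S} (h0 : j σ0 = 0) (m : ℕ) :
    ∀ (σ : S), j σ = m → ∀ r : ℕ,
      aeval (uu φ σ) (esymm (Fin d) ℤ r)
        = aeval (fun k => uu φ σ0 k ^ (p ^ m)) (esymm (Fin d) ℤ r) := by
  induction m with
  | zero =>
    intro σ hσ r
    have h1 := hφ _ (Or.inl ⟨σ, σ0, r, by rw [hσ, h0]; simp, rfl⟩)
    rw [map_sub, sub_eq_zero, hom_eps_one, hom_eps_one] at h1
    rw [h1]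
    simp
  | succ m ih =>
    intro σ hσ r
    obtain ⟨σ', hσ'⟩ := hj (m : ZMod f)
    have h1 := hφ _ (Or.inr (Or.inl ⟨σ', σ, r, by rw [hσ, hσ']; push_cast; rfl, rfl⟩))
    rw [map_sub, sub_eq_zero, hom_eps_one, hom_eps] at h1
    rw [← h1]
    have h2 := sym_eval (uu φ σ') (fun k => uu φ σ0 k ^ (p ^ m)) (ih σ' hσ')
      (aeval_pow_esymm_symm (d := d) p r)
    rw [aeval_aeval_pow, aeval_aeval_pow] at h2
    rw [h2]
    simp only [← pow_mul, pow_succ]

end hom

/-- Main algebraic statement: the equations imply the relations, natural-number weights. -/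
lemma main_nat [Fact p.Prime] [IsAddTorsionFree M] (hj : Function.Surjective j)
    (h1 : FibreEq j Z) (h2 : FrobEq p j Z) (hZ : IsAlt Z)
    {ι : Type*} (s : Finset ι) (c : ι → ℤ) (w : ι → S → Fin d → ℕ)
    (hc : ∀ a : Cls p f d, ∑ x ∈ s, (c x : WittVector p (AlgebraicClosure (ZMod p))) *
      ∏ σ, aeval (fun i =>
      WittVector.teichmuller p ((a.1 i : (AlgebraicClosure (ZMod p))ˣ) : AlgebraicClosure (ZMod p))
        ^ (p ^ (j σ).val)) (schur (w x σ)) = 0) :
    ∑ x ∈ s, c x • Z (fun σ i => (w x σ i : ℤ)) = 0 := by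
  have hp : p.Prime := Fact.out
  have hf : f ≠ 0 := NeZero.ne f
  have hq : 1 ≤ p ^ f := Nat.one_le_pow _ _ hp.pos
  obtain ⟨σ0, h0⟩ := hj 0
  -- the symmetric polynomial in one block
  set R : MvPolynomial (Fin d) ℤ := ∑ x ∈ s, c x • ∏ σ, aeval
    (fun i : Fin d => (X i : MvPolynomial (Fin d) ℤ) ^ (p ^ (j σ).val)) (schur (w x σ)) with hR
  have hRsymm : R.IsSymmetric := by
    intro e
    rw [hR, map_sum]
    refine Finset.sum_congr rfl fun x _ => ?_
    rw [map_zsmul, map_prod]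
    congr 1
    refine Finset.prod_congr rfl fun σ _ => ?_
    have h : (rename e : MvPolynomial (Fin d) ℤ →ₐ[ℤ] _).comp
        (aeval (fun k : Fin d => (X k : MvPolynomial (Fin d) ℤ) ^ (p ^ (j σ).val)))
        = (aeval (fun k : Fin d => (X k : MvPolynomial (Fin d) ℤ) ^ (p ^ (j σ).val)) :
          MvPolynomial (Fin d) ℤ →ₐ[ℤ] MvPolynomial (Fin d) ℤ).comp (rename e) := by
      apply MvPolynomial.algHom_ext
      intro i
      simp
    have h2 := congrArg (fun φ => φ (schur (w x σ))) h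
    simp only [AlgHom.comp_apply] at h2
    rw [h2, schur_symm _ e]
  have hRvan : Vanish p (p ^ f) (AlgebraicClosure (ZMod p)) R := by
    intro a ha
    rw [hR, map_sum, ← hc ⟨a, ha⟩]
    refine Finset.sum_congr rfl fun x _ => ?_
    rw [zsmul_eq_mul, map_mul, map_intCast, map_prod]
    refine congrArg _ (Finset.prod_congr rfl fun σ _ => ?_)
    exact aeval_aeval_pow _ _ _
  obtain ⟨n, hn, hnR⟩ := core p hf hRsymm hRvan
  -- the polynomial in all blocks
  set P : MvPolynomial (S × Fin d) ℤ := ∑ x ∈ s, c x • ∏ σ, aeval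
    (fun i : Fin d => (X (σ, i) : MvPolynomial (S × Fin d) ℤ)) (schur (w x σ)) with hP
  have hhom : ∀ {B : Type} [CommRing B] (φ : MvPolynomial (S × Fin d) ℤ →+* B),
      (∀ F ∈ gensJ (d := d) p f j, φ F = 0) → φ (C n * P) = 0 := by
    intro B _ φ hφ
    have hPR : φ P = aeval (uu φ σ0) R := by
      rw [hP, hR, map_sum, map_sum]
      refine Finset.sum_congr rfl fun x _ => ?_
      rw [map_zsmul, map_zsmul, map_prod, map_prod]
      congr 1
      refine Finset.prod_congr rfl fun σ _ => ?_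
      rw [hom_aeval]
      have e := sym_eval (uu φ σ) (fun k => uu φ σ0 k ^ (p ^ (j σ).val))
        (block_red φ hφ hj h0 (j σ).val σ (by simp)) (schur_symm (w x σ))
      change aeval (uu φ σ) (schur (w x σ)) = _
      rw [e, aeval_aeval_pow]
    have hkill : ∀ G ∈ Iq d (p ^ f), aeval (uu φ σ0) G = 0 := by
      intro G hG
      have hle : Iq d (p ^ f) ≤ RingHom.ker (aeval (uu φ σ0) :
          MvPolynomial (Fin d) ℤ →ₐ[ℤ] B).toRingHom := by
        refine Ideal.span_le.2 ?_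
        rintro G (⟨r, rfl⟩ | rfl)
        · rw [SetLike.mem_coe, RingHom.mem_ker]
          change aeval _ _ = 0
          rw [map_sub, sub_eq_zero, aeval_aeval_pow]
          exact (block_red φ hφ hj h0 f σ0 (by simp [h0]) r).symm
        · rw [SetLike.mem_coe, RingHom.mem_ker]
          change aeval _ _ = 0
          have e1 := hφ _ (Or.inr (Or.inr ⟨σ0, rfl⟩))
          rw [map_sub, map_one, eps_eq, powersetCard_full, Finset.sum_singleton, map_prod] at e1
          rw [map_sub, map_pow, map_prod, map_one]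
          rw [← e1]
          simp [Finset.prod_pow, uu]
      exact hle hG
    rw [map_mul, hPR]
    have := hkill _ hnR
    rw [map_mul] at this
    simpa using this
  have hCP : C n * P ∈ Ideal.span (gensJ (d := d) p f j) := by
    rw [← Ideal.Quotient.eq_zero_iff_mem]
    exact hhom _ (fun F hF => Ideal.Quotient.eq_zero_iff_mem.2 (Ideal.subset_span hF))
  have hfin := Psi_kill hj h1 h2 hq hCP (∏ σ, aeval
    (fun k : Fin d => (X (σ, k) : MvPolynomial (S × Fin d) ℤ)) (vdm d))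
  have hcomp : (∏ σ : S, aeval (fun k : Fin d => (X (σ, k) : MvPolynomial (S × Fin d) ℤ)) (vdm d))
      * (C n * P) = n • ∑ x ∈ s, c x • ∏ σ, aeval
        (fun k : Fin d => (X (σ, k) : MvPolynomial (S × Fin d) ℤ)) (alt (w x σ)) := by
    rw [hP, zsmul_eq_mul, Finset.mul_sum, Finset.mul_sum, Finset.mul_sum]
    refine Finset.sum_congr rfl fun x _ => ?_
    simp only [← schur_mul_vdm, map_mul, Finset.prod_mul_distrib, zsmul_eq_mul]
    have : (C n : MvPolynomial (S × Fin d) ℤ) = (n : MvPolynomial (S × Fin d) ℤ) := by simp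
    rw [this]
    ring
  rw [hcomp, map_zsmul, map_sum] at hfin
  have h3 : ∀ x ∈ s, Psi Z (c x • ∏ σ, aeval
        (fun k : Fin d => (X (σ, k) : MvPolynomial (S × Fin d) ℤ)) (alt (w x σ)))
      = (Fintype.card (S → Equiv.Perm (Fin d)) : ℤ) • (c x • Z (fun σ i => (w x σ i : ℤ))) := by
    intro x _
    rw [map_zsmul, Psi_alt hZ, smul_comm]
  rw [Finset.sum_congr rfl h3, ← Finset.smul_sum] at hfin
  have hcard : (Fintype.card (S → Equiv.Perm (Fin d)) : ℤ) ≠ 0 := by
    exact_mod_cast Fintype.card_ne_zero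
  have h4 := (smul_eq_zero.1 hfin).resolve_left hn
  exact (smul_eq_zero.1 h4).resolve_left hcard

end

end U566.BM
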