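import Mathlib

/-! Products of more than `d(d-1)/2` of the coordinates vanish in the coinvariant algebra. -/

namespace U566.BM

open Polynomial Finset

section ring

variable {R : Type*} [CommRing R]

/-- `0 + 1 + ... + (d-1)` -/
def tri (d : ℕ) : ℕ := ∑ i ∈ range d, i

lemma tri_succ (d : ℕ) : tri (d + 1) = tri d + d := by
  unfold tri
  rw [sum_range_succ]

lemma pow_iter {a c : Ideal R} {k : ℕ} (h : c ^ (k + 1) ≤ a * c ^ k) (n : ℕ) :
    c ^ (k + n) ≤ a ^ n * c ^ k := by
  induction n with
  | zero => simp
  | succ n ih =>
    calc c ^ (k + (n + 1)) = c ^ (k + n) * c := by rw [← add_assoc, pow_succ]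
      _ ≤ (a ^ n * c ^ k) * c := Ideal.mul_mono_left ih
      _ = a ^ n * c ^ (k + 1) := by rw [mul_assoc, ← pow_succ]
      _ ≤ a ^ n * (a * c ^ k) := Ideal.mul_mono_right h
      _ = a ^ (n + 1) * c ^ k := by rw [← mul_assoc, ← pow_succ]

lemma sup_pow_le {a s : Ideal R} (n : ℕ) :
    (a ⊔ s) ^ (n + 1) ≤ a * (a ⊔ s) ^ n ⊔ s ^ (n + 1) := by
  induction n with
  | zero => simp
  | succ n ih =>
    rw [pow_succ' (a ⊔ s) (n + 1), Ideal.sup_mul]
    refine sup_le le_sup_left ?_
    refine (Ideal.mul_mono_right ih).trans ?_
    rw [Ideal.mul_sup]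
    refine sup_le ?_ ?_
    · refine le_trans ?_ le_sup_left
      rw [mul_left_comm]
      refine Ideal.mul_mono_right ?_
      rw [pow_succ']
      exact Ideal.mul_mono_left le_sup_right
    · rw [← pow_succ']
      exact le_sup_right

lemma coinv (L : List R) : ∀ (a : Ideal R),
    (∀ r, r ≤ L.length →
      ((L.map fun u => (X - C u : R[X])).prod).coeff (L.length - r) ∈ a ^ r) →
    (a ⊔ Ideal.span {u | u ∈ L}) ^ (tri L.length + 1)
      ≤ a * (a ⊔ Ideal.span {u | u ∈ L}) ^ (tri L.length) := by
  induction L with
  | nil =>
    intro a _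
    simp [tri]
  | cons u L ih =>
    intro a ha
    set f' : R[X] := (L.map fun u => (X - C u : R[X])).prod with hf'
    set e := L.length with he
    set b := a ⊔ Ideal.span {u} with hb
    have hab : a ≤ b := le_sup_left
    have hub : u ∈ b := Ideal.mem_sup_right (Ideal.mem_span_singleton_self u)
    have hlen : (u :: L).length = e + 1 := rfl
    have hcoef : ∀ n, (((u :: L).map fun u => (X - C u : R[X])).prod).coeff (n + 1)
        = f'.coeff n - u * f'.coeff (n + 1) := by
      intro n
      rw [List.map_cons, List.prod_cons, ← hf', sub_mul, coeff_sub, coeff_X_mul, coeff_C_mul]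
    have hcoef0 : (((u :: L).map fun u => (X - C u : R[X])).prod).coeff 0
        = - (u * f'.coeff 0) := by
      rw [List.map_cons, List.prod_cons, ← hf', sub_mul, coeff_sub, coeff_C_mul,
        coeff_X_mul_zero, zero_sub]
    have htop : ∀ r, r ≤ e → f'.coeff (e - r)
        = (((u :: L).map fun u => (X - C u : R[X])).prod).coeff (e + 1 - r)
          + u * f'.coeff (e - r + 1) := by
      intro r hr
      have e1 : e + 1 - r = (e - r) + 1 := by omega
      rw [e1, hcoef]
      ring
    have hA : ∀ r, r ≤ e → f'.coeff (e - r) ∈ b ^ r := by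
      intro r
      induction r with
      | zero =>
        intro _
        rw [pow_zero, Ideal.one_eq_top]
        exact Submodule.mem_top
      | succ r ihr =>
        intro hr
        rw [htop (r + 1) hr]
        refine Ideal.add_mem _ (Ideal.pow_right_mono hab _ ?_) ?_
        · have := ha (r + 1) (by rw [hlen]; omega)
          rwa [hlen] at this
        · have e1 : e - (r + 1) + 1 = e - r := by omega
          rw [e1, pow_succ']
          exact Ideal.mul_mem_mul hub (ihr (by omega))
    have hlead : f'.coeff e = 1 := by
      have h3 : ∀ L : List R, (((L.map fun u => (X - C u : R[X])).prod)).coeff L.length = 1 := by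
        intro L
        induction L with
        | nil => simp
        | cons w L ih =>
          have hd : ((L.map fun u => (X - C u : R[X])).prod).natDegree ≤ L.length := by
            clear ih
            induction L with
            | nil => simp
            | cons w L ih =>
              rw [List.map_cons, List.prod_cons, List.length_cons]
              refine natDegree_mul_le.trans ?_
              have := natDegree_X_sub_C_le w
              omega
          rw [List.map_cons, List.prod_cons, List.length_cons, sub_mul, coeff_sub, coeff_X_mul,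
            coeff_C_mul, ih, coeff_eq_zero_of_natDegree_lt (by omega), mul_zero, sub_zero]
      exact h3 L
    have hB : ∀ r, r ≤ e → u * (f'.coeff (e - r) - u ^ r) ∈ a * b ^ r := by
      intro r
      induction r with
      | zero =>
        intro _
        have e0 : u * (f'.coeff (e - 0) - u ^ 0) = 0 := by
          rw [Nat.sub_zero, hlead]
          ring
        rw [e0]
        exact Ideal.zero_mem _
      | succ r ihr =>
        intro hr
        have e1 : e - (r + 1) + 1 = e - r := by omega
        have e2 : f'.coeff (e - (r + 1)) - u ^ (r + 1)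
            = (((u :: L).map fun u => (X - C u : R[X])).prod).coeff (e + 1 - (r + 1))
              + u * (f'.coeff (e - r) - u ^ r) := by
          rw [htop (r + 1) hr, e1]
          ring
        rw [e2]
        have h1 : (((u :: L).map fun u => (X - C u : R[X])).prod).coeff (e + 1 - (r + 1))
            ∈ a * b ^ r := by
          have := ha (r + 1) (by rw [hlen]; omega)
          rw [hlen, pow_succ'] at this
          exact Ideal.mul_mono_right (Ideal.pow_right_mono hab r) this
        have h2 := Ideal.add_mem _ h1 (ihr (by omega))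
        have h3 := Ideal.mul_mem_mul hub h2
        have e3 : b * (a * b ^ r) = a * b ^ (r + 1) := by
          rw [mul_left_comm, ← pow_succ']
        rwa [e3] at h3
    have hue : u ^ (e + 1) ∈ a * b ^ e := by
      have h1 := hB e le_rfl
      rw [Nat.sub_self] at h1
      have h2 := ha (e + 1) (by rw [hlen])
      rw [hlen, Nat.sub_self, hcoef0] at h2
      have h3 : - (u * f'.coeff 0) ∈ a * b ^ e := by
        rw [pow_succ'] at h2
        exact Ideal.mul_mono_right (Ideal.pow_right_mono hab e) h2
      have h4 := Ideal.add_mem _ h1 h3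
      have e4 : u * (f'.coeff 0 - u ^ e) + - (u * f'.coeff 0) = - u ^ (e + 1) := by
        rw [pow_succ']
        ring
      rw [e4] at h4
      exact (Ideal.neg_mem_iff _).1 h4
    have hbe : b ^ (e + 1) ≤ a * b ^ e := by
      refine (sup_pow_le (a := a) (s := Ideal.span {u}) e).trans (sup_le le_rfl ?_)
      rw [Ideal.span_singleton_pow, Ideal.span_singleton_le_iff_mem]
      exact hue
    have hset : b ⊔ Ideal.span {w | w ∈ L} = a ⊔ Ideal.span {w | w ∈ u :: L} := by
      have e5 : {w : R | w ∈ u :: L} = {u} ∪ {w | w ∈ L} := by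
        ext w
        simp
      rw [e5, Ideal.span_union, ← sup_assoc]
    have hc := ih b hA
    rw [hset] at hc
    set c := a ⊔ Ideal.span {w | w ∈ u :: L} with hcdef
    have hbc : b ≤ c := by
      rw [← hset]
      exact le_sup_left
    have h5 := pow_iter hc (e + 1)
    rw [hlen, tri_succ]
    calc c ^ (tri e + e + 1) = c ^ (tri e + (e + 1)) := by rw [add_assoc]
      _ ≤ b ^ (e + 1) * c ^ tri e := h5
      _ ≤ (a * b ^ e) * c ^ tri e := Ideal.mul_mono_left hbe
      _ ≤ (a * c ^ e) * c ^ tri e := Ideal.mul_mono_left (Ideal.mul_mono_right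
          (Ideal.pow_right_mono hbc e))
      _ = a * c ^ (tri e + e) := by rw [mul_assoc, ← pow_add, add_comm e]

/-- several blocks -/
lemma coinv_blocks {S : Type*} [DecidableEq S] {d : ℕ} (u : S → Fin d → R)
    (hu : ∀ σ, ((List.ofFn (u σ)).map fun w => (X - C w : R[X])).prod = X ^ d) (s : Finset S) :
    (Ideal.span {w | ∃ σ ∈ s, ∃ i, w = u σ i}) ^ (s.card * tri d + 1) = ⊥ := by
  induction s using Finset.induction_on with
  | empty =>
    simp
  | insert σ s hσ ih =>
    set a := Ideal.span {w | ∃ σ ∈ s, ∃ i, w = u σ i} with ha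
    have hlen : (List.ofFn (u σ)).length = d := List.length_ofFn
    have h1 := coinv (List.ofFn (u σ)) a (by
      intro r hr
      rw [hu σ, hlen, coeff_X_pow]
      rcases Nat.eq_zero_or_pos r with rfl | hr0
      · rw [pow_zero, Ideal.one_eq_top]
        exact Submodule.mem_top
      · rw [hlen] at hr
        rw [if_neg (by omega)]
        exact Ideal.zero_mem _)
    rw [hlen] at h1
    have hset : a ⊔ Ideal.span {w | w ∈ List.ofFn (u σ)}
        = Ideal.span {w | ∃ τ ∈ insert σ s, ∃ i, w = u τ i} := by
      rw [ha, ← Ideal.span_union]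
      congr 1
      ext w
      simp only [Set.mem_union, Set.mem_ofPred_eq, List.mem_ofFn, Finset.mem_insert]
      constructor
      · rintro (⟨τ, h, i, rfl⟩ | ⟨i, rfl⟩)
        · exact ⟨τ, Or.inr h, i, rfl⟩
        · exact ⟨σ, Or.inl rfl, i, rfl⟩
      · rintro ⟨τ, h | h, i, rfl⟩
        · subst h
          exact Or.inr ⟨i, rfl⟩
        · exact Or.inl ⟨τ, h, i, rfl⟩
    rw [hset] at h1
    have h2 := pow_iter h1 (s.card * tri d + 1)
    rw [ih] at h2
    rw [Finset.card_insert_of_notMem hσ]
    have e : (s.card + 1) * tri d + 1 = tri d + (s.card * tri d + 1) := by ring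
    rw [e, eq_bot_iff]
    refine h2.trans ?_
    rw [Ideal.bot_mul]

end ring

end U566.BM
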