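import Pool.Agent.U566.BMSchur

/-! The core lemma: symmetric polynomials vanishing at all semisimple classes. -/

namespace U566.BM

open MvPolynomial Finset

noncomputable section

variable {d : ℕ}

lemma sym_eval {B : Type*} [CommRing B] (u v : Fin d → B)
    (h : ∀ r, aeval u (esymm (Fin d) ℤ r) = aeval v (esymm (Fin d) ℤ r))
    {F : MvPolynomial (Fin d) ℤ} (hF : F.IsSymmetric) : aeval u F = aeval v F := by
  obtain ⟨G, hG⟩ := esymmAlgHom_fin_surjective ℤ (le_refl d)
    (⟨F, hF⟩ : symmetricSubalgebra (Fin d) ℤ)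
  have hG' : aeval (fun i : Fin d => esymm (Fin d) ℤ (i+1)) G = F := by
    rw [← esymmAlgHom_apply, hG]
  rw [← hG', ← AlgHom.comp_apply, ← AlgHom.comp_apply]
  congr 1
  apply MvPolynomial.algHom_ext
  intro i
  simp [h]

/-- The generators `e_r(y^q) - e_r(y)` and `(y_1 ⋯ y_d)^(q-1) - 1`. -/
def gens (d q : ℕ) : Set (MvPolynomial (Fin d) ℤ) :=
  {F | (∃ r, F = aeval (fun k : Fin d => (X k : MvPolynomial (Fin d) ℤ) ^ q) (esymm (Fin d) ℤ r)
      - esymm (Fin d) ℤ r) ∨ F = (∏ k : Fin d, (X k : MvPolynomial (Fin d) ℤ)) ^ (q - 1) - 1}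

/-- The ideal they generate. -/
def Iq (d q : ℕ) : Ideal (MvPolynomial (Fin d) ℤ) := Ideal.span (gens d q)

lemma mk_esymm (q r : ℕ) :
    Ideal.Quotient.mk (Iq d q)
      (aeval (fun k : Fin d => (X k : MvPolynomial (Fin d) ℤ) ^ q) (esymm (Fin d) ℤ r))
    = Ideal.Quotient.mk (Iq d q) (esymm (Fin d) ℤ r) := by
  rw [Ideal.Quotient.eq]
  exact Ideal.subset_span (Or.inl ⟨r, rfl⟩)

lemma root_identity (q : ℕ) (i : Fin d) :
    (-(X i : MvPolynomial (Fin d) ℤ) ^ q) ^ d = - ∑ j ∈ range d,
      aeval (fun k : Fin d => (X k : MvPolynomial (Fin d) ℤ) ^ q) (esymm (Fin d) ℤ (j + 1))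
        * (-(X i : MvPolynomial (Fin d) ℤ) ^ q) ^ (d - (j + 1)) := by
  have h := congrArg (Polynomial.eval₂RingHom
    (aeval (fun k : Fin d => (X k : MvPolynomial (Fin d) ℤ) ^ q) :
      MvPolynomial (Fin d) ℤ →ₐ[ℤ] MvPolynomial (Fin d) ℤ).toRingHom
    (-(X i : MvPolynomial (Fin d) ℤ) ^ q)) (MvPolynomial.prod_C_add_X_eq_sum_esymm ℤ (Fin d))
  rw [map_prod, map_sum] at h
  rw [Finset.prod_eq_zero (Finset.mem_univ i) (by simp)] at h
  rw [Fintype.card_fin, Finset.sum_range_succ'] at h
  simp only [map_mul, map_pow, Polynomial.coe_eval₂RingHom, Polynomial.eval₂_C,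
    Polynomial.eval₂_X, esymm_zero, Nat.sub_zero, map_one, one_mul] at h
  rw [eq_neg_iff_add_eq_zero, add_comm]
  exact h.symm

lemma finite_quot {q : ℕ} (hq : 2 ≤ q) :
    Module.Finite ℤ (MvPolynomial (Fin d) ℤ ⧸ Iq d q) := by
  classical
  set mk := Ideal.Quotient.mk (Iq d q) with hmk
  set N := q * d with hN
  set Sp := Submodule.span ℤ (Set.range fun g : Fin d → Fin N =>
    mk (∏ i, (X i : MvPolynomial (Fin d) ℤ) ^ (g i : ℕ))) with hSp
  have key : ∀ n : ℕ, ∀ m : Fin d → ℕ, ∑ i, m i = n →
      mk (∏ i, (X i : MvPolynomial (Fin d) ℤ) ^ (m i)) ∈ Sp := by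
    intro n
    induction n using Nat.strong_induction_on with
    | _ n ih =>
      intro m hm
      by_cases hall : ∀ i, m i < N
      · exact Submodule.subset_span ⟨fun i => ⟨m i, hall i⟩, rfl⟩
      · push Not at hall
        obtain ⟨i0, hi0⟩ := hall
        have hd : 0 < d := i0.pos
        set m' : Fin d → ℕ := Function.update m i0 (m i0 - N) with hm'
        have hmm : ∀ i, m i = m' i + if i = i0 then N else 0 := by
          intro i
          by_cases h : i = i0
          · subst h; simp [hm']; omega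
          · simp [hm', h]
        have hsum : ∑ i, m i = ∑ i, m' i + N := by
          simp only [hmm, Finset.sum_add_distrib]
          simp
        have hprod : ∏ i, (X i : MvPolynomial (Fin d) ℤ) ^ (m i)
            = ((-1) ^ d) * ((∏ i, (X i : MvPolynomial (Fin d) ℤ) ^ (m' i))
              * (-(X i0 : MvPolynomial (Fin d) ℤ) ^ q) ^ d) := by
          simp only [hmm, pow_add, Finset.prod_mul_distrib]
          have : ∏ i, (X i : MvPolynomial (Fin d) ℤ) ^ (if i = i0 then N else 0)
              = (X i0) ^ N := by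
            rw [Finset.prod_eq_single i0]
            · simp
            · intro b _ hb; simp [hb]
            · simp
          rw [this, neg_pow ((X i0 : MvPolynomial (Fin d) ℤ) ^ q) d, ← pow_mul, hN]
          have h1 : ((-1 : MvPolynomial (Fin d) ℤ) ^ d) * (-1) ^ d = 1 := by
            rw [← mul_pow]; simp
          linear_combination (-(∏ i, (X i : MvPolynomial (Fin d) ℤ) ^ (m' i)) * (X i0) ^ (q * d))
            * h1
        have hterm : ∀ j ∈ range d, mk ((∏ i, (X i : MvPolynomial (Fin d) ℤ) ^ (m' i)) *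
            (aeval (fun k : Fin d => (X k : MvPolynomial (Fin d) ℤ) ^ q) (esymm (Fin d) ℤ (j + 1))
              * (-(X i0 : MvPolynomial (Fin d) ℤ) ^ q) ^ (d - (j + 1)))) ∈ Sp := by
          intro j hj
          have hj' : j < d := Finset.mem_range.1 hj
          have e1 : mk ((∏ i, (X i : MvPolynomial (Fin d) ℤ) ^ (m' i)) *
            (aeval (fun k : Fin d => (X k : MvPolynomial (Fin d) ℤ) ^ q) (esymm (Fin d) ℤ (j + 1))
              * (-(X i0 : MvPolynomial (Fin d) ℤ) ^ q) ^ (d - (j + 1))))
              = mk ((∏ i, (X i : MvPolynomial (Fin d) ℤ) ^ (m' i)) *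
            (esymm (Fin d) ℤ (j + 1)
              * (-(X i0 : MvPolynomial (Fin d) ℤ) ^ q) ^ (d - (j + 1)))) := by
            rw [map_mul, map_mul, map_mul, map_mul, hmk, mk_esymm]
          rw [e1]
          have e2 : (∏ i, (X i : MvPolynomial (Fin d) ℤ) ^ (m' i)) *
            (esymm (Fin d) ℤ (j + 1)
              * (-(X i0 : MvPolynomial (Fin d) ℤ) ^ q) ^ (d - (j + 1)))
              = ((-1) ^ (d - (j + 1)) : ℤ) • ∑ t ∈ powersetCard (j+1) (univ : Finset (Fin d)),
                ∏ i, (X i : MvPolynomial (Fin d) ℤ) ^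
                  (m' i + (if i ∈ t then 1 else 0) + if i = i0 then q * (d - (j+1)) else 0) := by
            rw [esymm, neg_pow, Finset.sum_mul, Finset.mul_sum, Finset.smul_sum]
            refine Finset.sum_congr rfl fun t _ => ?_
            simp only [pow_add, Finset.prod_mul_distrib]
            have h1 : ∏ i, (X i : MvPolynomial (Fin d) ℤ) ^ (if i ∈ t then 1 else 0)
                = ∏ i ∈ t, X i := by
              have : ∀ i, (X i : MvPolynomial (Fin d) ℤ) ^ (if i ∈ t then 1 else 0)
                = if i ∈ t then X i else 1 := by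
                intro i; split_ifs <;> simp
              simp only [this]
              rw [Finset.prod_ite_mem, Finset.univ_inter]
            have h2 : ∏ i, (X i : MvPolynomial (Fin d) ℤ) ^
                (if i = i0 then q * (d - (j+1)) else 0) = (X i0) ^ (q * (d - (j+1))) := by
              rw [Finset.prod_eq_single i0]
              · simp
              · intro b _ hb; simp [hb]
              · simp
            rw [h1, h2, pow_mul, zsmul_eq_mul]
            push_cast
            ring
          rw [e2, map_zsmul, map_sum]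
          refine Sp.smul_mem _ (Sp.sum_mem fun t ht => ?_)
          refine ih _ ?_ _ rfl
          have hc : t.card = j + 1 := (Finset.mem_powersetCard.1 ht).2
          rw [Finset.sum_add_distrib, Finset.sum_add_distrib]
          have s1 : ∑ i : Fin d, (if i ∈ t then 1 else 0) = j + 1 := by
            rw [← hc]; simp
          have s2 : ∑ i : Fin d, (if i = i0 then q * (d - (j+1)) else 0) = q * (d - (j+1)) := by
            simp
          rw [s1, s2, ← hm, hsum, hN]
          have : q * (d - (j+1)) + q * (j+1) = q * d := by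
            rw [← mul_add]; congr 1; omega
          nlinarith
        rw [hprod]
        have : mk (((-1) ^ d) * ((∏ i, (X i : MvPolynomial (Fin d) ℤ) ^ (m' i))
              * (-(X i0 : MvPolynomial (Fin d) ℤ) ^ q) ^ d)) =
              (-((-1) ^ d) : ℤ) • ∑ j ∈ range d, mk ((∏ i, (X i : MvPolynomial (Fin d) ℤ) ^ (m' i)) *
            (aeval (fun k : Fin d => (X k : MvPolynomial (Fin d) ℤ) ^ q) (esymm (Fin d) ℤ (j + 1))
              * (-(X i0 : MvPolynomial (Fin d) ℤ) ^ q) ^ (d - (j + 1)))) := by
          rw [root_identity q i0, ← map_sum, ← map_zsmul, ← Finset.mul_sum]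
          congr 1
          rw [zsmul_eq_mul]
          push_cast
          ring
        rw [this]
        exact Sp.smul_mem _ (Sp.sum_mem hterm)
  rw [Module.finite_def, Submodule.fg_def]
  refine ⟨Set.range fun g : Fin d → Fin N =>
    mk (∏ i, (X i : MvPolynomial (Fin d) ℤ) ^ (g i : ℕ)), Set.finite_range _, ?_⟩
  rw [← hSp, eq_top_iff]
  rintro x -
  obtain ⟨F, rfl⟩ := Ideal.Quotient.mk_surjective x
  rw [F.as_sum, map_sum]
  refine Sp.sum_mem fun m _ => ?_
  have : monomial m (coeff m F) = (coeff m F) • ∏ i, (X i : MvPolynomial (Fin d) ℤ) ^ (m i) := by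
    rw [MvPolynomial.monomial_eq, Finsupp.prod_fintype _ _ (by intro i; simp), zsmul_eq_mul]
    simp
  rw [this, ← hmk, map_zsmul]
  exact Sp.smul_mem _ (key _ _ rfl)

end

end U566.BM
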