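import Pool.Agent.U566.BMGL2

/-! `GL_2` over a general field `K`: the final equivalence. -/

namespace U566.BM

open MvPolynomial Finset

set_option linter.unusedSectionVars false

noncomputable section

variable {S : Type} [Fintype S] [DecidableEq S] {p f : ℕ} [Fact p.Prime] [NeZero f]
  {j : S → ZMod f} {s : ZMod f → S} {T : Type}
  {θ : T → (Cls p f 2 → WittVector p (AlgebraicClosure (ZMod p)))}
  {n : SW p f → Reg S 2 → T → ℤ}

/-- `n a μ τ` are the multiplicities of the Serre weights `a` in the reduction of the representation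
attached to `(μ, τ)`, `θ τ` being the Brauer character of the reduction of `σ(τ)`: the Brauer
character of `a` is that of the algebraic representation with Hodge–Tate weights `htOf a`. -/
def IsMult (p : ℕ) [Fact p.Prime] (f : ℕ) [NeZero f] (j : S → ZMod f) (s : ZMod f → S)
    (θ : T → (Cls p f 2 → WittVector p (AlgebraicClosure (ZMod p))))
    (n : SW p f → Reg S 2 → T → ℤ) : Prop :=
  ∀ (μ : Reg S 2) (τ : T),
    brauer p f j μ.1 * θ τ = ∑ a, n a μ τ • brauer p f j (htOf j s a)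

variable {M : Type*} [AddCommGroup M] {Z : T → Wt S 2 → M}

lemma grT_reg (hs : ∀ k, j (s k) = k) (hn : IsMult p f j s θ n) (Y : SW p f → M) (μ : Reg S 2)
    (τ : T) (z : M) :
    (brauer p f j μ.1 * θ τ, z) ∈ GrG (fun a : SW p f => brauer p f j (htOf j s a)) Y
      ↔ z = ∑ a, n a μ τ • Y a := by
  have h : (brauer p f j μ.1 * θ τ, ∑ a, n a μ τ • Y a)
      ∈ GrG (fun a : SW p f => brauer p f j (htOf j s a)) Y :=
    (grG_iff _ Y _ _).2 ⟨fun a => n a μ τ, hn μ τ, rfl⟩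
  constructor
  · intro h'
    exact grG_unique _ Y (indep_SW hs) h' h
  · rintro rfl
    exact h

/-- the pair (Brauer character, cycle) -/
def prT (p : ℕ) [Fact p.Prime] (f : ℕ) (j : S → ZMod f)
    (θ : T → (Cls p f 2 → WittVector p (AlgebraicClosure (ZMod p))))
    (Z : T → Wt S 2 → M) (τ : T) (μ : Wt S 2) :
    (Cls p f 2 → WittVector p (AlgebraicClosure (ZMod p))) × M :=
  (brauer p f j μ * θ τ, Z τ μ)

lemma eSum_prT (τ : T) (μ : Wt S 2) (σ : S) (r : ℕ) (c : ℤ) :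
    eSum (prT p f j θ Z τ) μ σ r c
      = (eSum (brauer p f j) μ σ r c * θ τ, eSum (Z τ) μ σ r c) := by
  unfold eSum prT
  ext1
  · rw [Prod.fst_sum, Finset.sum_mul]
  · rw [Prod.snd_sum]

lemma twist_prT (τ : T) (h : TwistK p j (Z τ)) : TwistK p j (prT p f j θ Z τ) := by
  have hb : TwistK p j (brauer p f j : Wt S 2 → _) := twist_brauer (m := 1)
  refine ⟨fun μ σ σ' e => ?_, fun μ σ σ' e => ?_⟩
  · unfold prT
    rw [hb.1 μ σ σ' e, h.1 μ σ σ' e]
  · unfold prT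
    rw [hb.2 μ σ σ' e, h.2 μ σ σ' e]

theorem gl2_imp [IsAddTorsionFree M] (hs : ∀ k, j (s k) = k) (hn : IsMult p f j s θ n)
    (hZ : ∀ τ, IsAlt (Z τ)) (hT : ∀ τ, TwistK p j (Z τ)) (hE : ∀ τ, FourTermEqs p j s (Z τ))
    (Y : SW p f → M)
    (hB : ∀ (τ : T) (a : SW p f), Z τ (htOf j s a) = ∑ b, n b (regOf j s a) τ • Y b)
    (μ : Reg S 2) (τ : T) : Z τ μ.1 = ∑ a, n a μ τ • Y a := by
  have hp : p.Prime := Fact.out
  rw [← grT_reg hs hn]
  refine reduce_mem hp.two_le hs (prT p f j θ Z τ) _ ?_ ?_ ?_ μ.1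
  · apply sort_cases
    · intro μ e
      unfold prT
      rw [brauer_alt, hZ τ μ e, smul_mul_assoc]
      rfl
    · intro μ σ i k hik h
      unfold prT
      rw [brauer_rep μ σ hik h, alt_rep (hZ τ) μ σ hik h, zero_mul]
      rfl
  · intro ν hν
    obtain ⟨a, ha⟩ := norm_SW hs (twist_prT (θ := θ) τ (hT τ)) ν hν
    rw [ha]
    exact (grT_reg hs hn Y (regOf j s a) τ _).2 (hB τ a)
  · intro ν hν
    rw [restricted_two] at hν
    push Not at hν
    obtain ⟨σ, hg, he⟩ := hE τ ν hν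
    refine ⟨σ, 0, 1, rfl, hg, ?_⟩
    rw [fourTerm_iff] at he
    have hb := reduce_of_eqs (p := p) hs (X := brauer p f j) brauer_fibre brauer_frob ν.1 σ 1
    change ReduceEq p j s (prT p f j θ Z τ) ν.1 σ 1
    unfold ReduceEq at *
    rw [eSum_prT, eSum_prT, hb, he]

lemma all_memT [IsAddTorsionFree M] (hs : ∀ k, j (s k) = k) (hn : IsMult p f j s θ n)
    (hZ : ∀ τ, IsAlt (Z τ)) (Y : SW p f → M)
    (h : ∀ (μ : Reg S 2) (τ : T), Z τ μ.1 = ∑ a, n a μ τ • Y a) (τ : T) (μ : Wt S 2) :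
    prT p f j θ Z τ μ ∈ GrG (fun a : SW p f => brauer p f j (htOf j s a)) Y := by
  obtain ⟨ε, ν, h1, h2⟩ := exists_reg (p := p) (f := f) (j := j) (hZ τ) μ
  have h3 := Submodule.smul_mem _ ε ((grT_reg hs hn Y ν τ _).2 (h ν τ))
  unfold prT
  rw [h1, h2, smul_mul_assoc]
  exact h3

theorem gl2_twist [IsAddTorsionFree M] (hs : ∀ k, j (s k) = k) (hn : IsMult p f j s θ n)
    (hZ : ∀ τ, IsAlt (Z τ)) (Y : SW p f → M)
    (h : ∀ (μ : Reg S 2) (τ : T), Z τ μ.1 = ∑ a, n a μ τ • Y a) (τ : T) :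
    TwistK p j (Z τ) := by
  have hb : TwistK p j (brauer p f j : Wt S 2 → _) := twist_brauer (m := 1)
  refine ⟨fun μ σ σ' e => ?_, fun μ σ σ' e => ?_⟩
  · have h1 := all_memT hs hn hZ Y h τ (bump μ σ univ 1)
    have h2 := all_memT hs hn hZ Y h τ (bump μ σ' univ 1)
    unfold prT at h1 h2
    rw [hb.1 μ σ σ' e] at h1
    exact grG_unique _ Y (indep_SW hs) h1 h2
  · have h1 := all_memT hs hn hZ Y h τ (bump μ σ univ (p : ℤ))
    have h2 := all_memT hs hn hZ Y h τ (bump μ σ' univ 1)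
    unfold prT at h1 h2
    rw [hb.2 μ σ σ' e] at h1
    exact grG_unique _ Y (indep_SW hs) h1 h2

theorem gl2_four [IsAddTorsionFree M] (hs : ∀ k, j (s k) = k) (hn : IsMult p f j s θ n)
    (hZ : ∀ τ, IsAlt (Z τ)) (Y : SW p f → M)
    (h : ∀ (μ : Reg S 2) (τ : T), Z τ μ.1 = ∑ a, n a μ τ • Y a) (τ : T) (μ : Wt S 2) (σ : S) :
    FourTerm p j s (Z τ) μ σ := by
  rw [fourTerm_iff]
  have hsum : ∀ (μ : Wt S 2) (σ : S) (r : ℕ) (c : ℤ), eSum (prT p f j θ Z τ) μ σ r c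
      ∈ GrG (fun a : SW p f => brauer p f j (htOf j s a)) Y :=
    fun μ σ r c => Submodule.sum_mem _ fun I _ => all_memT hs hn hZ Y h τ _
  have hb := reduce_of_eqs (p := p) hs (X := brauer p f j) brauer_fibre brauer_frob μ σ 1
  unfold ReduceEq at *
  have e1 := hsum (bump μ σ (low 2 1) (-(gapBound p j s σ : ℤ))) σ 1 (gapBound p j s σ : ℤ)
  have e2 := hsum (bump μ σ (low 2 1) (-(gapBound p j s σ : ℤ))) (target j s σ) 1 1
  rw [eSum_prT] at e1 e2
  rw [hb] at e1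
  exact grG_unique _ Y (indep_SW hs) e1 e2

/-- with the trivial type, the numbers are forced -/
theorem gl2_forced (hs : ∀ k, j (s k) = k) (hn : IsMult p f j s θ n)
    {t0 : T} (ht : θ t0 = 1) (Y : SW p f → M)
    (h : ∀ (μ : Reg S 2) (τ : T), Z τ μ.1 = ∑ a, n a μ τ • Y a) (a : SW p f) :
    Y a = Z t0 (htOf j s a) := by
  have h1 := (grT_reg hs hn Y (regOf j s a) t0 _).2 (h (regOf j s a) t0)
  rw [ht, mul_one] at h1
  have h2 : (brauer p f j (htOf j s a), Y a)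
      ∈ GrG (fun a : SW p f => brauer p f j (htOf j s a)) Y := Submodule.subset_span ⟨a, rfl⟩
  exact grG_unique _ Y (indep_SW hs) h2 h1

end

end U566.BM
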