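import Pool.Agent.U566.BMDeep
import Pool.Agent.U566.BMTypesQ
import Pool.Agent.U566.BMGL2b

/-! Reduction to deep Hodge types: the crystalline case, the case of `ℚ_p`, the case of `GL_2`. -/

namespace U566.BM

open MvPolynomial Finset

set_option linter.unusedSectionVars false

noncomputable section

section crys

variable {S : Type} [Fintype S] [DecidableEq S] {d : ℕ} {p f : ℕ} [Fact p.Prime] [NeZero f]
  {j : S → ZMod f} {W : Type} [Fintype W] {M : Type*} [AddCommGroup M] {Z : Wt S d → M}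

/-- The crystalline relations between Hodge types with all gaps at least `C`. -/
def DeepBM (p f : ℕ) [Fact p.Prime] (j : S → ZMod f) (C : ℕ) (Z : Wt S d → M) : Prop :=
  ∀ c : {μ : Reg S d // Deep C μ.1} →₀ ℤ,
    Finsupp.linearCombination ℤ (fun μ : {μ : Reg S d // Deep C μ.1} => brauer p f j μ.1.1) c = 0 →
      Finsupp.linearCombination ℤ (fun μ : {μ : Reg S d // Deep C μ.1} => Z μ.1.1) c = 0

/-- Polynomial behaviour of degree at most `d(d-1)/2` along the progressions `μ + k N ρ_σ` of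
regular tuples. -/
def RhoPolyC (N : ℕ) (Z : Wt S d → M) : Prop :=
  ∀ (σ : S) (μ : Reg S d), diffSum Z (d * (d - 1) / 2 + 1) N (rhoAt d σ) μ.1 = 0

lemma diffSum_pair' {F : Type*} [AddCommGroup F] (g : Wt S d → F) (h : Wt S d → M) (n N : ℕ)
    (v : S → Fin d → ℕ) (μ : Wt S d) :
    diffSum (fun μ => (g μ, h μ)) n N v μ = (diffSum g n N v μ, diffSum h n N v μ) := by
  unfold diffSum
  ext1
  · rw [Prod.fst_sum]
    refine Finset.sum_congr rfl fun k _ => ?_
    rw [Prod.smul_fst]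
  · rw [Prod.snd_sum]
    refine Finset.sum_congr rfl fun k _ => ?_
    rw [Prod.smul_snd]

theorem polyC_of_rel (h : BMRelations p f j Z) {N : ℕ}
    (hN : ∀ k, 1 ≤ k → k ≤ d → ((p ^ f) ^ k - 1) ∣ N) (μ : Reg S d) (s : Finset S)
    {v : S → Fin d → ℕ} (hv : ∀ σ, Antitone (v σ)) (hv0 : ∀ σ, σ ∉ s → ∀ i, v σ i = 0) :
    diffSum Z (s.card * (d * (d - 1) / 2) + 1) N v μ.1 = 0 := by
  unfold BMRelations at h
  rw [rel_iff_graph] at h
  refine h _ ?_
  have h1 : diffSum (fun μ => (brauer p f j μ, Z μ)) (s.card * (d * (d - 1) / 2) + 1)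
      N v μ.1 ∈ GrI (fun x : Reg S d => brauer p f j x.1) (fun x : Reg S d => Z x.1) := by
    unfold diffSum
    refine Submodule.sum_mem _ fun k _ => Submodule.smul_mem _ _ ?_
    exact Submodule.subset_span ⟨⟨shiftBy μ.1 N v k, shift_reg μ N hv k⟩, rfl⟩
  rw [diffSum_pair', ← tri_eq, brauer_diff hN s v hv0, tri_eq] at h1
  exact h1

theorem crysRel_iff_deep {N : ℕ} (hN0 : 0 < N)
    (hN : ∀ k, 1 ≤ k → k ≤ d → ((p ^ f) ^ k - 1) ∣ N) (C : ℕ) :
    BMRelations p f j Z ↔ DeepBM p f j C Z ∧ RhoPolyC N Z := by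
  constructor
  · intro h
    refine ⟨?_, fun σ μ => ?_⟩
    · unfold BMRelations at h
      unfold DeepBM
      rw [rel_iff_graph] at h ⊢
      intro z hz
      refine h z ?_
      have hle : GrI (fun x : {μ : Reg S d // Deep C μ.1} => brauer p f j x.1.1)
            (fun x : {μ : Reg S d // Deep C μ.1} => Z x.1.1)
          ≤ GrI (fun x : Reg S d => brauer p f j x.1) (fun x : Reg S d => Z x.1) := by
        conv_lhs => unfold GrI
        rw [Submodule.span_le]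
        rintro _ ⟨x, rfl⟩
        exact Submodule.subset_span ⟨x.1, rfl⟩
      exact hle hz
    · have h1 := polyC_of_rel h hN μ {σ} (v := rhoAt d σ) (rhoAt_anti σ) (rhoAt_supp σ)
      rwa [Finset.card_singleton, one_mul] at h1
  · rintro ⟨h1, h2⟩
    unfold BMRelations
    unfold DeepBM at h1
    rw [rel_iff_graph] at h1 ⊢
    intro z hz
    refine h1 z ?_
    have hle : GrI (fun x : Reg S d => brauer p f j x.1) (fun x : Reg S d => Z x.1)
        ≤ GrI (fun x : {μ : Reg S d // Deep C μ.1} => brauer p f j x.1.1)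
            (fun x : {μ : Reg S d // Deep C μ.1} => Z x.1.1) := by
      conv_lhs => unfold GrI
      rw [Submodule.span_le]
      rintro _ ⟨x, rfl⟩
      refine mem_of_deep (fun μ => (brauer p f j μ, Z μ)) _
        (n := d * (d - 1) / 2 + 1) (C := C) hN0 ?_ ?_ x
      · intro σ μ
        rw [diffSum_pair', brauer_rho hN, h2 σ μ]
        rfl
      · intro μ hμ
        exact Submodule.subset_span ⟨⟨μ, hμ⟩, rfl⟩
    exact hle hz

/-- the crystalline data as pair data with one type -/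
def toPair (D : SerreWeights p f d j W) : PairData p f d j Unit W where
  θ := fun _ => 1
  β := D.β
  n := fun k μ _ => D.n k μ
  indep := D.indep
  mult := fun μ _ => by rw [mul_one]; exact D.mult μ

theorem crys_deep_iff (D : SerreWeights p f d j W) {N : ℕ} (hN0 : 0 < N)
    (hN : ∀ k, 1 ≤ k → k ≤ d → ((p ^ f) ^ k - 1) ∣ N) (C : ℕ) (Y : W → M) :
    (∀ μ : Reg S d, Z μ.1 = ∑ k, D.n k μ • Y k) ↔
      (∀ μ : Reg S d, Deep C μ.1 → Z μ.1 = ∑ k, D.n k μ • Y k) ∧ RhoPolyC N Z := by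
  have h := deep_iff (toPair D) (Z := fun _ => Z) hN0 hN C Y
  constructor
  · intro h1
    obtain ⟨h2, h3⟩ := h.1 fun μ _ => h1 μ
    exact ⟨fun μ hμ => h2 μ hμ (), fun σ μ => h3 () σ μ⟩
  · rintro ⟨h1, h2⟩ μ
    exact h.2 ⟨fun μ hμ _ => h1 μ hμ, fun _ σ μ => h2 σ μ⟩ μ ()

end crys

section qp

variable {n : ℕ} {p : ℕ} [Fact p.Prime] {T W : Type} [Fintype W] {M : Type*} [AddCommGroup M]

/-- All gaps of `h` are at least `C`. -/
def GapsGe (C : ℕ) {n : ℕ} (h : Fin n → ℤ) : Prop :=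
  ∀ a b : Fin n, (a : ℕ) + 1 = b → (C : ℤ) ≤ h a - h b

/-- `h + k N v` -/
def shiftQ {n : ℕ} (h : Fin n → ℤ) (N : ℕ) (v : Fin n → ℕ) (k : ℕ) : Fin n → ℤ :=
  fun i => h i + ((k * N * v i : ℕ) : ℤ)

/-- For every type, `Z τ` is polynomial of degree at most `n(n-1)/2` along all progressions
`h + k N v`, `h` regular and `v` non-increasing: the alternating sums vanish. -/
def PolyQ (N : ℕ) {n : ℕ} (Z : T → (Fin n → ℤ) → M) : Prop :=
  ∀ (τ : T) (h : Dom n) (v : Fin n → ℕ), Antitone v →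
    ∑ k ∈ range (n * (n - 1) / 2 + 2),
      ((-1) ^ (n * (n - 1) / 2 + 1 - k) * ((n * (n - 1) / 2 + 1).choose k : ℤ)) •
        Z τ (shiftQ h.1 N v k) = 0

/-- Serre weights and inertial types of `GL_n` over `ℚ_p`. -/
structure QpPairs (p : ℕ) [Fact p.Prime] (n : ℕ) (T W : Type) [Fintype W] where
  /-- Brauer characters of the reductions of the `σ(τ)` -/
  θ : T → (Cls p 1 n → WittVector p (AlgebraicClosure (ZMod p)))
  /-- Brauer characters of the Serre weights -/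
  β : W → (Cls p 1 n → WittVector p (AlgebraicClosure (ZMod p)))
  /-- multiplicities `n_{λ,τ}(V)` -/
  mlt : W → Dom n → T → ℤ
  /-- Brauer: irreducible Brauer characters are linearly independent -/
  indep : LinearIndependent ℤ β
  /-- definition of the multiplicities -/
  mult : ∀ (h : Dom n) (τ : T), weylFun p h.1 * θ τ = ∑ k, mlt k h τ • β k

/-- the pair data -/
def QpPairs.pair (D : QpPairs p n T W) : PairData p 1 n jQ T W where
  θ := D.θ
  β := D.β
  n := fun k μ τ => D.mlt k ⟨μ.1 (), μ.2 ()⟩ τ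
  indep := D.indep
  mult := fun μ τ => by
    rw [brauer_eq_weylFun]
    exact D.mult ⟨μ.1 (), μ.2 ()⟩ τ

lemma deepQ (C : ℕ) (μ : Wt Unit n) : Deep C μ ↔ GapsGe C (μ ()) :=
  ⟨fun h a b hab => h () a b hab, fun h σ a b hab => h a b hab⟩

lemma rho_liftQ {Z : T → (Fin n → ℤ) → M} {N : ℕ} (h : PolyQ N Z) :
    RhoPoly N (fun τ => liftQ (n := n) (Z τ)) := by
  intro τ σ μ
  have h1 := h τ ⟨μ.1 (), μ.2 ()⟩ (rhoAt n σ ()) (rhoAt_anti σ ())
  exact h1

theorem deepQ_iff (D : QpPairs p n T W) {Z : T → (Fin n → ℤ) → M} {N : ℕ} (hN0 : 0 < N)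
    (hN : ∀ k, 1 ≤ k → k ≤ n → (p ^ k - 1) ∣ N) (C : ℕ) (Y : W → M) :
    (∀ (h : Dom n) (τ : T), Z τ h.1 = ∑ k, D.mlt k h τ • Y k) ↔
      (∀ h : Dom n, GapsGe C h.1 → ∀ τ : T, Z τ h.1 = ∑ k, D.mlt k h τ • Y k) ∧
        PolyQ N Z := by
  have hN' : ∀ k, 1 ≤ k → k ≤ n → ((p ^ 1) ^ k - 1) ∣ N := by
    intro k h1 h2
    rw [pow_one]
    exact hN k h1 h2
  constructor
  · intro h
    refine ⟨fun h' _ τ => h h' τ, fun τ h' v hv => ?_⟩
    set μ : Reg Unit n := ⟨fun _ => h'.1, fun _ => h'.2⟩ with hμ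
    set w : Unit → Fin n → ℕ := fun _ => v with hw
    have hall : ∀ ν : Reg Unit n, (brauer p 1 jQ ν.1 * D.θ τ, liftQ (Z τ) ν.1) ∈ GrG D.β Y := by
      intro ν
      exact (grG_reg D.pair Y ν τ _).2 (h ⟨ν.1 (), ν.2 ()⟩ τ)
    have h1 : diffSum (fun μ => (brauer p 1 jQ μ * D.θ τ, liftQ (Z τ) μ))
        (n * (n - 1) / 2 + 1) N w μ.1 ∈ GrG D.β Y := by
      unfold diffSum
      refine Submodule.sum_mem _ fun k _ => Submodule.smul_mem _ _ ?_
      exact hall ⟨shiftBy μ.1 N w k, shift_reg μ N (fun _ => hv) k⟩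
    have h2 := brauer_diff (p := p) (f := 1) (j := jQ) hN' (Finset.univ : Finset Unit) w
      (fun a ha => absurd (Finset.mem_univ a) ha) μ.1
    rw [Finset.card_univ, Fintype.card_unit, one_mul, tri_eq] at h2
    rw [diffSum_pair, h2, zero_mul] at h1
    exact grG_unique D.β Y D.indep h1 (Submodule.zero_mem _)
  · rintro ⟨h1, h2⟩ h' τ
    have h3 := (deep_iff D.pair (Z := fun τ => liftQ (n := n) (Z τ)) hN0 hN' C Y).2
      ⟨fun μ hμ τ => h1 ⟨μ.1 (), μ.2 ()⟩ ((deepQ C μ.1).1 hμ) τ, rho_liftQ h2⟩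
      ⟨fun _ => h'.1, fun _ => h'.2⟩ τ
    exact h3

end qp

section gl2

variable {S : Type} [Fintype S] [DecidableEq S] {p f : ℕ} [Fact p.Prime] [NeZero f]
  {j : S → ZMod f} {s : ZMod f → S} {T : Type}
  {θ : T → (Cls p f 2 → WittVector p (AlgebraicClosure (ZMod p)))}
  {n : SW p f → Reg S 2 → T → ℤ} {M : Type*} [AddCommGroup M]

/-- Raising the larger weight at `σ` in steps of `N` gives arithmetic progressions. -/
def Arith (N : ℕ) (Z : T → Wt S 2 → M) : Prop :=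
  ∀ (τ : T) (μ : Reg S 2) (σ : S),
    Z τ μ.1 + Z τ (up μ.1 σ 0 (2 * N)) = (2 : ℤ) • Z τ (up μ.1 σ 0 N)

/-- the pair data -/
def pairSW (hs : ∀ k, j (s k) = k) (hn : IsMult p f j s θ n) : PairData p f 2 j T (SW p f) where
  θ := θ
  β := fun a => brauer p f j (htOf j s a)
  n := n
  indep := indep_SW hs
  mult := hn

lemma shiftBy_two (μ : Wt S 2) (N : ℕ) (σ : S) (k : ℕ) :
    shiftBy μ N (rhoAt 2 σ) k = up μ σ 0 ((k * N : ℕ) : ℤ) := by
  funext τ i
  unfold shiftBy rhoAt up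
  congr 1
  fin_cases i
  · by_cases h : τ = σ
    · simp [h]
    · simp [h]
  · by_cases h : τ = σ
    · simp [h]
    · simp [h]

lemma up_zero (μ : Wt S 2) (σ : S) : up μ σ 0 0 = μ := by
  funext τ i
  simp [up]

lemma arith_iff (Z : T → Wt S 2 → M) (N : ℕ) : RhoPoly N Z ↔ Arith N Z := by
  have key : ∀ (τ : T) (σ : S) (μ : Reg S 2),
      diffSum (Z τ) (2 * (2 - 1) / 2 + 1) N (rhoAt 2 σ) μ.1
        = Z τ μ.1 + Z τ (up μ.1 σ 0 (2 * N)) - (2 : ℤ) • Z τ (up μ.1 σ 0 N) := by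
    intro τ σ μ
    unfold diffSum
    simp only [shiftBy_two]
    rw [show 2 * (2 - 1) / 2 + 1 = 2 from rfl]
    rw [Finset.sum_range_succ, Finset.sum_range_succ, Finset.sum_range_succ, Finset.sum_range_zero]
    have e0 : up μ.1 σ 0 ((0 * N : ℕ) : ℤ) = μ.1 := by
      rw [zero_mul, Nat.cast_zero, up_zero]
    have e1 : up μ.1 σ 0 ((1 * N : ℕ) : ℤ) = up μ.1 σ 0 N := by
      rw [one_mul]
    have e2 : up μ.1 σ 0 ((2 * N : ℕ) : ℤ) = up μ.1 σ 0 (2 * N) := by
      push_cast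
      rfl
    rw [e0, e1, e2]
    norm_num
    abel
  constructor
  · intro h τ μ σ
    have h1 := h τ σ μ
    rw [key] at h1
    exact sub_eq_zero.1 h1
  · intro h τ σ μ
    rw [key]
    exact sub_eq_zero.2 (h τ μ σ)

theorem gl2_deep_iff (hs : ∀ k, j (s k) = k) (hn : IsMult p f j s θ n) {Z : T → Wt S 2 → M}
    (C : ℕ) (Y : SW p f → M) :
    (∀ (μ : Reg S 2) (τ : T), Z τ μ.1 = ∑ a, n a μ τ • Y a) ↔
      (∀ (μ : Reg S 2), (∀ σ, (C : ℤ) ≤ μ.1 σ 0 - μ.1 σ 1) → ∀ τ : T,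
        Z τ μ.1 = ∑ a, n a μ τ • Y a) ∧ Arith ((p ^ f) ^ 2 - 1) Z := by
  have hp : p.Prime := Fact.out
  have hq : 2 ≤ p ^ f := hp.two_le.trans (Nat.le_self_pow (NeZero.ne f) p)
  have hN0 : 0 < (p ^ f) ^ 2 - 1 := by
    have : 2 ^ 2 ≤ (p ^ f) ^ 2 := Nat.pow_le_pow_left hq 2
    omega
  have hN : ∀ k, 1 ≤ k → k ≤ 2 → ((p ^ f) ^ k - 1) ∣ ((p ^ f) ^ 2 - 1) := by
    intro k h1 h2
    interval_cases k
    · exact Nat.pow_sub_one_dvd_pow_sub_one _ (by norm_num)
    · exact dvd_rfl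
  have h := deep_iff (pairSW hs hn) (Z := Z) hN0 hN C Y
  rw [arith_iff] at h
  have hd : ∀ μ : Reg S 2, Deep C μ.1 ↔ ∀ σ, (C : ℤ) ≤ μ.1 σ 0 - μ.1 σ 1 := by
    intro μ
    constructor
    · intro h σ
      exact h σ 0 1 rfl
    · intro h σ a b hab
      have ha : a = 0 := by
        apply Fin.ext
        have := a.2; have := b.2
        simp only [Fin.val_zero]
        omega
      have hb : b = 1 := by
        apply Fin.ext
        rw [ha] at hab
        simpa using hab.symm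
      rw [ha, hb]
      exact h σ
  constructor
  · intro h1
    obtain ⟨h2, h3⟩ := h.1 h1
    exact ⟨fun μ hμ τ => h2 μ ((hd μ).2 hμ) τ, h3⟩
  · rintro ⟨h1, h2⟩
    exact h.2 ⟨fun μ hμ τ => h1 μ ((hd μ).1 hμ) τ, h2⟩

end gl2

end

end U566.BM
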