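import Pool.Agent.U566.BMPoints

/-! Definitions used in the statement: Weyl characters at units, Brauer characters of the
reductions of the algebraic representations, the Breuil–Mézard relations and the linear
equations. -/

namespace U566.BM

open MvPolynomial Finset

noncomputable section

/-- The Weyl character of `GL_d` with exponents `μ` (highest weight `μ - (d-1, …, 1, 0)`) at the
diagonal matrix `t` of units: the alternant quotient `det(t_k^(μ i)) / det(t_k^(d-1-i))`, computed
as `(∏ t)^(-N)` times the Schur polynomial with exponents `μ + N ≥ 0`. -/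
def weylChar {d : ℕ} {R : Type*} [CommRing R] (t : Fin d → Rˣ) (μ : Fin d → ℤ) : R :=
  (((∏ k, t k)⁻¹ ^ (∑ i, (μ i).natAbs) : Rˣ) : R) *
    aeval (fun k => (t k : R)) (schur fun i => (μ i + ∑ l, ((μ l).natAbs : ℤ)).toNat)

/-- Tuples of labelled Hodge–Tate weights (any order, repetitions allowed). -/
abbrev Wt (S : Type) (d : ℕ) : Type := S → Fin d → ℤ

/-- Regular tuples: strictly decreasing for every embedding. -/
abbrev Reg (S : Type) (d : ℕ) : Type := {μ : Wt S d // ∀ σ, StrictAnti (μ σ)}

variable {S : Type} [Fintype S] [DecidableEq S] {d : ℕ}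

/-- The classes of semisimple elements of `GL_d(F_q)`, `q = p^f`. -/
abbrev Cls (p f d : ℕ) [Fact p.Prime] : Type :=
  {a : Fin d → (AlgebraicClosure (ZMod p))ˣ // IsClass (p ^ f) a}

/-- The value at the semisimple class `a` of the Brauer character of
`⊗_σ (Weyl module with exponents μ σ) ⊗_{k, σ̄} 𝔽̄_p`, where `σ̄ = Frob^(j σ)` on `k = F_q`. -/
def brauer (p f : ℕ) [Fact p.Prime] (j : S → ZMod f) (μ : Wt S d) :
    Cls p f d → WittVector p (AlgebraicClosure (ZMod p)) :=
  fun a => ∏ σ, weylChar (fun i =>
    Units.map (WittVector.teichmuller p : AlgebraicClosure (ZMod p) →* _) (a.1 i)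
      ^ (p ^ (j σ).val)) (μ σ)

variable {M : Type*} [AddCommGroup M]

/-- Sign rule: permuting the weights at each embedding multiplies by the signs. -/
def IsAlt (Z : Wt S d → M) : Prop :=
  ∀ (μ : Wt S d) (e : S → Equiv.Perm (Fin d)),
    Z (fun σ i => μ σ (e σ i)) = (∏ σ, (Equiv.Perm.sign (e σ) : ℤ)) • Z μ

/-- The tuple `μ` with `m` added to the weights in positions `I` at the embedding `σ`. -/
def bump (μ : Wt S d) (σ : S) (I : Finset (Fin d)) (m : ℤ) : Wt S d :=
  fun τ i => μ τ i + if τ = σ ∧ i ∈ I then m else 0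

/-- `∑_{|I| = r} Z(μ + m·1_{σ,I})`. -/
def eSum (Z : Wt S d → M) (μ : Wt S d) (σ : S) (r : ℕ) (m : ℤ) : M :=
  ∑ I ∈ powersetCard r (univ : Finset (Fin d)), Z (bump μ σ I m)

/-- Fibre equations: two embeddings with the same restriction to the residue field. -/
def FibreEq {f : ℕ} (j : S → ZMod f) (Z : Wt S d → M) : Prop :=
  ∀ (μ : Wt S d) (σ σ' : S), j σ = j σ' → ∀ r : ℕ, eSum Z μ σ r 1 = eSum Z μ σ' r 1

/-- Frobenius equations: embeddings whose restrictions to the residue field differ by
Frobenius. -/
def FrobEq (p : ℕ) {f : ℕ} (j : S → ZMod f) (Z : Wt S d → M) : Prop :=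
  ∀ (μ : Wt S d) (σ σ' : S), j σ' = j σ + 1 → ∀ r : ℕ,
    eSum Z μ σ r (p : ℤ) = eSum Z μ σ' r 1

/-- Breuil–Mézard in relation form: every integral linear relation between the reductions
mod `p` of the representations `σ^crys(λ)` (that is, between their Brauer characters) holds
between the cycles. -/
def BMRelations (p f : ℕ) [Fact p.Prime] (j : S → ZMod f) (Z : Wt S d → M) : Prop :=
  ∀ c : Reg S d →₀ ℤ,
    Finsupp.linearCombination ℤ (fun μ : Reg S d => brauer p f j μ.1) c = 0 →
      Finsupp.linearCombination ℤ (fun μ : Reg S d => Z μ.1) c = 0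

/-- The Serre weights `W` with the Brauer characters `β` of the irreducible representations and
the multiplicities `n` of the reductions. -/
structure SerreWeights (p f : ℕ) [Fact p.Prime] (d : ℕ) (j : S → ZMod f)
    (W : Type) [Fintype W] where
  /-- the irreducible Brauer characters -/
  β : W → (Cls p f d → WittVector p (AlgebraicClosure (ZMod p)))
  /-- the multiplicities `n_k(λ)` -/
  n : W → Reg S d → ℤ
  /-- Brauer: irreducible Brauer characters are linearly independent -/
  indep : LinearIndependent ℤ β
  /-- `n_k(λ)` is the multiplicity of `k` in the reduction of `σ^crys(λ)` -/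
  mult : ∀ μ : Reg S d, brauer p f j μ.1 = ∑ k, n k μ • β k
  /-- Steinberg: the reductions span the Grothendieck group -/
  span : ∀ k, β k ∈ Submodule.span ℤ (Set.range fun μ : Reg S d => brauer p f j μ.1)

end

end U566.BM
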