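import Pool.Agent.U566.BMAlt

/-! Weyl characters with exponents congruent to each other modulo `N`. -/

namespace U566.BM

open MvPolynomial Finset

set_option linter.unusedSectionVars false

noncomputable section

variable {d : ℕ}

/-- `∏_{i<l} (κ_i - κ_l)` -/
def vd (κ : Fin d → ℤ) : ℤ := ∏ i : Fin d, ∏ l ∈ Finset.Ioi i, (κ i - κ l)

lemma vd_pos {κ : Fin d → ℤ} (h : StrictAnti κ) : 0 < vd κ := by
  unfold vd
  refine Finset.prod_pos fun i _ => Finset.prod_pos fun l hl => ?_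
  have := h (Finset.mem_Ioi.1 hl)
  linarith

lemma alt_scale (N : ℕ) (ν : Fin d → ℕ) : alt (fun i => N * ν i)
    = aeval (fun k : Fin d => (X k : MvPolynomial (Fin d) ℤ) ^ N) (alt ν) := by
  rw [alt, alt, AlgHom.map_det]
  congr 1
  ext1 i k
  simp [pow_mul]

lemma schur_scale (N : ℕ) (ν : Fin d → ℕ) : schur (fun i => N * ν i)
    = aeval (fun k : Fin d => (X k : MvPolynomial (Fin d) ℤ) ^ N) (schur ν) * stN N d := by
  apply mul_right_cancel₀ (vdm_ne_zero (d := d))
  rw [schur_mul_vdm, mul_assoc, ← schur_rho, schur_mul_vdm, alt_scale, alt_scale, ← schur_mul_vdm,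
    map_mul]
  rfl

section dim

open Polynomial in
lemma zdiff (a b : ℕ) : ∃ G : Polynomial ℤ, (Polynomial.X ^ a - Polynomial.X ^ b : Polynomial ℤ)
    = (Polynomial.X - Polynomial.C 1) * G ∧ G.eval 1 = (a : ℤ) - b := by
  have h1 : (Polynomial.X - Polynomial.C (1 : ℤ)) ∣ (Polynomial.X ^ a - Polynomial.X ^ b) := by
    rw [Polynomial.dvd_iff_isRoot]
    simp [Polynomial.IsRoot]
  obtain ⟨G, hG⟩ := h1
  refine ⟨G, hG, ?_⟩
  have h2 := congrArg (fun P => (Polynomial.derivative P).eval (1 : ℤ)) hG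
  simp only [Polynomial.derivative_sub, Polynomial.derivative_mul, Polynomial.derivative_X_pow,
    Polynomial.derivative_X, Polynomial.derivative_C, Polynomial.eval_sub, Polynomial.eval_add,
    Polynomial.eval_mul, Polynomial.eval_pow, Polynomial.eval_X, Polynomial.eval_C, one_pow,
    mul_one, sub_zero, sub_self, zero_mul, add_zero, Polynomial.eval_one, one_mul,
    Polynomial.eval_natCast, Polynomial.eval_zero, zero_add] at h2
  rw [← h2]
  try simp

lemma schur_dim (ν : Fin d → ℕ) : aeval (fun _ : Fin d => (1 : ℤ)) (schur ν)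
    * vd (fun i : Fin d => ((i.rev : ℕ) : ℤ)) = vd (fun i => (ν i : ℤ)) := by
  classical
  set g : MvPolynomial (Fin d) ℤ →ₐ[ℤ] Polynomial ℤ :=
    aeval (fun k : Fin d => (Polynomial.X : Polynomial ℤ) ^ (k : ℕ)) with hg
  have halt : ∀ ν : Fin d → ℕ, g (alt ν)
      = ∏ i : Fin d, ∏ l ∈ Finset.Ioi i, ((Polynomial.X : Polynomial ℤ) ^ (ν l) - Polynomial.X ^ (ν i)) := by
    intro ν
    rw [alt, AlgHom.map_det, ← Matrix.det_vandermonde]
    congr 1
    ext1 i k
    simp only [AlgHom.mapMatrix_apply, Matrix.map_apply, Matrix.of_apply, map_pow, hg, aeval_X,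
      Matrix.vandermonde_apply]
    rw [← pow_mul, ← pow_mul, mul_comm]
  choose G hG1 hG2 using zdiff
  have hfac : ∀ ν : Fin d → ℕ, g (alt ν)
      = (∏ i : Fin d, ∏ l ∈ Finset.Ioi i, (Polynomial.X - Polynomial.C (1 : ℤ)))
        * ∏ i : Fin d, ∏ l ∈ Finset.Ioi i, G (ν l) (ν i) := by
    intro ν
    rw [halt, ← Finset.prod_mul_distrib]
    refine Finset.prod_congr rfl fun i _ => ?_
    rw [← Finset.prod_mul_distrib]
    exact Finset.prod_congr rfl fun l _ => hG1 _ _
  have h1 := congrArg g (schur_mul_vdm ν)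
  rw [map_mul, vdm, hfac, hfac, mul_left_comm] at h1
  have hne : (∏ i : Fin d, ∏ l ∈ Finset.Ioi i, (Polynomial.X - Polynomial.C (1 : ℤ))) ≠ 0 :=
    Finset.prod_ne_zero_iff.2 fun i _ => Finset.prod_ne_zero_iff.2 fun l _ =>
      Polynomial.X_sub_C_ne_zero 1
  have h2 := congrArg (fun P => P.eval (1 : ℤ)) (mul_left_cancel₀ hne h1)
  simp only [Polynomial.eval_mul, Polynomial.eval_prod, hG2] at h2
  have h3 : (g (schur ν)).eval (1 : ℤ) = aeval (fun _ : Fin d => (1 : ℤ)) (schur ν) := by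
    have := hom_aeval (Polynomial.evalRingHom (1 : ℤ))
      (fun k : Fin d => (Polynomial.X : Polynomial ℤ) ^ (k : ℕ)) (schur ν)
    rw [hg]
    change (Polynomial.evalRingHom (1 : ℤ)) _ = _
    rw [this]
    simp
  rw [h3] at h2
  have h4 : ∀ κ : Fin d → ℤ, ∏ i : Fin d, ∏ l ∈ Finset.Ioi i, (κ l - κ i)
      = (∏ i : Fin d, ∏ l ∈ Finset.Ioi i, (-1 : ℤ)) * vd κ := by
    intro κ
    unfold vd
    rw [← Finset.prod_mul_distrib]
    refine Finset.prod_congr rfl fun i _ => ?_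
    rw [← Finset.prod_mul_distrib]
    refine Finset.prod_congr rfl fun l _ => ?_
    ring
  rw [h4 (fun i : Fin d => ((i.rev : ℕ) : ℤ)), h4 (fun i => (ν i : ℤ)), mul_left_comm] at h2
  refine mul_left_cancel₀ ?_ h2
  exact Finset.prod_ne_zero_iff.2 fun i _ => Finset.prod_ne_zero_iff.2 fun l _ => by norm_num

end dim

section eval

variable {R : Type*} [CommRing R]

/-- `vd` of `(d-1, …, 1, 0)` -/
def vrho (d : ℕ) : ℤ := vd (fun i : Fin d => ((i.rev : ℕ) : ℤ))

lemma vrho_pos (d : ℕ) : 0 < vrho d := by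
  refine vd_pos fun a b hab => ?_
  simp only [Fin.val_rev]
  have := a.2; have := b.2
  have : (a : ℕ) < b := hab
  omega

/-- the Weyl character with exponents `N κ + c` at a point with `t^N = 1` -/
lemma weyl_scaled (N : ℕ) (t : Fin d → Rˣ) (ht : ∀ i, t i ^ N = 1) (κ : Fin d → ℤ) (c : ℤ) :
    weylChar t (fun i => (N : ℤ) * κ i + c) * (vrho d : R)
      = (((∏ i, t i) ^ c : Rˣ) : R) * (vd κ : R) * aeval (fun k => (t k : R)) (stN N d) := by
  set A := ∑ i, (κ i).natAbs with hA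
  have hA' : ∀ i, 0 ≤ κ i + A := by
    intro i
    have h1 : (κ i).natAbs ≤ A :=
      Finset.single_le_sum (f := fun i => (κ i).natAbs) (fun _ _ => Nat.zero_le _)
        (Finset.mem_univ i)
    omega
  set ν : Fin d → ℕ := fun i => (κ i + (A : ℤ)).toNat with hν
  have hνκ : ∀ i, ((ν i : ℕ) : ℤ) = κ i + A := fun i => Int.toNat_of_nonneg (hA' i)
  set m := (c + (c.natAbs : ℤ)).toNat with hm
  have hmc : (m : ℤ) = c + (c.natAbs : ℤ) := Int.toNat_of_nonneg (by omega)
  set B := N * A + c.natAbs with hB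
  have hexp : ∀ i, (N : ℤ) * κ i + c + (B : ℤ) = ((N * ν i + m : ℕ) : ℤ) := by
    intro i
    push_cast
    rw [hνκ, hmc, hB]
    push_cast
    ring
  have h1 : weylChar t (fun i => (N : ℤ) * κ i + c)
      = (((∏ k, t k)⁻¹ ^ B : Rˣ) : R) * aeval (fun k => (t k : R))
        (schur fun i => N * ν i + m) := by
    rw [weylChar_eq t _ B (fun i => by rw [hexp i]; positivity)]
    congr 3
    funext i
    rw [hexp i, Int.toNat_natCast]
  rw [h1, schur_add (fun i => N * ν i) m, schur_scale, map_mul, map_pow, map_prod, map_mul]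
  simp only [aeval_X]
  have h2 : aeval (fun k => (t k : R)) (aeval (fun k : Fin d => (X k : MvPolynomial (Fin d) ℤ) ^ N)
      (schur ν)) = ((aeval (fun _ : Fin d => (1 : ℤ)) (schur ν) : ℤ) : R) := by
    have e1 := hom_aeval (aeval (fun k => (t k : R)) : MvPolynomial (Fin d) ℤ →ₐ[ℤ] R).toRingHom
      (fun k : Fin d => (X k : MvPolynomial (Fin d) ℤ) ^ N) (schur ν)
    have e2 := hom_aeval (Int.castRingHom R) (fun _ : Fin d => (1 : ℤ)) (schur ν)
    rw [eq_intCast] at e2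
    rw [e2]
    refine Eq.trans e1 ?_
    congr 2
    funext k
    change aeval (fun k => (t k : R)) ((X k : MvPolynomial (Fin d) ℤ) ^ N) = _
    rw [map_pow, aeval_X, ← Units.val_pow_eq_pow_val, ht k]
    simp
  rw [h2]
  have h3 := schur_dim ν
  have h4 : vd (fun i => (ν i : ℤ)) = vd κ := by
    unfold vd
    refine Finset.prod_congr rfl fun i _ => Finset.prod_congr rfl fun l _ => ?_
    change ((ν i : ℕ) : ℤ) - ((ν l : ℕ) : ℤ) = _
    rw [hνκ, hνκ]
    ring
  rw [h4] at h3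
  have h5 : ((∏ k, (t k : R)) ^ m : R) = (((∏ k, t k) ^ m : Rˣ) : R) := by simp
  have h6 : (((∏ k, t k)⁻¹ ^ B : Rˣ) : R) * (((∏ k, t k) ^ m : Rˣ) : R)
      = (((∏ i, t i) ^ c : Rˣ) : R) := by
    rw [← Units.val_mul]
    congr 1
    have e1 : (∏ k, t k) ^ N = 1 := by
      rw [← Finset.prod_pow]
      exact Finset.prod_eq_one fun i _ => ht i
    have e2 : ((∏ k, t k)⁻¹) ^ B = (∏ k, t k) ^ (-(c.natAbs : ℤ)) := by
      rw [hB, pow_add, pow_mul, inv_pow, e1, inv_one, one_pow, one_mul, inv_pow, zpow_neg,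
        zpow_natCast]
    rw [e2, ← zpow_natCast _ m, ← zpow_add, hmc]
    congr 1
    ring
  rw [h5]
  calc _ = ((((∏ k, t k)⁻¹ ^ B : Rˣ) : R) * (((∏ k, t k) ^ m : Rˣ) : R))
        * (((aeval (fun _ : Fin d => (1 : ℤ)) (schur ν) * vrho d : ℤ)) : R)
        * aeval (fun k => (t k : R)) (stN N d) := by
        push_cast
        ring
    _ = _ := by rw [h6]; unfold vrho; rw [h3]

end eval

end

end U566.BM
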