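import Pool.Agent.U566.BMEqui

/-! Pairs (Hodge type, inertial type) whose Hodge–Tate weights are congruent modulo `N`. -/

namespace U566.BM

open MvPolynomial Finset

set_option linter.unusedSectionVars false

noncomputable section

section

variable (p f d : ℕ) [Fact p.Prime]

/-- The group `F_q^×`, `q = p^f`, inside the units of the algebraic closure. -/
abbrev Fq : Type := rootsOfUnity (p ^ f - 1) (AlgebraicClosure (ZMod p))

variable {p f}

/-- The class of the scalar matrix `x`. -/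
def scal (x : Fq p f) : Cls p f d := ⟨fun _ => x.1, by
  have hp : p.Prime := Fact.out
  have h1 : (x.1) ^ (p ^ f) = x.1 := by
    have h2 : x.1 ^ (p ^ f - 1) = 1 := x.2
    have h3 : (p ^ f - 1) + 1 = p ^ f := Nat.sub_add_cancel (Nat.one_le_pow _ _ hp.pos)
    calc x.1 ^ (p ^ f) = x.1 ^ ((p ^ f - 1) + 1) := congrArg (fun n => x.1 ^ n) h3.symm
      _ = x.1 := by rw [pow_succ, h2, one_mul]
  exact Multiset.map_congr rfl fun i _ => h1⟩

end

variable {S : Type} [Fintype S] [DecidableEq S] {d : ℕ} {p f : ℕ} [Fact p.Prime]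
  {j : S → ZMod f} {T : Type} {M : Type*} [AddCommGroup M]

/-- all weights at each embedding are congruent modulo `N` -/
def CongN (N : ℕ) (μ : Wt S d) : Prop := ∀ (σ : S) (i l : Fin d), (N : ℤ) ∣ μ σ i - μ σ l

/-- The product of all differences `μ_{σ,i} - μ_{σ,l}`, `i < l`, over all embeddings; it is the
dimension of the algebraic representation times a constant. -/
def prodDiff (μ : Wt S d) : ℤ := ∏ σ, ∏ i : Fin d, ∏ l ∈ Finset.Ioi i, (μ σ i - μ σ l)

/-- The character `x ↦ [x]^(∑_σ p^(j σ) ∑_i μ_{σ,i})` of `F_q^×`, `[x]` the Teichmüller lift. -/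
def wtChar (p f : ℕ) [Fact p.Prime] (j : S → ZMod f) (μ : Wt S d) :
    Fq p f →* (WittVector p (AlgebraicClosure (ZMod p)))ˣ :=
  (zpowGroupHom (∑ σ, ((p ^ (j σ).val : ℕ) : ℤ) * ∑ i, μ σ i)).comp
    ((Units.map (WittVector.teichmuller p : AlgebraicClosure (ZMod p) →* _)).comp
      (rootsOfUnity (p ^ f - 1) (AlgebraicClosure (ZMod p))).subtype)

lemma witt_charZero (p : ℕ) [Fact p.Prime] : CharZero (WittVector p (AlgebraicClosure (ZMod p))) := by
  have hp : p.Prime := Fact.out
  obtain ⟨r, hr⟩ := CharP.exists (WittVector p (AlgebraicClosure (ZMod p)))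
  rcases CharP.char_is_prime_or_zero (WittVector p (AlgebraicClosure (ZMod p))) r with h | h
  · exfalso
    have h1 : ((r : ℕ) : WittVector p (AlgebraicClosure (ZMod p))) = 0 :=
      CharP.cast_eq_zero (WittVector p (AlgebraicClosure (ZMod p))) r
    have h2 : ((r : ℕ) : AlgebraicClosure (ZMod p)) = 0 := by
      have := congrArg (WittVector.constantCoeff (p := p) (R := AlgebraicClosure (ZMod p))) h1
      rwa [map_natCast, map_zero] at this
    have h3 : p ∣ r := (CharP.cast_eq_zero_iff (AlgebraicClosure (ZMod p)) p r).1 h2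
    have h4 : p = r := (Nat.prime_dvd_prime_iff_eq hp h).1 h3
    rw [← h4] at h1
    exact WittVector.p_nonzero p (AlgebraicClosure (ZMod p)) h1
  · subst h
    exact CharP.charP_to_charZero _

lemma prodDiff_pos (μ : Reg S d) : 0 < prodDiff μ.1 :=
  Finset.prod_pos fun σ _ => vd_pos (μ.2 σ)

lemma teich_inj {x y : (AlgebraicClosure (ZMod p))ˣ}
    (h : Units.map (WittVector.teichmuller p : AlgebraicClosure (ZMod p) →* _) x
      = Units.map (WittVector.teichmuller p : AlgebraicClosure (ZMod p) →* _) y) : x = y := by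
  have h1 := congrArg (fun u : (WittVector p (AlgebraicClosure (ZMod p)))ˣ =>
    (u : WittVector p (AlgebraicClosure (ZMod p))).coeff 0) h
  simp only [Units.coe_map, WittVector.teichmuller_coeff_zero] at h1
  exact Units.ext h1

lemma frob_inj (k : ℕ) {x y : (AlgebraicClosure (ZMod p))ˣ} (h : x ^ (p ^ k) = y ^ (p ^ k)) :
    x = y := by
  have h1 := congrArg (fun u : (AlgebraicClosure (ZMod p))ˣ => (u : AlgebraicClosure (ZMod p))) h
  simp only [Units.val_pow_eq_pow_val] at h1
  have h2 := iterateFrobenius_inj (AlgebraicClosure (ZMod p)) p k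
  refine Units.ext (h2 ?_)
  rw [iterateFrobenius_def, iterateFrobenius_def]
  exact h1

lemma tt_pow_N {N : ℕ} (hN : ∀ k, 1 ≤ k → k ≤ d → ((p ^ f) ^ k - 1) ∣ N) (a : Cls p f d)
    (i : Fin d) : tt a i ^ N = 1 := by
  have hp : p.Prime := Fact.out
  have h1 : ((a.1 i) : (AlgebraicClosure (ZMod p))ˣ) ^ N = 1 :=
    class_pow (q := p ^ f) (Nat.one_le_pow _ _ hp.pos) a.2 hN i
  rw [tt, ← map_pow, h1, map_one]

/-- the constant at a scalar class -/
def cst (N : ℕ) (j : S → ZMod f) (x : Fq p f) : (WittVector p (AlgebraicClosure (ZMod p)))ˣ :=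
  ∏ σ, ∏ i : Fin d, ∏ _l ∈ Finset.Ioi i,
    ((Units.map (WittVector.teichmuller p : AlgebraicClosure (ZMod p) →* _) x.1)
      ^ (p ^ (j σ).val)) ^ (N - 1)

lemma congN_form {N : ℕ} (hd : 0 < d) {μ : Wt S d} (hμ : CongN N μ) :
    ∃ (κ : Wt S d) (c : S → ℤ), ∀ σ, μ σ = fun i => (N : ℤ) * κ σ i + c σ := by
  choose κ hκ using hμ
  refine ⟨fun σ i => κ σ i ⟨0, hd⟩, fun σ => μ σ ⟨0, hd⟩, fun σ => ?_⟩
  funext i
  have := hκ σ i ⟨0, hd⟩
  linarith

lemma brauer_scaled {N : ℕ} (hN : ∀ k, 1 ≤ k → k ≤ d → ((p ^ f) ^ k - 1) ∣ N) {μ κ : Wt S d}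
    {c : S → ℤ} (h : ∀ σ, μ σ = fun i => (N : ℤ) * κ σ i + c σ) (a : Cls p f d) :
    brauer p f j μ a * (vrho d : WittVector p (AlgebraicClosure (ZMod p))) ^ Fintype.card S
      = ∏ σ, ((((∏ i, tt a i ^ (p ^ (j σ).val)) ^ (c σ) :
          (WittVector p (AlgebraicClosure (ZMod p)))ˣ) : WittVector p (AlgebraicClosure (ZMod p)))
        * (vd (κ σ) : WittVector p (AlgebraicClosure (ZMod p)))
        * aeval (fun k => ((tt a k ^ (p ^ (j σ).val) :
          (WittVector p (AlgebraicClosure (ZMod p)))ˣ) : WittVector p (AlgebraicClosure (ZMod p))))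
            (stN N d)) := by
  have h1 : (vrho d : WittVector p (AlgebraicClosure (ZMod p))) ^ Fintype.card S
      = ∏ _σ : S, (vrho d : WittVector p (AlgebraicClosure (ZMod p))) := by
    rw [Finset.prod_const, Finset.card_univ]
  rw [h1]
  unfold brauer
  rw [← Finset.prod_mul_distrib]
  refine Finset.prod_congr rfl fun σ _ => ?_
  rw [h σ]
  refine weyl_scaled N (fun i => tt a i ^ (p ^ (j σ).val)) (fun i => ?_) (κ σ) (c σ)
  rw [← pow_mul, mul_comm, pow_mul, tt_pow_N hN, one_pow]

lemma brauer_nonscal [Nonempty S] {N : ℕ} (hd : 0 < d)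
    (hN : ∀ k, 1 ≤ k → k ≤ d → ((p ^ f) ^ k - 1) ∣ N) {μ : Wt S d} (hμ : CongN N μ)
    (a : Cls p f d) {i l : Fin d} (h : a.1 i ≠ a.1 l) : brauer p f j μ a = 0 := by
  obtain ⟨κ, c, h1⟩ := congN_form hd hμ
  have h2 := brauer_scaled (j := j) hN h1 a
  obtain ⟨σ⟩ := (inferInstance : Nonempty S)
  rw [Finset.prod_eq_zero (Finset.mem_univ σ)] at h2
  · rcases mul_eq_zero.1 h2 with h3 | h3
    · exact h3
    · exfalso
      have h4 := (pow_eq_zero_iff (Fintype.card_ne_zero (α := S))).1 h3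
      have := witt_charZero p
      have h5 : vrho d = 0 := by exact_mod_cast h4
      have := vrho_pos d
      omega
  · rw [stN_zero N (fun i => tt a i ^ (p ^ (j σ).val)) (fun i => by
      rw [← pow_mul, mul_comm, pow_mul, tt_pow_N hN, one_pow]) (i := i) (l := l), mul_zero]
    intro h3
    apply h
    have h4 : tt a i ^ (p ^ (j σ).val) = tt a l ^ (p ^ (j σ).val) := h3
    rw [tt, tt, ← map_pow, ← map_pow] at h4
    exact frob_inj _ (teich_inj h4)

lemma brauer_scal {N : ℕ} (hd : 0 < d)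
    (hN : ∀ k, 1 ≤ k → k ≤ d → ((p ^ f) ^ k - 1) ∣ N) {μ : Wt S d} (hμ : CongN N μ)
    (x : Fq p f) :
    brauer p f j μ (scal d x) * (vrho d : WittVector p (AlgebraicClosure (ZMod p))) ^ Fintype.card S
      = (prodDiff μ : WittVector p (AlgebraicClosure (ZMod p)))
        * ((wtChar p f j μ x : (WittVector p (AlgebraicClosure (ZMod p)))ˣ) :
          WittVector p (AlgebraicClosure (ZMod p)))
        * ((cst (d := d) N j x : (WittVector p (AlgebraicClosure (ZMod p)))ˣ) :
          WittVector p (AlgebraicClosure (ZMod p))) := by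
  obtain ⟨κ, c, h1⟩ := congN_form hd hμ
  rw [brauer_scaled (j := j) hN h1 (scal d x)]
  set u : (WittVector p (AlgebraicClosure (ZMod p)))ˣ :=
    Units.map (WittVector.teichmuller p : AlgebraicClosure (ZMod p) →* _) x.1 with hu
  have hut : ∀ i : Fin d, tt (scal d x) i = u := fun i => rfl
  have huN : u ^ N = 1 := by
    have := tt_pow_N hN (scal d x) ⟨0, hd⟩
    rwa [hut] at this
  simp only [hut]
  have e1 : ((wtChar p f j μ x : (WittVector p (AlgebraicClosure (ZMod p)))ˣ))
      = ∏ σ, (u ^ (p ^ (j σ).val)) ^ (∑ i, μ σ i) := by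
    have : ((wtChar p f j μ x : (WittVector p (AlgebraicClosure (ZMod p)))ˣ))
        = u ^ (∑ σ, ((p ^ (j σ).val : ℕ) : ℤ) * ∑ i, μ σ i) := rfl
    rw [this, ← prod_zpow_sum]
    refine Finset.prod_congr rfl fun σ _ => ?_
    rw [zpow_mul, zpow_natCast]
  rw [e1, cst, prodDiff, Units.coe_prod, Units.coe_prod, Int.cast_prod, ← Finset.prod_mul_distrib,
    ← Finset.prod_mul_distrib]
  refine Finset.prod_congr rfl fun σ _ => ?_
  set y := u ^ (p ^ (j σ).val) with hy
  have hyN : y ^ N = 1 := by rw [hy, ← pow_mul, mul_comm, pow_mul, huN, one_pow]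
  have e2 : (∏ _i : Fin d, y) ^ (c σ) = y ^ (∑ i, μ σ i) := by
    rw [Finset.prod_const, Finset.card_univ, Fintype.card_fin, h1 σ, Finset.sum_add_distrib,
      Finset.sum_const, Finset.card_univ, Fintype.card_fin, nsmul_eq_mul, ← Finset.mul_sum,
      zpow_add, zpow_mul, zpow_natCast, hyN, one_zpow, one_mul, zpow_mul, zpow_natCast]
  rw [e2]
  have e3 : (aeval fun _ : Fin d => ((y : (WittVector p (AlgebraicClosure (ZMod p)))ˣ) :
      WittVector p (AlgebraicClosure (ZMod p)))) (stN N d)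
      = ∏ i : Fin d, ∏ _l ∈ Finset.Ioi i, ((N : WittVector p (AlgebraicClosure (ZMod p)))
        * (y : WittVector p (AlgebraicClosure (ZMod p))) ^ (N - 1)) := by
    rw [stN, map_prod]
    refine Finset.prod_congr rfl fun i _ => ?_
    rw [map_prod]
    refine Finset.prod_congr rfl fun l _ => ?_
    rw [map_sum]
    simp only [map_mul, map_pow, aeval_X]
    rw [Finset.sum_congr rfl (g := fun _ => (y : WittVector p (AlgebraicClosure (ZMod p)))
      ^ (N - 1))]
    · rw [Finset.sum_const, card_range, nsmul_eq_mul]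
    · intro k hk
      rw [← pow_add]
      congr 1
      have := Finset.mem_range.1 hk
      omega
  rw [e3]
  have e4 : ∏ i : Fin d, ∏ l ∈ Finset.Ioi i, (μ σ i - μ σ l)
      = (∏ i : Fin d, ∏ _l ∈ Finset.Ioi i, (N : ℤ)) * vd (κ σ) := by
    unfold vd
    rw [← Finset.prod_mul_distrib]
    refine Finset.prod_congr rfl fun i _ => ?_
    rw [← Finset.prod_mul_distrib]
    refine Finset.prod_congr rfl fun l _ => ?_
    rw [h1 σ]
    ring
  rw [e4]
  simp only [Finset.prod_mul_distrib]
  push_cast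
  ring

/-- The characters `θ τ` of the reductions of the `σ(τ)`, their dimensions and central
characters. -/
structure TypeChars (p f : ℕ) [Fact p.Prime] (d : ℕ) (T : Type) where
  /-- the Brauer character of the reduction of `σ(τ)` -/
  θ : T → (Cls p f d → WittVector p (AlgebraicClosure (ZMod p)))
  /-- the dimension of `σ(τ)` -/
  deg : T → ℕ
  /-- the dimension is positive -/
  deg_pos : ∀ τ, 0 < deg τ
  /-- the central character of `σ(τ)` on `F_q^×` -/
  ω : T → (Fq p f →* (WittVector p (AlgebraicClosure (ZMod p)))ˣ)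
  /-- scalar matrices act through the central character -/
  scalar : ∀ (τ : T) (x : Fq p f), θ τ (scal d x) = (deg τ : WittVector p (AlgebraicClosure (ZMod p)))
    * ((ω τ x : (WittVector p (AlgebraicClosure (ZMod p)))ˣ) :
      WittVector p (AlgebraicClosure (ZMod p)))

/-- the weight `dim` of a pair -/
def wgtP (D : TypeChars p f d T) (y : Wt S d × T) : ℤ := (D.deg y.2 : ℤ) * prodDiff y.1

/-- the central character of a pair (up to a fixed character) -/
def cc (j : S → ZMod f) (D : TypeChars p f d T) (y : Wt S d × T) :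
    Fq p f →* (WittVector p (AlgebraicClosure (ZMod p)))ˣ := wtChar p f j y.1 * D.ω y.2

lemma pow_pred_one {G : Type*} [Group G] {y : G} {n : ℕ} (hn : 1 ≤ n) (h : y = y ^ n) :
    y ^ (n - 1) = 1 := by
  obtain ⟨m, rfl⟩ : ∃ m, n = m + 1 := ⟨n - 1, by omega⟩
  rw [Nat.add_sub_cancel]
  rw [pow_succ] at h
  exact mul_eq_right.1 h.symm

lemma pair_scal (D : TypeChars p f d T) {N : ℕ} (hd : 0 < d)
    (hN : ∀ k, 1 ≤ k → k ≤ d → ((p ^ f) ^ k - 1) ∣ N) {μ : Wt S d} (hμ : CongN N μ) (τ : T)
    (x : Fq p f) :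
    (brauer p f j μ * D.θ τ) (scal d x)
        * (vrho d : WittVector p (AlgebraicClosure (ZMod p))) ^ Fintype.card S
      = ((wgtP D (μ, τ) : ℤ) : WittVector p (AlgebraicClosure (ZMod p)))
        * ((cc j D (μ, τ) x : (WittVector p (AlgebraicClosure (ZMod p)))ˣ) :
          WittVector p (AlgebraicClosure (ZMod p)))
        * ((cst (d := d) N j x : (WittVector p (AlgebraicClosure (ZMod p)))ˣ) :
          WittVector p (AlgebraicClosure (ZMod p))) := by
  have h := brauer_scal (j := j) hd hN hμ x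
  rw [Pi.mul_apply, D.scalar, mul_right_comm, h, wgtP, cc, MonoidHom.mul_apply, Units.val_mul]
  push_cast
  ring

lemma pair_fun (D : TypeChars p f d T) {N : ℕ} [Nonempty S] (hd : 0 < d)
    (hN : ∀ k, 1 ≤ k → k ≤ d → ((p ^ f) ^ k - 1) ∣ N) {μ μ' : Wt S d} (hμ : CongN N μ)
    (hμ' : CongN N μ') (τ τ' : T) (h : cc j D (μ, τ) = cc j D (μ', τ')) :
    wgtP D (μ', τ') • (brauer p f j μ * D.θ τ) = wgtP D (μ, τ) • (brauer p f j μ' * D.θ τ') := by
  have hp : p.Prime := Fact.out
  have hch := witt_charZero p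
  funext a
  rw [Pi.smul_apply, Pi.smul_apply]
  by_cases ha : ∀ i l, a.1 i = a.1 l
  · -- scalar
    have hx : (a.1 ⟨0, hd⟩) ^ (p ^ f - 1) = 1 := by
      have h1 := a.2
      unfold IsClass at h1
      have h2 : (a.1 ⟨0, hd⟩) ^ (p ^ f) ∈ Multiset.map a.1 univ.val := by
        rw [← h1]
        exact Multiset.mem_map.2 ⟨⟨0, hd⟩, Finset.mem_univ (⟨0, hd⟩ : Fin d), rfl⟩
      obtain ⟨k, -, hk⟩ := Multiset.mem_map.1 h2
      rw [ha k ⟨0, hd⟩] at hk
      exact pow_pred_one (Nat.one_le_pow _ _ hp.pos) hk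
    set x : Fq p f := ⟨a.1 ⟨0, hd⟩, hx⟩ with hxdef
    have hax : a = scal d x := by
      apply Subtype.ext
      funext i
      exact ha i ⟨0, hd⟩
    rw [hax]
    have hne : (vrho d : WittVector p (AlgebraicClosure (ZMod p))) ^ Fintype.card S ≠ 0 := by
      refine pow_ne_zero _ ?_
      have := vrho_pos d
      exact_mod_cast this.ne'
    apply mul_right_cancel₀ hne
    rw [smul_mul_assoc, smul_mul_assoc, pair_scal D hd hN hμ τ x, pair_scal D hd hN hμ' τ' x, h,
      zsmul_eq_mul, zsmul_eq_mul]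
    ring
  · push Not at ha
    obtain ⟨i, l, hil⟩ := ha
    rw [Pi.mul_apply, Pi.mul_apply, brauer_nonscal hd hN hμ a hil, brauer_nonscal hd hN hμ' a hil,
      zero_mul, zero_mul, smul_zero, smul_zero]

/-- Dedekind: relations between functions `w_y ψ_y` hold for each character separately. -/
lemma dedekind {G ι : Type*} [Group G] {L : Type*} [CommRing L] [IsDomain L] [CharZero L]
    (ψ : ι → (G →* Lˣ)) (w : ι → ℤ) (s : Finset ι) (c : ι → ℤ)
    (h : ∀ x : G, ∑ y ∈ s, (c y * w y : ℤ) * ((ψ y x : Lˣ) : L) = 0) (φ : G →* Lˣ)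
    [DecidablePred fun y => ψ y = φ] :
    ∑ y ∈ s with ψ y = φ, c y * w y = 0 := by
  classical
  have hli := linearIndependent_monoidHom G L
  set e : (G →* Lˣ) → (G →* L) := fun φ => (Units.coeHom L).comp φ with he
  have hinj : Function.Injective e := by
    intro φ φ' hφ
    ext x
    exact congrArg (fun g : G →* L => g x) hφ
  rw [linearIndependent_iff'] at hli
  have h1 := hli (s.image fun y => e (ψ y))
    (fun χ => ((∑ y ∈ s with e (ψ y) = χ, c y * w y : ℤ) : L)) (by
      funext x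
      rw [Finset.sum_apply, Pi.zero_apply, ← h x]
      rw [← Finset.sum_fiberwise_of_maps_to (s := s) (t := s.image fun y => e (ψ y))
        (g := fun y => e (ψ y)) (fun y hy => Finset.mem_image_of_mem _ hy)]
      refine Finset.sum_congr rfl fun χ _ => ?_
      rw [Pi.smul_apply, smul_eq_mul, Int.cast_sum, Finset.sum_mul]
      refine Finset.sum_congr rfl fun y hy => ?_
      rw [← (Finset.mem_filter.1 hy).2]
      rfl)
  by_cases hφ : e φ ∈ s.image fun y => e (ψ y)
  · have h2 := h1 (e φ) hφ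
    have h3 : ∑ y ∈ s with e (ψ y) = e φ, c y * w y = 0 := by exact_mod_cast h2
    rw [← h3]
    refine Finset.sum_congr ?_ fun _ _ => rfl
    ext y
    simp only [Finset.mem_filter, hinj.eq_iff]
  · rw [Finset.filter_false_of_mem, Finset.sum_empty]
    intro y hy h4
    exact hφ (Finset.mem_image.2 ⟨y, hy, by rw [h4]⟩)

/-- the relations between the pairs `(μ, τ)` with `μ` regular and all weights congruent modulo
`N` at each embedding -/
def CongRelations (p f : ℕ) [Fact p.Prime] (j : S → ZMod f) (N : ℕ)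
    (θ : T → (Cls p f d → WittVector p (AlgebraicClosure (ZMod p)))) (Z : T → Wt S d → M) :
    Prop :=
  ∀ c : ({μ : Reg S d // CongN N μ.1} × T) →₀ ℤ,
    Finsupp.linearCombination ℤ (fun x : {μ : Reg S d // CongN N μ.1} × T =>
      brauer p f j x.1.1.1 * θ x.2) c = 0 →
      Finsupp.linearCombination ℤ (fun x : {μ : Reg S d // CongN N μ.1} × T =>
        Z x.2 x.1.1.1) c = 0

/-- **The relations between congruent pairs.** -/
theorem cong_iff [IsAddTorsionFree M] [Nonempty S] (D : TypeChars p f d T) {N : ℕ} (hd : 0 < d)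
    (hN : ∀ k, 1 ≤ k → k ≤ d → ((p ^ f) ^ k - 1) ∣ N) (Z : T → Wt S d → M) :
    CongRelations p f j N D.θ Z ↔
      ∀ (μ μ' : Reg S d), CongN N μ.1 → CongN N μ'.1 → ∀ τ τ' : T,
        wtChar p f j μ.1 * D.ω τ = wtChar p f j μ'.1 * D.ω τ' →
        ((D.deg τ' : ℤ) * prodDiff μ'.1) • Z τ μ.1 = ((D.deg τ : ℤ) * prodDiff μ.1) • Z τ' μ'.1 := by
  constructor
  · intro h μ μ' hμ hμ' τ τ' hcc
    unfold CongRelations at h
    rw [rel_iff_graph] at h
    set G := GrI (fun x : {μ : Reg S d // CongN N μ.1} × T => brauer p f j x.1.1.1 * D.θ x.2)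
      (fun x : {μ : Reg S d // CongN N μ.1} × T => Z x.2 x.1.1.1) with hG
    have h1 : (brauer p f j μ.1 * D.θ τ, Z τ μ.1) ∈ G := Submodule.subset_span ⟨(⟨μ, hμ⟩, τ), rfl⟩
    have h2 : (brauer p f j μ'.1 * D.θ τ', Z τ' μ'.1) ∈ G :=
      Submodule.subset_span ⟨(⟨μ', hμ'⟩, τ'), rfl⟩
    have h3 := Submodule.smul_mem G (wgtP D (μ'.1, τ')) h1
    have h4 := Submodule.smul_mem G (wgtP D (μ.1, τ)) h2
    rw [Prod.smul_mk] at h3 h4
    rw [pair_fun D hd hN hμ hμ' τ τ' hcc] at h3
    exact eq_of_graph h h3 h4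
  · intro h c hc
    classical
    have hch := witt_charZero p
    set ψ : ({μ : Reg S d // CongN N μ.1} × T) →
        (Fq p f →* (WittVector p (AlgebraicClosure (ZMod p)))ˣ) :=
      fun y => cc j D (y.1.1.1, y.2) with hψ
    set w : ({μ : Reg S d // CongN N μ.1} × T) → ℤ := fun y => wgtP D (y.1.1.1, y.2) with hw
    have hwpos : ∀ y, 0 < w y := fun y =>
      mul_pos (by exact_mod_cast D.deg_pos y.2) (prodDiff_pos y.1.1)
    have h1 : ∀ x : Fq p f, ∑ y ∈ c.support, (c y * w y : ℤ)
        * ((ψ y x : (WittVector p (AlgebraicClosure (ZMod p)))ˣ) :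
          WittVector p (AlgebraicClosure (ZMod p))) = 0 := by
      intro x
      have h2 := congrFun hc (scal d x)
      rw [Finsupp.linearCombination_apply, Finsupp.sum, Finset.sum_apply, Pi.zero_apply] at h2
      have h3 := congrArg (fun z => z
        * (vrho d : WittVector p (AlgebraicClosure (ZMod p))) ^ Fintype.card S) h2
      simp only [zero_mul] at h3
      rw [Finset.sum_mul] at h3
      have h4 : ∀ y ∈ c.support, (c y • (brauer p f j y.1.1.1 * D.θ y.2)) (scal d x)
          * (vrho d : WittVector p (AlgebraicClosure (ZMod p))) ^ Fintype.card S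
          = (((c y * w y : ℤ) : WittVector p (AlgebraicClosure (ZMod p)))
            * ((ψ y x : (WittVector p (AlgebraicClosure (ZMod p)))ˣ) :
              WittVector p (AlgebraicClosure (ZMod p))))
            * ((cst (d := d) N j x : (WittVector p (AlgebraicClosure (ZMod p)))ˣ) :
              WittVector p (AlgebraicClosure (ZMod p))) := by
        intro y _
        rw [Pi.smul_apply, smul_mul_assoc, pair_scal D hd hN y.1.2 y.2 x, zsmul_eq_mul]
        push_cast
        ring
      rw [Finset.sum_congr rfl h4, ← Finset.sum_mul] at h3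
      exact (mul_eq_zero.1 h3).resolve_right (Units.ne_zero _)
    rw [Finsupp.linearCombination_apply, Finsupp.sum]
    rw [← Finset.sum_fiberwise_of_maps_to (s := c.support) (t := c.support.image ψ) (g := ψ)
      (fun y hy => Finset.mem_image_of_mem _ hy)]
    refine Finset.sum_eq_zero fun φ hφ => ?_
    obtain ⟨y0, -, rfl⟩ := Finset.mem_image.1 hφ
    have h2 := dedekind ψ w c.support c h1 (ψ y0)
    have h3 : w y0 • ∑ y ∈ c.support with ψ y = ψ y0, c y • Z y.2 y.1.1.1 = 0 := by
      rw [Finset.smul_sum]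
      have h4 : ∀ y ∈ c.support.filter (fun y => ψ y = ψ y0), w y0 • c y • Z y.2 y.1.1.1
          = (c y * w y) • Z y0.2 y0.1.1.1 := by
        intro y hy
        have h5 := h y.1.1 y0.1.1 y.1.2 y0.1.2 y.2 y0.2 (Finset.mem_filter.1 hy).2
        have h6 : w y0 • Z y.2 y.1.1.1 = w y • Z y0.2 y0.1.1.1 := h5
        rw [smul_comm, h6, smul_smul]
      rw [Finset.sum_congr rfl h4, ← Finset.sum_smul, h2, zero_smul]
    exact (smul_eq_zero.1 h3).resolve_left (hwpos y0).ne'

end

end U566.BM
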