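import Pool.Agent.U566.BMMain

/-! Weight–type exchange: definitions and proof. -/

namespace U566.BM

open MvPolynomial Finset

set_option linter.unusedSectionVars false

noncomputable section

variable {S : Type} [Fintype S] [DecidableEq S] {d : ℕ} {M : Type*} [AddCommGroup M]

/-- The Hodge–Tate weights `(d-1, …, 1, 0)` at every embedding (Hodge type `λ = 0`). -/
def wt0 (S : Type) (d : ℕ) : Wt S d := fun _ i => ((i.rev : ℕ) : ℤ)

/-- `wt0` as a regular tuple. -/
def reg0 (S : Type) (d : ℕ) : Reg S d := ⟨wt0 S d, by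
  intro σ a b hab
  simp only [wt0, Fin.val_rev]
  have := a.2; have := b.2
  have : (a : ℕ) < b := hab
  omega⟩

/-- The Brauer character of `∧^r(std)` of `GL_d(k)`, pushed forward along the embedding of the
residue field given by `σ`: the `r`-th elementary symmetric function of the lifted eigenvalues. -/
def extChar (p f : ℕ) [Fact p.Prime] (j : S → ZMod f) (σ : S) (r : ℕ) :
    Cls p f d → WittVector p (AlgebraicClosure (ZMod p)) :=
  fun a => aeval (fun i => WittVector.teichmuller p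
    ((a.1 i : (AlgebraicClosure (ZMod p))ˣ) : AlgebraicClosure (ZMod p)) ^ (p ^ (j σ).val))
      (esymm (Fin d) ℤ r)

/-- The representation side with types.  `T` is the set of inertial types, `W` the set of Serre
weights, `θ τ` the Brauer character of the reduction of `σ(τ)`, `β k` that of the Serre weight `k`,
`n k μ τ` the multiplicity of `k` in the reduction for the pair `(μ, τ)`. -/
structure TypeData (p f : ℕ) [Fact p.Prime] (d : ℕ) (j : S → ZMod f)
    (T W : Type) [Fintype W] where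
  /-- Brauer characters of the reductions of the `σ(τ)` -/
  θ : T → (Cls p f d → WittVector p (AlgebraicClosure (ZMod p)))
  /-- irreducible Brauer characters -/
  β : W → (Cls p f d → WittVector p (AlgebraicClosure (ZMod p)))
  /-- multiplicities -/
  n : W → Reg S d → T → ℤ
  /-- irreducible Brauer characters are linearly independent -/
  indep : LinearIndependent ℤ β
  /-- definition of the multiplicities -/
  mult : ∀ (μ : Reg S d) (τ : T), brauer p f j μ.1 * θ τ = ∑ k, n k μ τ • β k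
  /-- the reductions of the types span the Grothendieck group rationally (equivalently the
  Serre weight cycles are determined by the case of Hodge type zero) -/
  span : ∀ k, ∃ m : ℤ, m ≠ 0 ∧ m • β k ∈ Submodule.span ℤ (Set.range θ)

/-- Twist equations: Hodge–Tate weights at one embedding may be shifted by `q - 1`. -/
def TwistEq (p f : ℕ) {T : Type} (Z : T → Wt S d → M) : Prop :=
  ∀ (τ : T) (μ : Wt S d) (σ : S), Z τ (bump μ σ univ (((p ^ f - 1 : ℕ) : ℤ))) = Z τ μ

/-- One-step exchange equations: if `m ∧^r(std)_σ ⊗ σ(τ)` has the same reduction as the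
combination `c` of types, then `m ∑_{|I|=r} Z(μ + 1_{σ,I}, τ)` is the combination `c` of the
`Z(μ, τ')`. -/
def ExchangeEq (p f : ℕ) [Fact p.Prime] (j : S → ZMod f) {T : Type}
    (θ : T → (Cls p f d → WittVector p (AlgebraicClosure (ZMod p))))
    (Z : T → Wt S d → M) : Prop :=
  ∀ (μ : Wt S d) (σ : S) (τ : T) (r : ℕ), 1 ≤ r → r ≤ d → ∀ (m : ℤ) (c : T →₀ ℤ),
    m • (extChar p f j σ r * θ τ) = Finsupp.linearCombination ℤ θ c →
      m • eSum (Z τ) μ σ r 1 = Finsupp.linearCombination ℤ (fun τ' => Z τ' μ) c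

section alg

variable {T : Type} {F : Type*} [CommRing F] (val : MvPolynomial (S × Fin d) ℤ →+* F)
  (θ : T → F) (Ψ : T → (MvPolynomial (S × Fin d) ℤ →ₗ[ℤ] M))

/-- the generators -/
def gensE (S : Type) (d : ℕ) : Set (MvPolynomial (S × Fin d) ℤ) :=
  {G | ∃ (σ : S) (r : ℕ), 1 ≤ r ∧ r ≤ d ∧ G = eps σ r 1}

lemma exch_single_to_all (G : MvPolynomial (S × Fin d) ℤ)
    (h : ∀ τ, ∃ m : ℤ, m ≠ 0 ∧ ∃ c : T →₀ ℤ, m • (val G * θ τ) = Finsupp.linearCombination ℤ θ c ∧
      ∀ H, m • Ψ τ (G * H) = Finsupp.linearCombination ℤ (fun τ' => Ψ τ' H) c) (c0 : T →₀ ℤ) :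
    ∃ m : ℤ, m ≠ 0 ∧ ∃ c : T →₀ ℤ,
      m • (val G * Finsupp.linearCombination ℤ θ c0) = Finsupp.linearCombination ℤ θ c ∧
      ∀ H, m • Finsupp.linearCombination ℤ (fun τ' => Ψ τ' (G * H)) c0
        = Finsupp.linearCombination ℤ (fun τ' => Ψ τ' H) c := by
  induction c0 using Finsupp.induction_linear with
  | zero => exact ⟨1, one_ne_zero, 0, by simp, by intro H; simp⟩
  | add c1 c2 h1 h2 =>
    obtain ⟨m1, hm1, k1, e1, g1⟩ := h1
    obtain ⟨m2, hm2, k2, e2, g2⟩ := h2
    refine ⟨m1 * m2, mul_ne_zero hm1 hm2, m2 • k1 + m1 • k2, ?_, ?_⟩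
    · rw [map_add, map_add, map_smul, map_smul, ← e1, ← e2, mul_add, smul_add, smul_smul,
        smul_smul, mul_comm m2 m1]
    · intro H
      rw [map_add, map_add, map_smul, map_smul, ← g1, ← g2, smul_add, smul_smul,
        smul_smul, mul_comm m2 m1]
  | single τ n =>
    obtain ⟨m, hm, c, e, g⟩ := h τ
    refine ⟨m, hm, n • c, ?_, ?_⟩
    · rw [Finsupp.linearCombination_single, map_smul, ← e, mul_smul_comm, smul_comm]
    · intro H
      rw [Finsupp.linearCombination_single, map_smul, ← g, smul_comm]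

lemma exch_alg
    (hgen : ∀ (σ : S) (r : ℕ), 1 ≤ r → r ≤ d → ∀ τ, ∃ m : ℤ, m ≠ 0 ∧ ∃ c : T →₀ ℤ,
      m • (val (eps σ r 1) * θ τ) = Finsupp.linearCombination ℤ θ c ∧
      ∀ H, m • Ψ τ (eps σ r 1 * H) = Finsupp.linearCombination ℤ (fun τ' => Ψ τ' H) c)
    {G : MvPolynomial (S × Fin d) ℤ} (hG : G ∈ Algebra.adjoin ℤ (gensE S d)) :
    ∀ c0 : T →₀ ℤ, ∃ m : ℤ, m ≠ 0 ∧ ∃ c : T →₀ ℤ,
      m • (val G * Finsupp.linearCombination ℤ θ c0) = Finsupp.linearCombination ℤ θ c ∧
      ∀ H, m • Finsupp.linearCombination ℤ (fun τ' => Ψ τ' (G * H)) c0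
        = Finsupp.linearCombination ℤ (fun τ' => Ψ τ' H) c := by
  induction hG using Algebra.adjoin_induction with
  | mem x hx =>
    obtain ⟨σ, r, h1, h2, rfl⟩ := hx
    exact fun c0 => exch_single_to_all val θ Ψ _ (hgen σ r h1 h2) c0
  | algebraMap n =>
    intro c0
    refine ⟨1, one_ne_zero, n • c0, ?_, ?_⟩
    · rw [one_smul, map_smul, zsmul_eq_mul]
      congr 1
      rw [eq_intCast, map_intCast]
    · intro H
      rw [one_smul, map_smul]
      have : ∀ τ', Ψ τ' (algebraMap ℤ (MvPolynomial (S × Fin d) ℤ) n * H) = n • Ψ τ' H := by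
        intro τ'
        rw [← map_smul, Algebra.smul_def]
      simp only [this]
      rw [Finsupp.linearCombination_apply, Finsupp.linearCombination_apply, Finsupp.smul_sum]
      refine Finsupp.sum_congr fun x _ => ?_
      rw [smul_comm]
  | add x y _ _ hx hy =>
    intro c0
    obtain ⟨m1, hm1, k1, e1, g1⟩ := hx c0
    obtain ⟨m2, hm2, k2, e2, g2⟩ := hy c0
    refine ⟨m1 * m2, mul_ne_zero hm1 hm2, m2 • k1 + m1 • k2, ?_, ?_⟩
    · rw [map_add, map_add, map_smul, map_smul, ← e1, ← e2, add_mul, smul_add, smul_smul,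
        smul_smul, mul_comm m2 m1]
    · intro H
      rw [map_add, map_smul, map_smul, ← g1, ← g2, smul_smul, smul_smul, mul_comm m2 m1,
        ← smul_add]
      congr 1
      simp only [add_mul, map_add, Finsupp.linearCombination_apply, smul_add]
      rw [← Finsupp.sum_add]
  | mul x y _ _ hx hy =>
    intro c0
    obtain ⟨m1, hm1, k1, e1, g1⟩ := hx c0
    obtain ⟨m2, hm2, k2, e2, g2⟩ := hy k1
    refine ⟨m2 * m1, mul_ne_zero hm2 hm1, k2, ?_, ?_⟩
    · rw [← e2, ← e1, map_mul, mul_smul_comm, smul_smul]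
      congr 1
      ring
    · intro H
      rw [← g2, ← g1, smul_smul]
      simp only [mul_assoc]

end alg

lemma block_mem (σ : S) {F : MvPolynomial (Fin d) ℤ} (hF : F.IsSymmetric) :
    aeval (fun i : Fin d => (X (σ, i) : MvPolynomial (S × Fin d) ℤ)) F
      ∈ Algebra.adjoin ℤ (gensE S d) := by
  obtain ⟨G, hG⟩ := esymmAlgHom_fin_surjective ℤ (le_refl d)
    (⟨F, hF⟩ : symmetricSubalgebra (Fin d) ℤ)
  have hG' : aeval (fun i : Fin d => esymm (Fin d) ℤ (i+1)) G = F := by
    rw [← esymmAlgHom_apply, hG]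
  rw [← hG', ← AlgHom.comp_apply]
  have h : (aeval (fun i : Fin d => (X (σ, i) : MvPolynomial (S × Fin d) ℤ))).comp
      (aeval (fun i : Fin d => esymm (Fin d) ℤ (i+1)))
      = aeval (fun i : Fin d => eps σ (i + 1) 1) := by
    apply MvPolynomial.algHom_ext
    intro i
    simp [eps]
  rw [h]
  have hle := Algebra.adjoin_mono (R := ℤ) (s := Set.range fun i : Fin d =>
    (eps σ (i + 1) 1 : MvPolynomial (S × Fin d) ℤ)) (t := gensE S d) (by
      rintro _ ⟨i, rfl⟩
      exact ⟨σ, i + 1, by omega, i.2, rfl⟩)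
  apply hle
  rw [Algebra.adjoin_range_eq_range_aeval]
  exact ⟨G, rfl⟩

lemma lc_pair_mem {F T : Type*} [AddCommGroup F] (G : Submodule ℤ (F × M)) {x : T → F}
    {z : T → M} (h : ∀ τ, (x τ, z τ) ∈ G) (c : T →₀ ℤ) :
    (Finsupp.linearCombination ℤ x c, Finsupp.linearCombination ℤ z c) ∈ G := by
  induction c using Finsupp.induction_linear with
  | zero => simp only [map_zero]; exact Submodule.zero_mem _
  | add c1 c2 h1 h2 =>
    rw [map_add, map_add]
    exact Submodule.add_mem _ h1 h2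
  | single τ n =>
    rw [Finsupp.linearCombination_single, Finsupp.linearCombination_single]
    exact Submodule.smul_mem _ n (h τ)

lemma period_of_tw {q : ℕ} {Z : Wt S d → M}
    (h : ∀ (μ : Wt S d) (σ : S), Z (bump μ σ univ ((q : ℕ) : ℤ)) = Z μ) (m : ℕ) (μ : Wt S d) :
    Z (fun σ i => μ σ i + ((q * m : ℕ) : ℤ)) = Z μ := by
  have h1 : ∀ (m : ℕ) (σ : S) (μ : Wt S d), Z (bump μ σ univ ((q * m : ℕ) : ℤ)) = Z μ := by
    intro m
    induction m with
    | zero => intro σ μ; simp [bump_zero]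
    | succ m ih =>
      intro σ μ
      rw [← ih σ μ, ← h (bump μ σ univ ((q * m : ℕ) : ℤ)) σ, bump_bump]
      push_cast
      congr 2
  have key : ∀ A : Finset S, Z (fun σ i => μ σ i + if σ ∈ A then ((q * m : ℕ) : ℤ) else 0)
      = Z μ := by
    intro A
    induction A using Finset.induction_on with
    | empty => simp
    | insert a A ha ih =>
      rw [← ih, ← h1 m a
        (fun σ i => μ σ i + if σ ∈ A then ((q * m : ℕ) : ℤ) else 0)]
      congr 1
      funext σ i
      simp only [bump, Finset.mem_univ, and_true, Finset.mem_insert]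
      by_cases h : σ = a
      · subst h; simp [ha]
      · simp [h]
  simpa using key univ

lemma weylChar_add {R : Type*} [CommRing R] (t : Fin d → Rˣ) (μ : Fin d → ℤ) (K : ℕ)
    (ht : (∏ k, t k) ^ K = 1) : weylChar t (fun i => μ i + (K : ℤ)) = weylChar t μ := by
  have h := weylChar_pieri t μ K d
  rw [powersetCard_full, Finset.sum_singleton] at h
  have e : aeval (fun k => (t k : R) ^ K) (esymm (Fin d) ℤ d) = 1 := by
    rw [esymm, powersetCard_full, Finset.sum_singleton, map_prod]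
    simp only [aeval_X]
    have := congrArg (fun u : Rˣ => (u : R)) ht
    simpa [Finset.prod_pow] using this
  rw [e, one_mul] at h
  simpa using h

section main

variable {p f : ℕ} [Fact p.Prime] [NeZero f] {j : S → ZMod f} {T W : Type} [Fintype W]

lemma brauer_bump (μ : Wt S d) (σ : S) :
    brauer p f j (bump μ σ univ ((p ^ f - 1 : ℕ) : ℤ)) = brauer p f j μ := by
  funext a
  unfold brauer
  refine Finset.prod_congr rfl fun τ _ => ?_
  by_cases h : τ = σ
  · subst h
    have := weylChar_add (fun i => tt a i ^ (p ^ (j τ).val)) (μ τ) (p ^ f - 1)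
      (prod_tt a (p ^ (j τ).val))
    rw [← this]
    congr 1
    funext i
    simp [bump]
  · congr 1
    funext i
    simp [bump, h]

/-- values at the classes -/
def valF (p f : ℕ) [Fact p.Prime] (j : S → ZMod f) : MvPolynomial (S × Fin d) ℤ →+*
    (Cls p f d → WittVector p (AlgebraicClosure (ZMod p))) :=
  RingHom.pi (fun a => (aeval (fun x : S × Fin d => ts a x.2 ^ (p ^ (j x.1).val)) :
    MvPolynomial (S × Fin d) ℤ →ₐ[ℤ] WittVector p (AlgebraicClosure (ZMod p))).toRingHom)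

lemma aeval_block {R : Type*} [CommRing R] (u : S × Fin d → R) (σ : S)
    (F : MvPolynomial (Fin d) ℤ) :
    aeval u (aeval (fun i : Fin d => (X (σ, i) : MvPolynomial (S × Fin d) ℤ)) F)
      = aeval (fun i => u (σ, i)) F := by
  rw [← AlgHom.comp_apply]
  congr 1
  apply MvPolynomial.algHom_ext
  intro i
  simp

lemma valF_eps (σ : S) (r : ℕ) : valF p f j (eps σ r 1 : MvPolynomial (S × Fin d) ℤ)
    = extChar p f j σ r := by
  funext a
  have h := aeval_block (fun x : S × Fin d => ts a x.2 ^ (p ^ (j x.1).val)) σ (esymm (Fin d) ℤ r)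
  have e : (eps σ r 1 : MvPolynomial (S × Fin d) ℤ)
      = aeval (fun i : Fin d => (X (σ, i) : MvPolynomial (S × Fin d) ℤ)) (esymm (Fin d) ℤ r) := by
    simp [eps]
  rw [e]
  exact h

/-- the product of the Schur polynomials of the blocks -/
def sprod (μ : S → Fin d → ℕ) : MvPolynomial (S × Fin d) ℤ :=
  ∏ σ, aeval (fun i : Fin d => (X (σ, i) : MvPolynomial (S × Fin d) ℤ)) (schur (μ σ))

lemma weylChar_nat {R : Type*} [CommRing R] (t : Fin d → Rˣ) (ν : Fin d → ℕ) :
    weylChar t (fun i => (ν i : ℤ)) = aeval (fun k => (t k : R)) (schur ν) := by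
  rw [weylChar_eq t _ 0 (by intro i; simp)]
  simp

lemma valF_sprod (μ : S → Fin d → ℕ) :
    valF p f j (sprod μ) = brauer p f j (fun σ i => (μ σ i : ℤ)) := by
  funext a
  change aeval (fun x : S × Fin d => ts a x.2 ^ (p ^ (j x.1).val)) (sprod μ) = _
  unfold sprod brauer
  rw [map_prod]
  refine Finset.prod_congr rfl fun σ _ => ?_
  rw [aeval_block, weylChar_nat]
  rfl

lemma sprod_mem (μ : S → Fin d → ℕ) : sprod μ ∈ Algebra.adjoin ℤ (gensE S d) :=
  Subalgebra.prod_mem _ fun σ _ => block_mem σ (schur_symm (μ σ))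

lemma sprod_vdm (μ : S → Fin d → ℕ) :
    sprod μ * ∏ σ, aeval (fun i : Fin d => (X (σ, i) : MvPolynomial (S × Fin d) ℤ)) (vdm d)
      = ∏ σ, aeval (fun i : Fin d => (X (σ, i) : MvPolynomial (S × Fin d) ℤ)) (alt (μ σ)) := by
  unfold sprod
  rw [← Finset.prod_mul_distrib]
  refine Finset.prod_congr rfl fun σ _ => ?_
  rw [← map_mul, schur_mul_vdm]

lemma schur_rev : schur (fun i : Fin d => (i.rev : ℕ)) = 1 := by
  apply mul_right_cancel₀ (vdm_ne_zero (d := d))
  rw [schur_mul_vdm, one_mul]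
  rfl

lemma brauer_wt0 : brauer p f j (wt0 S d) = 1 := by
  have h := valF_sprod (p := p) (f := f) (j := j) (fun (_ : S) (i : Fin d) => (i.rev : ℕ))
  have e : sprod (fun (_ : S) (i : Fin d) => (i.rev : ℕ)) = 1 := by
    unfold sprod
    simp only [schur_rev, map_one, Finset.prod_const_one]
  rw [e, map_one] at h
  exact h.symm

lemma ext_mul_brauer (μ : Wt S d) (σ : S) (r : ℕ) :
    ∑ I ∈ powersetCard r (univ : Finset (Fin d)), brauer p f j (bump μ σ I 1)
      = extChar p f j σ r * brauer p f j μ := by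
  funext a
  have h := brauer_pieri (p := p) (f := f) (j := j) μ σ 1 r a
  rw [mul_one] at h
  rw [Finset.sum_apply, Pi.mul_apply]
  exact_mod_cast h

lemma brauer_sort (μ : Wt S d) :
    ∃ (ε : ℤ) (ν : Reg S d), brauer p f j μ = ε • brauer p f j ν.1 := by
  obtain ⟨ε, ν, _, h⟩ := exists_reg (M := ℤ) (p := p) (f := f) (j := j) (Z := fun _ => (0 : ℤ))
    (by intro μ e; simp) μ
  exact ⟨ε, ν, h⟩

variable (D : TypeData p f d j T W)

lemma rat_span {x : Cls p f d → WittVector p (AlgebraicClosure (ZMod p))}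
    (hx : x ∈ Submodule.span ℤ (Set.range D.β)) :
    ∃ m : ℤ, m ≠ 0 ∧ m • x ∈ Submodule.span ℤ (Set.range D.θ) := by
  induction hx using Submodule.span_induction with
  | mem x hx => obtain ⟨k, rfl⟩ := hx; exact D.span k
  | zero => exact ⟨1, one_ne_zero, by rw [smul_zero]; exact Submodule.zero_mem _⟩
  | add x y _ _ hx hy =>
    obtain ⟨m1, h1, e1⟩ := hx
    obtain ⟨m2, h2, e2⟩ := hy
    refine ⟨m1 * m2, mul_ne_zero h1 h2, ?_⟩
    have e : (m1 * m2) • (x + y) = m2 • (m1 • x) + m1 • (m2 • y) := by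
      rw [smul_add, smul_smul, smul_smul, mul_comm m2 m1]
    rw [e]
    exact Submodule.add_mem _ (Submodule.smul_mem _ _ e1) (Submodule.smul_mem _ _ e2)
  | smul a x _ hx =>
    obtain ⟨m1, h1, e1⟩ := hx
    refine ⟨m1, h1, ?_⟩
    rw [smul_comm]
    exact Submodule.smul_mem _ _ e1

lemma brauer_theta_mem (μ : Wt S d) (τ : T) :
    brauer p f j μ * D.θ τ ∈ Submodule.span ℤ (Set.range D.β) := by
  obtain ⟨ε, ν, h⟩ := brauer_sort (p := p) (f := f) (j := j) μ
  rw [h, smul_mul_assoc, D.mult]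
  exact Submodule.smul_mem _ _ (Submodule.sum_mem _ fun k _ =>
    Submodule.smul_mem _ _ (Submodule.subset_span ⟨k, rfl⟩))

lemma closure_ext (σ : S) (r : ℕ) (τ : T) : ∃ m : ℤ, m ≠ 0 ∧ ∃ c : T →₀ ℤ,
    m • (extChar p f j σ r * D.θ τ) = Finsupp.linearCombination ℤ D.θ c := by
  have h1 : extChar p f j σ r * D.θ τ ∈ Submodule.span ℤ (Set.range D.β) := by
    have h := ext_mul_brauer (p := p) (f := f) (j := j) (wt0 S d) σ r
    rw [brauer_wt0, mul_one] at h
    rw [← h, Finset.sum_mul]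
    exact Submodule.sum_mem _ fun I _ => brauer_theta_mem D _ τ
  obtain ⟨m, hm, h2⟩ := rat_span D h1
  rw [Finsupp.mem_span_range_iff_exists_finsupp] at h2
  obtain ⟨c, hc⟩ := h2
  exact ⟨m, hm, c, by rw [Finsupp.linearCombination_apply, ← hc]⟩

/-- the graph of the functional `β k ↦ Y k` -/
def Gr (Y : W → M) : Submodule ℤ ((Cls p f d → WittVector p (AlgebraicClosure (ZMod p))) × M) :=
  Submodule.span ℤ (Set.range fun k => (D.β k, Y k))

lemma gr_iff (Y : W → M) (x : Cls p f d → WittVector p (AlgebraicClosure (ZMod p))) (z : M) :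
    (x, z) ∈ Gr D Y ↔ ∃ c : W → ℤ, x = ∑ k, c k • D.β k ∧ z = ∑ k, c k • Y k := by
  unfold Gr
  rw [Submodule.mem_span_range_iff_exists_fun]
  constructor
  · rintro ⟨c, hc⟩
    refine ⟨c, ?_, ?_⟩
    · have := congrArg Prod.fst hc
      simpa [Prod.fst_sum] using this.symm
    · have := congrArg Prod.snd hc
      simpa [Prod.snd_sum] using this.symm
  · rintro ⟨c, h1, h2⟩
    refine ⟨c, ?_⟩
    ext1
    · simp [Prod.fst_sum, h1]
    · simp [Prod.snd_sum, h2]

lemma gr_unique (Y : W → M) {x : Cls p f d → WittVector p (AlgebraicClosure (ZMod p))} {z z' : M}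
    (h : (x, z) ∈ Gr D Y) (h' : (x, z') ∈ Gr D Y) : z = z' := by
  have h2 := Submodule.sub_mem _ h h'
  rw [Prod.mk_sub_mk, sub_self, gr_iff] at h2
  obtain ⟨c, hc1, hc2⟩ := h2
  have h3 := Fintype.linearIndependent_iff.1 D.indep c hc1.symm
  rw [← sub_eq_zero, hc2]
  simp [h3]

lemma gr_reg (Y : W → M) (μ : Reg S d) (τ : T) (z : M) :
    (brauer p f j μ.1 * D.θ τ, z) ∈ Gr D Y ↔ z = ∑ k, D.n k μ τ • Y k := by
  have h : (brauer p f j μ.1 * D.θ τ, ∑ k, D.n k μ τ • Y k) ∈ Gr D Y :=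
    (gr_iff D Y _ _).2 ⟨fun k => D.n k μ τ, D.mult μ τ, rfl⟩
  constructor
  · intro h'
    exact gr_unique D Y h' h
  · rintro rfl
    exact h

lemma gr_lc (Y : W → M) {x : T → (Cls p f d → WittVector p (AlgebraicClosure (ZMod p)))}
    {z : T → M} (h : ∀ τ, (x τ, z τ) ∈ Gr D Y) (c : T →₀ ℤ) :
    (Finsupp.linearCombination ℤ x c, Finsupp.linearCombination ℤ z c) ∈ Gr D Y :=
  lc_pair_mem (Gr D Y) h c

variable {Z : T → Wt S d → M}

theorem exchange_imp [IsAddTorsionFree M] (hZ : ∀ τ, IsAlt (Z τ)) (Y : W → M)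
    (h0 : ∀ τ, Z τ (wt0 S d) = ∑ k, D.n k (reg0 S d) τ • Y k)
    (hT : TwistEq p f Z) (hE : ExchangeEq p f j D.θ Z) (μ : Reg S d) (τ : T) :
    Z τ μ.1 = ∑ k, D.n k μ τ • Y k := by
  have hp : p.Prime := Fact.out
  have hf : f ≠ 0 := NeZero.ne f
  have hq2 : 2 ≤ p ^ f := hp.two_le.trans (Nat.le_self_pow hf p)
  have h0' : ∀ τ, (D.θ τ, Z τ (wt0 S d)) ∈ Gr D Y := by
    intro τ
    have h := (gr_reg D Y (reg0 S d) τ _).2 (h0 τ)
    have e : brauer p f j (reg0 S d).1 = 1 := brauer_wt0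
    rw [e, one_mul] at h
    exact h
  -- generators
  have hgen : ∀ (σ : S) (r : ℕ), 1 ≤ r → r ≤ d → ∀ τ, ∃ m : ℤ, m ≠ 0 ∧ ∃ c : T →₀ ℤ,
      m • (valF p f j (eps σ r 1) * D.θ τ) = Finsupp.linearCombination ℤ D.θ c ∧
      ∀ H, m • Psi (Z τ) (eps σ r 1 * H)
        = Finsupp.linearCombination ℤ (fun τ' => Psi (Z τ') H) c := by
    intro σ r h1 h2 τ
    obtain ⟨m, hm, c, hc⟩ := closure_ext D σ r τ
    refine ⟨m, hm, c, by rw [valF_eps]; exact hc, ?_⟩
    intro H
    have key : m • ((Psi (Z τ)) ∘ₗ (LinearMap.mulLeft ℤ (eps σ r 1)))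
        = Finsupp.linearCombination ℤ (fun τ' => Psi (Z τ')) c := by
      apply (basisMonomials (S × Fin d) ℤ).ext
      intro ν
      rw [coe_basisMonomials, LinearMap.smul_apply, LinearMap.comp_apply,
        LinearMap.mulLeft_apply, mul_comm, Psi_eps, Nat.cast_one]
      have h3 := hE (fun σ i => (ν (σ, i) : ℤ)) σ τ r h1 h2 m c hc
      rw [h3, Finsupp.linearCombination_apply, Finsupp.linearCombination_apply, Finsupp.sum,
        Finsupp.sum, LinearMap.sum_apply]
      refine Finset.sum_congr rfl fun x _ => ?_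
      rw [LinearMap.smul_apply]
      change _ = c x • Psi (Z x) (monomial ν 1)
      rw [Psi_monomial]
    have h4 := congrArg (fun φ => φ H) key
    rw [Finsupp.linearCombination_apply, Finsupp.sum] at h4 ⊢
    simpa [LinearMap.sum_apply] using h4
  -- natural number weights
  have hnat : ∀ (ν : S → Fin d → ℕ) (τ : T), ∃ m : ℤ, m ≠ 0 ∧
      (m • (brauer p f j (fun σ i => (ν σ i : ℤ)) * D.θ τ),
        m • Z τ (fun σ i => (ν σ i : ℤ))) ∈ Gr D Y := by
    intro ν τ
    obtain ⟨m, hm, c, e1, e2⟩ := exch_alg (valF p f j) D.θ (fun τ => Psi (Z τ)) hgen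
      (sprod_mem ν) (Finsupp.single τ 1)
    refine ⟨m, hm, ?_⟩
    rw [Finsupp.linearCombination_single, one_smul, valF_sprod] at e1
    have e3 := e2 (∏ σ, aeval (fun i : Fin d => (X (σ, i) : MvPolynomial (S × Fin d) ℤ)) (vdm d))
    rw [Finsupp.linearCombination_single, one_smul, sprod_vdm, Psi_alt (hZ τ)] at e3
    have e4 : ∀ τ', Psi (Z τ') (∏ σ, aeval (fun i : Fin d =>
        (X (σ, i) : MvPolynomial (S × Fin d) ℤ)) (vdm d))
        = (Fintype.card (S → Equiv.Perm (Fin d)) : ℤ) • Z τ' (wt0 S d) := by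
      intro τ'
      exact Psi_alt (hZ τ') (fun _ i => (i.rev : ℕ))
    simp only [e4] at e3
    have e5 : Finsupp.linearCombination ℤ (fun τ' =>
        (Fintype.card (S → Equiv.Perm (Fin d)) : ℤ) • Z τ' (wt0 S d)) c
        = (Fintype.card (S → Equiv.Perm (Fin d)) : ℤ) •
          Finsupp.linearCombination ℤ (fun τ' => Z τ' (wt0 S d)) c := by
      rw [Finsupp.linearCombination_apply, Finsupp.linearCombination_apply, Finsupp.smul_sum]
      refine Finsupp.sum_congr fun x _ => ?_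
      rw [smul_comm]
    rw [e5, smul_comm] at e3
    have hcard : (Fintype.card (S → Equiv.Perm (Fin d)) : ℤ) ≠ 0 := by
      exact_mod_cast Fintype.card_ne_zero
    have e6 := sub_eq_zero.2 e3
    rw [← smul_sub] at e6
    have e7 := sub_eq_zero.1 ((smul_eq_zero.1 e6).resolve_left hcard)
    rw [e1, e7]
    exact gr_lc D Y h0' c
  -- general weights
  set n : ℕ := ∑ σ, ∑ i, (μ.1 σ i).natAbs with hn
  have hbound : ∀ σ i, 0 ≤ μ.1 σ i + (((p ^ f - 1) * n : ℕ) : ℤ) := by
    intro σ i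
    have e1 : (μ.1 σ i).natAbs ≤ n := by
      calc (μ.1 σ i).natAbs ≤ ∑ i, (μ.1 σ i).natAbs :=
            Finset.single_le_sum (f := fun i => (μ.1 σ i).natAbs) (fun _ _ => Nat.zero_le _)
              (Finset.mem_univ i)
        _ ≤ n := Finset.single_le_sum (f := fun σ => ∑ i, (μ.1 σ i).natAbs)
              (fun _ _ => Nat.zero_le _) (Finset.mem_univ σ)
    have e2 : n ≤ (p ^ f - 1) * n := Nat.le_mul_of_pos_left n (by omega)
    omega
  have eZ := period_of_tw (Z := Z τ) (hT τ) n μ.1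
  have eB := period_of_tw (Z := brauer p f j) (d := d) (fun μ σ => brauer_bump μ σ) n μ.1
  have ew : (fun σ i => ((μ.1 σ i + (((p ^ f - 1) * n : ℕ) : ℤ)).toNat : ℤ))
      = fun σ i => μ.1 σ i + (((p ^ f - 1) * n : ℕ) : ℤ) := by
    funext σ i
    exact Int.toNat_of_nonneg (hbound σ i)
  obtain ⟨m, hm, hmem⟩ := hnat (fun σ i => (μ.1 σ i + (((p ^ f - 1) * n : ℕ) : ℤ)).toNat) τ
  rw [ew, eZ, eB] at hmem
  have h2 := Submodule.smul_mem _ m ((gr_reg D Y μ τ _).2 rfl)
  have h3 : m • Z τ μ.1 = m • ∑ k, D.n k μ τ • Y k := gr_unique D Y hmem h2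
  have h4 := sub_eq_zero.2 h3
  rw [← smul_sub] at h4
  exact sub_eq_zero.1 ((smul_eq_zero.1 h4).resolve_left hm)

theorem imp_exchange [IsAddTorsionFree M] (hZ : ∀ τ, IsAlt (Z τ)) (Y : W → M)
    (h : ∀ (μ : Reg S d) (τ : T), Z τ μ.1 = ∑ k, D.n k μ τ • Y k) :
    TwistEq p f Z ∧ ExchangeEq p f j D.θ Z := by
  have hall : ∀ (μ : Wt S d) (τ : T), (brauer p f j μ * D.θ τ, Z τ μ) ∈ Gr D Y := by
    intro μ τ
    obtain ⟨ε, ν, h1, h2⟩ := exists_reg (p := p) (f := f) (j := j) (hZ τ) μ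
    have h3 := Submodule.smul_mem _ ε ((gr_reg D Y ν τ _).2 (h ν τ))
    rw [h1, h2, smul_mul_assoc]
    exact h3
  constructor
  · intro τ μ σ
    have h1 := hall (bump μ σ univ (((p ^ f - 1 : ℕ) : ℤ))) τ
    rw [brauer_bump] at h1
    exact gr_unique D Y h1 (hall μ τ)
  · intro μ σ τ r _ _ m c hc
    have h1 : (∑ I ∈ powersetCard r (univ : Finset (Fin d)), (brauer p f j (bump μ σ I 1) * D.θ τ),
        ∑ I ∈ powersetCard r (univ : Finset (Fin d)), Z τ (bump μ σ I 1)) ∈ Gr D Y := by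
      have := Submodule.sum_mem (Gr D Y) (t := powersetCard r (univ : Finset (Fin d)))
        (f := fun I => (brauer p f j (bump μ σ I 1) * D.θ τ, Z τ (bump μ σ I 1)))
        (fun I _ => hall _ τ)
      convert this using 1
      ext1
      · rw [Prod.fst_sum]
      · rw [Prod.snd_sum]
    rw [← Finset.sum_mul, ext_mul_brauer] at h1
    have h2 := Submodule.smul_mem _ m h1
    have h3 := gr_lc D Y (fun τ' => hall μ τ') c
    have e1 : Finsupp.linearCombination ℤ (fun τ' => brauer p f j μ * D.θ τ') c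
        = m • (extChar p f j σ r * brauer p f j μ * D.θ τ) := by
      have : Finsupp.linearCombination ℤ (fun τ' => brauer p f j μ * D.θ τ') c
          = brauer p f j μ * Finsupp.linearCombination ℤ D.θ c := by
        rw [Finsupp.linearCombination_apply, Finsupp.linearCombination_apply, Finsupp.sum,
          Finsupp.sum, Finset.mul_sum]
        refine Finset.sum_congr rfl fun x _ => ?_
        rw [mul_smul_comm]
      rw [this, ← hc, mul_smul_comm]
      congr 1
      ring
    rw [e1] at h3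
    exact gr_unique D Y h2 h3

end main

end

end U566.BM
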