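import Pool.Agent.U566.BMIndep
import Pool.Agent.U566.BMExchange

/-! One equation for each unrestricted weight: the case of `ℚ_p`. -/

namespace U566.BM

open MvPolynomial Finset

set_option linter.unusedSectionVars false

noncomputable section

/-- the residue field has one embedding -/
abbrev jQ : Unit → ZMod 1 := fun _ => 0

/-- the chosen embedding -/
abbrev sQ : ZMod 1 → Unit := fun _ => ()

variable {n : ℕ} {p : ℕ} [Fact p.Prime]

lemma extQ (r : ℕ) (a : Cls p 1 n) : extChar p 1 jQ () r a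
    = aeval (fun i => WittVector.teichmuller p
      ((a.1 i : (AlgebraicClosure (ZMod p))ˣ) : AlgebraicClosure (ZMod p))) (esymm (Fin n) ℤ r) := by
  unfold extChar
  have : (jQ ()).val = 0 := rfl
  simp only [this, pow_zero, pow_one]

/-- restricted exponents -/
abbrev Idx (n p : ℕ) : Type := (i : Fin n) → Fin (bd n (p ^ 1) i)

/-- restricted monomials in the fundamental characters -/
def eb (b : Idx n p) : Cls p 1 n → WittVector p (AlgebraicClosure (ZMod p)) :=
  ∏ i : Fin n, extChar p 1 jQ () ((i : ℕ) + 1) ^ ((b i : ℕ))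

lemma indep_eb : LinearIndependent ℤ (eb : Idx n p → _) := by
  classical
  have hp : p.Prime := Fact.out
  rw [Fintype.linearIndependent_iff]
  intro c hc
  let mb : Idx n p → (Fin n →₀ ℕ) := fun b => Finsupp.equivFunOnFinite.symm (fun i => (b i : ℕ))
  have hmb : Function.Injective mb := by
    intro b b' h
    funext i
    have := congrArg (fun m : Fin n →₀ ℕ => m i) h
    exact Fin.ext this
  set G : MvPolynomial (Fin n) ℤ := ∑ b : Idx n p, monomial (mb b) (c b) with hG
  have hpos : ∀ i, 0 < bd n (p ^ 1) i := fun i => by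
    unfold bd; have := hp.two_le; rw [pow_one]; split_ifs <;> omega
  have hdeg : ∀ i, degreeOf i G < bd n (p ^ 1) i := by
    intro i
    rw [degreeOf_lt_iff (hpos i)]
    intro m hm
    have := MvPolynomial.support_sum hm
    rw [Finset.mem_biUnion] at this
    obtain ⟨b, _, h2⟩ := this
    have h3 := Finset.mem_singleton.1 (support_monomial_subset h2)
    rw [h3]
    exact (b i).2
  have hV : Vanish p (p ^ 1) (AlgebraicClosure (ZMod p)) (subE n G) := by
    intro a ha
    have h := congrFun hc ⟨a, ha⟩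
    rw [Finset.sum_apply] at h
    rw [hG, map_sum, map_sum]
    rw [Pi.zero_apply] at h
    rw [← h]
    refine Finset.sum_congr rfl fun b _ => ?_
    rw [Pi.smul_apply, zsmul_eq_mul, MvPolynomial.monomial_eq,
      Finsupp.prod_fintype _ _ (by intro i; simp), map_mul, map_mul, map_prod, map_prod]
    refine congrArg₂ (· * ·) ?_ ?_
    · rw [subE, aeval_C, eq_intCast, map_intCast]
    · unfold eb
      rw [Finset.prod_apply]
      refine Finset.prod_congr rfl fun i _ => ?_
      rw [Pi.pow_apply, extQ, map_pow, map_pow, subE, aeval_X]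
      rfl
  have hG0 := zero_of_vanish p one_ne_zero hdeg hV
  intro b
  have h1 := congrArg (coeff (mb b)) hG0
  rw [hG, coeff_sum, coeff_zero] at h1
  simp only [coeff_monomial] at h1
  rw [Finset.sum_eq_single b] at h1
  · simpa using h1
  · intro b' _ hb'
    rw [if_neg (fun h => hb' (hmb h))]
  · simp

lemma ext_mem {x : Cls p 1 n → WittVector p (AlgebraicClosure (ZMod p))} (r : ℕ)
    (hx : x ∈ Submodule.span ℤ (Set.range (brauer p 1 jQ : Wt Unit n → _))) :
    extChar p 1 jQ () r * x ∈ Submodule.span ℤ (Set.range (brauer p 1 jQ : Wt Unit n → _)) := by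
  induction hx using Submodule.span_induction with
  | mem x hx =>
    obtain ⟨μ, rfl⟩ := hx
    rw [← ext_mul_brauer]
    exact Submodule.sum_mem _ fun I _ => Submodule.subset_span ⟨_, rfl⟩
  | zero => rw [mul_zero]; exact Submodule.zero_mem _
  | add x y _ _ hx hy => rw [mul_add]; exact Submodule.add_mem _ hx hy
  | smul a x _ hx => rw [mul_smul_comm]; exact Submodule.smul_mem _ _ hx

lemma eb_mem (b : Idx n p) :
    eb b ∈ Submodule.span ℤ (Set.range (brauer p 1 jQ : Wt Unit n → _)) := by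
  classical
  have h1 : (1 : Cls p 1 n → WittVector p (AlgebraicClosure (ZMod p)))
      ∈ Submodule.span ℤ (Set.range (brauer p 1 jQ : Wt Unit n → _)) :=
    Submodule.subset_span ⟨wt0 Unit n, brauer_wt0⟩
  have hpow : ∀ (r k : ℕ) (x : Cls p 1 n → WittVector p (AlgebraicClosure (ZMod p))),
      x ∈ Submodule.span ℤ (Set.range (brauer p 1 jQ : Wt Unit n → _)) →
      extChar p 1 jQ () r ^ k * x
        ∈ Submodule.span ℤ (Set.range (brauer p 1 jQ : Wt Unit n → _)) := by
    intro r k
    induction k with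
    | zero => intro x hx; rwa [pow_zero, one_mul]
    | succ k ih =>
      intro x hx
      rw [pow_succ, mul_assoc]
      exact ih _ (ext_mem r hx)
  have hprod : ∀ s : Finset (Fin n), ∏ i ∈ s, extChar p 1 jQ () ((i : ℕ) + 1) ^ ((b i : ℕ))
      ∈ Submodule.span ℤ (Set.range (brauer p 1 jQ : Wt Unit n → _)) := by
    intro s
    induction s using Finset.induction_on with
    | empty => simpa using h1
    | insert i s hi ih =>
      rw [Finset.prod_insert hi]
      exact hpow _ _ _ ih
  exact hprod univ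

/-- differences of the normalised restricted tuple with index `b` -/
def gfun (b : Idx n p) (l : ℕ) : ℤ :=
  if h : l < n then ((b ⟨l, h⟩ : ℕ) : ℤ) + (if l + 1 = n then 0 else 1) else 0

/-- the normalised restricted tuples -/
def hb (b : Idx n p) : Wt Unit n := fun _ i => ∑ l ∈ Finset.Ico (i : ℕ) n, gfun b l

lemma tw_int {A : Type*} [AddCommGroup A] {X : Wt Unit n → A} {q : ℕ}
    (h : ∀ μ, X (bump μ () univ (q : ℤ)) = X μ) (m : ℤ) (μ : Wt Unit n) :
    X (fun σ i => μ σ i + (q : ℤ) * m) = X μ := by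
  have h1 := fun (m : ℕ) (μ : Wt Unit n) => period_of_tw (Z := X) (q := q) (fun μ _ => h μ) m μ
  rcases Int.eq_nat_or_neg m with ⟨k, rfl | rfl⟩
  · have := h1 k μ
    push_cast at this
    exact this
  · have := h1 k (fun σ i => μ σ i + (q : ℤ) * (-(k : ℤ)))
    rw [← this]
    congr 1
    funext σ i
    push_cast
    ring

lemma restricted_norm (μ : Reg Unit n) (hμ : Restricted p jQ sQ μ.1) :
    ∃ (b : Idx n p) (m : ℤ), μ.1 = fun σ i => hb b σ i + ((p ^ 1 - 1 : ℕ) : ℤ) * m := by
  have hp : p.Prime := Fact.out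
  have hp2 := hp.two_le
  have hq : (1 : ℤ) ≤ ((p ^ 1 - 1 : ℕ) : ℤ) := by
    rw [pow_one]; omega
  by_cases hn : n = 0
  · subst hn
    refine ⟨fun i => i.elim0, 0, ?_⟩
    funext σ i
    exact i.elim0
  have hn' : n - 1 < n := by omega
  set q' : ℤ := ((p ^ 1 - 1 : ℕ) : ℤ) with hq'
  set m : ℤ := μ.1 () ⟨n - 1, hn'⟩ / q' with hm
  set y : ℕ → ℤ := fun k => if h : k < n then μ.1 () ⟨k, h⟩ - q' * m else 0 with hy
  have hex : ∀ i : Fin n, ∃ v : ℕ, v < bd n (p ^ 1) i ∧
      (v : ℤ) + (if (i : ℕ) + 1 = n then 0 else 1) = y i - y (i + 1) := by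
    intro i
    by_cases hi : (i : ℕ) + 1 = n
    · have e1 : y i = μ.1 () ⟨n - 1, hn'⟩ % q' := by
        have : i = ⟨n - 1, hn'⟩ := Fin.ext (by simp; omega)
        rw [hy]
        simp only [i.2, dif_pos]
        rw [this, hm]
        have := Int.emod_add_mul_ediv (μ.1 () ⟨n - 1, hn'⟩) q'
        linarith
      have e2 : y (i + 1) = 0 := by
        rw [hy]
        simp only [hi, lt_irrefl, dif_neg, not_false_iff]
      have e3 : 0 ≤ μ.1 () ⟨n - 1, hn'⟩ % q' := Int.emod_nonneg _ (by omega)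
      have e4 : μ.1 () ⟨n - 1, hn'⟩ % q' < q' := Int.emod_lt_of_pos _ (by omega)
      refine ⟨(μ.1 () ⟨n - 1, hn'⟩ % q').toNat, ?_, ?_⟩
      · unfold bd
        rw [if_pos hi]
        omega
      · rw [if_pos hi, e1, e2]
        rw [add_zero, sub_zero]
        exact Int.toNat_of_nonneg e3
    · have hi1 : (i : ℕ) + 1 < n := by have := i.2; omega
      have e1 : y i - y (i + 1) = μ.1 () i - μ.1 () ⟨i + 1, hi1⟩ := by
        rw [hy]
        simp only [i.2, hi1, dif_pos]
        ring
      have e2 : μ.1 () ⟨i + 1, hi1⟩ < μ.1 () i := μ.2 () (by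
        change (i : ℕ) < i + 1; omega)
      have e3 := hμ () i ⟨i + 1, hi1⟩ rfl
      have e4 : gapBound p jQ sQ () = p := by
        unfold gapBound
        rw [if_pos]
        rfl
      rw [e4] at e3
      refine ⟨(μ.1 () i - μ.1 () ⟨i + 1, hi1⟩ - 1).toNat, ?_, ?_⟩
      · unfold bd
        rw [if_neg hi, pow_one]
        omega
      · rw [if_neg hi, e1]
        omega
  choose v hv1 hv2 using hex
  refine ⟨fun i => ⟨v i, hv1 i⟩, m, ?_⟩
  funext σ i
  have h1 : hb (fun i => ⟨v i, hv1 i⟩) σ i = ∑ l ∈ Finset.Ico (i : ℕ) n, (y l - y (l + 1)) := by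
    unfold hb
    refine Finset.sum_congr rfl fun l hl => ?_
    have hl' : l < n := (Finset.mem_Ico.1 hl).2
    unfold gfun
    rw [dif_pos hl']
    exact hv2 ⟨l, hl'⟩
  have h2 : ∑ l ∈ Finset.Ico (i : ℕ) n, (y l - y (l + 1)) = y i - y n := by
    have := Finset.sum_Ico_sub y i.2.le
    have e : ∑ l ∈ Finset.Ico (i : ℕ) n, (y l - y (l + 1))
        = - ∑ l ∈ Finset.Ico (i : ℕ) n, (y (l + 1) - y l) := by
      rw [← Finset.sum_neg_distrib]
      refine Finset.sum_congr rfl fun l _ => ?_
      ring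
    rw [e, this]
    ring
  have h3 : y n = 0 := by rw [hy]; simp
  have h4 : y i = μ.1 () i - q' * m := by
    rw [hy]; simp only [i.2, dif_pos]
  rw [h1, h2, h3, h4]
  ring

lemma brauer_tw (μ : Wt Unit n) :
    brauer p 1 jQ (bump μ () univ ((p ^ 1 - 1 : ℕ) : ℤ)) = brauer p 1 jQ μ :=
  brauer_bump μ ()

lemma span_hb (μ : Wt Unit n) : brauer p 1 jQ μ
    ∈ Submodule.span ℤ (Set.range fun b : Idx n p => brauer p 1 jQ (hb b)) := by
  have hp : p.Prime := Fact.out
  refine reduce_mem hp.two_le (j := jQ) (s := sQ) (fun k => Subsingleton.elim _ _) (brauer p 1 jQ)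
    _ ?_ ?_ ?_ μ
  · apply sort_cases
    · intro μ e
      exact brauer_alt μ e
    · intro μ σ i k hik h
      exact brauer_rep μ σ hik h
  · intro ν hν
    obtain ⟨b, m, h⟩ := restricted_norm ν hν
    rw [h, tw_int (X := brauer p 1 jQ) brauer_tw m (hb b)]
    exact Submodule.subset_span ⟨b, rfl⟩
  · intro ν hν
    unfold Restricted at hν
    push Not at hν
    obtain ⟨σ, a, b, hab, hg⟩ := hν
    exact ⟨σ, a, b, hab, hg, reduce_of_eqs (p := p) (fun k => Subsingleton.elim _ _)
      brauer_fibre brauer_frob ν.1 σ b⟩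

lemma indep_hb : LinearIndependent ℤ (fun b : Idx n p => brauer p 1 jQ (hb b)) := by
  classical
  refine indep_of_span indep_eb fun b => ?_
  have h := eb_mem b
  have hle : Submodule.span ℤ (Set.range (brauer p 1 jQ : Wt Unit n → _))
      ≤ Submodule.span ℤ (Set.range fun b : Idx n p => brauer p 1 jQ (hb b)) := by
    rw [Submodule.span_le]
    rintro _ ⟨μ, rfl⟩
    exact span_hb μ
  exact hle h

/-! ### The final statement for `ℚ_p`, in terms of plain tuples `Fin n → ℤ` -/

/-- The Brauer character of the reduction of the algebraic representation of `GL_n` with exponents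
`h` (highest weight `h - (n-1, …, 1, 0)`), restricted to `GL_n(F_p)`. -/
def weylFun (p : ℕ) [Fact p.Prime] {n : ℕ} (h : Fin n → ℤ) :
    Cls p 1 n → WittVector p (AlgebraicClosure (ZMod p)) :=
  fun a => weylChar (fun i =>
    Units.map (WittVector.teichmuller p : AlgebraicClosure (ZMod p) →* _) (a.1 i)) h

lemma brauer_eq_weylFun (μ : Wt Unit n) : brauer p 1 jQ μ = weylFun p (μ ()) := by
  funext a
  unfold brauer weylFun
  have : (jQ ()).val = 0 := rfl
  simp [this]

/-- Hodge–Tate weights: strictly decreasing tuples. -/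
abbrev Dom (n : ℕ) : Type := {h : Fin n → ℤ // StrictAnti h}

/-- `h + m·1_I` -/
def addZ {n : ℕ} (h : Fin n → ℤ) (I : Finset (Fin n)) (m : ℤ) : Fin n → ℤ :=
  fun i => h i + if i ∈ I then m else 0

/-- Sign rule. -/
def SignRule {n : ℕ} {A : Type*} [AddCommGroup A] (Z : (Fin n → ℤ) → A) : Prop :=
  ∀ (h : Fin n → ℤ) (e : Equiv.Perm (Fin n)), Z (fun i => h (e i)) = (Equiv.Perm.sign e : ℤ) • Z h

/-- Twist equations: all Hodge–Tate weights may be shifted by `p - 1`. -/
def TwistQ (p : ℕ) {n : ℕ} {A : Type*} [AddCommGroup A] (Z : (Fin n → ℤ) → A) : Prop :=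
  ∀ h : Fin n → ℤ, Z (addZ h univ ((p : ℤ) - 1)) = Z h

/-- The equation at `h` and `r`: with `ν = h - p·1_{1..r}`,
`∑_{|I|=r} Z(ν + p·1_I) = ∑_{|I|=r} Z(ν + 1_I)`. -/
def EqAt (p : ℕ) {n : ℕ} {A : Type*} [AddCommGroup A] (Z : (Fin n → ℤ) → A)
    (h : Fin n → ℤ) (r : ℕ) : Prop :=
  ∑ I ∈ powersetCard r (univ : Finset (Fin n)), Z (addZ (addZ h (low n r) (-(p : ℤ))) I p)
    = ∑ I ∈ powersetCard r (univ : Finset (Fin n)), Z (addZ (addZ h (low n r) (-(p : ℤ))) I 1)

/-- At each tuple with some gap larger than `p`, one of the equations at such gaps holds. -/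
def OneEq (p : ℕ) {n : ℕ} {A : Type*} [AddCommGroup A] (Z : (Fin n → ℤ) → A) : Prop :=
  ∀ h : Dom n, (∃ a b : Fin n, (a : ℕ) + 1 = b ∧ (p : ℤ) < h.1 a - h.1 b) →
    ∃ a b : Fin n, (a : ℕ) + 1 = b ∧ (p : ℤ) < h.1 a - h.1 b ∧ EqAt p Z h.1 b

/-- `p`-restricted tuples: all gaps are at most `p`. -/
def GapsLe (p : ℕ) {n : ℕ} (h : Fin n → ℤ) : Prop :=
  ∀ a b : Fin n, (a : ℕ) + 1 = b → h a - h b ≤ p

/-- The Serre weights of `GL_n` over `ℚ_p`: irreducible mod `p` representations of `GL_n(F_p)`. -/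
structure QpWeights (p : ℕ) [Fact p.Prime] (n : ℕ) (W : Type) [Fintype W] where
  /-- their Brauer characters -/
  β : W → (Cls p 1 n → WittVector p (AlgebraicClosure (ZMod p)))
  /-- multiplicities in the reductions of the algebraic representations -/
  mlt : W → Dom n → ℤ
  /-- Brauer: irreducible Brauer characters are linearly independent -/
  indep : LinearIndependent ℤ β
  /-- definition of the multiplicities -/
  mult : ∀ h : Dom n, weylFun p h.1 = ∑ k, mlt k h • β k
  /-- Steinberg: the reductions of the algebraic representations span the Grothendieck group -/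
  span : ∀ k, β k ∈ Submodule.span ℤ (Set.range fun h : Dom n => weylFun p h.1)

/-- extension to `Wt Unit n` -/
def liftQ {A : Type*} (Z : (Fin n → ℤ) → A) : Wt Unit n → A := fun μ => Z (μ ())

section final

variable {M : Type*} [AddCommGroup M] {Z : (Fin n → ℤ) → M}

lemma isAlt_lift (hZ : SignRule Z) : IsAlt (liftQ Z) := by
  intro μ e
  unfold liftQ
  rw [hZ (μ ()) (e ())]
  simp

lemma bump_addZ (μ : Wt Unit n) (I : Finset (Fin n)) (m : ℤ) :
    bump μ () I m () = addZ (μ ()) I m := by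
  funext i
  simp [bump, addZ]

lemma eSum_lift (μ : Wt Unit n) (r : ℕ) (m : ℤ) : eSum (liftQ Z) μ () r m
    = ∑ I ∈ powersetCard r (univ : Finset (Fin n)), Z (addZ (μ ()) I m) := by
  unfold eSum liftQ
  refine Finset.sum_congr rfl fun I _ => ?_
  rw [bump_addZ]

lemma gapBoundQ : gapBound p jQ sQ () = p := by
  unfold gapBound
  rw [if_pos]
  rfl

lemma reduceQ (μ : Wt Unit n) (r : ℕ) :
    ReduceEq p jQ sQ (liftQ Z) μ () r ↔ EqAt p Z (μ ()) r := by
  unfold ReduceEq EqAt
  rw [eSum_lift, gapBoundQ, bump_addZ]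
  have : target jQ sQ () = () := rfl
  rw [this, eSum_lift, bump_addZ]

lemma twQ : TwistQ p Z ↔ ∀ μ, liftQ Z (bump μ () univ ((p ^ 1 - 1 : ℕ) : ℤ)) = liftQ Z μ := by
  have hp : p.Prime := Fact.out
  have e : ((p ^ 1 - 1 : ℕ) : ℤ) = (p : ℤ) - 1 := by
    rw [pow_one, Nat.cast_sub hp.one_lt.le]; rfl
  rw [e]
  constructor
  · intro h μ
    unfold liftQ
    rw [bump_addZ]
    exact h _
  · intro h ν
    have := h (fun _ => ν)
    unfold liftQ at this
    rw [bump_addZ] at this
    exact this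

/-- the pair (character, value) lies in the graph spanned by the normalised restricted tuples -/
lemma graph_mem [IsAddTorsionFree M] (hZ : SignRule Z) (hT : TwistQ p Z) (hE : OneEq p Z)
    (μ : Wt Unit n) : (brauer p 1 jQ μ, liftQ Z μ)
      ∈ GrG (fun b : Idx n p => brauer p 1 jQ (hb b)) (fun b : Idx n p => liftQ Z (hb b)) := by
  have hp : p.Prime := Fact.out
  refine reduce_mem hp.two_le (j := jQ) (s := sQ) (fun k => Subsingleton.elim _ _)
    (fun μ => (brauer p 1 jQ μ, liftQ Z μ)) _ ?_ ?_ ?_ μ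
  · apply sort_cases
    · intro μ e
      rw [brauer_alt, isAlt_lift hZ μ e]
      rfl
    · intro μ σ i k hik h
      rw [brauer_rep μ σ hik h, alt_rep (isAlt_lift hZ) μ σ hik h]
      rfl
  · intro ν hν
    obtain ⟨b, m, h⟩ := restricted_norm ν hν
    rw [h, tw_int (X := brauer p 1 jQ) brauer_tw m (hb b),
      tw_int (X := liftQ Z) (twQ.1 hT) m (hb b)]
    exact Submodule.subset_span ⟨b, rfl⟩
  · intro ν hν
    unfold Restricted at hν
    push Not at hν
    obtain ⟨σ, a, b, hab, hg⟩ := hν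
    rw [show gapBound p jQ sQ σ = p from gapBoundQ] at hg
    obtain ⟨a', b', hab', hg', he⟩ := hE ⟨ν.1 (), ν.2 ()⟩ ⟨a, b, hab, hg⟩
    refine ⟨(), a', b', hab', by rw [gapBoundQ]; exact hg', ?_⟩
    have h1 := reduce_of_eqs (p := p) (s := sQ) (fun k => Subsingleton.elim _ _)
      (brauer_fibre (p := p) (j := jQ)) brauer_frob ν.1 () (b' : ℕ)
    have h2 := (reduceQ (p := p) (Z := Z) ν.1 b').2 he
    unfold ReduceEq at *
    have key : ∀ (κ : Wt Unit n) (σ : Unit) (r : ℕ) (m : ℤ),
        eSum (fun μ => (brauer p 1 jQ μ, liftQ Z μ)) κ σ r m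
          = (eSum (brauer p 1 jQ) κ σ r m, eSum (liftQ Z) κ σ r m) := by
      intro κ σ r m
      unfold eSum
      ext1
      · rw [Prod.fst_sum]
      · rw [Prod.snd_sum]
    rw [key, key, h1, h2]

end final

end

end U566.BM
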