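import Pool.Agent.U566.BMEqui2
import Pool.Agent.U566.BMOneEq

/-! Congruent Hodge types: identities of the conjecture, the crystalline case and `ℚ_p`. -/

namespace U566.BM

open MvPolynomial Finset

set_option linter.unusedSectionVars false

noncomputable section

variable {S : Type} [Fintype S] [DecidableEq S] {d : ℕ} {p f : ℕ} [Fact p.Prime]
  {j : S → ZMod f} {T : Type} {M : Type*} [AddCommGroup M]

lemma sum_swap_ids {A ι W : Type*} [AddCommGroup A] [Fintype W] (n : W → ι → ℤ) (B : W → A)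
    (c : ι →₀ ℤ) : ∑ y ∈ c.support, c y • ∑ k, n k y • B k
      = ∑ k, (∑ y ∈ c.support, c y * n k y) • B k := by
  simp only [Finset.smul_sum, Finset.sum_smul, smul_smul]
  rw [Finset.sum_comm]

lemma rel_of_identities {F ι W : Type*} [AddCommGroup F] [Fintype W] {β : W → F}
    (hβ : LinearIndependent ℤ β) (u : ι → F) (n : W → ι → ℤ) (hn : ∀ y, u y = ∑ k, n k y • β k)
    (Y : W → M) (v : ι → M) (hv : ∀ y, v y = ∑ k, n k y • Y k) (c : ι →₀ ℤ)
    (hc : Finsupp.linearCombination ℤ u c = 0) : Finsupp.linearCombination ℤ v c = 0 := by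
  rw [Finsupp.linearCombination_apply, Finsupp.sum] at hc ⊢
  rw [Finset.sum_congr rfl (fun y _ => by rw [hn y]), sum_swap_ids] at hc
  have h2 := Fintype.linearIndependent_iff.1 hβ _ hc
  rw [Finset.sum_congr rfl (fun y _ => by rw [hv y]), sum_swap_ids]
  exact Finset.sum_eq_zero fun k _ => by rw [h2 k, zero_smul]

/-- identities of the conjecture for the congruent pairs imply the relations between them -/
lemma cong_of_identities {W : Type*} [Fintype W] {N : ℕ}
    {θ : T → (Cls p f d → WittVector p (AlgebraicClosure (ZMod p)))} {Z : T → Wt S d → M}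
    {β : W → (Cls p f d → WittVector p (AlgebraicClosure (ZMod p)))}
    (hβ : LinearIndependent ℤ β) (n : W → Reg S d → T → ℤ)
    (hn : ∀ (μ : Reg S d) (τ : T), brauer p f j μ.1 * θ τ = ∑ k, n k μ τ • β k) (Y : W → M)
    (hY : ∀ μ : Reg S d, CongN N μ.1 → ∀ τ : T, Z τ μ.1 = ∑ k, n k μ τ • Y k) :
    CongRelations p f j N θ Z := by
  intro c hc
  exact rel_of_identities hβ
    (fun x : {μ : Reg S d // CongN N μ.1} × T => brauer p f j x.1.1.1 * θ x.2)
    (fun k x => n k x.1.1 x.2) (fun x => hn x.1.1 x.2) Y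
    (fun x : {μ : Reg S d // CongN N μ.1} × T => Z x.2 x.1.1.1)
    (fun x => hY x.1.1 x.1.2 x.2) c hc

/-- the trivial type: `σ(1)` is the trivial representation -/
def trivType (p f : ℕ) [Fact p.Prime] (d : ℕ) : TypeChars p f d Unit where
  θ := fun _ => 1
  deg := fun _ => 1
  deg_pos := fun _ => Nat.one_pos
  ω := fun _ => 1
  scalar := fun _ _ => by simp

/-- the relations between the crystalline representations `σ^crys` with weights congruent modulo
`N` -/
def CongBM (p f : ℕ) [Fact p.Prime] (j : S → ZMod f) (N : ℕ) (Z : Wt S d → M) : Prop :=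
  ∀ c : {μ : Reg S d // CongN N μ.1} →₀ ℤ,
    Finsupp.linearCombination ℤ (fun x : {μ : Reg S d // CongN N μ.1} =>
      brauer p f j x.1.1) c = 0 →
      Finsupp.linearCombination ℤ (fun x : {μ : Reg S d // CongN N μ.1} => Z x.1.1) c = 0

lemma congBM_iff_rel {N : ℕ} {Z : Wt S d → M} :
    CongBM p f j N Z ↔ CongRelations p f j N (trivType p f d).θ (fun _ : Unit => Z) := by
  unfold CongBM CongRelations
  rw [rel_iff_graph, rel_iff_graph]
  have h : GrI (fun x : {μ : Reg S d // CongN N μ.1} => brauer p f j x.1.1)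
        (fun x : {μ : Reg S d // CongN N μ.1} => Z x.1.1)
      = GrI (fun x : {μ : Reg S d // CongN N μ.1} × Unit =>
          brauer p f j x.1.1.1 * (trivType p f d).θ x.2)
        (fun x : {μ : Reg S d // CongN N μ.1} × Unit => Z x.1.1.1) := by
    unfold GrI
    congr 1
    ext z
    constructor
    · rintro ⟨x, rfl⟩
      exact ⟨(x, ()), by simp [trivType]⟩
    · rintro ⟨x, rfl⟩
      exact ⟨x.1, by simp [trivType]⟩
  rw [h]

theorem congBM_iff [IsAddTorsionFree M] [Nonempty S] {N : ℕ} (hd : 0 < d)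
    (hN : ∀ k, 1 ≤ k → k ≤ d → ((p ^ f) ^ k - 1) ∣ N) (Z : Wt S d → M) :
    CongBM p f j N Z ↔
      ∀ (μ μ' : Reg S d), CongN N μ.1 → CongN N μ'.1 →
        wtChar p f j μ.1 = wtChar p f j μ'.1 →
        prodDiff μ'.1 • Z μ.1 = prodDiff μ.1 • Z μ'.1 := by
  rw [congBM_iff_rel, cong_iff (trivType p f d) hd hN]
  constructor
  · intro h μ μ' hμ hμ' hc
    have := h μ μ' hμ hμ' () () (by rw [hc])
    simpa [trivType] using this
  · intro h μ μ' hμ hμ' τ τ' hc
    have := h μ μ' hμ hμ' (mul_right_cancel hc)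
    simpa [trivType] using this

lemma congBM_of_identities {W : Type*} [Fintype W] {N : ℕ} {Z : Wt S d → M}
    {β : W → (Cls p f d → WittVector p (AlgebraicClosure (ZMod p)))}
    (hβ : LinearIndependent ℤ β) (n : W → Reg S d → ℤ)
    (hn : ∀ μ : Reg S d, brauer p f j μ.1 = ∑ k, n k μ • β k) (Y : W → M)
    (hY : ∀ μ : Reg S d, CongN N μ.1 → Z μ.1 = ∑ k, n k μ • Y k) :
    CongBM p f j N Z := by
  intro c hc
  exact rel_of_identities hβ
    (fun x : {μ : Reg S d // CongN N μ.1} => brauer p f j x.1.1)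
    (fun k x => n k x.1) (fun x => hn x.1) Y
    (fun x : {μ : Reg S d // CongN N μ.1} => Z x.1.1) (fun x => hY x.1 x.2) c hc

section Qp

variable {n : ℕ}

/-- all weights are congruent modulo `N` -/
def CongZ (N : ℕ) {n : ℕ} (h : Fin n → ℤ) : Prop := ∀ i l : Fin n, (N : ℤ) ∣ h i - h l

/-- `∏_{i<l} (h_i - h_l)` -/
def diffProd {n : ℕ} (h : Fin n → ℤ) : ℤ := ∏ i : Fin n, ∏ l ∈ Finset.Ioi i, (h i - h l)

/-- The character `x ↦ [x]^(∑_i h_i)` of `F_p^×`, `[x]` the Teichmüller lift. -/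
def sumChar (p : ℕ) [Fact p.Prime] {n : ℕ} (h : Fin n → ℤ) :
    Fq p 1 →* (WittVector p (AlgebraicClosure (ZMod p)))ˣ :=
  (zpowGroupHom (∑ i, h i)).comp
    ((Units.map (WittVector.teichmuller p : AlgebraicClosure (ZMod p) →* _)).comp
      (rootsOfUnity (p ^ 1 - 1) (AlgebraicClosure (ZMod p))).subtype)

/-- the relations between the pairs `(h, τ)` with all weights congruent modulo `N` -/
def CongRelationsQ (p : ℕ) [Fact p.Prime] (N : ℕ) {n : ℕ}
    (θ : T → (Cls p 1 n → WittVector p (AlgebraicClosure (ZMod p))))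
    (Z : T → (Fin n → ℤ) → M) : Prop :=
  ∀ c : ({h : Dom n // CongZ N h.1} × T) →₀ ℤ,
    Finsupp.linearCombination ℤ (fun x : {h : Dom n // CongZ N h.1} × T =>
      weylFun p x.1.1.1 * θ x.2) c = 0 →
      Finsupp.linearCombination ℤ (fun x : {h : Dom n // CongZ N h.1} × T =>
        Z x.2 x.1.1.1) c = 0

lemma wtChar_unit (h : Fin n → ℤ) : wtChar p 1 jQ (fun _ : Unit => h) = sumChar p h := by
  unfold wtChar sumChar
  congr 2
  have : (jQ ()).val = 0 := rfl
  simp [this]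

lemma congQ_iff_rel {N : ℕ} {θ : T → (Cls p 1 n → WittVector p (AlgebraicClosure (ZMod p)))}
    {Z : T → (Fin n → ℤ) → M} :
    CongRelationsQ p N θ Z ↔ CongRelations p 1 jQ N θ (fun τ => liftQ (Z τ)) := by
  unfold CongRelationsQ CongRelations
  rw [rel_iff_graph, rel_iff_graph]
  have h : GrI (fun x : {h : Dom n // CongZ N h.1} × T => weylFun p x.1.1.1 * θ x.2)
        (fun x : {h : Dom n // CongZ N h.1} × T => Z x.2 x.1.1.1)
      = GrI (fun x : {μ : Reg Unit n // CongN N μ.1} × T => brauer p 1 jQ x.1.1.1 * θ x.2)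
        (fun x : {μ : Reg Unit n // CongN N μ.1} × T => liftQ (Z x.2) x.1.1.1) := by
    unfold GrI
    congr 1
    ext z
    constructor
    · rintro ⟨x, rfl⟩
      refine ⟨(⟨⟨fun _ => x.1.1.1, fun _ => x.1.1.2⟩, fun _ => x.1.2⟩, x.2), ?_⟩
      change (brauer p 1 jQ (fun _ => x.1.1.1) * θ x.2, Z x.2 x.1.1.1) = _
      rw [brauer_eq_weylFun]
    · rintro ⟨x, rfl⟩
      refine ⟨(⟨⟨x.1.1.1 (), x.1.1.2 ()⟩, x.1.2 ()⟩, x.2), ?_⟩
      change (weylFun p (x.1.1.1 ()) * θ x.2, Z x.2 (x.1.1.1 ())) = _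
      rw [← brauer_eq_weylFun]
      rfl
  rw [h]

theorem congQ_iff [IsAddTorsionFree M] (D : TypeChars p 1 n T) {N : ℕ} (hn : 0 < n)
    (hN : ∀ k, 1 ≤ k → k ≤ n → (p ^ k - 1) ∣ N) (Z : T → (Fin n → ℤ) → M) :
    CongRelationsQ p N D.θ Z ↔
      ∀ (h h' : Dom n), CongZ N h.1 → CongZ N h'.1 → ∀ τ τ' : T,
        sumChar p h.1 * D.ω τ = sumChar p h'.1 * D.ω τ' →
        ((D.deg τ' : ℤ) * diffProd h'.1) • Z τ h.1 = ((D.deg τ : ℤ) * diffProd h.1) • Z τ' h'.1 := by
  have hprod : ∀ h : Fin n → ℤ, prodDiff (fun _ : Unit => h) = diffProd h := by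
    intro h
    simp [prodDiff, diffProd]
  rw [congQ_iff_rel, cong_iff D hn (fun k h1 h2 => by rw [pow_one]; exact hN k h1 h2)]
  constructor
  · intro H h h' hc hc' τ τ' e
    have := H ⟨fun _ => h.1, fun _ => h.2⟩ ⟨fun _ => h'.1, fun _ => h'.2⟩ (fun _ => hc)
      (fun _ => hc') τ τ' (by rw [wtChar_unit, wtChar_unit]; exact e)
    rw [hprod, hprod] at this
    exact this
  · intro H μ μ' hc hc' τ τ' e
    have hμ : μ.1 = fun _ => μ.1 () := rfl
    have hμ' : μ'.1 = fun _ => μ'.1 () := rfl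
    rw [hμ, hμ', hprod, hprod]
    exact H ⟨μ.1 (), μ.2 ()⟩ ⟨μ'.1 (), μ'.2 ()⟩ (hc ()) (hc' ()) τ τ' (by
      rw [hμ, hμ', wtChar_unit, wtChar_unit] at e
      exact e)

lemma congQ_of_identities {W : Type*} [Fintype W] {N : ℕ}
    {θ : T → (Cls p 1 n → WittVector p (AlgebraicClosure (ZMod p)))} {Z : T → (Fin n → ℤ) → M}
    {β : W → (Cls p 1 n → WittVector p (AlgebraicClosure (ZMod p)))}
    (hβ : LinearIndependent ℤ β) (m : W → Dom n → T → ℤ)
    (hm : ∀ (h : Dom n) (τ : T), weylFun p h.1 * θ τ = ∑ k, m k h τ • β k) (Y : W → M)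
    (hY : ∀ h : Dom n, CongZ N h.1 → ∀ τ : T, Z τ h.1 = ∑ k, m k h τ • Y k) :
    CongRelationsQ p N θ Z := by
  intro c hc
  exact rel_of_identities hβ
    (fun x : {h : Dom n // CongZ N h.1} × T => weylFun p x.1.1.1 * θ x.2)
    (fun k x => m k x.1.1 x.2) (fun x => hm x.1.1 x.2) Y
    (fun x : {h : Dom n // CongZ N h.1} × T => Z x.2 x.1.1.1)
    (fun x => hY x.1.1 x.1.2 x.2) c hc

end Qp

end

end U566.BM
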