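import Pool.Agent.U566.BMGenK2

/-! `GL_2` over a general field `K`. -/

namespace U566.BM

open MvPolynomial Finset

set_option linter.unusedSectionVars false

noncomputable section

variable {S : Type} [Fintype S] [DecidableEq S] {p f : ℕ} [Fact p.Prime] [NeZero f]
  {j : S → ZMod f} {s : ZMod f → S}

/-- Serre weights of `GL_2` over a field with `q = p^f` elements: the weight `(r, c)` is
`det^c ⊗ ⨂_k (Sym^(r k))^(Frob^k)`, with `0 ≤ r k ≤ p - 1` and `0 ≤ c < q - 1`. -/
abbrev SW (p f : ℕ) : Type := (ZMod f → Fin p) × Fin (p ^ f - 1)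

/-- The Hodge–Tate weights attached to the Serre weight `(r, c)`: `(r_k + 1, 0)` at the chosen
embedding over `k`, `(1, 0)` at the other embeddings, both raised by `c` at the embedding `s 0`. -/
def htOf (j : S → ZMod f) (s : ZMod f → S) (a : SW p f) : Wt S 2 := fun σ i =>
  (if i = 0 then (if Chosen j s σ then (((a.1 (j σ) : ℕ) : ℤ) + 1) else 1) else 0)
    + (if σ = s 0 then ((a.2 : ℕ) : ℤ) else 0)

lemma htOf_reg (a : SW p f) (σ : S) : StrictAnti (htOf j s a σ) := by
  rw [Fin.strictAnti_iff_succ_lt]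
  intro l
  have hl : l = 0 := Subsingleton.elim _ _
  subst hl
  unfold htOf
  simp only [Fin.succ_zero_eq_one, Fin.castSucc_zero, if_true]
  rw [if_neg (by decide)]
  split_ifs <;> omega

/-- as a regular tuple -/
def regOf (j : S → ZMod f) (s : ZMod f → S) (a : SW p f) : Reg S 2 := ⟨htOf j s a, htOf_reg a⟩

/-- raise the weight in position `i` at `σ` by `c` -/
def up (μ : Wt S 2) (σ : S) (i : Fin 2) (c : ℤ) : Wt S 2 :=
  fun τ k => μ τ k + if τ = σ ∧ k = i then c else 0

/-- The four-term equation at `μ` and `σ`: `m` is `p` if `σ` is chosen and `1` otherwise, `σ'` is the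
chosen embedding over the Frobenius twist of `σ` resp. over `σ`. -/
def FourTerm {A : Type*} [AddCommGroup A] (p : ℕ) {f : ℕ} (j : S → ZMod f) (s : ZMod f → S)
    (X : Wt S 2 → A) (μ : Wt S 2) (σ : S) : Prop :=
  X μ + X (up (up μ σ 0 (-(gapBound p j s σ : ℤ))) σ 1 (gapBound p j s σ : ℤ))
    = X (up (up μ σ 0 (-(gapBound p j s σ : ℤ))) (target j s σ) 0 1)
      + X (up (up μ σ 0 (-(gapBound p j s σ : ℤ))) (target j s σ) 1 1)

/-- At each regular tuple whose gap at some embedding exceeds the bound (`p` at the chosen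
embeddings, `1` at the others), one of the four-term equations at such embeddings holds. -/
def FourTermEqs {A : Type*} [AddCommGroup A] (p : ℕ) {f : ℕ} (j : S → ZMod f) (s : ZMod f → S)
    (X : Wt S 2 → A) : Prop :=
  ∀ μ : Reg S 2, (∃ σ, (gapBound p j s σ : ℤ) < μ.1 σ 0 - μ.1 σ 1) →
    ∃ σ, (gapBound p j s σ : ℤ) < μ.1 σ 0 - μ.1 σ 1 ∧ FourTerm p j s X μ.1 σ

lemma eSum_two {A : Type*} [AddCommGroup A] (X : Wt S 2 → A) (μ : Wt S 2) (σ : S) (c : ℤ) :
    eSum X μ σ 1 c = X (up μ σ 0 c) + X (up μ σ 1 c) := by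
  unfold eSum
  rw [Finset.powersetCard_one, Finset.sum_map, Fin.sum_univ_two]
  have h : ∀ i : Fin 2, bump μ σ {i} c = up μ σ i c := by
    intro i
    funext τ k
    simp [bump, up]
  simp only [Function.Embedding.coeFn_mk, h]

lemma low_two : low 2 1 = {0} := by
  ext i
  fin_cases i <;> simp [low]

lemma fourTerm_iff {A : Type*} [AddCommGroup A] (X : Wt S 2 → A) (μ : Wt S 2) (σ : S) :
    FourTerm p j s X μ σ ↔ ReduceEq p j s X μ σ 1 := by
  unfold FourTerm ReduceEq
  rw [eSum_two, eSum_two, low_two]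
  have h : bump μ σ {(0 : Fin 2)} (-(gapBound p j s σ : ℤ)) = up μ σ 0 (-(gapBound p j s σ : ℤ)) := by
    funext τ k
    simp [bump, up]
  have h2 : up (up μ σ 0 (-(gapBound p j s σ : ℤ))) σ 0 (gapBound p j s σ : ℤ) = μ := by
    funext τ k
    unfold up
    split_ifs <;> ring
  rw [h, h2]

lemma restricted_two (μ : Wt S 2) : Restricted p j s μ ↔
    ∀ σ, μ σ 0 - μ σ 1 ≤ gapBound p j s σ := by
  constructor
  · intro h σ
    exact h σ 0 1 rfl
  · intro h σ a b hab
    have ha : a = 0 := by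
      apply Fin.ext
      have := a.2; have := b.2
      simp only [Fin.val_zero]
      omega
    have hb : b = 1 := by
      apply Fin.ext
      rw [ha] at hab
      simpa using hab.symm
    rw [ha, hb]
    exact h σ

/-- the two descriptions of the indices agree -/
def eSW : SW p f ≃ NIdx 1 p f :=
  Equiv.prodCongr (Equiv.piCongrRight fun _ => (Equiv.funUnique (Fin 1) (Fin p)).symm)
    (Equiv.refl _)

lemma hbK_eSW (a : SW p f) : (hbK j s (eSW a) : Wt S (1 + 1)) = htOf j s a := by
  funext σ i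
  unfold hbK htOf eSW
  simp only [Equiv.prodCongr_apply, Prod.map_fst, Prod.map_snd, Equiv.piCongrRight_apply,
    Equiv.refl_apply]
  congr 1
  fin_cases i
  · simp
  · simp

lemma indep_aux {ι κ A : Type*} [AddCommGroup A] {v : κ → A} {w : ι → A} (e : ι ≃ κ)
    (hv : LinearIndependent ℤ v) (h : ∀ i, v (e i) = w i) : LinearIndependent ℤ w := by
  have h1 := hv.comp e e.injective
  have h2 : v ∘ e = w := funext h
  rwa [h2] at h1

lemma indep_SW (hs : ∀ k, j (s k) = k) :
    LinearIndependent ℤ (fun a : SW p f => brauer p f j (htOf j s a)) := by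
  have h0 := indep_hbK (m := 1) (p := p) (j := j) (s := s) hs
  refine indep_aux (eSW (p := p) (f := f)) h0 fun a => ?_
  rw [hbK_eSW]

lemma span_aux {ι κ A : Type*} [AddCommGroup A] {v : κ → A} {w : ι → A} (e : ι ≃ κ)
    (h : ∀ i, v (e i) = w i) {x : A} (hx : x ∈ Submodule.span ℤ (Set.range v)) :
    x ∈ Submodule.span ℤ (Set.range w) := by
  have h2 : Set.range v ⊆ Set.range w := by
    rintro _ ⟨k, rfl⟩
    exact ⟨e.symm k, by rw [← h, Equiv.apply_symm_apply]⟩
  exact Submodule.span_mono h2 hx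

lemma span_SW (hs : ∀ k, j (s k) = k) (μ : Wt S 2) : brauer p f j μ
    ∈ Submodule.span ℤ (Set.range fun a : SW p f => brauer p f j (htOf j s a)) := by
  have h1 := span_hbK (m := 1) (p := p) (j := j) (s := s) hs μ
  refine span_aux (eSW (p := p) (f := f)) (fun a => ?_) h1
  rw [hbK_eSW]

lemma norm_SW (hs : ∀ k, j (s k) = k) {A : Type*} {X : Wt S 2 → A}
    (hX : TwistK p j X) (μ : Reg S 2) (hμ : Restricted p j s μ.1) :
    ∃ a : SW p f, X μ.1 = X (htOf j s a) := by
  obtain ⟨b, hb⟩ := restricted_normK (m := 1) (p := p) hs hX μ hμ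
  refine ⟨eSW.symm b, ?_⟩
  rw [hb, ← hbK_eSW, Equiv.apply_symm_apply]

end

end U566.BM
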