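import Pool.Agent.U566.BMIndep
import Pool.Agent.U566.BMExchange

/-! Normalised restricted tuples for a general field `K`: spanning and independence. -/

namespace U566.BM

open MvPolynomial Finset

set_option linter.unusedSectionVars false

noncomputable section

section tw

variable {S : Type} [Fintype S] [DecidableEq S] {d : ℕ} {A : Type*}

/-- Twist equations: shifting all the weights at `σ` by `1` and at `σ'` by `1` have the same effect
if `σ`, `σ'` agree on the residue field; shifting by `p` at `σ` and by `1` at `σ'` have the same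
effect if `σ'` is the Frobenius twist of `σ` there. -/
def TwistK (p : ℕ) {f : ℕ} (j : S → ZMod f) (X : Wt S d → A) : Prop :=
  (∀ (μ : Wt S d) (σ σ' : S), j σ = j σ' → X (bump μ σ univ 1) = X (bump μ σ' univ 1)) ∧
  ∀ (μ : Wt S d) (σ σ' : S), j σ' = j σ + 1 → X (bump μ σ univ (p : ℤ)) = X (bump μ σ' univ 1)

/-- the function `c` at `σ` and `0` elsewhere -/
def sg (σ : S) (c : ℤ) : S → ℤ := fun τ => if τ = σ then c else 0

/-- shift by a function of the embeddings -/
def act (c : S → ℤ) (μ : Wt S d) : Wt S d := fun σ i => μ σ i + c σ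

lemma bump_eq_act (μ : Wt S d) (σ : S) (c : ℤ) : bump μ σ univ c = act (sg σ c) μ := by
  funext τ i
  simp [bump, act, sg]

lemma act_act (a b : S → ℤ) (μ : Wt S d) : act a (act b μ) = act (a + b) μ := by
  funext τ i
  simp only [act, Pi.add_apply]
  ring

lemma act_zero (μ : Wt S d) : act 0 μ = μ := by
  funext τ i
  simp [act]

/-- the periods of `X` -/
def twL (X : Wt S d → A) : AddSubgroup (S → ℤ) where
  carrier := {c | ∀ μ, X (act c μ) = X μ}
  zero_mem' := by intro μ; rw [act_zero]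
  add_mem' := by
    intro a b ha hb μ
    rw [← act_act]
    exact (ha _).trans (hb μ)
  neg_mem' := by
    intro a ha μ
    have := ha (act (-a) μ)
    rw [act_act, add_neg_cancel, act_zero] at this
    exact this.symm

lemma mem_twL {X : Wt S d → A} {c : S → ℤ} : c ∈ twL X ↔ ∀ μ, X (act c μ) = X μ := Iff.rfl

lemma sub_mem_twL {X : Wt S d → A} {a b : S → ℤ} (h : ∀ μ, X (act a μ) = X (act b μ)) :
    a - b ∈ twL X := by
  intro μ
  have := h (act (-b) μ)
  rw [act_act, act_act, add_neg_cancel, act_zero, ← sub_eq_add_neg] at this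
  exact this

variable {p f : ℕ} [Fact p.Prime] [NeZero f] {j : S → ZMod f} {s : ZMod f → S}
  {X : Wt S d → A}

lemma tw_nat (hs : ∀ k, j (s k) = k) (hX : TwistK p j X) (k : ℕ) :
    sg (s (k : ZMod f)) (1 : ℤ) - sg (s 0) ((p : ℤ) ^ k) ∈ twL X := by
  induction k with
  | zero =>
    rw [Nat.cast_zero, pow_zero, sub_self]
    exact AddSubgroup.zero_mem _
  | succ k ih =>
    have h1 : sg (s (k : ZMod f)) (p : ℤ) - sg (s ((k + 1 : ℕ) : ZMod f)) (1 : ℤ)
        ∈ twL X := by
      apply sub_mem_twL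
      intro μ
      rw [← bump_eq_act, ← bump_eq_act]
      exact hX.2 μ _ _ (by rw [hs, hs]; push_cast; rfl)
    have h2 := AddSubgroup.sub_mem _ (AddSubgroup.zsmul_mem _ ih (p : ℤ)) h1
    have e : (p : ℤ) • (sg (s (k : ZMod f)) (1 : ℤ) - sg (s 0) ((p : ℤ) ^ k))
        - (sg (s (k : ZMod f)) (p : ℤ) - sg (s ((k + 1 : ℕ) : ZMod f)) (1 : ℤ))
        = sg (s ((k + 1 : ℕ) : ZMod f)) (1 : ℤ) - sg (s 0) ((p : ℤ) ^ (k + 1)) := by
      funext τ
      simp only [Pi.sub_apply, Pi.smul_apply, sg, smul_eq_mul]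
      split_ifs <;> ring
    rw [e] at h2
    exact h2

lemma tw_q (hs : ∀ k, j (s k) = k) (hX : TwistK p j X) :
    sg (s 0) (((p ^ f - 1 : ℕ) : ℤ)) ∈ twL X := by
  have hp : p.Prime := Fact.out
  have h := AddSubgroup.neg_mem _ (tw_nat hs hX f)
  have e : -(sg (s ((f : ℕ) : ZMod f)) (1 : ℤ) - sg (s 0) ((p : ℤ) ^ f))
      = sg (s 0) (((p ^ f - 1 : ℕ) : ℤ)) := by
    rw [ZMod.natCast_self, Nat.cast_sub (Nat.one_le_pow _ _ hp.pos)]
    funext τ
    simp only [Pi.neg_apply, Pi.sub_apply, sg]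
    split_ifs
    · push_cast; ring
    · ring
  rw [e] at h
  exact h

lemma tw_one (hs : ∀ k, j (s k) = k) (hX : TwistK p j X) (σ : S) :
    sg σ (1 : ℤ) - sg (s 0) ((p : ℤ) ^ (j σ).val) ∈ twL X := by
  have h1 : sg σ (1 : ℤ) - sg (s (j σ)) (1 : ℤ) ∈ twL X := by
    apply sub_mem_twL
    intro μ
    rw [← bump_eq_act, ← bump_eq_act]
    exact hX.1 μ _ _ (hs _).symm
  have h2 := tw_nat hs hX (j σ).val
  rw [ZMod.natCast_zmod_val] at h2
  have h3 := AddSubgroup.add_mem _ h1 h2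
  rw [sub_add_sub_cancel] at h3
  exact h3

lemma tw_gen (hs : ∀ k, j (s k) = k) (hX : TwistK p j X) (c : S → ℤ) :
    c - sg (s 0) (∑ σ, c σ * (p : ℤ) ^ (j σ).val) ∈ twL X := by
  have h := AddSubgroup.sum_mem (twL X) (t := univ)
    (f := fun σ => c σ • (sg σ (1 : ℤ) - sg (s 0) ((p : ℤ) ^ (j σ).val)))
    (fun σ _ => AddSubgroup.zsmul_mem _ (tw_one hs hX σ) _)
  have e : ∑ σ, c σ • (sg σ (1 : ℤ) - sg (s 0) ((p : ℤ) ^ (j σ).val))
      = c - sg (s 0) (∑ σ, c σ * (p : ℤ) ^ (j σ).val) := by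
    funext τ
    simp only [Finset.sum_apply, Pi.sub_apply, Pi.smul_apply, sg, smul_eq_mul,
      mul_sub, Finset.sum_sub_distrib]
    congr 1
    · simp
    · split_ifs
      · rfl
      · simp
  rw [e] at h
  exact h

lemma tw_fin (hs : ∀ k, j (s k) = k) (hX : TwistK p j X) (c : S → ℤ) (μ : Wt S d) :
    X (act c μ) = X (act (sg (s 0)
      ((∑ σ, c σ * (p : ℤ) ^ (j σ).val) % ((p ^ f - 1 : ℕ) : ℤ))) μ) := by
  set N := ∑ σ, c σ * (p : ℤ) ^ (j σ).val with hN
  set q' : ℤ := ((p ^ f - 1 : ℕ) : ℤ) with hq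
  have h1 := tw_gen hs hX c
  have h2 := AddSubgroup.zsmul_mem _ (tw_q hs hX) (N / q')
  have h3 := AddSubgroup.add_mem _ h1 h2
  have e : c - sg (s 0) N + (N / q') • sg (s 0) q'
      = c - sg (s 0) (N % q') := by
    funext τ
    simp only [Pi.sub_apply, Pi.add_apply, Pi.smul_apply, sg, smul_eq_mul]
    split_ifs
    · have := Int.emod_add_mul_ediv N q'
      linarith
    · ring
  rw [← hN, ← hq, e] at h3
  have h4 := h3 (act (sg (s 0) (N % q')) μ)
  rw [act_act, sub_add_cancel] at h4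
  exact h4

end tw

end

end U566.BM
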