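import Pool.Agent.U566.BMGenK

/-! Normalised restricted tuples for a general field `K`: spanning and independence. -/

namespace U566.BM

open MvPolynomial Finset

set_option linter.unusedSectionVars false

noncomputable section

variable {S : Type} [Fintype S] [DecidableEq S] {m : ℕ} {p f : ℕ} [Fact p.Prime] [NeZero f]
  {j : S → ZMod f} {s : ZMod f → S}

/-- restricted exponents -/
abbrev IdxK (m p f : ℕ) : Type := (i : Fin (m + 1)) → Fin (bd (m + 1) (p ^ f) i)

/-- restricted monomials in the fundamental characters -/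
def ebK (j : S → ZMod f) (σ : S) (b : IdxK m p f) :
    Cls p f (m + 1) → WittVector p (AlgebraicClosure (ZMod p)) :=
  ∏ i : Fin (m + 1), extChar p f j σ ((i : ℕ) + 1) ^ ((b i : ℕ))

lemma extK {σ : S} (hσ : j σ = 0) (r : ℕ) (a : Cls p f (m + 1)) : extChar p f j σ r a
    = aeval (fun i => WittVector.teichmuller p
      ((a.1 i : (AlgebraicClosure (ZMod p))ˣ) : AlgebraicClosure (ZMod p)))
        (esymm (Fin (m + 1)) ℤ r) := by
  unfold extChar
  simp only [hσ, ZMod.val_zero, pow_zero, pow_one]

lemma indep_ebK {σ : S} (hσ : j σ = 0) :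
    LinearIndependent ℤ (ebK (m := m) (p := p) j σ) := by
  classical
  have hp : p.Prime := Fact.out
  have hf : f ≠ 0 := NeZero.ne f
  have hq : 2 ≤ p ^ f := hp.two_le.trans (Nat.le_self_pow hf p)
  rw [Fintype.linearIndependent_iff]
  intro c hc
  let mb : IdxK m p f → (Fin (m + 1) →₀ ℕ) :=
    fun b => Finsupp.equivFunOnFinite.symm (fun i => (b i : ℕ))
  have hmb : Function.Injective mb := by
    intro b b' h
    funext i
    have := congrArg (fun k : Fin (m + 1) →₀ ℕ => k i) h
    exact Fin.ext this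
  set G : MvPolynomial (Fin (m + 1)) ℤ := ∑ b : IdxK m p f, monomial (mb b) (c b) with hG
  have hpos : ∀ i, 0 < bd (m + 1) (p ^ f) i := fun i => by
    unfold bd; split_ifs <;> omega
  have hdeg : ∀ i, degreeOf i G < bd (m + 1) (p ^ f) i := by
    intro i
    rw [degreeOf_lt_iff (hpos i)]
    intro k hk
    have := MvPolynomial.support_sum hk
    rw [Finset.mem_biUnion] at this
    obtain ⟨b, _, h2⟩ := this
    have h3 := Finset.mem_singleton.1 (support_monomial_subset h2)
    rw [h3]
    exact (b i).2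
  have hV : Vanish p (p ^ f) (AlgebraicClosure (ZMod p)) (subE (m + 1) G) := by
    intro a ha
    have h := congrFun hc ⟨a, ha⟩
    rw [Finset.sum_apply] at h
    rw [hG, map_sum, map_sum]
    rw [Pi.zero_apply] at h
    rw [← h]
    refine Finset.sum_congr rfl fun b _ => ?_
    rw [Pi.smul_apply, zsmul_eq_mul, MvPolynomial.monomial_eq,
      Finsupp.prod_fintype _ _ (by intro i; simp), map_mul, map_mul, map_prod, map_prod]
    refine congrArg₂ (· * ·) ?_ ?_
    · rw [subE, aeval_C, eq_intCast, map_intCast]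
    · unfold ebK
      rw [Finset.prod_apply]
      refine Finset.prod_congr rfl fun i _ => ?_
      rw [Pi.pow_apply, extK hσ, map_pow, map_pow, subE, aeval_X]
      rfl
  have hG0 := zero_of_vanish p hf hdeg hV
  intro b
  have h1 := congrArg (coeff (mb b)) hG0
  rw [hG, coeff_sum, coeff_zero] at h1
  simp only [coeff_monomial] at h1
  rw [Finset.sum_eq_single b] at h1
  · simpa using h1
  · intro b' _ hb'
    rw [if_neg (fun h => hb' (hmb h))]
  · simp

lemma ext_memK {x : Cls p f (m + 1) → WittVector p (AlgebraicClosure (ZMod p))} (σ : S) (r : ℕ)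
    (hx : x ∈ Submodule.span ℤ (Set.range (brauer p f j : Wt S (m + 1) → _))) :
    extChar p f j σ r * x ∈ Submodule.span ℤ (Set.range (brauer p f j : Wt S (m + 1) → _)) := by
  induction hx using Submodule.span_induction with
  | mem x hx =>
    obtain ⟨μ, rfl⟩ := hx
    rw [← ext_mul_brauer]
    exact Submodule.sum_mem _ fun I _ => Submodule.subset_span ⟨_, rfl⟩
  | zero => rw [mul_zero]; exact Submodule.zero_mem _
  | add x y _ _ hx hy => rw [mul_add]; exact Submodule.add_mem _ hx hy
  | smul a x _ hx => rw [mul_smul_comm]; exact Submodule.smul_mem _ _ hx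

lemma ebK_mem (σ : S) (b : IdxK m p f) :
    ebK j σ b ∈ Submodule.span ℤ (Set.range (brauer p f j : Wt S (m + 1) → _)) := by
  classical
  have h1 : (1 : Cls p f (m + 1) → WittVector p (AlgebraicClosure (ZMod p)))
      ∈ Submodule.span ℤ (Set.range (brauer p f j : Wt S (m + 1) → _)) :=
    Submodule.subset_span ⟨wt0 S (m + 1), brauer_wt0⟩
  have hpow : ∀ (r k : ℕ) (x : Cls p f (m + 1) → WittVector p (AlgebraicClosure (ZMod p))),
      x ∈ Submodule.span ℤ (Set.range (brauer p f j : Wt S (m + 1) → _)) →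
      extChar p f j σ r ^ k * x
        ∈ Submodule.span ℤ (Set.range (brauer p f j : Wt S (m + 1) → _)) := by
    intro r k
    induction k with
    | zero => intro x hx; rwa [pow_zero, one_mul]
    | succ k ih =>
      intro x hx
      rw [pow_succ, mul_assoc]
      exact ih _ (ext_memK σ r hx)
  have hprod : ∀ t : Finset (Fin (m + 1)),
      ∏ i ∈ t, extChar p f j σ ((i : ℕ) + 1) ^ ((b i : ℕ))
      ∈ Submodule.span ℤ (Set.range (brauer p f j : Wt S (m + 1) → _)) := by
    intro t
    induction t using Finset.induction_on with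
    | empty => simpa using h1
    | insert i t hi ih =>
      rw [Finset.prod_insert hi]
      exact hpow _ _ _ ih
  exact hprod univ

/-- Index of the normalised restricted tuples -/
abbrev NIdx (m p f : ℕ) : Type := (ZMod f → Fin m → Fin p) × Fin (p ^ f - 1)

lemma card_NIdx : Fintype.card (IdxK m p f) = Fintype.card (NIdx m p f) := by
  rw [Fintype.card_pi, Fintype.card_prod, Fintype.card_fun, Fintype.card_fun, ZMod.card,
    Fintype.card_fin, Fintype.card_fin, Fintype.card_fin, Fin.prod_univ_castSucc]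
  simp only [Fintype.card_fin]
  have h1 : ∏ i : Fin m, bd (m + 1) (p ^ f) i.castSucc = (p ^ f) ^ m := by
    rw [Finset.prod_congr rfl (g := fun _ => p ^ f)]
    · simp
    · intro i _
      unfold bd
      rw [if_neg]
      have := i.2
      simp only [Fin.val_castSucc]
      omega
  have h2 : bd (m + 1) (p ^ f) (Fin.last m) = p ^ f - 1 := by
    unfold bd
    rw [if_pos]
    simp
  rw [h1, h2, ← pow_mul, ← pow_mul, mul_comm f m]

/-- The normalised restricted tuples: gaps `g + 1` between `1` and `p` at the chosen embeddings,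
gaps `1` at the others, last weight `0` except at the embedding `s 0`. -/
def hbK (j : S → ZMod f) (s : ZMod f → S) (b : NIdx m p f) : Wt S (m + 1) := fun σ i =>
  (if Chosen j s σ then ∑ l : Fin m, (if (i : ℕ) ≤ l then (((b.1 (j σ) l : ℕ) : ℤ) + 1) else 0)
    else (m : ℤ) - (i : ℕ)) + (if σ = s 0 then ((b.2 : ℕ) : ℤ) else 0)

lemma telescope (Y : ℕ → ℤ) {m k : ℕ} (hk : k ≤ m) :
    ∑ l : Fin m, (if k ≤ (l : ℕ) then (Y l - Y (l + 1)) else 0) = Y k - Y m := by
  rw [Fin.sum_univ_eq_sum_range (fun l => if k ≤ l then (Y l - Y (l + 1)) else 0) m,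
    ← Finset.sum_filter]
  have e : (Finset.range m).filter (fun l => k ≤ l) = Finset.Ico k m := by
    ext l
    simp only [Finset.mem_filter, Finset.mem_range, Finset.mem_Ico]
    tauto
  rw [e]
  have h := Finset.sum_Ico_sub Y hk
  have e2 : ∑ l ∈ Finset.Ico k m, (Y l - Y (l + 1)) = - ∑ l ∈ Finset.Ico k m, (Y (l + 1) - Y l) := by
    rw [← Finset.sum_neg_distrib]
    refine Finset.sum_congr rfl fun l _ => ?_
    ring
  rw [e2, h]
  ring

lemma telescope' (y : Fin (m + 1) → ℤ) (i : Fin (m + 1)) :
    ∑ l : Fin m, (if (i : ℕ) ≤ l then (y l.castSucc - y l.succ) else 0) = y i - y (Fin.last m) := by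
  set Y : ℕ → ℤ := fun n => if h : n < m + 1 then y ⟨n, h⟩ else 0 with hY
  have h := telescope Y (Nat.le_of_lt_succ i.2)
  have e1 : Y (i : ℕ) = y i := by
    rw [hY]
    simp only [i.2, dif_pos]
  have e2 : Y m = y (Fin.last m) := by
    rw [hY]
    simp only [Nat.lt_succ_self, dif_pos]
    rfl
  rw [e1, e2] at h
  rw [← h]
  refine Finset.sum_congr rfl fun l _ => ?_
  have h1 : (l : ℕ) < m + 1 := by have := l.2; omega
  have h2 : (l : ℕ) + 1 < m + 1 := by have := l.2; omega
  rw [hY]
  simp only [h1, h2, dif_pos]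
  rfl

lemma restricted_normK (hs : ∀ k, j (s k) = k) {A : Type*} {X : Wt S (m + 1) → A}
    (hX : TwistK p j X) (μ : Reg S (m + 1)) (hμ : Restricted p j s μ.1) :
    ∃ b : NIdx m p f, X μ.1 = X (hbK j s b) := by
  have hp : p.Prime := Fact.out
  have hf : f ≠ 0 := NeZero.ne f
  have hq : 2 ≤ p ^ f := hp.two_le.trans (Nat.le_self_pow hf p)
  set N : ℤ := (∑ σ, μ.1 σ (Fin.last m) * (p : ℤ) ^ (j σ).val) % ((p ^ f - 1 : ℕ) : ℤ) with hN
  have hN0 : 0 ≤ N := Int.emod_nonneg _ (by omega)
  have hN1 : N < ((p ^ f - 1 : ℕ) : ℤ) := Int.emod_lt_of_pos _ (by omega)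
  have hgap : ∀ (σ : S) (l : Fin m), 1 ≤ μ.1 σ l.castSucc - μ.1 σ l.succ ∧
      μ.1 σ l.castSucc - μ.1 σ l.succ ≤ gapBound p j s σ := by
    intro σ l
    refine ⟨?_, hμ σ l.castSucc l.succ (by simp)⟩
    have : μ.1 σ l.succ < μ.1 σ l.castSucc := μ.2 σ (Fin.castSucc_lt_succ)
    omega
  have hgb : ∀ k, gapBound p j s (s k) = p := by
    intro k
    have hc : Chosen j s (s k) := by unfold Chosen; rw [hs]
    unfold gapBound
    rw [if_pos hc]
  refine ⟨(fun k l => ⟨(μ.1 (s k) l.castSucc - μ.1 (s k) l.succ - 1).toNat, ?_⟩,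
    ⟨N.toNat, by omega⟩), ?_⟩
  · have := hgap (s k) l
    rw [hgb] at this
    omega
  · have e0 : μ.1 = act (fun σ => μ.1 σ (Fin.last m))
        (act (-(fun σ => μ.1 σ (Fin.last m))) μ.1) := by
      rw [act_act, add_neg_cancel, act_zero]
    conv_lhs => rw [e0]
    rw [tw_fin hs hX, ← hN]
    congr 1
    funext σ i
    unfold hbK act sg
    dsimp only
    rw [Int.toNat_of_nonneg hN0]
    congr 1
    by_cases hc : Chosen j s σ
    · rw [if_pos hc, Pi.neg_apply, ← sub_eq_add_neg, ← telescope' (μ.1 σ) i]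
      refine Finset.sum_congr rfl fun l _ => ?_
      have hc' : s (j σ) = σ := hc
      rw [hc', Int.toNat_of_nonneg (by have := hgap σ l; omega)]
      split_ifs
      · ring
      · rfl
    · rw [if_neg hc, Pi.neg_apply, ← sub_eq_add_neg, ← telescope' (μ.1 σ) i]
      have e1 := telescope (fun n => -(n : ℤ)) (Nat.le_of_lt_succ i.2)
      have e2 : (fun n : ℕ => -(n : ℤ)) (i : ℕ) - (fun n : ℕ => -(n : ℤ)) m = (m : ℤ) - (i : ℕ) := by
        dsimp only
        ring
      rw [← e2, ← e1]
      refine Finset.sum_congr rfl fun l _ => ?_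
      have h1 := hgap σ l
      have h2 : gapBound p j s σ = 1 := by unfold gapBound; rw [if_neg hc]
      rw [h2] at h1
      have h3 : μ.1 σ l.castSucc - μ.1 σ l.succ = 1 := by
        have := h1.1; have := h1.2; push_cast at this; omega
      rw [h3]
      split_ifs
      · push_cast; ring
      · rfl

lemma hbK_gap (b : NIdx m p f) (σ : S) (l : Fin m) :
    hbK j s b σ l.castSucc - hbK j s b σ l.succ
      = if Chosen j s σ then ((b.1 (j σ) l : ℕ) : ℤ) + 1 else 1 := by
  unfold hbK
  by_cases hc : Chosen j s σ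
  · rw [if_pos hc, if_pos hc, if_pos hc, add_sub_add_right_eq_sub, ← Finset.sum_sub_distrib]
    rw [Finset.sum_eq_single l]
    · have h1 : ((l.castSucc : Fin (m + 1)) : ℕ) ≤ l := by simp
      have h2 : ¬ ((l.succ : Fin (m + 1)) : ℕ) ≤ l := by simp
      rw [if_pos h1, if_neg h2, sub_zero]
    · intro x _ hx
      have hne : (x : ℕ) ≠ l := fun h => hx (Fin.ext h)
      simp only [Fin.val_castSucc, Fin.val_succ]
      by_cases h : (l : ℕ) ≤ x
      · rw [if_pos h, if_pos (by omega), sub_self]
      · rw [if_neg h, if_neg (by omega), sub_self]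
    · intro h; exact absurd (Finset.mem_univ _) h
  · rw [if_neg hc, if_neg hc, if_neg hc]
    simp only [Fin.val_castSucc, Fin.val_succ]
    push_cast
    ring

/-- the normalised restricted tuples are regular -/
lemma hbK_reg (b : NIdx m p f) (σ : S) : StrictAnti (hbK j s b σ) := by
  rw [Fin.strictAnti_iff_succ_lt]
  intro l
  have h := hbK_gap (j := j) (s := s) b σ l
  split_ifs at h <;> omega

/-- as a regular tuple -/
def hbReg (j : S → ZMod f) (s : ZMod f → S) (b : NIdx m p f) : Reg S (m + 1) :=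
  ⟨hbK j s b, hbK_reg b⟩

lemma twist_brauer : TwistK p j (brauer p f j : Wt S (m + 1) → _) := by
  have hfull : ∀ (X : Wt S (m + 1) → (Cls p f (m + 1) →
      WittVector p (AlgebraicClosure (ZMod p)))) (μ : Wt S (m + 1)) (σ : S) (c : ℤ),
      eSum X μ σ (m + 1) c = X (bump μ σ univ c) := by
    intro X μ σ c
    unfold eSum
    have : powersetCard (m + 1) (univ : Finset (Fin (m + 1))) = {univ} := by
      have h := Finset.powersetCard_self (univ : Finset (Fin (m + 1)))
      rwa [Finset.card_univ, Fintype.card_fin] at h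
    rw [this, Finset.sum_singleton]
  refine ⟨fun μ σ σ' h => ?_, fun μ σ σ' h => ?_⟩
  · have := brauer_fibre (p := p) μ σ σ' h (m + 1)
    rwa [hfull, hfull] at this
  · have := brauer_frob (p := p) μ σ σ' h (m + 1)
    rwa [hfull, hfull] at this

lemma span_hbK (hs : ∀ k, j (s k) = k) (μ : Wt S (m + 1)) : brauer p f j μ
    ∈ Submodule.span ℤ (Set.range fun b : NIdx m p f => brauer p f j (hbK j s b)) := by
  have hp : p.Prime := Fact.out
  refine reduce_mem hp.two_le (j := j) (s := s) hs (brauer p f j) _ ?_ ?_ ?_ μ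
  · apply sort_cases
    · intro μ e
      exact brauer_alt μ e
    · intro μ σ i k hik h
      exact brauer_rep μ σ hik h
  · intro ν hν
    obtain ⟨b, h⟩ := restricted_normK hs twist_brauer ν hν
    rw [h]
    exact Submodule.subset_span ⟨b, rfl⟩
  · intro ν hν
    unfold Restricted at hν
    push Not at hν
    obtain ⟨σ, a, b, hab, hg⟩ := hν
    exact ⟨σ, a, b, hab, hg, reduce_of_eqs (p := p) hs brauer_fibre brauer_frob ν.1 σ b⟩

lemma indep_hbK (hs : ∀ k, j (s k) = k) :
    LinearIndependent ℤ (fun b : NIdx m p f => brauer p f j (hbK j s b)) := by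
  classical
  let e : IdxK m p f ≃ NIdx m p f := Fintype.equivOfCardEq card_NIdx
  have h1 : LinearIndependent ℤ
      ((fun b : NIdx m p f => brauer p f j (hbK j s b)) ∘ e) := by
    refine indep_of_span (indep_ebK (m := m) (p := p) (j := j) (hs 0)) fun b => ?_
    have h := ebK_mem (p := p) (j := j) (s 0) b
    have hle : Submodule.span ℤ (Set.range (brauer p f j : Wt S (m + 1) → _))
        ≤ Submodule.span ℤ
          (Set.range ((fun b : NIdx m p f => brauer p f j (hbK j s b)) ∘ e)) := by
      rw [Submodule.span_le, e.surjective.range_comp]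
      rintro _ ⟨μ, rfl⟩
      exact span_hbK hs μ
    exact hle h
  exact (linearIndependent_equiv e).1 h1

end

end U566.BM
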