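import Pool.Agent.U566.BMRestr

/-! Independence of restricted monomials in the elementary symmetric functions. -/

namespace U566.BM

open MvPolynomial Finset

set_option linter.unusedSectionVars false

noncomputable section

variable {d : ℕ} (p : ℕ) [Fact p.Prime] {𝕜 : Type*} [Field 𝕜] [CharP 𝕜 p] [IsAlgClosed 𝕜]

lemma dvd_of_vanish {f : ℕ} (hf : f ≠ 0) {G : MvPolynomial (Fin d) ℤ}
    (hdeg : ∀ i, degreeOf i G < bd d (p ^ f) i) (hV : Vanish p (p ^ f) 𝕜 (subE d G)) :
    C (p : ℤ) ∣ G := by
  classical
  have hp : p.Prime := Fact.out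
  have hq : 2 ≤ p ^ f := hp.two_le.trans (Nat.le_self_pow hf p)
  let K := GaloisField p f
  let : Fintype K := Fintype.ofFinite K
  have hK : Fintype.card K = p ^ f := by
    rw [← Nat.card_eq_fintype_card]; exact GaloisField.card p f hf
  let : Algebra (ZMod p) 𝕜 := ZMod.algebra 𝕜 p
  let ι : K →ₐ[ZMod p] 𝕜 := IsAlgClosed.lift
  have hzero : map (Int.castRingHom K) G = 0 := by
    apply eq_zero_of_eval_zero_at_prod_finset _
      (fun i : Fin d => if (i : ℕ) + 1 = d then (univ : Finset K).erase 0 else univ)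
    · intro i
      have hc : #(if (i : ℕ) + 1 = d then (univ : Finset K).erase 0 else univ)
          = bd d (p ^ f) i := by
        unfold bd
        split_ifs
        · rw [Finset.card_erase_of_mem (Finset.mem_univ _), Finset.card_univ, hK]
        · rw [Finset.card_univ, hK]
      rw [hc]
      have hpos : 0 < bd d (p ^ f) i := by unfold bd; split_ifs <;> omega
      rw [degreeOf_lt_iff hpos]
      intro m hm
      exact (degreeOf_lt_iff hpos).1 (hdeg i) m (support_map_subset _ _ hm)
    · intro x hx
      have hx0 : ∀ i : Fin d, (i : ℕ) + 1 = d → ι (x i) ≠ 0 := by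
        intro i hi
        have := hx i
        rw [if_pos hi] at this
        have h1 := Finset.ne_of_mem_erase this
        intro h2
        exact h1 ((map_eq_zero ι).1 h2)
      have hxq : ∀ i : Fin d, ι (x i) ^ (p ^ f) = ι (x i) := by
        intro i
        rw [← map_pow, ← hK, FiniteField.pow_card]
      obtain ⟨a, ha, hae⟩ := exists_class p f (fun i => ι (x i)) hxq hx0
      have e1 : ι (eval x (map (Int.castRingHom K) G)) = aeval (fun i => ι (x i)) G := by
        have h := hom_aeval ι.toRingHom x G
        have h2 : eval x (map (Int.castRingHom K) G) = aeval x G := by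
          rw [eval_map, aeval_def]
          rfl
        rw [h2]
        exact h
      have e3 : aeval (fun i => ι (x i)) G = aeval (fun k => (a k : 𝕜)) (subE d G) := by
        rw [subE, ← AlgHom.comp_apply]
        congr 1
        apply MvPolynomial.algHom_ext
        intro i
        simp [hae]
      have e4 : aeval (fun k => (a k : 𝕜)) (subE d G) = WittVector.constantCoeff
          (aeval (fun k => WittVector.teichmuller p (a k : 𝕜)) (subE d G)) := by
        rw [hom_aeval]
        congr 2
      have : ι (eval x (map (Int.castRingHom K) G)) = 0 := by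
        rw [e1, e3, e4, hV a ha, map_zero]
      exact (map_eq_zero ι).1 this
  exact (C_dvd_iff_map_hom_eq_zero (Int.castRingHom K) (p : ℤ)
      (fun r' => CharP.intCast_eq_zero_iff K p r') G).2 hzero

lemma zero_of_vanish {f : ℕ} (hf : f ≠ 0) {G : MvPolynomial (Fin d) ℤ}
    (hdeg : ∀ i, degreeOf i G < bd d (p ^ f) i) (hV : Vanish p (p ^ f) 𝕜 (subE d G)) :
    G = 0 := by
  have hp : p.Prime := Fact.out
  have hq : 2 ≤ p ^ f := hp.two_le.trans (Nat.le_self_pow hf p)
  have hp0 : (p : ℤ) ≠ 0 := by exact_mod_cast hp.ne_zero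
  have hpos : ∀ i, 0 < bd d (p ^ f) i := fun i => by unfold bd; split_ifs <;> omega
  have key : ∀ (n : ℕ) (G : MvPolynomial (Fin d) ℤ), (∀ i, degreeOf i G < bd d (p ^ f) i) →
      Vanish p (p ^ f) 𝕜 (subE d G) → C ((p : ℤ) ^ n) ∣ G := by
    intro n
    induction n with
    | zero => intro G _ _; simp
    | succ n ih =>
      intro G hdeg hV
      obtain ⟨G₁, rfl⟩ := dvd_of_vanish p hf hdeg hV
      have h1 : ∀ i, degreeOf i G₁ < bd d (p ^ f) i := by
        intro i
        rw [degreeOf_lt_iff (hpos i)]
        intro m hm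
        refine (degreeOf_lt_iff (hpos i)).1 (hdeg i) m ?_
        rw [mem_support_iff, coeff_C_mul]
        exact mul_ne_zero hp0 (mem_support_iff.1 hm)
      have h2 : Vanish p (p ^ f) 𝕜 (subE d G₁) := by
        intro a ha
        have h3 := hV a ha
        rw [map_mul, map_mul] at h3
        have h4 : aeval (fun i => WittVector.teichmuller p (a i : 𝕜))
            (subE d (C (p : ℤ) : MvPolynomial (Fin d) ℤ)) = (p : WittVector p 𝕜) := by simp
        rw [h4] at h3
        exact (mul_eq_zero.1 h3).resolve_left (WittVector.p_nonzero p 𝕜)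
      obtain ⟨G₂, hG₂⟩ := ih G₁ h1 h2
      refine ⟨G₂, ?_⟩
      rw [hG₂, ← mul_assoc, ← C_mul, pow_succ']
  ext m
  rw [coeff_zero]
  by_contra hne
  obtain ⟨G₂, hG₂⟩ := key (coeff m G).natAbs G hdeg hV
  have h1 : (p : ℤ) ^ (coeff m G).natAbs ∣ coeff m G := by
    refine ⟨coeff m G₂, ?_⟩
    conv_lhs => rw [hG₂, coeff_C_mul]
  have h2 := Int.natAbs_dvd_natAbs.2 h1
  rw [Int.natAbs_pow, Int.natAbs_natCast] at h2
  have h3 := Nat.le_of_dvd (Int.natAbs_pos.2 hne) h2
  have h4 : (coeff m G).natAbs < p ^ (coeff m G).natAbs := Nat.lt_pow_self hp.one_lt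
  omega

/-- An independent family inside the span of a family indexed by the same finite type forces the
latter to be independent. -/
lemma indep_of_span {ι A : Type*} [Fintype ι] [DecidableEq ι] [AddCommGroup A] {e w : ι → A}
    (he : LinearIndependent ℤ e) (h : ∀ i, e i ∈ Submodule.span ℤ (Set.range w)) :
    LinearIndependent ℤ w := by
  have h' : ∀ i, ∃ c : ι → ℤ, ∑ k, c k • w k = e i := fun i =>
    (Submodule.mem_span_range_iff_exists_fun ℤ).1 (h i)
  choose B hB using h'
  have he' := Fintype.linearIndependent_iff.1 he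
  have hcomb : ∀ v : ι → ℤ, ∑ i, v i • e i = ∑ k, (Matrix.vecMul v (Matrix.of B)) k • w k := by
    intro v
    simp only [← hB, Finset.smul_sum, Matrix.vecMul, dotProduct, Matrix.of_apply,
      Finset.sum_smul, smul_smul]
    rw [Finset.sum_comm]
  have hdet : (Matrix.of B).det ≠ 0 := by
    intro h0
    obtain ⟨v, hv, hv2⟩ := Matrix.exists_vecMul_eq_zero_iff.2 h0
    apply hv
    funext i
    refine he' v ?_ i
    rw [hcomb, hv2]
    simp
  rw [Fintype.linearIndependent_iff]
  intro c hc
  have h1 : Matrix.vecMul (Matrix.vecMul c (Matrix.adjugate (Matrix.of B))) (Matrix.of B)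
      = (Matrix.of B).det • c := by
    rw [Matrix.vecMul_vecMul, Matrix.adjugate_mul, Matrix.vecMul_smul, Matrix.vecMul_one]
  have h2 : ∑ i, (Matrix.vecMul c (Matrix.adjugate (Matrix.of B))) i • e i = 0 := by
    rw [hcomb, h1]
    have : ∑ k, ((Matrix.of B).det • c) k • w k = (Matrix.of B).det • ∑ k, c k • w k := by
      rw [Finset.smul_sum]
      refine Finset.sum_congr rfl fun k _ => ?_
      rw [Pi.smul_apply, smul_eq_mul, mul_smul]
    rw [this, hc, smul_zero]
  have h3 : Matrix.vecMul c (Matrix.adjugate (Matrix.of B)) = 0 := funext fun i => he' _ h2 i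
  rw [h3, Matrix.zero_vecMul] at h1
  intro i
  have h4 := congrFun h1 i
  rw [Pi.zero_apply, Pi.smul_apply, smul_eq_mul] at h4
  exact (mul_eq_zero.1 h4.symm).resolve_left hdet

end

end U566.BM
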