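import Pool.Agent.U566.BMBlocks

/-! Main theorem: Breuil–Mézard relations are equivalent to the fibre and Frobenius equations. -/

namespace U566.BM

open MvPolynomial Finset

set_option linter.unusedSectionVars false

noncomputable section

variable {S : Type} [Fintype S] [DecidableEq S] {d : ℕ} {M : Type*} [AddCommGroup M]
variable {p f : ℕ} [Fact p.Prime] [NeZero f] {j : S → ZMod f} {Z : Wt S d → M}

/-- Teichmüller lifts of the entries of a class -/
abbrev tt (a : Cls p f d) (i : Fin d) : (WittVector p (AlgebraicClosure (ZMod p)))ˣ :=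
  Units.map (WittVector.teichmuller p : AlgebraicClosure (ZMod p) →* _) (a.1 i)

lemma prod_tt (a : Cls p f d) (m : ℕ) : (∏ i, tt a i ^ m) ^ (p ^ f - 1) = 1 := by
  have hp : p.Prime := Fact.out
  have hq : 1 ≤ p ^ f := Nat.one_le_pow _ _ hp.pos
  have h := isClass_prod hq a.2
  rw [Finset.prod_pow, ← pow_mul, mul_comm, pow_mul, ← map_prod, ← map_pow, h, map_one, one_pow]

theorem eqs_imp_rel [IsAddTorsionFree M] (hj : Function.Surjective j) (hZ : IsAlt Z)
    (h1 : FibreEq j Z) (h2 : FrobEq p j Z) {ι : Type*} (w : ι → Wt S d) (c : ι →₀ ℤ)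
    (hc : Finsupp.linearCombination ℤ (fun x => brauer p f j (w x)) c = 0) :
    Finsupp.linearCombination ℤ (fun x => Z (w x)) c = 0 := by
  have hp : p.Prime := Fact.out
  have hf : f ≠ 0 := NeZero.ne f
  have hq : 1 ≤ p ^ f := Nat.one_le_pow _ _ hp.pos
  have hq2 : 2 ≤ p ^ f := hp.two_le.trans (Nat.le_self_pow hf p)
  set n : ℕ := ∑ x ∈ c.support, ∑ σ, ∑ i, (w x σ i).natAbs with hn
  have hbound : ∀ x ∈ c.support, ∀ σ i, 0 ≤ w x σ i + (((p ^ f - 1) * n : ℕ) : ℤ) := by
    intro x hx σ i
    have e1 : (w x σ i).natAbs ≤ n := by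
      calc (w x σ i).natAbs ≤ ∑ i, (w x σ i).natAbs :=
            Finset.single_le_sum (f := fun i => (w x σ i).natAbs) (fun _ _ => Nat.zero_le _)
              (Finset.mem_univ i)
        _ ≤ ∑ σ, ∑ i, (w x σ i).natAbs :=
            Finset.single_le_sum (f := fun σ => ∑ i, (w x σ i).natAbs) (fun _ _ => Nat.zero_le _)
              (Finset.mem_univ σ)
        _ ≤ n := Finset.single_le_sum (f := fun x => ∑ σ, ∑ i, (w x σ i).natAbs)
              (fun _ _ => Nat.zero_le _) hx
    have e2 : n ≤ (p ^ f - 1) * n := Nat.le_mul_of_pos_left n (by omega)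
    omega
  have hmain := main_nat (p := p) (f := f) hj h1 h2 hZ c.support (fun x => c x)
    (fun x σ i => (w x σ i + (((p ^ f - 1) * n : ℕ) : ℤ)).toNat) (by
      intro a
      have h := congrFun hc a
      rw [Finsupp.linearCombination_apply, Finsupp.sum, Finset.sum_apply] at h
      rw [← Pi.zero_apply (M := fun _ => WittVector p (AlgebraicClosure (ZMod p))) a, ← h]
      refine Finset.sum_congr rfl fun x hx => ?_
      rw [Pi.smul_apply, zsmul_eq_mul]
      refine congrArg _ ?_
      unfold brauer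
      refine Finset.prod_congr rfl fun σ _ => ?_
      rw [weylChar_shift _ (w x σ) (prod_tt a (p ^ (j σ).val)) n (hbound x hx σ)]
      rfl)
  rw [Finsupp.linearCombination_apply, Finsupp.sum, ← hmain]
  refine Finset.sum_congr rfl fun x hx => ?_
  congr 1
  rw [← period_all (p := p) (f := f) hj h1 h2 hq n (w x)]
  congr 1
  funext σ i
  exact (Int.toNat_of_nonneg (hbound x hx σ i)).symm

lemma brauer_alt (μ : Wt S d) (e : S → Equiv.Perm (Fin d)) :
    brauer p f j (fun σ i => μ σ (e σ i))
      = (∏ σ, (Equiv.Perm.sign (e σ) : ℤ)) • brauer p f j μ := by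
  funext a
  rw [Pi.smul_apply, zsmul_eq_mul]
  unfold brauer
  simp only [weylChar_perm, zsmul_eq_mul]
  rw [Finset.prod_mul_distrib]
  push_cast
  rfl

lemma brauer_rep (μ : Wt S d) (σ : S) {i k : Fin d} (hik : i ≠ k) (h : μ σ i = μ σ k) :
    brauer p f j μ = 0 := by
  funext a
  unfold brauer
  exact Finset.prod_eq_zero (Finset.mem_univ σ) (weylChar_rep _ _ hik h)

lemma alt_rep [IsAddTorsionFree M] (hZ : IsAlt Z) (μ : Wt S d) (σ : S) {i k : Fin d}
    (hik : i ≠ k) (h : μ σ i = μ σ k) : Z μ = 0 := by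
  have h1 := hZ μ (fun τ => if τ = σ then Equiv.swap i k else 1)
  have h2 : (fun (τ : S) (l : Fin d) => μ τ ((if τ = σ then Equiv.swap i k else 1) l)) = μ := by
    funext τ l
    by_cases hτ : τ = σ
    · subst hτ
      rw [if_pos rfl]
      by_cases hl : l = i
      · subst hl; rw [Equiv.swap_apply_left, h]
      · by_cases hl2 : l = k
        · subst hl2; rw [Equiv.swap_apply_right, h]
        · rw [Equiv.swap_apply_of_ne_of_ne hl hl2]
    · rw [if_neg hτ]; rfl
  have h3 : (∏ τ : S, (Equiv.Perm.sign (if τ = σ then Equiv.swap i k else 1) : ℤ)) = -1 := by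
    rw [Finset.prod_eq_single σ]
    · rw [if_pos rfl, Equiv.Perm.sign_swap hik]; rfl
    · intro τ _ hτ; rw [if_neg hτ]; simp
    · simp
  rw [h2, h3, neg_one_smul] at h1
  have h4 : (2 : ℤ) • Z μ = 0 := by
    rw [two_smul]
    nth_rewrite 1 [h1]
    simp
  exact (smul_eq_zero.1 h4).resolve_left (by norm_num)

lemma exists_sort {g : Fin d → ℤ} (hg : Function.Injective g) :
    ∃ e : Equiv.Perm (Fin d), StrictAnti (fun i => g (e i)) := by
  refine ⟨Tuple.sort (fun i => - g i), ?_⟩
  have h1 := Tuple.monotone_sort (fun i => - g i)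
  intro a b hab
  have h2 := h1 hab.le
  simp only [Function.comp_apply, neg_le_neg_iff] at h2
  refine lt_of_le_of_ne h2 ?_
  intro h3
  have := (Tuple.sort (fun i => - g i)).injective (hg h3)
  exact hab.ne this.symm

lemma exists_reg [IsAddTorsionFree M] (hZ : IsAlt Z) (μ : Wt S d) :
    ∃ (ε : ℤ) (ν : Reg S d), Z μ = ε • Z ν.1 ∧ brauer p f j μ = ε • brauer p f j ν.1 := by
  by_cases h : ∀ σ, Function.Injective (μ σ)
  · choose e he using fun σ => exists_sort (h σ)
    refine ⟨∏ σ, (Equiv.Perm.sign (e σ) : ℤ), ⟨fun σ i => μ σ (e σ i), he⟩, ?_, ?_⟩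
    · have h1 := hZ μ e
      rw [h1, smul_smul, ← Finset.prod_mul_distrib]
      have h3 : ∀ σ, ((Equiv.Perm.sign (e σ) : ℤ) * (Equiv.Perm.sign (e σ) : ℤ)) = 1 := by
        intro σ
        rw [← Units.val_mul]
        simp
      simp [h3]
    · rw [brauer_alt, smul_smul, ← Finset.prod_mul_distrib]
      have h3 : ∀ σ, ((Equiv.Perm.sign (e σ) : ℤ) * (Equiv.Perm.sign (e σ) : ℤ)) = 1 := by
        intro σ
        rw [← Units.val_mul]
        simp
      simp [h3]
  · push Not at h
    obtain ⟨σ, hσ⟩ := h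
    rw [Function.Injective] at hσ
    push Not at hσ
    obtain ⟨i, k, hik, hne⟩ := hσ
    refine ⟨0, ⟨fun _ i => -(i : ℤ), ?_⟩, ?_, ?_⟩
    · intro σ a b hab
      simpa using hab
    · rw [zero_smul]; exact alt_rep hZ μ σ hne hik
    · rw [zero_smul]; exact brauer_rep μ σ hne hik

lemma rel_all [IsAddTorsionFree M] (hZ : IsAlt Z) (h : BMRelations p f j Z)
    (c : Wt S d →₀ ℤ) (hc : Finsupp.linearCombination ℤ (brauer p f j) c = 0) :
    Finsupp.linearCombination ℤ Z c = 0 := by
  choose ε ν h1 h2 using fun μ : Wt S d => exists_reg (p := p) (f := f) (j := j) hZ μ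
  let L : (Wt S d →₀ ℤ) →ₗ[ℤ] (Reg S d →₀ ℤ) :=
    Finsupp.linearCombination ℤ (fun μ => ε μ • Finsupp.single (ν μ) (1 : ℤ))
  have e1 : (Finsupp.linearCombination ℤ (fun μ : Reg S d => Z μ.1)) ∘ₗ L
      = Finsupp.linearCombination ℤ Z := by
    apply Finsupp.lhom_ext
    intro μ n
    simp only [LinearMap.comp_apply, L, Finsupp.linearCombination_single, map_smul]
    rw [h1 μ]
    simp
  have e2 : (Finsupp.linearCombination ℤ (fun μ : Reg S d => brauer p f j μ.1)) ∘ₗ L
      = Finsupp.linearCombination ℤ (brauer p f j) := by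
    apply Finsupp.lhom_ext
    intro μ n
    simp only [LinearMap.comp_apply, L, Finsupp.linearCombination_single, map_smul]
    rw [h2 μ]
    simp
  have h3 := h (L c) (by
    rw [← LinearMap.comp_apply, e2]; exact hc)
  rw [← LinearMap.comp_apply, e1] at h3
  exact h3

lemma prod_pieri {R : Type*} [CommRing R] (t : S → Fin d → Rˣ) (μ : Wt S d) (σ : S) (m r : ℕ) :
    ∑ I ∈ powersetCard r (univ : Finset (Fin d)), ∏ τ, weylChar (t τ) (bump μ σ I m τ)
      = aeval (fun k => (t σ k : R) ^ m) (esymm (Fin d) ℤ r) * ∏ τ, weylChar (t τ) (μ τ) := by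
  have h1 : ∀ I : Finset (Fin d), ∏ τ, weylChar (t τ) (bump μ σ I m τ)
      = weylChar (t σ) (fun i => μ σ i + if i ∈ I then (m : ℤ) else 0)
        * ∏ τ ∈ univ.erase σ, weylChar (t τ) (μ τ) := by
    intro I
    rw [← Finset.mul_prod_erase _ _ (Finset.mem_univ σ)]
    congr 1
    · congr 1
      funext i
      simp [bump]
    · refine Finset.prod_congr rfl fun τ hτ => ?_
      congr 1
      funext i
      simp [bump, Finset.ne_of_mem_erase hτ]
  simp only [h1]
  rw [← Finset.sum_mul, weylChar_pieri, ← Finset.mul_prod_erase _ _ (Finset.mem_univ σ), mul_assoc]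

lemma esymm_frob' {R : Type*} [CommRing R] (u : Fin d → R) (q : ℕ)
    (hu : ∀ r : ℕ, aeval (fun k => u k ^ q) (esymm (Fin d) ℤ r) = aeval u (esymm (Fin d) ℤ r))
    (n k r : ℕ) :
    aeval (fun i => u i ^ (n * q ^ k)) (esymm (Fin d) ℤ r)
      = aeval (fun i => u i ^ n) (esymm (Fin d) ℤ r) := by
  induction k with
  | zero => simp
  | succ k ih =>
    rw [← ih]
    have h := sym_eval _ _ hu (aeval_pow_esymm_symm (d := d) (n * q ^ k) r)
    rw [aeval_aeval_pow, aeval_aeval_pow] at h
    rw [← h]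
    simp only [← pow_mul]
    have e : n * q ^ (k + 1) = q * (n * q ^ k) := by ring
    rw [e]

/-- the Teichmüller lifts of a class, as elements of the ring -/
abbrev ts (a : Cls p f d) (i : Fin d) : WittVector p (AlgebraicClosure (ZMod p)) :=
  WittVector.teichmuller p ((a.1 i : (AlgebraicClosure (ZMod p))ˣ) : AlgebraicClosure (ZMod p))

lemma brauer_pieri (μ : Wt S d) (σ : S) (m r : ℕ) (a : Cls p f d) :
    ∑ I ∈ powersetCard r (univ : Finset (Fin d)), brauer p f j (bump μ σ I m) a
      = aeval (fun i => ts a i ^ (p ^ (j σ).val * m)) (esymm (Fin d) ℤ r) * brauer p f j μ a := by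
  have h := prod_pieri (fun σ i => tt a i ^ (p ^ (j σ).val)) μ σ m r
  have e : (fun k => ((tt a k ^ (p ^ (j σ).val) :
      (WittVector p (AlgebraicClosure (ZMod p)))ˣ) : WittVector p (AlgebraicClosure (ZMod p))) ^ m)
      = (fun i => ts a i ^ (p ^ (j σ).val * m)) := by
    funext k
    rw [Units.val_pow_eq_pow_val, ← pow_mul]
    rfl
  rw [e] at h
  exact h

lemma esymm_frob (a : Cls p f d) (r k m : ℕ) :
    aeval (fun i => ts a i ^ (p ^ (m + f * k))) (esymm (Fin d) ℤ r)
    = aeval (fun i => ts a i ^ (p ^ m)) (esymm (Fin d) ℤ r) := by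
  have h := esymm_frob' (ts a) (p ^ f) (isClass_esymm p a.2) (p ^ m) k r
  rw [← pow_mul, ← pow_add] at h
  exact h

lemma rel_imp_eq [IsAddTorsionFree M] (hZ : IsAlt Z) (h : BMRelations p f j Z)
    (μ : Wt S d) (σ σ' : S) (m m' r : ℕ)
    (he : ∀ a : Cls p f d, aeval (fun i => ts a i ^ (p ^ (j σ).val * m)) (esymm (Fin d) ℤ r)
        = aeval (fun i => ts a i ^ (p ^ (j σ').val * m')) (esymm (Fin d) ℤ r)) :
    eSum Z μ σ r m = eSum Z μ σ' r m' := by
  have key := rel_all hZ h
    (∑ I ∈ powersetCard r (univ : Finset (Fin d)), Finsupp.single (bump μ σ I m) 1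
      - ∑ I ∈ powersetCard r (univ : Finset (Fin d)), Finsupp.single (bump μ σ' I m') 1) (by
      rw [map_sub, map_sum, map_sum]
      simp only [Finsupp.linearCombination_single, one_smul]
      funext a
      rw [Pi.sub_apply, Finset.sum_apply, Finset.sum_apply, brauer_pieri, brauer_pieri, he,
        sub_self]
      rfl)
  rw [map_sub, map_sum, map_sum] at key
  simp only [Finsupp.linearCombination_single, one_smul] at key
  exact sub_eq_zero.1 key

/-- **Main theorem**, relation form. -/
theorem main [IsAddTorsionFree M] (hj : Function.Surjective j) (hZ : IsAlt Z) :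
    BMRelations p f j Z ↔ FibreEq j Z ∧ FrobEq p j Z := by
  constructor
  · intro h
    constructor
    · intro μ σ σ' hσ r
      have := rel_imp_eq hZ h μ σ σ' 1 1 r (by intro a; rw [hσ])
      exact_mod_cast this
    · intro μ σ σ' hσ r
      have := rel_imp_eq hZ h μ σ σ' p 1 r (by
        intro a
        have e1 : (j σ').val = ((j σ).val + 1) % f := by
          rw [hσ, ZMod.val_add, ZMod.val_one_eq_one_mod, Nat.add_mod_mod]
        have e2 := esymm_frob a r (((j σ).val + 1) / f) (((j σ).val + 1) % f)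
        rw [Nat.mod_add_div] at e2
        rw [e1, mul_one, ← e2, pow_succ])
      exact_mod_cast this
  · rintro ⟨h1, h2⟩ c hc
    exact eqs_imp_rel hj hZ h1 h2 (fun μ : Reg S d => μ.1) c hc

/-- **Main theorem**, with Serre weights. -/
theorem main_serre [IsAddTorsionFree M] (hj : Function.Surjective j) (hZ : IsAlt Z)
    {W : Type} [Fintype W] (D : SerreWeights p f d j W) :
    (∃ Y : W → M, ∀ μ : Reg S d, Z μ.1 = ∑ k, D.n k μ • Y k) ↔
      FibreEq j Z ∧ FrobEq p j Z := by
  rw [← main hj hZ]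
  constructor
  · rintro ⟨Y, hY⟩ c hc
    have h1 : ∀ k, Finsupp.linearCombination ℤ (fun μ : Reg S d => D.n k μ) c = 0 := by
      have h2 : ∑ k, (Finsupp.linearCombination ℤ (fun μ : Reg S d => D.n k μ) c) • D.β k = 0 := by
        rw [← hc]
        simp only [D.mult, Finsupp.linearCombination_apply, Finsupp.sum, Finset.sum_smul,
          Finset.smul_sum]
        rw [Finset.sum_comm]
        refine Finset.sum_congr rfl fun μ _ => ?_
        refine Finset.sum_congr rfl fun k _ => ?_
        rw [smul_eq_mul, mul_smul]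
      exact Fintype.linearIndependent_iff.1 D.indep _ h2
    have h3 : Finsupp.linearCombination ℤ (fun μ : Reg S d => Z μ.1) c
        = ∑ k, (Finsupp.linearCombination ℤ (fun μ : Reg S d => D.n k μ) c) • Y k := by
      simp only [hY, Finsupp.linearCombination_apply, Finsupp.sum, Finset.sum_smul,
        Finset.smul_sum]
      rw [Finset.sum_comm]
      refine Finset.sum_congr rfl fun k _ => ?_
      refine Finset.sum_congr rfl fun μ _ => ?_
      rw [smul_eq_mul, mul_smul]
    rw [h3]
    simp [h1]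
  · intro h
    have h1 : ∀ k, ∃ c : Reg S d →₀ ℤ,
        Finsupp.linearCombination ℤ (fun μ : Reg S d => brauer p f j μ.1) c = D.β k := by
      intro k
      have := D.span k
      rw [Finsupp.mem_span_range_iff_exists_finsupp] at this
      obtain ⟨c, hc⟩ := this
      exact ⟨c, by rw [Finsupp.linearCombination_apply]; exact hc⟩
    choose c hc using h1
    refine ⟨fun k => Finsupp.linearCombination ℤ (fun μ : Reg S d => Z μ.1) (c k), ?_⟩
    intro μ
    have h2 := h (Finsupp.single μ 1 - ∑ k, D.n k μ • c k) (by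
      rw [map_sub, map_sum, Finsupp.linearCombination_single, one_smul, D.mult μ, sub_eq_zero]
      refine Finset.sum_congr rfl fun k _ => ?_
      rw [map_smul, hc])
    rw [map_sub, map_sum, Finsupp.linearCombination_single, one_smul, sub_eq_zero] at h2
    rw [h2]
    refine Finset.sum_congr rfl fun k _ => ?_
    rw [map_smul]

end

end U566.BM
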