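import Pool.Agent.U566.BMOneEq

/-! One equation for each unrestricted weight: the case of `ℚ_p`, final form. -/

namespace U566.BM

open MvPolynomial Finset

set_option linter.unusedSectionVars false

noncomputable section

variable {n : ℕ} {p : ℕ} [Fact p.Prime] {W : Type} [Fintype W]

/-- The restricted Hodge–Tate weights -/
abbrev RDom (p n : ℕ) : Type := {h : Dom n // GapsLe p h.1}

/-- Effectivity: whenever an irreducible Brauer character is an integral combination of the
reductions of algebraic representations with restricted weights, the same combination of the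
`Z h` lies in `P`. -/
def Effective {M : Type*} [AddCommGroup M] (D : QpWeights p n W) (Z : (Fin n → ℤ) → M)
    (P : AddSubmonoid M) : Prop :=
  ∀ (k : W) (c : RDom p n →₀ ℤ),
    Finsupp.linearCombination ℤ (fun h : RDom p n => weylFun p h.1.1) c = D.β k →
      Finsupp.linearCombination ℤ (fun h : RDom p n => Z h.1.1) c ∈ P

/-- irreducible characters are combinations of restricted reductions -/
lemma span_restricted (μ : Wt Unit n) : brauer p 1 jQ μ
    ∈ Submodule.span ℤ (Set.range fun h : RDom p n => weylFun p h.1.1) := by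
  have hp : p.Prime := Fact.out
  refine reduce_mem hp.two_le (j := jQ) (s := sQ) (fun k => Subsingleton.elim _ _) (brauer p 1 jQ)
    _ ?_ ?_ ?_ μ
  · apply sort_cases
    · intro μ e
      exact brauer_alt μ e
    · intro μ σ i k hik h
      exact brauer_rep μ σ hik h
  · intro ν hν
    rw [brauer_eq_weylFun]
    refine Submodule.subset_span ⟨⟨⟨ν.1 (), ν.2 ()⟩, ?_⟩, rfl⟩
    intro a b hab
    have := hν () a b hab
    rwa [gapBoundQ] at this
  · intro ν hν
    unfold Restricted at hν
    push Not at hν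
    obtain ⟨σ, a, b, hab, hg⟩ := hν
    exact ⟨σ, a, b, hab, hg, reduce_of_eqs (p := p) (fun k => Subsingleton.elim _ _)
      brauer_fibre brauer_frob ν.1 σ b⟩

lemma beta_mem (D : QpWeights p n W) (k : W) :
    D.β k ∈ Submodule.span ℤ (Set.range fun h : RDom p n => weylFun p h.1.1) := by
  have hle : Submodule.span ℤ (Set.range fun h : Dom n => weylFun p h.1)
      ≤ Submodule.span ℤ (Set.range fun h : RDom p n => weylFun p h.1.1) := by
    rw [Submodule.span_le]
    rintro _ ⟨h, rfl⟩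
    have := span_restricted (p := p) (fun _ => h.1)
    rwa [brauer_eq_weylFun] at this
  exact hle (D.span k)

lemma exists_coeff (D : QpWeights p n W) (k : W) : ∃ c : RDom p n →₀ ℤ,
    Finsupp.linearCombination ℤ (fun h : RDom p n => weylFun p h.1.1) c = D.β k := by
  have h := beta_mem D k
  rw [Finsupp.mem_span_range_iff_exists_finsupp] at h
  obtain ⟨c, hc⟩ := h
  exact ⟨c, by rw [Finsupp.linearCombination_apply]; exact hc⟩

variable {M : Type*} [AddCommGroup M] {Z : (Fin n → ℤ) → M}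

lemma pair_lc {F : Type*} [AddCommGroup F] {ι : Type*} (G : Submodule ℤ (F × M))
    {u : ι → F} {v : ι → M} (hG : ∀ i, (u i, v i) ∈ G) (c : ι →₀ ℤ) :
    (Finsupp.linearCombination ℤ u c, Finsupp.linearCombination ℤ v c) ∈ G := by
  have h : (Finsupp.linearCombination ℤ u c, Finsupp.linearCombination ℤ v c)
      = Finsupp.linearCombination ℤ (fun i => (u i, v i)) c := by
    rw [Finsupp.linearCombination_apply, Finsupp.linearCombination_apply,
      Finsupp.linearCombination_apply]
    unfold Finsupp.sum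
    ext1
    · simp [Prod.fst_sum]
    · simp [Prod.snd_sum]
  rw [h, Finsupp.linearCombination_apply]
  exact Submodule.sum_mem _ fun i _ => G.smul_mem _ (hG i)

lemma grG_dom (D : QpWeights p n W) (Y : W → M) (h : Dom n) (z : M) :
    (weylFun p h.1, z) ∈ GrG D.β Y ↔ z = ∑ k, D.mlt k h • Y k := by
  have h0 : (weylFun p h.1, ∑ k, D.mlt k h • Y k) ∈ GrG D.β Y :=
    (grG_iff D.β Y _ _).2 ⟨fun k => D.mlt k h, D.mult h, rfl⟩
  constructor
  · intro h'
    exact grG_unique D.β Y D.indep h' h0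
  · rintro rfl
    exact h0

/-- necessity -/
lemma all_mem [IsAddTorsionFree M] (D : QpWeights p n W) (hZ : SignRule Z) (Y : W → M)
    (hY : ∀ h : Dom n, Z h.1 = ∑ k, D.mlt k h • Y k) (μ : Wt Unit n) :
    (brauer p 1 jQ μ, liftQ Z μ) ∈ GrG D.β Y := by
  obtain ⟨ε, ν, h1, h2⟩ := exists_reg (p := p) (f := 1) (j := jQ) (isAlt_lift hZ) μ
  rw [h1, h2]
  have h3 := Submodule.smul_mem _ ε ((grG_dom D Y ⟨ν.1 (), ν.2 ()⟩ _).2 (hY ⟨ν.1 (), ν.2 ()⟩))
  rw [← brauer_eq_weylFun] at h3
  exact h3

lemma twist_of [IsAddTorsionFree M] (D : QpWeights p n W) (hZ : SignRule Z) (Y : W → M)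
    (hY : ∀ h : Dom n, Z h.1 = ∑ k, D.mlt k h • Y k) : TwistQ p Z := by
  rw [twQ]
  intro μ
  have h1 := all_mem D hZ Y hY (bump μ () univ ((p ^ 1 - 1 : ℕ) : ℤ))
  rw [brauer_tw] at h1
  exact grG_unique D.β Y D.indep h1 (all_mem D hZ Y hY μ)

lemma eqAt_of [IsAddTorsionFree M] (D : QpWeights p n W) (hZ : SignRule Z) (Y : W → M)
    (hY : ∀ h : Dom n, Z h.1 = ∑ k, D.mlt k h • Y k) (h : Fin n → ℤ) (r : ℕ) : EqAt p Z h r := by
  have key : ∀ (κ : Wt Unit n) (σ : Unit) (r : ℕ) (m : ℤ),
      (eSum (brauer p 1 jQ) κ σ r m, eSum (liftQ Z) κ σ r m) ∈ GrG D.β Y := by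
    intro κ σ r m
    have : (eSum (brauer p 1 jQ) κ σ r m, eSum (liftQ Z) κ σ r m)
        = ∑ I ∈ powersetCard r (univ : Finset (Fin n)),
          (brauer p 1 jQ (bump κ σ I m), liftQ Z (bump κ σ I m)) := by
      unfold eSum
      ext1
      · rw [Prod.fst_sum]
      · rw [Prod.snd_sum]
    rw [this]
    exact Submodule.sum_mem _ fun I _ => all_mem D hZ Y hY _
  have hb := reduce_of_eqs (p := p) (s := sQ) (fun k => Subsingleton.elim _ _)
    (brauer_fibre (p := p) (j := jQ)) brauer_frob (fun _ => h) () r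
  have := (reduceQ (p := p) (Z := Z) (fun _ => h) r)
  rw [← this]
  unfold ReduceEq at *
  have e1 := key (bump (fun _ => h) () (low n r) (-(gapBound p jQ sQ () : ℤ))) () r
    (gapBound p jQ sQ () : ℤ)
  have e2 := key (bump (fun _ => h) () (low n r) (-(gapBound p jQ sQ () : ℤ)))
    (target jQ sQ ()) r 1
  rw [hb] at e1
  exact grG_unique D.β Y D.indep e1 e2

lemma sum_pair {F ι : Type*} [AddCommGroup F] [Fintype ι] (G : Submodule ℤ (F × M))
    {u : ι → F} {v : ι → M} (hG : ∀ i, (u i, v i) ∈ G) (c : ι → ℤ) :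
    (∑ i, c i • u i, ∑ i, c i • v i) ∈ G := by
  have h : (∑ i, c i • u i, ∑ i, c i • v i) = ∑ i, c i • (u i, v i) := by
    ext1
    · rw [Prod.fst_sum]
      rfl
    · rw [Prod.snd_sum]
      rfl
  rw [h]
  exact Submodule.sum_mem _ fun i _ => G.smul_mem _ (hG i)

lemma effective_of [IsAddTorsionFree M] (D : QpWeights p n W) (Y : W → M)
    (P : AddSubmonoid M) (hP : ∀ k, Y k ∈ P)
    (hY : ∀ h : Dom n, Z h.1 = ∑ k, D.mlt k h • Y k) : Effective D Z P := by
  intro k c hc
  have h0 : ∀ h : RDom p n, (weylFun p h.1.1, Z h.1.1) ∈ GrG D.β Y :=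
    fun h => (grG_dom D Y h.1 _).2 (hY h.1)
  have h1 := pair_lc (GrG D.β Y) h0 c
  rw [hc] at h1
  have h2 : (D.β k, Y k) ∈ GrG D.β Y := Submodule.subset_span ⟨k, rfl⟩
  rw [grG_unique D.β Y D.indep h1 h2]
  exact hP k

theorem oneEq_iff [IsAddTorsionFree M] (D : QpWeights p n W) (hZ : SignRule Z)
    (P : AddSubmonoid M) :
    (∃ Y : W → M, (∀ k, Y k ∈ P) ∧ ∀ h : Dom n, Z h.1 = ∑ k, D.mlt k h • Y k) ↔
      TwistQ p Z ∧ OneEq p Z ∧ Effective D Z P := by
  constructor
  · rintro ⟨Y, hP, hY⟩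
    refine ⟨twist_of D hZ Y hY, ?_, ?_⟩
    · rintro h ⟨a, b, hab, hg⟩
      exact ⟨a, b, hab, hg, eqAt_of D hZ Y hY h.1 b⟩
    · exact effective_of D Y P hP hY
  · rintro ⟨hT, hE, hP⟩
    choose c hc using exists_coeff D
    have hall : ∀ h : Fin n → ℤ, (weylFun p h, Z h)
        ∈ GrG (fun b : Idx n p => brauer p 1 jQ (hb b)) (fun b : Idx n p => liftQ Z (hb b)) := by
      intro h
      have := graph_mem (p := p) hZ hT hE (fun _ => h)
      rw [brauer_eq_weylFun] at this
      exact this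
    refine ⟨fun k => Finsupp.linearCombination ℤ (fun h : RDom p n => Z h.1.1) (c k),
      fun k => hP k _ (hc k), fun h => ?_⟩
    have h1 : ∀ k, (D.β k, Finsupp.linearCombination ℤ (fun h : RDom p n => Z h.1.1) (c k))
        ∈ GrG (fun b : Idx n p => brauer p 1 jQ (hb b)) (fun b : Idx n p => liftQ Z (hb b)) := by
      intro k
      have := pair_lc _ (fun h : RDom p n => hall h.1.1) (c k)
      rw [hc k] at this
      exact this
    have h2 := sum_pair _ h1 (fun k => D.mlt k h)
    rw [← D.mult h] at h2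
    exact grG_unique _ _ indep_hb (hall h.1) h2

end

end U566.BM
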