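import Pool.Agent.U566.BMCore

/-! Semisimple classes and polynomials vanishing on them. -/

namespace U566.BM

open MvPolynomial Finset

noncomputable section

variable {d : ℕ}

/-- `a` is the list of eigenvalues of a semisimple element of `GL_d(F_q)`: the multiset
`{a_i}` of nonzero elements is stable under `x ↦ x^q`. -/
def IsClass {G : Type*} [Monoid G] (q : ℕ) (a : Fin d → G) : Prop :=
  Multiset.map (fun i => a i ^ q) univ.val = Multiset.map a univ.val

lemma exists_enum {α : Type*} {n : ℕ} (s : Multiset α) (h : Multiset.card s = n) :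
    ∃ a : Fin n → α, Multiset.map a univ.val = s := by
  obtain ⟨l, rfl⟩ : ∃ l : List α, s = (l : Multiset α) := ⟨s.toList, s.coe_toList.symm⟩
  rw [Multiset.coe_card] at h
  subst h
  exact ⟨l.get, by rw [Fin.univ_val_map, List.ofFn_get]⟩

lemma exists_class (p f : ℕ) [Fact p.Prime] {𝕜 : Type*} [Field 𝕜] [CharP 𝕜 p] [IsAlgClosed 𝕜]
    (c : Fin d → 𝕜) (hc : ∀ i, c i ^ (p ^ f) = c i)
    (h0 : ∀ i : Fin d, (i : ℕ) + 1 = d → c i ≠ 0) :
    ∃ a : Fin d → 𝕜ˣ, IsClass (p ^ f) a ∧
      ∀ i : Fin d, aeval (fun k => (a k : 𝕜)) (esymm (Fin d) ℤ (i + 1)) = c i := by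
  set g : Fin d → 𝕜 := fun k => (-1) ^ ((k.rev : ℕ) + 1) * c k.rev with hg
  set P : Polynomial 𝕜 := Polynomial.X ^ d + ∑ k : Fin d, Polynomial.C (g k) * Polynomial.X ^ (k : ℕ)
    with hP
  have hlt := Polynomial.degree_sum_fin_lt g
  have hmon : P.Monic := Polynomial.monic_X_pow_add hlt
  have hdeg : P.natDegree = d := by
    have : P.degree = d := by
      rw [hP, Polynomial.degree_add_eq_left_of_degree_lt]
      · simp
      · simpa using hlt
    exact Polynomial.natDegree_eq_of_degree_eq_some this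
  have hcoef : ∀ k : Fin d, P.coeff k = g k := by
    intro k
    rw [hP, Polynomial.coeff_add, Polynomial.coeff_X_pow, if_neg (Nat.ne_of_lt k.2), zero_add,
      Polynomial.finsetSum_coeff]
    simp only [Polynomial.coeff_C_mul, Polynomial.coeff_X_pow]
    rw [Finset.sum_eq_single k]
    · simp
    · intro b _ hb
      rw [if_neg (fun h => hb (Fin.ext h.symm)), mul_zero]
    · simp
  have hs : P.Splits := IsAlgClosed.splits P
  have hcard : Multiset.card P.roots = d := by rw [← hs.natDegree_eq_card_roots, hdeg]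
  obtain ⟨a0, ha0⟩ := exists_enum P.roots hcard
  have hes : ∀ i : Fin d, aeval a0 (esymm (Fin d) ℤ (i + 1)) = c i := by
    intro i
    rw [aeval_esymm_eq_multiset_esymm, ha0]
    have h := Polynomial.coeff_eq_esymm_roots_of_splits hs (k := (i.rev : ℕ))
      (by rw [hdeg]; exact i.rev.2.le)
    rw [hcoef, hmon.leadingCoeff, hdeg, one_mul] at h
    have e : d - (i.rev : ℕ) = i + 1 := by rw [Fin.val_rev]; omega
    rw [e, hg] at h
    simp only [Fin.rev_rev] at h
    have hu : ((-1 : 𝕜) ^ ((i : ℕ) + 1)) ≠ 0 := pow_ne_zero _ (by simp)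
    exact (mul_left_cancel₀ hu h).symm
  have hne : ∀ i, a0 i ≠ 0 := by
    intro i
    have hd : 0 < d := i.pos
    have h := hes ⟨d - 1, by omega⟩
    have h1 : ((⟨d - 1, by omega⟩ : Fin d) : ℕ) + 1 = d := by simp; omega
    have h2 := h0 _ h1
    rw [h1] at h
    rw [← h] at h2
    intro hi
    apply h2
    have h3 : powersetCard d (univ : Finset (Fin d)) = {univ} := by
      have h := Finset.powersetCard_self (univ : Finset (Fin d))
      rwa [Finset.card_fin] at h
    rw [esymm, h3, Finset.sum_singleton, map_prod]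
    exact Finset.prod_eq_zero (Finset.mem_univ i) (by simpa using hi)
  refine ⟨fun i => Units.mk0 (a0 i) (hne i), ?_, ?_⟩
  · have hfix : P.map (iterateFrobenius 𝕜 p f) = P := by
      rw [hP, Polynomial.map_add, Polynomial.map_pow, Polynomial.map_X, Polynomial.map_sum]
      congr 1
      refine Finset.sum_congr rfl fun k _ => ?_
      rw [Polynomial.map_mul, Polynomial.map_pow, Polynomial.map_X, Polynomial.map_C]
      congr 2
      rw [hg]
      simp only [map_mul, map_pow, map_neg, map_one]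
      rw [iterateFrobenius_def, hc]
    have hr := hs.roots_map (iterateFrobenius 𝕜 p f)
    rw [hfix, ← ha0, Multiset.map_map] at hr
    have hinj : Function.Injective (fun u : 𝕜ˣ => (u : 𝕜)) := Units.val_injective
    apply Multiset.map_injective hinj
    rw [Multiset.map_map, Multiset.map_map]
    have e1 : ((fun u : 𝕜ˣ => (u : 𝕜)) ∘ fun i => Units.mk0 (a0 i) (hne i) ^ (p ^ f))
        = (⇑(iterateFrobenius 𝕜 p f) ∘ a0) := by
      funext i; simp [iterateFrobenius_def]
    have e2 : ((fun u : 𝕜ˣ => (u : 𝕜)) ∘ fun i => Units.mk0 (a0 i) (hne i)) = a0 := by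
      funext i; simp
    rw [e1, e2]
    exact hr.symm
  · intro i
    simpa using hes i

/-- bounds for the exponents of restricted monomials -/
def bd (d q : ℕ) (i : Fin d) : ℕ := if (i : ℕ) + 1 = d then q - 1 else q

/-- the equations of the set of `F_q`-points -/
def genE (d q : ℕ) (i : Fin d) : MvPolynomial (Fin d) ℤ :=
  if (i : ℕ) + 1 = d then X i ^ (q - 1) - 1 else X i ^ q - X i

lemma pow_red {q : ℕ} (hq : 2 ≤ q) (i : Fin d) (n : ℕ) :
    ∃ n' < bd d q i, Ideal.Quotient.mk (Ideal.span (Set.range (genE d q))) (X i ^ n)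
      = Ideal.Quotient.mk (Ideal.span (Set.range (genE d q))) (X i ^ n') := by
  have hgen : Ideal.Quotient.mk (Ideal.span (Set.range (genE d q))) (genE d q i) = 0 :=
    Ideal.Quotient.eq_zero_iff_mem.2 (Ideal.subset_span ⟨i, rfl⟩)
  induction n using Nat.strong_induction_on with
  | _ n ih =>
    by_cases hn : n < bd d q i
    · exact ⟨n, hn, rfl⟩
    · have hE : genE d q i = if (i : ℕ) + 1 = d then X i ^ (q - 1) - 1 else X i ^ q - X i := rfl
      rw [hE] at hgen
      unfold bd at *
      split_ifs at * with h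
      · obtain ⟨n', h1, h2⟩ := ih (n - (q - 1)) (by omega)
        refine ⟨n', h1, ?_⟩
        rw [← h2]
        have e : n = (n - (q - 1)) + (q - 1) := by omega
        conv_lhs => rw [e, pow_add, map_mul]
        rw [map_sub, map_one, sub_eq_zero] at hgen
        rw [hgen, mul_one]
      · obtain ⟨n', h1, h2⟩ := ih (n - q + 1) (by omega)
        refine ⟨n', h1, ?_⟩
        rw [← h2]
        have e : n = (n - q) + q := by omega
        conv_lhs => rw [e, pow_add, map_mul]
        rw [map_sub, sub_eq_zero] at hgen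
        rw [hgen, ← map_mul, ← pow_succ]

lemma restricted {q : ℕ} (hq : 2 ≤ q) (G : MvPolynomial (Fin d) ℤ) :
    ∃ G' : MvPolynomial (Fin d) ℤ, G - G' ∈ Ideal.span (Set.range (genE d q)) ∧
      ∀ i, degreeOf i G' < bd d q i := by
  classical
  choose red hred1 hred2 using fun (i : Fin d) (n : ℕ) => pow_red (d := d) hq i n
  set rm : (Fin d →₀ ℕ) → (Fin d →₀ ℕ) := fun m =>
    Finsupp.equivFunOnFinite.symm (fun i => red i (m i)) with hrm
  refine ⟨∑ m ∈ G.support, monomial (rm m) (coeff m G), ?_, ?_⟩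
  · rw [← Ideal.Quotient.eq]
    conv_lhs => rw [G.as_sum]
    rw [map_sum, map_sum]
    refine Finset.sum_congr rfl fun m _ => ?_
    rw [MvPolynomial.monomial_eq, MvPolynomial.monomial_eq,
      Finsupp.prod_fintype _ _ (by intro i; simp), Finsupp.prod_fintype _ _ (by intro i; simp),
      map_mul, map_mul, map_prod, map_prod]
    congr 1
    refine Finset.prod_congr rfl fun i _ => ?_
    rw [hred2 i (m i)]
    rfl
  · intro i
    have hpos : 0 < bd d q i := by unfold bd; split_ifs <;> omega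
    rw [degreeOf_lt_iff hpos]
    intro m hm
    have := MvPolynomial.support_sum hm
    rw [Finset.mem_biUnion] at this
    obtain ⟨m0, _, h2⟩ := this
    have h3 := Finset.mem_singleton.1 (support_monomial_subset h2)
    rw [h3]
    exact hred1 i (m0 i)

/-- `F` vanishes at the Teichmüller lifts of all semisimple classes. -/
def Vanish (p q : ℕ) [Fact p.Prime] (𝕜 : Type*) [Field 𝕜] [CharP 𝕜 p]
    (F : MvPolynomial (Fin d) ℤ) : Prop :=
  ∀ a : Fin d → 𝕜ˣ, IsClass q a →
    aeval (fun i => WittVector.teichmuller p (a i : 𝕜)) F = 0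

variable (p : ℕ) [Fact p.Prime] {𝕜 : Type*} [Field 𝕜]

lemma isClass_esymm {q : ℕ} {a : Fin d → 𝕜ˣ} (ha : IsClass q a) (r : ℕ) :
    aeval (fun i => WittVector.teichmuller p (a i : 𝕜) ^ q) (esymm (Fin d) ℤ r)
      = aeval (fun i => WittVector.teichmuller p (a i : 𝕜)) (esymm (Fin d) ℤ r) := by
  rw [aeval_esymm_eq_multiset_esymm, aeval_esymm_eq_multiset_esymm]
  have h := congrArg (Multiset.map (fun u : 𝕜ˣ => WittVector.teichmuller p (u : 𝕜))) ha
  rw [Multiset.map_map, Multiset.map_map] at h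
  have e1 : (fun i => WittVector.teichmuller p (a i : 𝕜) ^ q)
      = ((fun u : 𝕜ˣ => WittVector.teichmuller p (u : 𝕜)) ∘ fun i => a i ^ q) := by
    funext i; simp
  rw [e1, h]
  rfl

lemma isClass_prod {G : Type*} [CommGroup G] {q : ℕ} (hq : 1 ≤ q) {a : Fin d → G}
    (ha : IsClass q a) : (∏ i, a i) ^ (q - 1) = 1 := by
  have h := congrArg Multiset.prod ha
  have h2 : ∏ i, a i ^ q = ∏ i, a i := h
  rw [Finset.prod_pow] at h2
  have e : q = (q - 1) + 1 := by omega
  rw [e, pow_succ] at h2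
  simpa using h2

lemma isClass_prod' {q : ℕ} (hq : 1 ≤ q) {a : Fin d → 𝕜ˣ} (ha : IsClass q a) :
    (∏ i, WittVector.teichmuller p (a i : 𝕜)) ^ (q - 1) = 1 := by
  rw [← map_prod, ← map_pow]
  have h := congrArg (fun u : 𝕜ˣ => (u : 𝕜)) (isClass_prod hq ha)
  simp only [Units.val_pow_eq_pow_val, Units.coe_prod, Units.val_one] at h
  rw [h, map_one]

lemma vanish_Iq [CharP 𝕜 p] {q : ℕ} (hq : 1 ≤ q) {F : MvPolynomial (Fin d) ℤ} (hF : F ∈ Iq d q) :
    Vanish p q 𝕜 F := by
  intro a ha
  have : Iq d q ≤ RingHom.ker (aeval (fun i => WittVector.teichmuller p (a i : 𝕜)) :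
      MvPolynomial (Fin d) ℤ →ₐ[ℤ] WittVector p 𝕜).toRingHom := by
    refine Ideal.span_le.2 ?_
    rintro G (⟨r, rfl⟩ | rfl)
    · rw [SetLike.mem_coe, RingHom.mem_ker]
      change aeval _ _ = 0
      rw [map_sub, sub_eq_zero, ← isClass_esymm p ha r, ← AlgHom.comp_apply]
      congr 1
      apply MvPolynomial.algHom_ext
      intro i
      simp
    · rw [SetLike.mem_coe, RingHom.mem_ker]
      change aeval _ _ = 0
      rw [map_sub, map_pow, map_prod, map_one, sub_eq_zero]
      simpa using isClass_prod' p hq ha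
  exact this hF

lemma esymm_pow_dvd (f r : ℕ) :
    (C (p : ℤ) : MvPolynomial (Fin d) ℤ) ∣ (esymm (Fin d) ℤ r) ^ (p ^ f)
      - aeval (fun k : Fin d => (X k : MvPolynomial (Fin d) ℤ) ^ (p ^ f)) (esymm (Fin d) ℤ r) := by
  rw [C_dvd_iff_zmod, map_sub, sub_eq_zero, map_pow]
  have h1 : map (Int.castRingHom (ZMod p)) (aeval (fun k : Fin d =>
      (X k : MvPolynomial (Fin d) ℤ) ^ (p ^ f)) (esymm (Fin d) ℤ r))
      = ∑ t ∈ powersetCard r (univ : Finset (Fin d)),
        ∏ i ∈ t, (X i : MvPolynomial (Fin d) (ZMod p)) ^ (p ^ f) := by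
    rw [esymm, map_sum, map_sum]
    refine Finset.sum_congr rfl fun t _ => ?_
    rw [map_prod, map_prod]
    simp
  rw [h1, esymm, map_sum, ← iterateFrobenius_def, map_sum]
  refine Finset.sum_congr rfl fun t _ => ?_
  rw [map_prod, map_prod]
  refine Finset.prod_congr rfl fun i _ => ?_
  rw [iterateFrobenius_def, map_X]

lemma symm_of_C_mul {D : MvPolynomial (Fin d) ℤ} {n : ℤ} (hn : n ≠ 0)
    (h : (C n * D).IsSymmetric) : D.IsSymmetric := by
  intro w
  have := h w
  rw [map_mul, rename_C] at this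
  exact mul_left_cancel₀ (by simpa using hn) this

/-- the substitution `X_i ↦ e_{i+1}` -/
abbrev subE (d : ℕ) : MvPolynomial (Fin d) ℤ →ₐ[ℤ] MvPolynomial (Fin d) ℤ :=
  aeval (fun i : Fin d => esymm (Fin d) ℤ (i + 1))

lemma subE_symm (G : MvPolynomial (Fin d) ℤ) : (subE d G).IsSymmetric := by
  rw [subE, ← esymmAlgHom_apply]
  exact (esymmAlgHom (Fin d) ℤ d G).2

lemma aeval_pow_esymm_symm (q r : ℕ) :
    (aeval (fun k : Fin d => (X k : MvPolynomial (Fin d) ℤ) ^ q) (esymm (Fin d) ℤ r)).IsSymmetric := by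
  intro w
  have h : (rename w : MvPolynomial (Fin d) ℤ →ₐ[ℤ] _).comp
      (aeval (fun k : Fin d => (X k : MvPolynomial (Fin d) ℤ) ^ q))
      = (aeval (fun k : Fin d => (X k : MvPolynomial (Fin d) ℤ) ^ q) :
        MvPolynomial (Fin d) ℤ →ₐ[ℤ] MvPolynomial (Fin d) ℤ).comp (rename w) := by
    apply MvPolynomial.algHom_ext
    intro i
    simp
  have h2 := congrArg (fun φ => φ (esymm (Fin d) ℤ r)) h
  simp only [AlgHom.comp_apply] at h2
  rw [h2, esymm_isSymmetric (Fin d) ℤ r w]

lemma subE_span (f : ℕ) {H : MvPolynomial (Fin d) ℤ}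
    (hH : H ∈ Ideal.span (Set.range (genE d (p ^ f)))) :
    ∃ F₁ : MvPolynomial (Fin d) ℤ, F₁.IsSymmetric ∧ subE d H - C (p : ℤ) * F₁ ∈ Iq d (p ^ f) := by
  have hp0 : (p : ℤ) ≠ 0 := by exact_mod_cast (Fact.out : p.Prime).ne_zero
  induction hH using Submodule.span_induction with
  | zero => exact ⟨0, MvPolynomial.IsSymmetric.zero, by simp⟩
  | add x y _ _ hx hy =>
    obtain ⟨F₁, h1, h2⟩ := hx
    obtain ⟨F₂, h3, h4⟩ := hy
    refine ⟨F₁ + F₂, h1.add h3, ?_⟩
    have := Ideal.add_mem _ h2 h4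
    rw [map_add]
    convert this using 1
    ring
  | smul a x _ hx =>
    obtain ⟨F₁, h1, h2⟩ := hx
    refine ⟨subE d a * F₁, (subE_symm a).mul h1, ?_⟩
    have := Ideal.mul_mem_left _ (subE d a) h2
    rw [smul_eq_mul, map_mul]
    convert this using 1
    ring
  | mem x hx =>
    obtain ⟨i, rfl⟩ := hx
    unfold genE
    split_ifs with h
    · refine ⟨0, MvPolynomial.IsSymmetric.zero, ?_⟩
      apply Ideal.subset_span
      right
      rw [map_sub, map_pow, map_one, aeval_X, h, mul_zero, sub_zero]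
      congr 2
      have h3 : powersetCard d (univ : Finset (Fin d)) = {univ} := by
        have h := Finset.powersetCard_self (univ : Finset (Fin d))
        rwa [Finset.card_fin] at h
      rw [esymm, h3, Finset.sum_singleton]
    · obtain ⟨D, hD⟩ := esymm_pow_dvd (d := d) p f (i + 1)
      refine ⟨D, ?_, ?_⟩
      · apply symm_of_C_mul hp0
        rw [← hD]
        have hs := esymm_isSymmetric (Fin d) ℤ ((i : ℕ) + 1)
        have hpow : (esymm (Fin d) ℤ ((i : ℕ) + 1) ^ (p ^ f)).IsSymmetric := by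
          intro w
          rw [map_pow, hs w]
        exact hpow.sub (aeval_pow_esymm_symm _ _)
      · apply Ideal.subset_span
        left
        refine ⟨i + 1, ?_⟩
        rw [map_sub, map_pow, aeval_X, ← hD]
        ring

lemma hom_aeval {A B σ : Type*} [CommRing A] [CommRing B] [Algebra ℤ A] [Algebra ℤ B]
    (φ : A →+* B) (u : σ → A)
    (F : MvPolynomial σ ℤ) : φ (aeval u F) = aeval (fun i => φ (u i)) F := by
  induction F using MvPolynomial.induction_on with
  | C a => rw [aeval_C, aeval_C, eq_intCast, eq_intCast, map_intCast]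
  | add p q hp hq => rw [map_add, map_add, map_add, hp, hq]
  | mul_X p i hp => rw [map_mul, map_mul, map_mul, hp, aeval_X, aeval_X]

/-- **Key step.** -/
lemma key_step [CharP 𝕜 p] [IsAlgClosed 𝕜] {f : ℕ} (hf : f ≠ 0) {F : MvPolynomial (Fin d) ℤ}
    (hF : F.IsSymmetric) (hV : Vanish p (p ^ f) 𝕜 F) :
    ∃ F₁ : MvPolynomial (Fin d) ℤ, F₁.IsSymmetric ∧ Vanish p (p ^ f) 𝕜 F₁ ∧
      F - C (p : ℤ) * F₁ ∈ Iq d (p ^ f) := by
  classical
  have hp : p.Prime := Fact.out
  have hp0 : (p : ℤ) ≠ 0 := by exact_mod_cast hp.ne_zero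
  have hq : 2 ≤ p ^ f := hp.two_le.trans (Nat.le_self_pow hf p)
  obtain ⟨G, hG⟩ := esymmAlgHom_fin_surjective ℤ (le_refl d)
    (⟨F, hF⟩ : symmetricSubalgebra (Fin d) ℤ)
  have hG' : subE d G = F := by
    rw [subE, ← esymmAlgHom_apply, hG]
  obtain ⟨G', hGG, hdeg⟩ := restricted hq G
  let K := GaloisField p f
  let : Fintype K := Fintype.ofFinite K
  have hK : Fintype.card K = p ^ f := by
    rw [← Nat.card_eq_fintype_card]; exact GaloisField.card p f hf
  let : Algebra (ZMod p) 𝕜 := ZMod.algebra 𝕜 p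
  let ι : K →ₐ[ZMod p] 𝕜 := IsAlgClosed.lift
  have hzero : map (Int.castRingHom K) G' = 0 := by
    apply eq_zero_of_eval_zero_at_prod_finset _
      (fun i : Fin d => if (i : ℕ) + 1 = d then (univ : Finset K).erase 0 else univ)
    · intro i
      have hc : #(if (i : ℕ) + 1 = d then (univ : Finset K).erase 0 else univ)
          = bd d (p ^ f) i := by
        unfold bd
        split_ifs
        · rw [Finset.card_erase_of_mem (Finset.mem_univ _), Finset.card_univ, hK]
        · rw [Finset.card_univ, hK]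
      rw [hc]
      have hpos : 0 < bd d (p ^ f) i := by unfold bd; split_ifs <;> omega
      rw [degreeOf_lt_iff hpos]
      intro m hm
      exact (degreeOf_lt_iff hpos).1 (hdeg i) m (support_map_subset _ _ hm)
    · intro x hx
      have hx0 : ∀ i : Fin d, (i : ℕ) + 1 = d → ι (x i) ≠ 0 := by
        intro i hi
        have := hx i
        rw [if_pos hi] at this
        have h1 := Finset.ne_of_mem_erase this
        intro h2
        exact h1 ((map_eq_zero ι).1 h2)
      have hxq : ∀ i : Fin d, ι (x i) ^ (p ^ f) = ι (x i) := by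
        intro i
        rw [← map_pow, ← hK, FiniteField.pow_card]
      obtain ⟨a, ha, hae⟩ := exists_class p f (fun i => ι (x i)) hxq hx0
      have e1 : ι (eval x (map (Int.castRingHom K) G')) = aeval (fun i => ι (x i)) G' := by
        have h := hom_aeval ι.toRingHom x G'
        have h2 : eval x (map (Int.castRingHom K) G') = aeval x G' := by
          rw [eval_map, aeval_def]
          rfl
        rw [h2]
        exact h
      have e2 : aeval (fun i => ι (x i)) G' = aeval (fun i => ι (x i)) G := by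
        have hle : Ideal.span (Set.range (genE d (p ^ f))) ≤
            RingHom.ker (aeval (fun i => ι (x i)) : MvPolynomial (Fin d) ℤ →ₐ[ℤ] 𝕜).toRingHom := by
          refine Ideal.span_le.2 ?_
          rintro _ ⟨i, rfl⟩
          rw [SetLike.mem_coe, RingHom.mem_ker]
          change aeval _ _ = 0
          unfold genE
          split_ifs with h
          · rw [map_sub, map_pow, aeval_X, map_one, sub_eq_zero]
            have h1 := hxq i
            have h2 := hx0 i h
            have e : p ^ f = (p ^ f - 1) + 1 := by omega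
            rw [e, pow_succ] at h1
            exact (mul_eq_right₀ h2).1 h1
          · rw [map_sub, map_pow, aeval_X, hxq, sub_self]
        have h := hle hGG
        rw [RingHom.mem_ker] at h
        change aeval _ _ = 0 at h
        rw [map_sub, sub_eq_zero] at h
        exact h.symm
      have e3 : aeval (fun i => ι (x i)) G = aeval (fun k => (a k : 𝕜)) F := by
        rw [← hG', subE, ← AlgHom.comp_apply]
        congr 1
        apply MvPolynomial.algHom_ext
        intro i
        simp [hae]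
      have e4 : aeval (fun k => (a k : 𝕜)) F = WittVector.constantCoeff
          (aeval (fun k => WittVector.teichmuller p (a k : 𝕜)) F) := by
        rw [hom_aeval]
        congr 2
      have : ι (eval x (map (Int.castRingHom K) G')) = 0 := by
        rw [e1, e2, e3, e4, hV a ha, map_zero]
      exact (map_eq_zero ι).1 this
  have hdvd : (C (p : ℤ) : MvPolynomial (Fin d) ℤ) ∣ G' :=
    (C_dvd_iff_map_hom_eq_zero (Int.castRingHom K) (p : ℤ)
      (fun r' => CharP.intCast_eq_zero_iff K p r') G').2 hzero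
  obtain ⟨G₁, rfl⟩ := hdvd
  obtain ⟨F₁, h1, h2⟩ := subE_span p f hGG
  have hmem : F - C (p : ℤ) * (F₁ + subE d G₁) ∈ Iq d (p ^ f) := by
    rw [← hG']
    rw [map_sub, map_mul] at h2
    have : subE d (C (p : ℤ)) = C (p : ℤ) := by simp
    rw [this] at h2
    convert h2 using 1
    ring
  refine ⟨F₁ + subE d G₁, h1.add (subE_symm _), ?_, hmem⟩
  intro a ha
  have h3 := vanish_Iq p (𝕜 := 𝕜) (by omega) hmem a ha
  rw [map_sub, hV a ha, map_mul, zero_sub, neg_eq_zero] at h3
  have h4 : aeval (fun i => WittVector.teichmuller p (a i : 𝕜)) (C (p : ℤ) : MvPolynomial (Fin d) ℤ)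
      = (p : WittVector p 𝕜) := by simp
  rw [h4] at h3
  exact (mul_eq_zero.1 h3).resolve_left (WittVector.p_nonzero p 𝕜)

/-- **Core lemma.** A symmetric polynomial vanishing at all semisimple classes has a nonzero
integer multiple in the ideal generated by `e_r(y^q) - e_r(y)` and `e_d^(q-1) - 1`. -/
theorem core [CharP 𝕜 p] [IsAlgClosed 𝕜] {f : ℕ} (hf : f ≠ 0) {F : MvPolynomial (Fin d) ℤ}
    (hF : F.IsSymmetric) (hV : Vanish p (p ^ f) 𝕜 F) :
    ∃ n : ℤ, n ≠ 0 ∧ C n * F ∈ Iq d (p ^ f) := by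
  have hp : p.Prime := Fact.out
  have hq : 2 ≤ p ^ f := hp.two_le.trans (Nat.le_self_pow hf p)
  have := finite_quot (d := d) hq
  let Csub : Submodule ℤ (MvPolynomial (Fin d) ℤ) :=
    { carrier := {F | F.IsSymmetric ∧ Vanish p (p ^ f) 𝕜 F}
      add_mem' := by
        rintro a b ⟨h1, h2⟩ ⟨h3, h4⟩
        exact ⟨h1.add h3, fun x hx => by rw [map_add, h2 x hx, h4 x hx, add_zero]⟩
      zero_mem' := ⟨MvPolynomial.IsSymmetric.zero, fun x _ => map_zero _⟩
      smul_mem' := by
        rintro n a ⟨h1, h2⟩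
        exact ⟨h1.smul n, fun x hx => by rw [map_zsmul, h2 x hx, smul_zero]⟩ }
  let π : MvPolynomial (Fin d) ℤ →ₗ[ℤ] MvPolynomial (Fin d) ℤ ⧸ Iq d (p ^ f) :=
    (Ideal.Quotient.mkₐ ℤ (Iq d (p ^ f))).toLinearMap
  let V := Csub.map π
  have : IsNoetherian ℤ (MvPolynomial (Fin d) ℤ ⧸ Iq d (p ^ f)) :=
    isNoetherian_of_isNoetherianRing_of_finite _ _
  have hfg : V.FG := IsNoetherian.noetherian V
  have hle : V ≤ (Ideal.span {(p : ℤ)}) • V := by
    rintro _ ⟨G, ⟨h1, h2⟩, rfl⟩
    obtain ⟨G₁, h3, h4, h5⟩ := key_step p hf h1 h2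
    have : π G = (p : ℤ) • π G₁ := by
      rw [← map_zsmul]
      change Ideal.Quotient.mk _ _ = Ideal.Quotient.mk _ _
      rw [Ideal.Quotient.eq]
      convert h5 using 2
      rw [zsmul_eq_mul]
      simp
    rw [this]
    exact Submodule.smul_mem_smul (Ideal.mem_span_singleton_self _) ⟨G₁, ⟨h3, h4⟩, rfl⟩
  obtain ⟨n, hn1, hn2⟩ :=
    Submodule.exists_sub_one_mem_and_smul_eq_zero_of_fg_of_le_smul _ V hfg hle
  refine ⟨n, ?_, ?_⟩
  · rintro rfl
    rw [Ideal.mem_span_singleton] at hn1
    have h2 : (p : ℤ) ∣ 1 := by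
      have := (dvd_neg (α := ℤ)).2 hn1
      simpa using this
    have := Int.natCast_dvd_natCast.1 (by exact_mod_cast h2 : ((p : ℕ) : ℤ) ∣ ((1 : ℕ) : ℤ))
    exact hp.one_lt.ne' (Nat.dvd_one.1 this)
  · have h := hn2 (π F) ⟨F, ⟨hF, hV⟩, rfl⟩
    rw [← map_zsmul] at h
    have h' : Ideal.Quotient.mk (Iq d (p ^ f)) (n • F) = 0 := h
    rw [Ideal.Quotient.eq_zero_iff_mem] at h'
    convert h' using 1
    rw [zsmul_eq_mul]
    simp

end

end U566.BM
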