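import Pool.Agent.U566.BMRel
import Pool.Agent.U566.BMCoinv

/-! The Breuil–Mézard relations force polynomial behaviour along arithmetic progressions of
Hodge types; conversely polynomial behaviour reduces the conjecture to Hodge types deep in the
Weyl chamber. -/

namespace U566.BM

open MvPolynomial Finset

set_option linter.unusedSectionVars false

noncomputable section

section general

variable {S : Type} [Fintype S] [DecidableEq S] {d : ℕ} {A : Type*} [AddCommGroup A]

/-- the `r`-th elementary symmetric function of `1, …, 1` -/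
def cr (d r : ℕ) : ℤ := aeval (fun _ : Fin d => (1 : ℤ)) (esymm (Fin d) ℤ r)

/-- The tuple `μ + k N v`. -/
def shiftBy (μ : Wt S d) (N : ℕ) (v : S → Fin d → ℕ) (k : ℕ) : Wt S d :=
  fun σ i => μ σ i + ((k * N * v σ i : ℕ) : ℤ)

/-- The alternating sum `∑_{k=0}^n (-1)^(n-k) (n choose k) X(μ + k N v)`; it vanishes for all `μ` if
`X` is polynomial of degree less than `n` along all progressions `μ + k N v`. -/
def diffSum (X : Wt S d → A) (n N : ℕ) (v : S → Fin d → ℕ) (μ : Wt S d) : A :=
  ∑ k ∈ range (n + 1), ((-1) ^ (n - k) * (n.choose k : ℤ)) • X (shiftBy μ N v k)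

/-- the ideal generated by `e_r(block σ) - e_r(1, …, 1)` -/
def genU (S : Type) (d : ℕ) : Set (MvPolynomial (S × Fin d) ℤ) :=
  {F | ∃ (σ : S) (r : ℕ), F = eps σ r 1 - C (cr d r)}

lemma kill_U (Z : Wt S d → A) (hZ : ∀ (μ : Wt S d) (σ : S) (r : ℕ), eSum Z μ σ r 1 = cr d r • Z μ)
    {F : MvPolynomial (S × Fin d) ℤ} (hF : F ∈ Ideal.span (genU S d))
    (B : MvPolynomial (S × Fin d) ℤ) : Psi Z (B * F) = 0 := by
  induction hF using Submodule.span_induction generalizing B with
  | zero => simp
  | add x y _ _ hx hy => rw [mul_add, map_add, hx, hy, add_zero]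
  | smul a x _ hx => rw [smul_eq_mul, ← mul_assoc, hx]
  | mem x hx =>
    have key : ∀ ν : (S × Fin d) →₀ ℕ, Psi Z (monomial ν 1 * x) = 0 := by
      intro ν
      obtain ⟨σ, r, rfl⟩ := hx
      have e1 : (monomial ν (1 : ℤ)) * C (cr d r) = cr d r • monomial ν (1 : ℤ) := by
        rw [mul_comm, C_mul', smul_eq_C_mul]
      rw [mul_sub, map_sub, Psi_eps, e1, map_zsmul, Psi_monomial, Nat.cast_one, hZ, sub_self]
    have : (Psi Z) ∘ₗ (LinearMap.mulRight ℤ x) = 0 := by
      apply (basisMonomials (S × Fin d) ℤ).ext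
      intro ν
      rw [coe_basisMonomials]
      exact key ν
    exact congrArg (fun φ => φ B) this

lemma prod_eq_of_esymm {R : Type*} [CommRing R] (x y : Fin d → R)
    (h : ∀ r, aeval x (esymm (Fin d) ℤ r) = aeval y (esymm (Fin d) ℤ r)) :
    ∏ i, (Polynomial.X - Polynomial.C (x i)) = ∏ i, (Polynomial.X - Polynomial.C (y i)) := by
  have key : ∀ z : Fin d → R, ∏ i, (Polynomial.X - Polynomial.C (z i))
      = ∑ j ∈ range (d + 1), (-1) ^ j * (Polynomial.C (aeval z (esymm (Fin d) ℤ j))
        * Polynomial.X ^ (d - j)) := by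
    intro z
    have h1 := Multiset.prod_X_sub_X_eq_sum_esymm (Multiset.map z univ.val)
    rw [Multiset.map_map, Multiset.card_map, Finset.card_val, Finset.card_univ,
      Fintype.card_fin] at h1
    simp only [aeval_esymm_eq_multiset_esymm]
    exact h1
  rw [key x, key y]
  refine Finset.sum_congr rfl fun j _ => ?_
  rw [h j]

lemma block_pow {R : Type*} [CommRing R] (x : Fin d → R)
    (h : ∀ r, aeval x (esymm (Fin d) ℤ r) = ((cr d r : ℤ) : R)) :
    ((List.ofFn fun i => x i - 1).map fun w => (Polynomial.X - Polynomial.C w : Polynomial R)).prod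
      = Polynomial.X ^ d := by
  have h1 := prod_eq_of_esymm x (fun _ => 1) (by
    intro r
    rw [h r, cr]
    have := hom_aeval (Int.castRingHom R) (fun _ : Fin d => (1 : ℤ)) (esymm (Fin d) ℤ r)
    rw [eq_intCast] at this
    rw [this]
    simp)
  have h2 := congrArg (fun f : Polynomial R => f.comp (Polynomial.X + 1)) h1
  simp only [Polynomial.prod_comp, Polynomial.sub_comp, Polynomial.X_comp, Polynomial.C_comp,
    Finset.prod_const, Finset.card_univ, Fintype.card_fin, map_one, Polynomial.pow_comp,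
    Polynomial.one_comp, add_sub_cancel_right] at h2
  rw [List.map_ofFn, List.prod_ofFn, ← h2]
  refine Finset.prod_congr rfl fun i _ => ?_
  simp only [Function.comp, map_sub, map_one]
  ring

lemma unip (s : Finset S) (v : S → Fin d → ℕ) (hv : ∀ σ, σ ∉ s → ∀ i, v σ i = 0) :
    (monomial (Finsupp.equivFunOnFinite.symm (fun x : S × Fin d => v x.1 x.2)) (1 : ℤ) - 1)
      ^ (s.card * tri d + 1) ∈ Ideal.span (genU S d) := by
  classical
  set J := Ideal.span (genU S d) with hJ
  set π := Ideal.Quotient.mk J with hπ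
  set u : S → Fin d → (MvPolynomial (S × Fin d) ℤ ⧸ J) := fun σ i => π (X (σ, i)) - 1 with hu
  have hblock : ∀ σ, ((List.ofFn (u σ)).map fun w =>
      (Polynomial.X - Polynomial.C w : Polynomial (MvPolynomial (S × Fin d) ℤ ⧸ J))).prod
        = Polynomial.X ^ d := by
    intro σ
    refine block_pow (fun i => π (X (σ, i))) fun r => ?_
    have h1 : π (eps σ r 1) = π (C (cr d r)) := by
      rw [hπ, Ideal.Quotient.eq]
      exact Ideal.subset_span ⟨σ, r, rfl⟩
    rw [hom_eps_one] at h1
    have h2 : π (C (cr d r)) = ((cr d r : ℤ) : MvPolynomial (S × Fin d) ℤ ⧸ J) := by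
      rw [show (C (cr d r) : MvPolynomial (S × Fin d) ℤ) = ((cr d r : ℤ) : MvPolynomial _ ℤ) from
        (map_intCast C _), map_intCast]
    rw [h2] at h1
    exact h1
  have hnil := coinv_blocks u hblock s
  set m := Ideal.span {w | ∃ σ ∈ s, ∃ i, w = u σ i} with hm
  have hmem : π (monomial (Finsupp.equivFunOnFinite.symm (fun x : S × Fin d => v x.1 x.2)) (1 : ℤ)
      - 1) ∈ m := by
    have e : (monomial (Finsupp.equivFunOnFinite.symm (fun x : S × Fin d => v x.1 x.2)) (1 : ℤ))
        = ∏ σ, ∏ i, (X (σ, i) : MvPolynomial (S × Fin d) ℤ) ^ (v σ i) := by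
      rw [MvPolynomial.monomial_eq, Finsupp.prod_fintype _ _ (by intro i; simp), map_one, one_mul,
        Fintype.prod_prod_type]
      rfl
    have h5 : (Ideal.Quotient.mk m) (π (∏ σ, ∏ i, (X (σ, i) : MvPolynomial (S × Fin d) ℤ)
        ^ (v σ i))) = 1 := by
      rw [map_prod, map_prod]
      refine Finset.prod_eq_one fun σ _ => ?_
      rw [map_prod, map_prod]
      refine Finset.prod_eq_one fun i _ => ?_
      rw [map_pow, map_pow]
      by_cases hσ : σ ∉ s
      · rw [hv σ hσ i]
        exact pow_zero (M := (MvPolynomial (S × Fin d) ℤ ⧸ J) ⧸ m) _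
      rw [not_not] at hσ
      have h3 : (Ideal.Quotient.mk m) (π (X (σ, i))) = 1 := by
        rw [← map_one (Ideal.Quotient.mk m), Ideal.Quotient.eq]
        exact Ideal.subset_span ⟨σ, hσ, i, rfl⟩
      rw [h3]
      exact one_pow (M := (MvPolynomial (S × Fin d) ℤ ⧸ J) ⧸ m) (v σ i)
    rw [← e] at h5
    have h6 := Ideal.Quotient.eq.1 (h5.trans (map_one (Ideal.Quotient.mk m)).symm)
    have h7 : π (monomial (Finsupp.equivFunOnFinite.symm (fun x : S × Fin d => v x.1 x.2)) (1 : ℤ)
        - 1) = π (monomial (Finsupp.equivFunOnFinite.symm (fun x : S × Fin d => v x.1 x.2)) (1 : ℤ))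
          - 1 := by
      rw [RingHom.map_sub, RingHom.map_one]
    rw [h7]
    exact h6
  have h4 := Ideal.pow_mem_pow hmem (s.card * tri d + 1)
  rw [hnil, Ideal.mem_bot, ← map_pow, hπ, Ideal.Quotient.eq_zero_iff_mem] at h4
  exact h4

/-- If the operators `X ↦ ∑_{|I|=r} X(· + N 1_{σ,I})` are multiplication by `e_r(1, …, 1)`, then `X`
is polynomial along all progressions. -/
theorem diff_of_eSum (X : Wt S d → A) (N : ℕ)
    (hX : ∀ (μ : Wt S d) (σ : S) (r : ℕ), eSum X μ σ r N = cr d r • X μ)
    (s : Finset S) (v : S → Fin d → ℕ) (hv : ∀ σ, σ ∉ s → ∀ i, v σ i = 0) (μ : Wt S d) :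
    diffSum X (s.card * tri d + 1) N v μ = 0 := by
  set n := s.card * tri d + 1 with hn
  set Z : Wt S d → A := fun κ => X (fun σ i => μ σ i + (N : ℤ) * κ σ i) with hZ
  have hZ1 : ∀ (κ : Wt S d) (σ : S) (r : ℕ), eSum Z κ σ r 1 = cr d r • Z κ := by
    intro κ σ r
    have := hX (fun σ i => μ σ i + (N : ℤ) * κ σ i) σ r
    rw [hZ]
    rw [← this]
    unfold eSum
    refine Finset.sum_congr rfl fun I _ => ?_
    change X _ = X _
    congr 1
    funext τ i
    simp only [bump]
    split_ifs <;> ring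
  have h1 := kill_U Z hZ1 (unip s v hv) 1
  rw [one_mul, sub_eq_add_neg, add_pow, map_sum] at h1
  rw [← h1]
  unfold diffSum
  refine Finset.sum_congr rfl fun k hk => ?_
  have e1 : monomial (Finsupp.equivFunOnFinite.symm (fun x : S × Fin d => v x.1 x.2)) (1 : ℤ) ^ k
      * (-1) ^ (n - k) * ((n.choose k : ℕ) : MvPolynomial (S × Fin d) ℤ)
      = ((-1) ^ (n - k) * (n.choose k : ℤ)) • monomial
        (k • Finsupp.equivFunOnFinite.symm (fun x : S × Fin d => v x.1 x.2)) (1 : ℤ) := by
    rw [monomial_pow, one_pow, smul_eq_C_mul, map_mul, map_pow]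
    push_cast
    simp only [map_neg, map_one, map_natCast]
    ring
  rw [e1, map_zsmul, Psi_monomial]
  congr 1
  rw [hZ]
  congr 1
  funext σ i
  simp only [shiftBy, Finsupp.smul_apply, Finsupp.equivFunOnFinite_symm_apply_apply, smul_eq_mul]
  push_cast
  ring

end general

end

end U566.BM
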