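import Pool.Agent.U566.BMMain

/-! Reduction of arbitrary tuples to restricted ones. -/

namespace U566.BM

open MvPolynomial Finset

set_option linter.unusedSectionVars false

noncomputable section

variable {d : ℕ}

/-- The set of the first `r` positions. -/
def low (d r : ℕ) : Finset (Fin d) := univ.filter fun i => (i : ℕ) < r

lemma card_low {r : ℕ} (h : r ≤ d) : (low d r).card = r := by
  have : low d r = (Finset.range r).attachFin (fun i hi =>
      lt_of_lt_of_le (Finset.mem_range.1 hi) h) := by
    ext i
    simp [low]
  rw [this, Finset.card_attachFin, Finset.card_range]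

/-- sum of all the distances -/
def spread (x : Fin d → ℤ) : ℕ := ∑ a, ∑ b, (x a - x b).natAbs

/-- indicator function -/
def ind (I : Finset (Fin d)) (a : Fin d) : ℤ := if a ∈ I then 1 else 0

lemma spread_ind (I : Finset (Fin d)) : spread (ind I) = 2 * (I.card * Iᶜ.card) := by
  have h : ∀ a b : Fin d, (ind I a - ind I b).natAbs
      = (if a ∈ I then 1 else 0) * (if b ∈ Iᶜ then 1 else 0)
        + (if a ∈ Iᶜ then 1 else 0) * (if b ∈ I then 1 else 0) := by
    intro a b
    unfold ind
    by_cases ha : a ∈ I <;> by_cases hb : b ∈ I <;> simp [ha, hb]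
  have h1 : ∑ a : Fin d, (if a ∈ I then 1 else 0) = I.card := by simp
  have h2 : ∑ a : Fin d, (if a ∈ Iᶜ then 1 else 0) = Iᶜ.card := by
    rw [Finset.sum_ite_mem, Finset.univ_inter, Finset.sum_const, smul_eq_mul, mul_one]
  unfold spread
  simp only [h, Finset.sum_add_distrib]
  simp only [← Finset.mul_sum, ← Finset.sum_mul, h1, h2]
  ring

lemma spread_ind_eq {I J : Finset (Fin d)} (h : I.card = J.card) :
    spread (ind I) = spread (ind J) := by
  rw [spread_ind, spread_ind, Finset.card_compl, Finset.card_compl, h]

lemma spread_add_le (x : Fin d → ℤ) (m : ℕ) (I : Finset (Fin d)) :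
    spread (fun a => x a + m * ind I a) ≤ spread x + m * spread (ind I) := by
  unfold spread
  rw [Finset.mul_sum, ← Finset.sum_add_distrib]
  refine Finset.sum_le_sum fun a _ => ?_
  rw [Finset.mul_sum, ← Finset.sum_add_distrib]
  refine Finset.sum_le_sum fun b _ => ?_
  have e : x a + m * ind I a - (x b + m * ind I b) = (x a - x b) + m * (ind I a - ind I b) := by
    ring
  rw [e]
  refine (Int.natAbs_add_le _ _).trans ?_
  rw [Int.natAbs_mul]
  simp

lemma spread_add_lt {x : Fin d → ℤ} (hx : StrictAnti x) {m : ℕ} (hm : 0 < m)
    {I : Finset (Fin d)} {a₀ b₀ : Fin d} (hab : a₀ < b₀) (ha : a₀ ∉ I) (hb : b₀ ∈ I) :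
    spread (fun a => x a + m * ind I a) < spread x + m * spread (ind I) := by
  have hle : ∀ a b : Fin d, (x a + m * ind I a - (x b + m * ind I b)).natAbs
      ≤ (x a - x b).natAbs + m * (ind I a - ind I b).natAbs := by
    intro a b
    have e : x a + m * ind I a - (x b + m * ind I b) = (x a - x b) + m * (ind I a - ind I b) := by
      ring
    rw [e]
    refine (Int.natAbs_add_le _ _).trans ?_
    rw [Int.natAbs_mul]
    simp
  unfold spread
  rw [Finset.mul_sum, ← Finset.sum_add_distrib]
  refine Finset.sum_lt_sum (fun a _ => ?_) ⟨a₀, Finset.mem_univ _, ?_⟩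
  · rw [Finset.mul_sum, ← Finset.sum_add_distrib]
    exact Finset.sum_le_sum fun b _ => hle a b
  · rw [Finset.mul_sum, ← Finset.sum_add_distrib]
    refine Finset.sum_lt_sum (fun b _ => hle a₀ b) ⟨b₀, Finset.mem_univ _, ?_⟩
    have h1 := hx hab
    have h2 : ind I a₀ = 0 := by simp [ind, ha]
    have h3 : ind I b₀ = 1 := by simp [ind, hb]
    have h4 : (m : ℤ) * ind I a₀ = 0 := by rw [h2]; ring
    have h5 : (m : ℤ) * ind I b₀ = m := by rw [h3]; ring
    have h6 : (ind I a₀ - ind I b₀).natAbs = 1 := by rw [h2, h3]; rfl
    change (x a₀ + ↑m * ind I a₀ - (x b₀ + ↑m * ind I b₀)).natAbs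
      < (x a₀ - x b₀).natAbs + m * (ind I a₀ - ind I b₀).natAbs
    rw [h4, h5, h6]
    omega

lemma spread_low {x : Fin d → ℤ} (hx : StrictAnti x) (m r : ℕ) :
    spread (fun a => x a + m * ind (low d r) a) = spread x + m * spread (ind (low d r)) := by
  unfold spread
  rw [Finset.mul_sum, ← Finset.sum_add_distrib]
  refine Finset.sum_congr rfl fun a _ => ?_
  rw [Finset.mul_sum, ← Finset.sum_add_distrib]
  refine Finset.sum_congr rfl fun b _ => ?_
  have key : ∀ a b : Fin d, a ≤ b → (x a + m * ind (low d r) a - (x b + m * ind (low d r) b)).natAbs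
      = (x a - x b).natAbs + m * (ind (low d r) a - ind (low d r) b).natAbs := by
    intro a b hab
    have h1 : x b ≤ x a := hx.antitone hab
    have h2 : ind (low d r) b ≤ ind (low d r) a := by
      unfold ind low
      simp only [Finset.mem_filter, Finset.mem_univ, true_and]
      have : (a : ℕ) ≤ b := hab
      split_ifs <;> omega
    have e : x a + m * ind (low d r) a - (x b + m * ind (low d r) b)
        = (x a - x b) + m * (ind (low d r) a - ind (low d r) b) := by ring
    rw [e]
    zify
    have h3 : 0 ≤ (m : ℤ) * (ind (low d r) a - ind (low d r) b) :=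
      mul_nonneg (by positivity) (by linarith)
    rw [abs_of_nonneg (by linarith), abs_of_nonneg (by linarith), abs_of_nonneg (by linarith)]
  rcases le_total a b with hab | hab
  · exact key a b hab
  · have h := key b a hab
    rw [← Int.natAbs_neg, neg_sub, h, ← Int.natAbs_neg (x b - x a), neg_sub,
      ← Int.natAbs_neg (ind (low d r) b - ind (low d r) a), neg_sub]

lemma spread_perm (x : Fin d → ℤ) (e : Equiv.Perm (Fin d)) : spread (fun i => x (e i)) = spread x := by
  unfold spread
  rw [← Equiv.sum_comp e (fun a => ∑ b, (x a - x b).natAbs)]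
  refine Finset.sum_congr rfl fun a _ => ?_
  exact Equiv.sum_comp e (fun b => (x (e a) - x b).natAbs)

lemma exists_inv {I : Finset (Fin d)} {r : ℕ} (hr : r ≤ d) (hI : I.card = r) (hne : I ≠ low d r) :
    ∃ a b : Fin d, a < b ∧ a ∉ I ∧ b ∈ I := by
  by_contra hcon
  push Not at hcon
  apply hne
  have hsub : I ⊆ low d r := by
    intro b hb
    by_contra hb2
    have hbr : r ≤ (b : ℕ) := by
      simpa [low] using hb2
    -- all a ≤ b are in I
    have h1 : low d (b + 1) ⊆ I := by
      intro a ha
      simp only [low, Finset.mem_filter, Finset.mem_univ, true_and] at ha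
      by_contra hna
      have hab : a ≠ b := by rintro rfl; exact hna hb
      exact hcon a b (lt_of_le_of_ne (by
        have : (a : ℕ) ≤ b := by omega
        exact this) hab) hna hb
    have h2 := Finset.card_le_card h1
    rw [card_low (by have := b.2; omega), hI] at h2
    omega
  exact Finset.eq_of_subset_of_card_le hsub (by rw [card_low hr, hI])

variable {S : Type} [Fintype S] [DecidableEq S] {f : ℕ}

/-- `σ` is one of the chosen embeddings (one for each embedding of the residue field). -/
def Chosen (j : S → ZMod f) (s : ZMod f → S) (σ : S) : Prop := s (j σ) = σ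

instance (j : S → ZMod f) (s : ZMod f → S) (σ : S) : Decidable (Chosen j s σ) :=
  inferInstanceAs (Decidable (s (j σ) = σ))

/-- The bound on the gaps between consecutive Hodge–Tate weights of restricted tuples: `p` at the
chosen embeddings, `1` at the others. -/
def gapBound (p : ℕ) (j : S → ZMod f) (s : ZMod f → S) (σ : S) : ℕ :=
  if Chosen j s σ then p else 1

/-- The embedding to which weight is moved. -/
def target (j : S → ZMod f) (s : ZMod f → S) (σ : S) : S :=
  if Chosen j s σ then s (j σ + 1) else s (j σ)

/-- Restricted tuples. -/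
def Restricted (p : ℕ) (j : S → ZMod f) (s : ZMod f → S) (μ : Wt S d) : Prop :=
  ∀ (σ : S) (a b : Fin d), (a : ℕ) + 1 = b → μ σ a - μ σ b ≤ gapBound p j s σ

/-- The reduction equation at the tuple `μ`, the embedding `σ` and the position `r`: with
`ν = μ - m·1_{σ,{1..r}}`, `m` the gap bound of `σ`, it says
`∑_{|I|=r} X(ν + m·1_{σ,I}) = ∑_{|I|=r} X(ν + 1_{σ',I})`, `σ'` the target of `σ`.  The term
`I = {1..r}` on the left is `X(μ)`; all other terms have smaller spread. -/
def ReduceEq {A : Type*} [AddCommGroup A] (p : ℕ) (j : S → ZMod f) (s : ZMod f → S)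
    (X : Wt S d → A) (μ : Wt S d) (σ : S) (r : ℕ) : Prop :=
  eSum X (bump μ σ (low d r) (-(gapBound p j s σ : ℤ))) σ r (gapBound p j s σ : ℤ)
    = eSum X (bump μ σ (low d r) (-(gapBound p j s σ : ℤ))) (target j s σ) r 1

/-- weights of the embeddings in the measure -/
def wgt (j : S → ZMod f) (s : ZMod f → S) (σ : S) : ℕ := if Chosen j s σ then 1 else 2

/-- the measure -/
def meas (j : S → ZMod f) (s : ZMod f → S) (μ : Wt S d) : ℕ := ∑ σ, wgt j s σ * spread (μ σ)

lemma bump_same (μ : Wt S d) (σ : S) (I : Finset (Fin d)) (m : ℤ) :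
    bump μ σ I m σ = fun a => μ σ a + m * ind I a := by
  funext a
  simp only [bump, ind, true_and]
  split_ifs <;> simp

lemma bump_other (μ : Wt S d) {σ τ : S} (h : τ ≠ σ) (I : Finset (Fin d)) (m : ℤ) :
    bump μ σ I m τ = μ τ := by
  funext a
  simp [bump, h]

lemma meas_bump (j : S → ZMod f) (s : ZMod f → S) (μ : Wt S d) (σ : S) (I : Finset (Fin d))
    (m : ℤ) : meas j s (bump μ σ I m) + wgt j s σ * spread (μ σ)
      = meas j s μ + wgt j s σ * spread (fun a => μ σ a + m * ind I a) := by
  unfold meas
  rw [← Finset.add_sum_erase _ _ (Finset.mem_univ σ),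
    ← Finset.add_sum_erase _ (fun τ => wgt j s τ * spread (μ τ)) (Finset.mem_univ σ), bump_same]
  have : ∑ τ ∈ univ.erase σ, wgt j s τ * spread (bump μ σ I m τ)
      = ∑ τ ∈ univ.erase σ, wgt j s τ * spread (μ τ) := by
    refine Finset.sum_congr rfl fun τ hτ => ?_
    rw [bump_other μ (Finset.ne_of_mem_erase hτ)]
  rw [this]
  ring

lemma meas_perm (j : S → ZMod f) (s : ZMod f → S) (μ : Wt S d) (e : S → Equiv.Perm (Fin d)) :
    meas j s (fun σ i => μ σ (e σ i)) = meas j s μ := by
  unfold meas
  refine Finset.sum_congr rfl fun σ _ => ?_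
  rw [spread_perm (μ σ) (e σ)]

/-- **Reduction lemma.**  A function `X` of tuples, compatible with sorting, which satisfies one
reduction equation at each regular unrestricted tuple and takes values in `G` at the restricted
regular tuples takes all its values in `G`. -/
theorem reduce_mem {A : Type*} [AddCommGroup A] {p : ℕ} (hp : 2 ≤ p) {j : S → ZMod f}
    {s : ZMod f → S} (hs : ∀ k, j (s k) = k) (X : Wt S d → A) (G : Submodule ℤ A)
    (hsort : ∀ μ : Wt S d, X μ = 0 ∨
      ∃ (ε : ℤ) (ν : Reg S d), X μ = ε • X ν.1 ∧ meas j s ν.1 = meas j s μ)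
    (hres : ∀ μ : Reg S d, Restricted p j s μ.1 → X μ.1 ∈ G)
    (hred : ∀ μ : Reg S d, ¬ Restricted p j s μ.1 → ∃ (σ : S) (a b : Fin d), (a : ℕ) + 1 = b ∧
      (gapBound p j s σ : ℤ) < μ.1 σ a - μ.1 σ b ∧ ReduceEq p j s X μ.1 σ b) (μ : Wt S d) :
    X μ ∈ G := by
  classical
  have key : ∀ (N : ℕ) (μ : Wt S d), meas j s μ = N → X μ ∈ G := by
    intro N
    induction N using Nat.strong_induction_on with
    | _ N ih =>
      intro μ hμ
      rcases hsort μ with h0 | ⟨ε, ν, h1, h2⟩
      · rw [h0]; exact G.zero_mem
      rw [h1]
      refine G.smul_mem _ ?_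
      by_cases hr : Restricted p j s ν.1
      · exact hres ν hr
      obtain ⟨σ, a, b, hab, hgap, heq⟩ := hred ν hr
      unfold ReduceEq at heq
      set m : ℕ := gapBound p j s σ with hm
      have hmpos : 0 < m := by
        rw [hm]; unfold gapBound; split_ifs <;> omega
      set κ : Wt S d := bump ν.1 σ (low d b) (-(m : ℤ)) with hκ
      have hbd : (b : ℕ) ≤ d := b.2.le
      have hb0 : 0 < (b : ℕ) := by omega
      -- κ is strictly decreasing at σ
      have hκσ : StrictAnti (κ σ) := by
        intro x y hxy
        rw [hκ, bump_same]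
        have h3 := ν.2 σ hxy
        by_cases hy : (y : ℕ) < b
        · have hx : (x : ℕ) < b := lt_trans hxy hy
          simp only [ind, low, Finset.mem_filter, Finset.mem_univ, true_and, hx, hy, if_true]
          linarith
        · by_cases hx : (x : ℕ) < b
          · simp only [ind, low, Finset.mem_filter, Finset.mem_univ, true_and, hx, hy, if_true,
              if_false]
            have h4 : ν.1 σ a ≤ ν.1 σ x := (ν.2 σ).antitone (by
              change (x : ℕ) ≤ a; omega)
            have h5 : ν.1 σ y ≤ ν.1 σ b := (ν.2 σ).antitone (by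
              change (b : ℕ) ≤ y; omega)
            linarith
          · simp only [ind, low, Finset.mem_filter, Finset.mem_univ, true_and, hx, hy, if_false]
            linarith
      have hback : bump κ σ (low d b) m = ν.1 := by
        funext τ i
        simp only [hκ, bump]
        split_ifs <;> ring
      have hlow_mem : low d b ∈ powersetCard (b : ℕ) (univ : Finset (Fin d)) := by
        rw [Finset.mem_powersetCard]
        exact ⟨Finset.subset_univ _, card_low hbd⟩
      have hsplit : eSum X κ σ b m = X ν.1 + ∑ I ∈ (powersetCard (b : ℕ)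
          (univ : Finset (Fin d))).erase (low d b), X (bump κ σ I m) := by
        rw [eSum, ← Finset.add_sum_erase _ _ hlow_mem, hback]
      have hc : 0 < spread (ind (low d b)) := by
        rw [spread_ind, Finset.card_compl, card_low hbd, Fintype.card_fin]
        have : (b : ℕ) < d := b.2
        have h6 : 0 < d - (b : ℕ) := by omega
        positivity
      have hw : 0 < wgt j s σ := by unfold wgt; split_ifs <;> omega
      have hν : meas j s ν.1 = meas j s κ + wgt j s σ * (m * spread (ind (low d b))) := by
        have h7 := meas_bump j s κ σ (low d b) m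
        rw [hback, spread_low hκσ m b] at h7
        rw [mul_add] at h7
        omega
      -- terms on the left
      have hleft : ∀ I ∈ (powersetCard (b : ℕ) (univ : Finset (Fin d))).erase (low d b),
          X (bump κ σ I m) ∈ G := by
        intro I hI
        rw [Finset.mem_erase, Finset.mem_powersetCard] at hI
        obtain ⟨hne, _, hIc⟩ := hI
        obtain ⟨x, y, hxy, hx, hy⟩ := exists_inv hbd hIc hne
        refine ih (meas j s (bump κ σ I m)) ?_ _ rfl
        rw [← hμ, ← h2, hν]
        have h7 := meas_bump j s κ σ I m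
        have h8 := spread_add_lt hκσ hmpos hxy hx hy
        rw [spread_ind_eq (hIc.trans (card_low hbd).symm)] at h8
        have h9 : wgt j s σ * spread (fun a => κ σ a + m * ind I a)
            < wgt j s σ * (spread (κ σ) + m * spread (ind (low d b))) :=
          Nat.mul_lt_mul_of_pos_left h8 hw
        rw [mul_add] at h9
        omega
      have hright : eSum X κ (target j s σ) b 1 ∈ G := by
        unfold eSum
        refine Submodule.sum_mem _ fun I hI => ?_
        rw [Finset.mem_powersetCard] at hI
        refine ih (meas j s (bump κ (target j s σ) I 1)) ?_ _ rfl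
        rw [← hμ, ← h2, hν]
        have h7 := meas_bump j s κ (target j s σ) I 1
        have h8 := spread_add_le (κ (target j s σ)) 1 I
        rw [spread_ind_eq (hI.2.trans (card_low hbd).symm)] at h8
        have htc : Chosen j s (target j s σ) := by
          unfold target
          split_ifs
          · change s (j (s (j σ + 1))) = s (j σ + 1)
            rw [hs]
          · change s (j (s (j σ))) = s (j σ)
            rw [hs]
        have hwt : wgt j s (target j s σ) = 1 := by
          unfold wgt
          rw [if_pos htc]
        have hwm : 2 ≤ wgt j s σ * m := by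
          rw [hm]
          unfold wgt gapBound
          split_ifs <;> omega
        rw [hwt, one_mul, one_mul] at h7
        push_cast at h8
        rw [one_mul] at h8
        have h12 : wgt j s σ * (m * spread (ind (low d b)))
            = (wgt j s σ * m) * spread (ind (low d b)) := by ring
        have h13 : 2 * spread (ind (low d b)) ≤ (wgt j s σ * m) * spread (ind (low d b)) :=
          Nat.mul_le_mul_right _ hwm
        rw [h12]
        omega
      have : X ν.1 = eSum X κ (target j s σ) b 1 - ∑ I ∈ (powersetCard (b : ℕ)
          (univ : Finset (Fin d))).erase (low d b), X (bump κ σ I m) := by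
        rw [← heq, hsplit]
        abel
      rw [this]
      exact G.sub_mem hright (Submodule.sum_mem _ hleft)
  exact key _ μ rfl

end

end U566.BM
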