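import Pool.Agent.U566.BMTypes2

/-! The Breuil–Mézard relations for pairs (Hodge type, inertial type), without any assumption on
the representation side. -/

namespace U566.BM

open MvPolynomial Finset

set_option linter.unusedSectionVars false

noncomputable section

section generic

variable {F M ι : Type*} [AddCommGroup F] [AddCommGroup M] (u : ι → F) (v : ι → M)

/-- graph of `u i ↦ v i` -/
def GrI : Submodule ℤ (F × M) := Submodule.span ℤ (Set.range fun i => (u i, v i))

lemma lc_pair (c : ι →₀ ℤ) : Finsupp.linearCombination ℤ (fun i => (u i, v i)) c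
    = (Finsupp.linearCombination ℤ u c, Finsupp.linearCombination ℤ v c) := by
  rw [Finsupp.linearCombination_apply, Finsupp.linearCombination_apply,
    Finsupp.linearCombination_apply]
  unfold Finsupp.sum
  ext1
  · simp [Prod.fst_sum]
  · simp [Prod.snd_sum]

lemma rel_iff_graph : (∀ c : ι →₀ ℤ, Finsupp.linearCombination ℤ u c = 0 →
      Finsupp.linearCombination ℤ v c = 0) ↔ ∀ z, ((0 : F), z) ∈ GrI u v → z = 0 := by
  constructor
  · intro h z hz
    unfold GrI at hz
    rw [Finsupp.mem_span_range_iff_exists_finsupp] at hz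
    obtain ⟨c, hc⟩ := hz
    have h1 : Finsupp.linearCombination ℤ (fun i => (u i, v i)) c = (0, z) := by
      rw [Finsupp.linearCombination_apply]; exact hc
    rw [lc_pair, Prod.mk.injEq] at h1
    rw [← h1.2]
    exact h c h1.1
  · intro h c hc
    apply h
    have h1 : Finsupp.linearCombination ℤ (fun i => (u i, v i)) c ∈ GrI u v := by
      unfold GrI
      rw [Finsupp.linearCombination_apply]
      exact Submodule.sum_mem _ fun i _ =>
        Submodule.smul_mem _ _ (Submodule.subset_span ⟨i, rfl⟩)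
    rw [lc_pair, hc] at h1
    exact h1

end generic

variable {S : Type} [Fintype S] [DecidableEq S] {m d : ℕ} {p f : ℕ} [Fact p.Prime] [NeZero f]
  {j : S → ZMod f} {s : ZMod f → S} {T : Type} {M : Type*} [AddCommGroup M]

/-- Breuil–Mézard in relation form, for all pairs (Hodge type, inertial type): every integral
linear relation between the reductions mod `p` of the representations attached to the pairs
`(μ, τ)` (that is, between their Brauer characters) holds between the `Z τ μ`. -/
def PairRelations (p f : ℕ) [Fact p.Prime] (j : S → ZMod f)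
    (θ : T → (Cls p f d → WittVector p (AlgebraicClosure (ZMod p)))) (Z : T → Wt S d → M) :
    Prop :=
  ∀ c : (Reg S d × T) →₀ ℤ,
    Finsupp.linearCombination ℤ (fun x : Reg S d × T => brauer p f j x.1.1 * θ x.2) c = 0 →
      Finsupp.linearCombination ℤ (fun x : Reg S d × T => Z x.2 x.1.1) c = 0

/-- The same relations between pairs `(μ, τ)` with `μ` one of the finitely many normalised
restricted tuples. -/
def BaseRelations (p f : ℕ) [Fact p.Prime] (j : S → ZMod f) (s : ZMod f → S)
    (θ : T → (Cls p f (m + 1) → WittVector p (AlgebraicClosure (ZMod p))))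
    (Z : T → Wt S (m + 1) → M) : Prop :=
  ∀ c : (NIdx m p f × T) →₀ ℤ,
    Finsupp.linearCombination ℤ
        (fun x : NIdx m p f × T => brauer p f j (hbK j s x.1) * θ x.2) c = 0 →
      Finsupp.linearCombination ℤ (fun x : NIdx m p f × T => Z x.2 (hbK j s x.1)) c = 0

variable {θ : T → (Cls p f (m + 1) → WittVector p (AlgebraicClosure (ZMod p)))}
  {Z : T → Wt S (m + 1) → M}

lemma twist_pair (τ : T) (h : TwistK p j (Z τ)) :
    TwistK p j (fun μ => (brauer p f j μ * θ τ, Z τ μ)) := by
  have hb : TwistK p j (brauer p f j : Wt S (m + 1) → _) := twist_brauer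
  refine ⟨fun μ σ σ' e => ?_, fun μ σ σ' e => ?_⟩
  · change (brauer p f j (bump μ σ univ 1) * θ τ, Z τ (bump μ σ univ 1))
      = (brauer p f j (bump μ σ' univ 1) * θ τ, Z τ (bump μ σ' univ 1))
    rw [hb.1 μ σ σ' e, h.1 μ σ σ' e]
  · change (brauer p f j (bump μ σ univ (p : ℤ)) * θ τ, Z τ (bump μ σ univ (p : ℤ)))
      = (brauer p f j (bump μ σ' univ 1) * θ τ, Z τ (bump μ σ' univ 1))
    rw [hb.2 μ σ σ' e, h.2 μ σ σ' e]

lemma eSum_pair (τ : T) (μ : Wt S (m + 1)) (σ : S) (r : ℕ) (k : ℤ) :
    eSum (fun μ => (brauer p f j μ * θ τ, Z τ μ)) μ σ r k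
      = (eSum (brauer p f j) μ σ r k * θ τ, eSum (Z τ) μ σ r k) := by
  unfold eSum
  ext1
  · rw [Prod.fst_sum, Finset.sum_mul]
  · rw [Prod.snd_sum]

/-- all pairs lie in the graph of the normalised restricted pairs -/
lemma graph_base [IsAddTorsionFree M] (hs : ∀ k, j (s k) = k) (hZ : ∀ τ, IsAlt (Z τ))
    (hT : ∀ τ, TwistK p j (Z τ)) (hE : ∀ τ, OneEqK p j s (Z τ)) (τ : T) (μ : Wt S (m + 1)) :
    (brauer p f j μ * θ τ, Z τ μ)
      ∈ GrI (fun x : NIdx m p f × T => brauer p f j (hbK j s x.1) * θ x.2)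
          (fun x : NIdx m p f × T => Z x.2 (hbK j s x.1)) := by
  have hp : p.Prime := Fact.out
  refine reduce_mem hp.two_le hs (fun μ => (brauer p f j μ * θ τ, Z τ μ)) _ ?_ ?_ ?_ μ
  · apply sort_cases
    · intro μ e
      rw [brauer_alt, hZ τ μ e, smul_mul_assoc]
      rfl
    · intro μ σ i k hik h
      rw [brauer_rep μ σ hik h, alt_rep (hZ τ) μ σ hik h, zero_mul]
      rfl
  · intro ν hν
    obtain ⟨b, hb⟩ := restricted_normK hs (twist_pair (θ := θ) τ (hT τ)) ν hν
    change (brauer p f j ν.1 * θ τ, Z τ ν.1) = (brauer p f j (hbK j s b) * θ τ, Z τ (hbK j s b))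
      at hb
    rw [hb]
    exact Submodule.subset_span ⟨(b, τ), rfl⟩
  · intro ν hν
    obtain ⟨σ, a, b, hab, hg, he⟩ := hE τ ν hν
    refine ⟨σ, a, b, hab, hg, ?_⟩
    have hb := reduce_of_eqs (p := p) hs (X := brauer p f j) brauer_fibre brauer_frob ν.1 σ b
    unfold ReduceEq at *
    rw [eSum_pair, eSum_pair, hb, he]

lemma graph_all [IsAddTorsionFree M] (hZ : ∀ τ, IsAlt (Z τ)) (τ : T) (μ : Wt S (m + 1)) :
    (brauer p f j μ * θ τ, Z τ μ)
      ∈ GrI (fun x : Reg S (m + 1) × T => brauer p f j x.1.1 * θ x.2)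
          (fun x : Reg S (m + 1) × T => Z x.2 x.1.1) := by
  obtain ⟨ε, ν, h1, h2⟩ := exists_reg (p := p) (f := f) (j := j) (hZ τ) μ
  have h3 : (brauer p f j ν.1 * θ τ, Z τ ν.1)
      ∈ GrI (fun x : Reg S (m + 1) × T => brauer p f j x.1.1 * θ x.2)
          (fun x : Reg S (m + 1) × T => Z x.2 x.1.1) := Submodule.subset_span ⟨(ν, τ), rfl⟩
  have h4 := Submodule.smul_mem _ ε h3
  rw [h1, h2, smul_mul_assoc]
  exact h4

lemma eq_of_graph {F M : Type*} [AddCommGroup F] [AddCommGroup M] {G : Submodule ℤ (F × M)}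
    (h : ∀ z, ((0 : F), z) ∈ G → z = 0) {x : F} {z z' : M} (h1 : (x, z) ∈ G)
    (h2 : (x, z') ∈ G) : z = z' := by
  have h3 := Submodule.sub_mem _ h1 h2
  rw [Prod.mk_sub_mk, sub_self] at h3
  exact sub_eq_zero.1 (h _ h3)

/-- **Relation form for pairs, no assumption.** -/
theorem pairRel_iff [IsAddTorsionFree M] (hs : ∀ k, j (s k) = k)
    (θ : T → (Cls p f (m + 1) → WittVector p (AlgebraicClosure (ZMod p))))
    (hZ : ∀ τ, IsAlt (Z τ)) :
    PairRelations p f j θ Z ↔
      (∀ τ, TwistK p j (Z τ)) ∧ (∀ τ, OneEqK p j s (Z τ)) ∧ BaseRelations p f j s θ Z := by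
  unfold PairRelations BaseRelations
  rw [rel_iff_graph, rel_iff_graph]
  constructor
  · intro h
    have hb : TwistK p j (brauer p f j : Wt S (m + 1) → _) := twist_brauer
    refine ⟨fun τ => ⟨fun μ σ σ' e => ?_, fun μ σ σ' e => ?_⟩, ?_, ?_⟩
    · have h1 := graph_all (θ := θ) (p := p) (f := f) (j := j) hZ τ (bump μ σ univ 1)
      rw [hb.1 μ σ σ' e] at h1
      exact eq_of_graph h h1 (graph_all hZ τ (bump μ σ' univ 1))
    · have h1 := graph_all (θ := θ) (p := p) (f := f) (j := j) hZ τ (bump μ σ univ (p : ℤ))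
      rw [hb.2 μ σ σ' e] at h1
      exact eq_of_graph h h1 (graph_all hZ τ (bump μ σ' univ 1))
    · intro τ μ hμ
      unfold Restricted at hμ
      push Not at hμ
      obtain ⟨σ, a, b, hab, hg⟩ := hμ
      refine ⟨σ, a, b, hab, hg, ?_⟩
      have hsum : ∀ (μ : Wt S (m + 1)) (σ : S) (r : ℕ) (k : ℤ),
          (eSum (brauer p f j) μ σ r k * θ τ, eSum (Z τ) μ σ r k)
            ∈ GrI (fun x : Reg S (m + 1) × T => brauer p f j x.1.1 * θ x.2)
              (fun x : Reg S (m + 1) × T => Z x.2 x.1.1) := by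
        intro μ σ r k
        rw [← eSum_pair]
        exact Submodule.sum_mem _ fun I _ => graph_all hZ τ _
      have hr := reduce_of_eqs (p := p) hs (X := brauer p f j) brauer_fibre brauer_frob μ.1 σ b
      unfold ReduceEq at *
      have e1 := hsum (bump μ.1 σ (low (m + 1) b) (-(gapBound p j s σ : ℤ))) σ b
        (gapBound p j s σ : ℤ)
      have e2 := hsum (bump μ.1 σ (low (m + 1) b) (-(gapBound p j s σ : ℤ))) (target j s σ) b 1
      rw [hr] at e1
      exact eq_of_graph h e1 e2
    · intro z hz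
      refine h z ?_
      have hle : GrI (fun x : NIdx m p f × T => brauer p f j (hbK j s x.1) * θ x.2)
          (fun x : NIdx m p f × T => Z x.2 (hbK j s x.1))
          ≤ GrI (fun x : Reg S (m + 1) × T => brauer p f j x.1.1 * θ x.2)
              (fun x : Reg S (m + 1) × T => Z x.2 x.1.1) := by
        unfold GrI
        rw [Submodule.span_le]
        rintro _ ⟨x, rfl⟩
        exact graph_all hZ x.2 (hbK j s x.1)
      exact hle hz
  · rintro ⟨hT, hE, hB⟩ z hz
    refine hB z ?_
    have hle : GrI (fun x : Reg S (m + 1) × T => brauer p f j x.1.1 * θ x.2)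
          (fun x : Reg S (m + 1) × T => Z x.2 x.1.1)
        ≤ GrI (fun x : NIdx m p f × T => brauer p f j (hbK j s x.1) * θ x.2)
          (fun x : NIdx m p f × T => Z x.2 (hbK j s x.1)) := by
      conv_lhs => unfold GrI
      rw [Submodule.span_le]
      rintro _ ⟨x, rfl⟩
      exact graph_base hs hZ hT hE x.2 x.1.1
    exact hle hz

/-- **Crystalline relation form, no assumption.** -/
theorem crysRel_iff [IsAddTorsionFree M] (hs : ∀ k, j (s k) = k) {Z : Wt S (m + 1) → M}
    (hZ : IsAlt Z) : BMRelations p f j Z ↔ TwistK p j Z ∧ OneEqK p j s Z := by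
  have hZ' : ∀ τ : Unit, IsAlt ((fun _ : Unit => Z) τ) := fun _ => hZ
  have h := pairRel_iff (p := p) (f := f) (T := Unit) (Z := fun _ => Z) hs (fun _ => 1) hZ'
  constructor
  · intro hR
    have h1 : PairRelations p f j (fun _ : Unit => (1 : Cls p f (m + 1) → _))
        (fun _ : Unit => Z) := by
      unfold PairRelations
      rw [rel_iff_graph]
      unfold BMRelations at hR
      rw [rel_iff_graph] at hR
      intro z hz
      refine hR z ?_
      have hle : GrI (fun x : Reg S (m + 1) × Unit => brauer p f j x.1.1 * 1)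
            (fun x : Reg S (m + 1) × Unit => Z x.1.1)
          ≤ GrI (fun μ : Reg S (m + 1) => brauer p f j μ.1)
            (fun μ : Reg S (m + 1) => Z μ.1) := by
        conv_lhs => unfold GrI
        rw [Submodule.span_le]
        rintro _ ⟨x, rfl⟩
        refine Submodule.subset_span ⟨x.1, ?_⟩
        change (brauer p f j x.1.1, Z x.1.1) = (brauer p f j x.1.1 * 1, Z x.1.1)
        rw [mul_one]
      exact hle hz
    obtain ⟨h2, h3, -⟩ := h.1 h1
    exact ⟨h2 (), h3 ()⟩
  · rintro ⟨hT, hE⟩
    unfold BMRelations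
    rw [rel_iff_graph]
    intro z hz
    have hle : GrI (fun μ : Reg S (m + 1) => brauer p f j μ.1)
            (fun μ : Reg S (m + 1) => Z μ.1)
        ≤ GrG (fun b : NIdx m p f => brauer p f j (hbK j s b))
            (fun b : NIdx m p f => Z (hbK j s b)) := by
      conv_lhs => unfold GrI
      rw [Submodule.span_le]
      rintro _ ⟨μ, rfl⟩
      have h1 := graph_base (p := p) (f := f) (T := Unit) (θ := fun _ => 1)
        (Z := fun _ => Z) hs hZ' (fun _ => hT) (fun _ => hE) () μ.1
      have hle2 : GrI (fun x : NIdx m p f × Unit => brauer p f j (hbK j s x.1) * 1)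
            (fun x : NIdx m p f × Unit => Z (hbK j s x.1))
          ≤ GrG (fun b : NIdx m p f => brauer p f j (hbK j s b))
            (fun b : NIdx m p f => Z (hbK j s b)) := by
        conv_lhs => unfold GrI
        rw [Submodule.span_le]
        rintro _ ⟨x, rfl⟩
        refine Submodule.subset_span ⟨x.1, ?_⟩
        change (brauer p f j (hbK j s x.1), Z (hbK j s x.1))
          = (brauer p f j (hbK j s x.1) * 1, Z (hbK j s x.1))
        rw [mul_one]
      have h2 := hle2 h1
      rw [mul_one] at h2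
      exact h2
    exact grG_unique _ _ (indep_hbK hs) (hle hz) (Submodule.zero_mem _)

end

end U566.BM
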