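import Pool.Agent.U566.BMReduce

/-! Reduction of the Breuil–Mézard identities to restricted Hodge types. -/

namespace U566.BM

open MvPolynomial Finset

set_option linter.unusedSectionVars false

noncomputable section

variable {S : Type} [Fintype S] [DecidableEq S] {d : ℕ}

/-- The representation side.  `T` is the set of inertial types, `W` the set of Serre weights,
`θ τ` the Brauer character of the reduction of `σ(τ)`, `β k` that of the Serre weight `k`, and
`n k μ τ` the multiplicity of `k` in the reduction of the representation attached to `(μ, τ)`. -/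
structure PairData (p f : ℕ) [Fact p.Prime] (d : ℕ) (j : S → ZMod f)
    (T W : Type) [Fintype W] where
  /-- Brauer characters of the reductions of the `σ(τ)` -/
  θ : T → (Cls p f d → WittVector p (AlgebraicClosure (ZMod p)))
  /-- irreducible Brauer characters -/
  β : W → (Cls p f d → WittVector p (AlgebraicClosure (ZMod p)))
  /-- multiplicities -/
  n : W → Reg S d → T → ℤ
  /-- irreducible Brauer characters are linearly independent -/
  indep : LinearIndependent ℤ β
  /-- definition of the multiplicities -/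
  mult : ∀ (μ : Reg S d) (τ : T), brauer p f j μ.1 * θ τ = ∑ k, n k μ τ • β k

section generic

variable {F M W : Type*} [AddCommGroup F] [AddCommGroup M] [Fintype W] (β : W → F) (Y : W → M)

/-- graph of `β k ↦ Y k` -/
def GrG : Submodule ℤ (F × M) := Submodule.span ℤ (Set.range fun k => (β k, Y k))

lemma grG_iff (x : F) (z : M) :
    (x, z) ∈ GrG β Y ↔ ∃ c : W → ℤ, x = ∑ k, c k • β k ∧ z = ∑ k, c k • Y k := by
  unfold GrG
  rw [Submodule.mem_span_range_iff_exists_fun]
  constructor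
  · rintro ⟨c, hc⟩
    refine ⟨c, ?_, ?_⟩
    · have := congrArg Prod.fst hc
      simpa [Prod.fst_sum] using this.symm
    · have := congrArg Prod.snd hc
      simpa [Prod.snd_sum] using this.symm
  · rintro ⟨c, h1, h2⟩
    refine ⟨c, ?_⟩
    ext1
    · simp [Prod.fst_sum, h1]
    · simp [Prod.snd_sum, h2]

lemma grG_unique (hβ : LinearIndependent ℤ β) {x : F} {z z' : M}
    (h : (x, z) ∈ GrG β Y) (h' : (x, z') ∈ GrG β Y) : z = z' := by
  have h2 := Submodule.sub_mem _ h h'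
  rw [Prod.mk_sub_mk, sub_self, grG_iff] at h2
  obtain ⟨c, hc1, hc2⟩ := h2
  have h3 := Fintype.linearIndependent_iff.1 hβ c hc1.symm
  rw [← sub_eq_zero, hc2]
  simp [h3]

end generic

/-- sorting -/
lemma sort_cases {A : Type*} [AddCommGroup A] {f : ℕ} (j : S → ZMod f) (s : ZMod f → S)
    {X : Wt S d → A}
    (halt : ∀ (μ : Wt S d) (e : S → Equiv.Perm (Fin d)),
      X (fun σ i => μ σ (e σ i)) = (∏ σ, (Equiv.Perm.sign (e σ) : ℤ)) • X μ)
    (hrep : ∀ (μ : Wt S d) (σ : S) (i k : Fin d), i ≠ k → μ σ i = μ σ k → X μ = 0)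
    (μ : Wt S d) : X μ = 0 ∨
      ∃ (ε : ℤ) (ν : Reg S d), X μ = ε • X ν.1 ∧ meas j s ν.1 = meas j s μ := by
  by_cases h : ∀ σ, Function.Injective (μ σ)
  · right
    choose e he using fun σ => exists_sort (h σ)
    refine ⟨∏ σ, (Equiv.Perm.sign (e σ) : ℤ), ⟨fun σ i => μ σ (e σ i), he⟩, ?_, meas_perm j s μ e⟩
    have h1 := halt μ e
    rw [h1, smul_smul, ← Finset.prod_mul_distrib]
    have h3 : ∀ σ, ((Equiv.Perm.sign (e σ) : ℤ) * (Equiv.Perm.sign (e σ) : ℤ)) = 1 := by
      intro σ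
      rw [← Units.val_mul]
      simp
    simp [h3]
  · left
    push Not at h
    obtain ⟨σ, hσ⟩ := h
    rw [Function.Injective] at hσ
    push Not at hσ
    obtain ⟨i, k, hik, hne⟩ := hσ
    exact hrep μ σ i k hne hik

section eqs

variable {p f : ℕ} [Fact p.Prime] [NeZero f] {j : S → ZMod f} {s : ZMod f → S}

lemma brauer_eSum_eq (μ : Wt S d) (σ σ' : S) (m m' r : ℕ)
    (he : ∀ a : Cls p f d, aeval (fun i => ts a i ^ (p ^ (j σ).val * m)) (esymm (Fin d) ℤ r)
        = aeval (fun i => ts a i ^ (p ^ (j σ').val * m')) (esymm (Fin d) ℤ r)) :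
    eSum (brauer p f j) μ σ r m = eSum (brauer p f j) μ σ' r m' := by
  funext a
  unfold eSum
  rw [Finset.sum_apply, Finset.sum_apply, brauer_pieri, brauer_pieri, he]

lemma brauer_fibre : FibreEq j (brauer p f j : Wt S d → _) := by
  intro μ σ σ' hσ r
  have := brauer_eSum_eq (p := p) (j := j) μ σ σ' 1 1 r (by intro a; rw [hσ])
  exact_mod_cast this

lemma brauer_frob : FrobEq p j (brauer p f j : Wt S d → _) := by
  intro μ σ σ' hσ r
  have := brauer_eSum_eq (p := p) (j := j) μ σ σ' p 1 r (by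
    intro a
    have e1 : (j σ').val = ((j σ).val + 1) % f := by
      rw [hσ, ZMod.val_add, ZMod.val_one_eq_one_mod, Nat.add_mod_mod]
    have e2 := esymm_frob a r (((j σ).val + 1) / f) (((j σ).val + 1) % f)
    rw [Nat.mod_add_div] at e2
    rw [e1, mul_one, ← e2, pow_succ])
  exact_mod_cast this

lemma reduce_of_eqs {A : Type*} [AddCommGroup A] (hs : ∀ k, j (s k) = k) {X : Wt S d → A}
    (h1 : FibreEq j X) (h2 : FrobEq p j X) (μ : Wt S d) (σ : S) (r : ℕ) :
    ReduceEq p j s X μ σ r := by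
  unfold ReduceEq gapBound target
  split_ifs with h
  · exact h2 _ σ _ (hs _) r
  · rw [Nat.cast_one]
    exact h1 _ σ _ (hs _).symm r

variable {T W : Type} [Fintype W] {M : Type*} [AddCommGroup M] (D : PairData p f d j T W)
  {Z : T → Wt S d → M}

lemma grG_reg (Y : W → M) (μ : Reg S d) (τ : T) (z : M) :
    (brauer p f j μ.1 * D.θ τ, z) ∈ GrG D.β Y ↔ z = ∑ k, D.n k μ τ • Y k := by
  have h : (brauer p f j μ.1 * D.θ τ, ∑ k, D.n k μ τ • Y k) ∈ GrG D.β Y :=
    (grG_iff D.β Y _ _).2 ⟨fun k => D.n k μ τ, D.mult μ τ, rfl⟩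
  constructor
  · intro h'
    exact grG_unique D.β Y D.indep h' h
  · rintro rfl
    exact h

/-- the pair (Brauer character, cycle) -/
def prX (D : PairData p f d j T W) (Z : T → Wt S d → M) (τ : T) (μ : Wt S d) :
    (Cls p f d → WittVector p (AlgebraicClosure (ZMod p))) × M :=
  (brauer p f j μ * D.θ τ, Z τ μ)

lemma eSum_prX (τ : T) (μ : Wt S d) (σ : S) (r : ℕ) (m : ℤ) :
    eSum (prX D Z τ) μ σ r m = (eSum (brauer p f j) μ σ r m * D.θ τ, eSum (Z τ) μ σ r m) := by
  unfold eSum prX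
  ext1
  · rw [Prod.fst_sum, Finset.sum_mul]
  · rw [Prod.snd_sum]

theorem restr_imp [IsAddTorsionFree M] (hs : ∀ k, j (s k) = k) (hZ : ∀ τ, IsAlt (Z τ))
    (Y : W → M)
    (hres : ∀ μ : Reg S d, Restricted p j s μ.1 → ∀ τ, Z τ μ.1 = ∑ k, D.n k μ τ • Y k)
    (hred : ∀ (τ : T) (μ : Reg S d), ¬ Restricted p j s μ.1 → ∃ (σ : S) (a b : Fin d),
      (a : ℕ) + 1 = b ∧ (gapBound p j s σ : ℤ) < μ.1 σ a - μ.1 σ b ∧
        ReduceEq p j s (Z τ) μ.1 σ b) (μ : Reg S d) (τ : T) :
    Z τ μ.1 = ∑ k, D.n k μ τ • Y k := by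
  have hp : p.Prime := Fact.out
  rw [← grG_reg D Y]
  refine reduce_mem hp.two_le hs (prX D Z τ) (GrG D.β Y) ?_ ?_ ?_ μ.1
  · apply sort_cases
    · intro μ e
      unfold prX
      rw [brauer_alt, hZ τ μ e, smul_mul_assoc]
      rfl
    · intro μ σ i k hik h
      unfold prX
      rw [brauer_rep μ σ hik h, alt_rep (hZ τ) μ σ hik h, zero_mul]
      rfl
  · intro ν hν
    exact (grG_reg D Y ν τ _).2 (hres ν hν τ)
  · intro ν hν
    obtain ⟨σ, a, b, hab, hg, he⟩ := hred τ ν hν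
    refine ⟨σ, a, b, hab, hg, ?_⟩
    have hb := reduce_of_eqs (p := p) hs (X := brauer p f j) brauer_fibre brauer_frob ν.1 σ b
    unfold ReduceEq at *
    rw [eSum_prX, eSum_prX, hb, he]

theorem imp_restr [IsAddTorsionFree M] (hs : ∀ k, j (s k) = k) (hZ : ∀ τ, IsAlt (Z τ))
    (Y : W → M) (h : ∀ (μ : Reg S d) (τ : T), Z τ μ.1 = ∑ k, D.n k μ τ • Y k)
    (τ : T) (μ : Wt S d) (σ : S) (r : ℕ) : ReduceEq p j s (Z τ) μ σ r := by
  have hall : ∀ (μ : Wt S d), prX D Z τ μ ∈ GrG D.β Y := by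
    intro μ
    obtain ⟨ε, ν, h1, h2⟩ := exists_reg (p := p) (f := f) (j := j) (hZ τ) μ
    have h3 := Submodule.smul_mem _ ε ((grG_reg D Y ν τ _).2 (h ν τ))
    unfold prX
    rw [h1, h2, smul_mul_assoc]
    exact h3
  have hsum : ∀ (μ : Wt S d) (σ : S) (r : ℕ) (m : ℤ), eSum (prX D Z τ) μ σ r m ∈ GrG D.β Y :=
    fun μ σ r m => Submodule.sum_mem _ fun I _ => hall _
  have hb := reduce_of_eqs (p := p) hs (X := brauer p f j) brauer_fibre brauer_frob μ σ r
  unfold ReduceEq at *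
  have e1 := hsum (bump μ σ (low d r) (-(gapBound p j s σ : ℤ))) σ r (gapBound p j s σ : ℤ)
  have e2 := hsum (bump μ σ (low d r) (-(gapBound p j s σ : ℤ))) (target j s σ) r 1
  rw [eSum_prX] at e1 e2
  rw [hb] at e1
  exact grG_unique D.β Y D.indep e1 e2

end eqs

end

end U566.BM
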