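import Mathlib

/-! Schur polynomials by the remainder formula, and the Pieri rule for `e_r(y^m)`. -/

namespace U566.BM

open MvPolynomial Finset

noncomputable section

variable {d : ℕ}

/-- The monic polynomial `∏_j (T - y_j)` over `ℤ[y_1, …, y_d]`. -/
def univP (d : ℕ) : Polynomial (MvPolynomial (Fin d) ℤ) :=
  ∏ j : Fin d, (Polynomial.X - Polynomial.C (X j))

/-- The Schur polynomial with exponents `ν` (so `ν = λ + (d-1, …, 1, 0)` for the usual `s_λ`):
the determinant of the coordinates of `T^(ν i)` modulo `∏_j (T - y_j)` in the basis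
`T^(d-1), …, T, 1`.  It is the quotient of alternants `det(y_k^(ν i)) / det(y_k^(d-1-i))`. -/
def schur (ν : Fin d → ℕ) : MvPolynomial (Fin d) ℤ :=
  Matrix.det (Matrix.of fun i k : Fin d =>
    ((Polynomial.X ^ (ν i)) %ₘ univP d).coeff (k.rev : ℕ))

/-- The alternant `det(y_k^(ν i))`. -/
def alt (ν : Fin d → ℕ) : MvPolynomial (Fin d) ℤ :=
  Matrix.det (Matrix.of fun i k : Fin d => (X k : MvPolynomial (Fin d) ℤ) ^ (ν i))

/-- The Vandermonde alternant. -/
def vdm (d : ℕ) : MvPolynomial (Fin d) ℤ := alt (fun i : Fin d => (i.rev : ℕ))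

lemma univP_monic : (univP d).Monic :=
  Polynomial.monic_prod_of_monic _ _ fun _ _ => Polynomial.monic_X_sub_C _

lemma univP_natDegree : (univP d).natDegree = d := by
  rw [univP, Polynomial.natDegree_prod_of_monic _ _ fun j _ => Polynomial.monic_X_sub_C _]
  simp

lemma univP_eval (k : Fin d) : (univP d).eval (X k) = 0 := by
  rw [univP, Polynomial.eval_prod]
  exact Finset.prod_eq_zero (Finset.mem_univ k) (by simp)

theorem schur_mul_vdm (ν : Fin d → ℕ) : schur ν * vdm d = alt ν := by
  rw [schur, vdm, alt, alt, ← Matrix.det_mul]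
  congr 1
  ext1 i k
  rw [Matrix.mul_apply]
  simp only [Matrix.of_apply]
  have hd : 0 < d := i.pos
  have h1 : ((Polynomial.X ^ (ν i) : Polynomial (MvPolynomial (Fin d) ℤ)) %ₘ univP d).eval (X k)
      = (X k) ^ (ν i) := by
    have h := congrArg (Polynomial.eval (X k))
      (Polynomial.modByMonic_add_div (Polynomial.X ^ (ν i)) (univP d))
    simpa [univP_eval] using h
  have h2 : ((Polynomial.X ^ (ν i) : Polynomial (MvPolynomial (Fin d) ℤ)) %ₘ univP d).natDegree
      < d := by
    have := Polynomial.natDegree_modByMonic_lt (Polynomial.X ^ (ν i)) univP_monic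
      (q := univP d) (by
        intro h
        have := congrArg Polynomial.natDegree h
        rw [univP_natDegree, Polynomial.natDegree_one] at this
        omega)
    rwa [univP_natDegree] at this
  rw [← h1, Polynomial.eval_eq_sum_range' h2, Finset.sum_range]
  exact (Equiv.sum_comp Fin.revPerm (fun l : Fin d =>
    ((Polynomial.X ^ (ν i) : Polynomial (MvPolynomial (Fin d) ℤ)) %ₘ univP d).coeff (l : ℕ)
      * (X k) ^ (l : ℕ)))

lemma vdm_ne_zero : vdm d ≠ 0 := by
  have h : vdm d = ((Matrix.vandermonde (X : Fin d → MvPolynomial (Fin d) ℤ)).transpose.submatrix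
      Fin.revPerm id).det := by
    rw [vdm, alt]; congr 1
  rw [h, Matrix.det_permute, Matrix.det_transpose]
  refine mul_ne_zero ?_ ?_
  · exact_mod_cast (Equiv.Perm.sign (Fin.revPerm (n := d))).ne_zero
  · rw [Matrix.det_vandermonde_ne_zero_iff]
    exact MvPolynomial.X_injective

lemma alt_eq (ν : Fin d → ℕ) :
    alt ν = ∑ w : Equiv.Perm (Fin d), (Equiv.Perm.sign w : ℤ) • ∏ i, (X i) ^ (ν (w i)) := by
  rw [alt, Matrix.det_apply]
  rfl

lemma schur_symm (ν : Fin d → ℕ) : (schur ν).IsSymmetric := by
  intro w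
  rw [schur, AlgHom.map_det]
  congr 1
  ext1 i k
  simp only [AlgHom.mapMatrix_apply, Matrix.map_apply, Matrix.of_apply]
  have h : (univP d).map (rename w : MvPolynomial (Fin d) ℤ →ₐ[ℤ] _).toRingHom = univP d := by
    rw [univP, Polynomial.map_prod]
    simp only [Polynomial.map_sub, Polynomial.map_X, Polynomial.map_C]
    have : ∀ j, (rename w : MvPolynomial (Fin d) ℤ →ₐ[ℤ] MvPolynomial (Fin d) ℤ).toRingHom (X j)
        = X (w j) := fun j => rename_X _ _
    simp only [this]
    exact Equiv.prod_comp w (fun j => Polynomial.X - Polynomial.C (X j))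
  have h2 := congrArg (fun q => Polynomial.coeff q (k.rev : ℕ)) (Polynomial.map_modByMonic
    (p := (Polynomial.X ^ (ν i) : Polynomial (MvPolynomial (Fin d) ℤ)))
    (rename w : MvPolynomial (Fin d) ℤ →ₐ[ℤ] _).toRingHom (univP_monic (d := d)))
  simp only [h, Polynomial.map_pow, Polynomial.map_X, Polynomial.coeff_map] at h2
  exact h2

/-- adding `m` to the entries in `I` -/
def addOn (ν : Fin d → ℕ) (I : Finset (Fin d)) (m : ℕ) : Fin d → ℕ :=
  fun i => ν i + if i ∈ I then m else 0

lemma pieri_alt (ν : Fin d → ℕ) (m r : ℕ) :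
    ∑ I ∈ powersetCard r (univ : Finset (Fin d)), alt (addOn ν I m)
      = aeval (fun k : Fin d => (X k : MvPolynomial (Fin d) ℤ) ^ m) (esymm (Fin d) ℤ r) * alt ν := by
  simp only [alt_eq, addOn]
  rw [Finset.sum_comm, Finset.mul_sum]
  refine Finset.sum_congr rfl fun w _ => ?_
  rw [← Finset.smul_sum, mul_smul_comm]
  congr 1
  simp only [pow_add, Finset.prod_mul_distrib]
  rw [← Finset.mul_sum, mul_comm]
  congr 1
  rw [esymm, map_sum]
  simp only [map_prod, aeval_X]
  refine Finset.sum_bij' (fun I _ => I.map w.symm.toEmbedding) (fun I _ => I.map w.toEmbedding)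
    ?_ ?_ ?_ ?_ ?_
  · intro I hI
    simpa using hI
  · intro I hI
    simpa using hI
  · intro I hI
    ext x; simp
  · intro I hI
    ext x; simp
  · intro I hI
    have : ∀ i, (X i : MvPolynomial (Fin d) ℤ) ^ (if w i ∈ I then m else 0)
        = if i ∈ I.map w.symm.toEmbedding then (X i) ^ m else 1 := by
      intro i
      have : (i ∈ I.map w.symm.toEmbedding) ↔ w i ∈ I := by
        simp
      by_cases h : w i ∈ I
      · rw [if_pos h, if_pos (this.2 h)]
      · rw [if_neg h, if_neg (fun h' => h (this.1 h')), pow_zero]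
    simp only [this]
    rw [Finset.prod_ite_mem, Finset.univ_inter]

theorem pieri (ν : Fin d → ℕ) (m r : ℕ) :
    ∑ I ∈ powersetCard r (univ : Finset (Fin d)), schur (addOn ν I m)
      = aeval (fun k : Fin d => (X k : MvPolynomial (Fin d) ℤ) ^ m) (esymm (Fin d) ℤ r)
        * schur ν := by
  apply mul_right_cancel₀ (vdm_ne_zero (d := d))
  rw [Finset.sum_mul, mul_assoc, schur_mul_vdm, ← pieri_alt]
  exact Finset.sum_congr rfl fun I _ => schur_mul_vdm _

/-- twisting by the determinant -/
theorem schur_add (ν : Fin d → ℕ) (m : ℕ) :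
    schur (fun i => ν i + m) = (∏ k : Fin d, (X k : MvPolynomial (Fin d) ℤ)) ^ m * schur ν := by
  have h := pieri ν m d
  have h2 : powersetCard d (univ : Finset (Fin d)) = {univ} := by
    have h := Finset.powersetCard_self (univ : Finset (Fin d))
    rwa [Finset.card_fin] at h
  rw [h2, Finset.sum_singleton] at h
  have h3 : addOn ν univ m = fun i => ν i + m := by
    funext i; simp [addOn]
  rw [h3] at h
  rw [h, esymm, map_sum, h2, Finset.sum_singleton, map_prod]
  simp [Finset.prod_pow]

end

end U566.BM
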