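import Pool.Agent.U566.BMGenK2

/-! Breuil–Mézard identities with inertial types over a general field: one equation for each
unrestricted pair, finitely many equations for each type, explicit cycles. -/

namespace U566.BM

open MvPolynomial Finset

set_option linter.unusedSectionVars false

noncomputable section

variable {S : Type} [Fintype S] [DecidableEq S]

/-- The representation side with the trivial type `t0` and Steinberg's spanning theorem. -/
structure TypedData (p f : ℕ) [Fact p.Prime] (d : ℕ) (j : S → ZMod f)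
    (T W : Type) [Fintype W] extends PairData p f d j T W where
  /-- the trivial inertial type -/
  t0 : T
  /-- `σ(t0)` is the trivial representation -/
  triv : θ t0 = 1
  /-- Steinberg: the Serre weights are integral combinations of reductions of algebraic
  representations -/
  span : ∀ k, β k ∈ Submodule.span ℤ (Set.range fun μ : Reg S d => brauer p f j μ.1)

/-- One reduction equation for each unrestricted regular tuple. -/
def OneEqK {A : Type*} [AddCommGroup A] {d : ℕ} (p : ℕ) {f : ℕ} (j : S → ZMod f)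
    (s : ZMod f → S) (X : Wt S d → A) : Prop :=
  ∀ μ : Reg S d, ¬ Restricted p j s μ.1 → ∃ (σ : S) (a b : Fin d),
    (a : ℕ) + 1 = b ∧ (gapBound p j s σ : ℤ) < μ.1 σ a - μ.1 σ b ∧ ReduceEq p j s X μ.1 σ b

variable {m : ℕ} {p f : ℕ} [Fact p.Prime] [NeZero f] {j : S → ZMod f} {s : ZMod f → S}
  {T W : Type} [Fintype W] {M : Type*} [AddCommGroup M]

/-- Change of type: if the reduction attached to the normalised restricted tuple `b` and the type
`τ` is an integral combination of the reductions attached to the normalised restricted tuples and the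
trivial type, then `Z` satisfies the same relation. -/
def TypeEq (D : TypedData p f (m + 1) j T W) (s : ZMod f → S) (Z : T → Wt S (m + 1) → M) : Prop :=
  ∀ (τ : T) (b : NIdx m p f) (c : NIdx m p f → ℤ),
    brauer p f j (hbK j s b) * D.θ τ = ∑ b', c b' • brauer p f j (hbK j s b') →
      Z τ (hbK j s b) = ∑ b', c b' • Z D.t0 (hbK j s b')

/-- `y` is the value at the Serre weight `k` predicted by the trivial type: the combination of the
`Z t0` at normalised restricted tuples which corresponds to the expression of the Brauer character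
of `k` by reductions of algebraic representations. -/
def Predicted (D : TypedData p f (m + 1) j T W) (s : ZMod f → S) (Z : T → Wt S (m + 1) → M)
    (k : W) (y : M) : Prop :=
  ∃ c : NIdx m p f → ℤ, D.β k = ∑ b, c b • brauer p f j (hbK j s b) ∧
    y = ∑ b, c b • Z D.t0 (hbK j s b)

variable (D : TypedData p f (m + 1) j T W) {Z : T → Wt S (m + 1) → M}

lemma beta_mem_hbK (hs : ∀ k, j (s k) = k) (k : W) :
    D.β k ∈ Submodule.span ℤ (Set.range fun b : NIdx m p f => brauer p f j (hbK j s b)) := by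
  have hle : Submodule.span ℤ (Set.range fun μ : Reg S (m + 1) => brauer p f j μ.1)
      ≤ Submodule.span ℤ (Set.range fun b : NIdx m p f => brauer p f j (hbK j s b)) := by
    rw [Submodule.span_le]
    rintro _ ⟨μ, rfl⟩
    exact span_hbK hs μ.1
  exact hle (D.span k)

lemma exists_coeffK (hs : ∀ k, j (s k) = k) (k : W) : ∃ c : NIdx m p f → ℤ,
    D.β k = ∑ b, c b • brauer p f j (hbK j s b) := by
  obtain ⟨c, hc⟩ := (Submodule.mem_span_range_iff_exists_fun ℤ).1 (beta_mem_hbK D hs k)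
  exact ⟨c, hc.symm⟩

/-- there is exactly one change of type relation for each normalised restricted tuple and type -/
lemma exists_unique_typeK (hs : ∀ k, j (s k) = k) (τ : T) (b : NIdx m p f) :
    ∃! c : NIdx m p f → ℤ,
      brauer p f j (hbK j s b) * D.θ τ = ∑ b', c b' • brauer p f j (hbK j s b') := by
  have hmem : brauer p f j (hbK j s b) * D.θ τ
      ∈ Submodule.span ℤ (Set.range fun b : NIdx m p f => brauer p f j (hbK j s b)) := by
    have h := D.mult (hbReg j s b) τ
    change brauer p f j (hbK j s b) * D.θ τ = _ at h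
    rw [h]
    exact Submodule.sum_mem _ fun k _ => Submodule.smul_mem _ _ (beta_mem_hbK D hs k)
  obtain ⟨c, hc⟩ := (Submodule.mem_span_range_iff_exists_fun ℤ).1 hmem
  refine ⟨c, hc.symm, fun c' h' => ?_⟩
  have h1 : ∑ b', (c' b' - c b') • brauer p f j (hbK j s b') = 0 := by
    simp only [sub_smul, Finset.sum_sub_distrib]
    rw [hc, ← h', sub_self]
  have h2 := Fintype.linearIndependent_iff.1 (indep_hbK (m := m) (p := p) hs) _ h1
  funext b'
  have := h2 b'
  omega

/-- there is exactly one predicted value -/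
lemma predicted_exists (hs : ∀ k, j (s k) = k) (k : W) : ∃! y, Predicted D s Z k y := by
  obtain ⟨c, hc⟩ := exists_coeffK D hs k
  refine ⟨_, ⟨c, hc, rfl⟩, ?_⟩
  rintro y ⟨c', hc', rfl⟩
  have h : ∀ c : NIdx m p f → ℤ, (∑ b, c b • brauer p f j (hbK j s b),
      ∑ b, c b • Z D.t0 (hbK j s b)) ∈ GrG (fun b : NIdx m p f => brauer p f j (hbK j s b))
        (fun b => Z D.t0 (hbK j s b)) := fun c => (grG_iff _ _ _ _).2 ⟨c, rfl, rfl⟩
  have h1 := h c
  have h2 := h c'
  rw [← hc] at h1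
  rw [← hc'] at h2
  exact grG_unique _ _ (indep_hbK hs) h2 h1

lemma memK [IsAddTorsionFree M] (hZ : ∀ τ, IsAlt (Z τ)) (Y : W → M)
    (h : ∀ (μ : Reg S (m + 1)) (τ : T), Z τ μ.1 = ∑ k, D.n k μ τ • Y k) (τ : T)
    (μ : Wt S (m + 1)) : prX D.toPairData Z τ μ ∈ GrG D.β Y := by
  obtain ⟨ε, ν, h1, h2⟩ := exists_reg (p := p) (f := f) (j := j) (hZ τ) μ
  have h3 := Submodule.smul_mem _ ε ((grG_reg D.toPairData Y ν τ _).2 (h ν τ))
  unfold prX
  rw [h1, h2, smul_mul_assoc]
  exact h3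

lemma memK0 [IsAddTorsionFree M] (hZ : ∀ τ, IsAlt (Z τ)) (Y : W → M)
    (h : ∀ (μ : Reg S (m + 1)) (τ : T), Z τ μ.1 = ∑ k, D.n k μ τ • Y k)
    (μ : Wt S (m + 1)) : (brauer p f j μ, Z D.t0 μ) ∈ GrG D.β Y := by
  have := memK D hZ Y h D.t0 μ
  unfold prX at this
  rwa [D.triv, mul_one] at this

lemma twistK_of [IsAddTorsionFree M] (hZ : ∀ τ, IsAlt (Z τ)) (Y : W → M)
    (h : ∀ (μ : Reg S (m + 1)) (τ : T), Z τ μ.1 = ∑ k, D.n k μ τ • Y k) (τ : T) :
    TwistK p j (Z τ) := by
  have hb : TwistK p j (brauer p f j : Wt S (m + 1) → _) := twist_brauer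
  refine ⟨fun μ σ σ' e => ?_, fun μ σ σ' e => ?_⟩
  · have h1 := memK D hZ Y h τ (bump μ σ univ 1)
    have h2 := memK D hZ Y h τ (bump μ σ' univ 1)
    unfold prX at h1 h2
    rw [hb.1 μ σ σ' e] at h1
    exact grG_unique D.β Y D.indep h1 h2
  · have h1 := memK D hZ Y h τ (bump μ σ univ (p : ℤ))
    have h2 := memK D hZ Y h τ (bump μ σ' univ 1)
    unfold prX at h1 h2
    rw [hb.2 μ σ σ' e] at h1
    exact grG_unique D.β Y D.indep h1 h2

lemma sum_pairK {F ι : Type*} [AddCommGroup F] [Fintype ι] (G : Submodule ℤ (F × M))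
    {u : ι → F} {v : ι → M} (hG : ∀ i, (u i, v i) ∈ G) (c : ι → ℤ) :
    (∑ i, c i • u i, ∑ i, c i • v i) ∈ G := by
  have h : (∑ i, c i • u i, ∑ i, c i • v i) = ∑ i, c i • (u i, v i) := by
    ext1
    · rw [Prod.fst_sum]
      rfl
    · rw [Prod.snd_sum]
      rfl
  rw [h]
  exact Submodule.sum_mem _ fun i _ => G.smul_mem _ (hG i)

lemma typeEq_of [IsAddTorsionFree M] (hZ : ∀ τ, IsAlt (Z τ)) (Y : W → M)
    (h : ∀ (μ : Reg S (m + 1)) (τ : T), Z τ μ.1 = ∑ k, D.n k μ τ • Y k) : TypeEq D s Z := by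
  intro τ b c hc
  have h1 := memK D hZ Y h τ (hbK j s b)
  unfold prX at h1
  have h2 := sum_pairK (GrG D.β Y) (fun b' => memK0 D hZ Y h (hbK j s b')) c
  rw [← hc] at h2
  exact grG_unique D.β Y D.indep h1 h2

/-- the values are forced -/
theorem forcedK [IsAddTorsionFree M] (hZ : ∀ τ, IsAlt (Z τ)) (Y : W → M)
    (h : ∀ (μ : Reg S (m + 1)) (τ : T), Z τ μ.1 = ∑ k, D.n k μ τ • Y k) (k : W) (y : M)
    (hy : Predicted D s Z k y) : Y k = y := by
  obtain ⟨c, hc, rfl⟩ := hy
  have h1 : (D.β k, Y k) ∈ GrG D.β Y := Submodule.subset_span ⟨k, rfl⟩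
  have h2 := sum_pairK (GrG D.β Y) (fun b' => memK0 D hZ Y h (hbK j s b')) c
  rw [← hc] at h2
  exact grG_unique D.β Y D.indep h1 h2

lemma twist_prX (τ : T) (h : TwistK p j (Z τ)) : TwistK p j (prX D.toPairData Z τ) := by
  have hb : TwistK p j (brauer p f j : Wt S (m + 1) → _) := twist_brauer
  refine ⟨fun μ σ σ' e => ?_, fun μ σ σ' e => ?_⟩
  · unfold prX
    rw [hb.1 μ σ σ' e, h.1 μ σ σ' e]
  · unfold prX
    rw [hb.2 μ σ σ' e, h.2 μ σ σ' e]

lemma graphK [IsAddTorsionFree M] (hs : ∀ k, j (s k) = k) (hZ : ∀ τ, IsAlt (Z τ))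
    (hT : ∀ τ, TwistK p j (Z τ)) (hE : ∀ τ, OneEqK p j s (Z τ)) (hC : TypeEq D s Z)
    (τ : T) (μ : Wt S (m + 1)) : prX D.toPairData Z τ μ
      ∈ GrG (fun b : NIdx m p f => brauer p f j (hbK j s b)) (fun b => Z D.t0 (hbK j s b)) := by
  have hp : p.Prime := Fact.out
  refine reduce_mem hp.two_le hs (prX D.toPairData Z τ) _ ?_ ?_ ?_ μ
  · apply sort_cases
    · intro μ e
      unfold prX
      rw [brauer_alt, hZ τ μ e, smul_mul_assoc]
      rfl
    · intro μ σ i k hik h
      unfold prX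
      rw [brauer_rep μ σ hik h, alt_rep (hZ τ) μ σ hik h, zero_mul]
      rfl
  · intro ν hν
    obtain ⟨b, hb⟩ := restricted_normK hs (twist_prX D τ (hT τ)) ν hν
    rw [hb]
    have hmem : brauer p f j (hbK j s b) * D.θ τ
        ∈ Submodule.span ℤ (Set.range fun b : NIdx m p f => brauer p f j (hbK j s b)) := by
      have h := D.mult (hbReg j s b) τ
      change brauer p f j (hbK j s b) * D.θ τ = _ at h
      rw [h]
      exact Submodule.sum_mem _ fun k _ => Submodule.smul_mem _ _ (beta_mem_hbK D hs k)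
    obtain ⟨c, hc⟩ := (Submodule.mem_span_range_iff_exists_fun ℤ).1 hmem
    exact (grG_iff _ _ _ _).2 ⟨c, hc.symm, hC τ b c hc.symm⟩
  · intro ν hν
    obtain ⟨σ, a, b, hab, hg, he⟩ := hE τ ν hν
    refine ⟨σ, a, b, hab, hg, ?_⟩
    have hb := reduce_of_eqs (p := p) hs (X := brauer p f j) brauer_fibre brauer_frob ν.1 σ b
    unfold ReduceEq at *
    rw [eSum_prX, eSum_prX, hb, he]

/-- **Main theorem.** -/
theorem typed_iff [IsAddTorsionFree M] (hs : ∀ k, j (s k) = k) (hZ : ∀ τ, IsAlt (Z τ))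
    (P : Set M) :
    (∃ Y : W → M, (∀ k, Y k ∈ P) ∧
      ∀ (μ : Reg S (m + 1)) (τ : T), Z τ μ.1 = ∑ k, D.n k μ τ • Y k) ↔
      (∀ τ, TwistK p j (Z τ)) ∧ (∀ τ, OneEqK p j s (Z τ)) ∧ TypeEq D s Z ∧
        ∀ k y, Predicted D s Z k y → y ∈ P := by
  constructor
  · rintro ⟨Y, hP, h⟩
    refine ⟨twistK_of D hZ Y h, ?_, typeEq_of D hZ Y h, ?_⟩
    · intro τ μ hμ
      unfold Restricted at hμ
      push Not at hμ
      obtain ⟨σ, a, b, hab, hg⟩ := hμ
      exact ⟨σ, a, b, hab, hg, imp_restr D.toPairData hs hZ Y h τ μ.1 σ b⟩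
    · intro k y hy
      rw [← forcedK D hZ Y h k y hy]
      exact hP k
  · rintro ⟨hT, hE, hC, hP⟩
    have hG := graphK D hs hZ hT hE hC
    choose c hc using exists_coeffK D (s := s) hs
    refine ⟨fun k => ∑ b, c k b • Z D.t0 (hbK j s b), fun k => hP k _ ⟨c k, hc k, rfl⟩, ?_⟩
    intro μ τ
    have h1 : ∀ k, (D.β k, ∑ b, c k b • Z D.t0 (hbK j s b))
        ∈ GrG (fun b : NIdx m p f => brauer p f j (hbK j s b)) (fun b => Z D.t0 (hbK j s b)) :=
      fun k => (grG_iff _ _ _ _).2 ⟨c k, hc k, rfl⟩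
    have h2 := sum_pairK _ h1 (fun k => D.n k μ τ)
    rw [← D.mult μ τ] at h2
    exact grG_unique _ _ (indep_hbK hs) (hG τ μ.1) h2

end

end U566.BM
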