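import Pool.Agent.U566.BMTypes

/-! The crystalline case over a general field. -/

namespace U566.BM

open MvPolynomial Finset

set_option linter.unusedSectionVars false

noncomputable section

variable {S : Type} [Fintype S] [DecidableEq S] {m : ℕ} {p f : ℕ} [Fact p.Prime] [NeZero f]
  {j : S → ZMod f} {s : ZMod f → S} {W : Type} [Fintype W] {M : Type*} [AddCommGroup M]

/-- `y` is the combination of the `Z` at normalised restricted tuples given by an expression of the
Brauer character of the Serre weight `k` by the reductions of the corresponding algebraic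
representations. -/
def Explicit (D : SerreWeights p f (m + 1) j W) (s : ZMod f → S) (Z : Wt S (m + 1) → M)
    (k : W) (y : M) : Prop :=
  ∃ c : NIdx m p f → ℤ, D.β k = ∑ b, c b • brauer p f j (hbK j s b) ∧
    y = ∑ b, c b • Z (hbK j s b)

/-- the crystalline data as data with one type -/
def toTyped (D : SerreWeights p f (m + 1) j W) : TypedData p f (m + 1) j Unit W where
  θ := fun _ => 1
  β := D.β
  n := fun k μ _ => D.n k μ
  indep := D.indep
  mult := fun μ _ => by rw [mul_one]; exact D.mult μ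
  t0 := ()
  triv := rfl
  span := D.span

theorem crys_iff [IsAddTorsionFree M] (hs : ∀ k, j (s k) = k)
    (D : SerreWeights p f (m + 1) j W) {Z : Wt S (m + 1) → M} (hZ : IsAlt Z) :
    ((∃ Y : W → M, ∀ μ : Reg S (m + 1), Z μ.1 = ∑ k, D.n k μ • Y k) ↔
      TwistK p j Z ∧ OneEqK p j s Z) ∧
    (∀ k, ∃! y, Explicit D s Z k y) ∧
    ∀ Y : W → M, (∀ μ : Reg S (m + 1), Z μ.1 = ∑ k, D.n k μ • Y k) →
      ∀ k y, Explicit D s Z k y → Y k = y := by
  have hZ' : ∀ τ : Unit, IsAlt ((fun _ : Unit => Z) τ) := fun _ => hZ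
  have h := typed_iff (toTyped D) (Z := fun _ => Z) hs hZ' Set.univ
  refine ⟨⟨?_, ?_⟩, ?_, ?_⟩
  · rintro ⟨Y, hY⟩
    obtain ⟨h1, h2, -, -⟩ := h.1 ⟨Y, fun _ => Set.mem_univ _, fun μ _ => hY μ⟩
    exact ⟨h1 (), h2 ()⟩
  · rintro ⟨h1, h2⟩
    have hT : TypeEq (toTyped D) s (fun _ : Unit => Z) := by
      intro τ b c hc
      change brauer p f j (hbK j s b) * 1 = _ at hc
      rw [mul_one] at hc
      have h3 : ∀ c : NIdx m p f → ℤ, (∑ b, c b • brauer p f j (hbK j s b),
          ∑ b, c b • Z (hbK j s b)) ∈ GrG (fun b : NIdx m p f => brauer p f j (hbK j s b))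
            (fun b => Z (hbK j s b)) := fun c => (grG_iff _ _ _ _).2 ⟨c, rfl, rfl⟩
      have h4 := h3 c
      rw [← hc] at h4
      have h5 : (brauer p f j (hbK j s b), Z (hbK j s b))
          ∈ GrG (fun b : NIdx m p f => brauer p f j (hbK j s b)) (fun b => Z (hbK j s b)) :=
        Submodule.subset_span ⟨b, rfl⟩
      exact grG_unique _ _ (indep_hbK hs) h5 h4
    obtain ⟨Y, -, hY⟩ := h.2 ⟨fun _ => h1, fun _ => h2, hT, fun _ _ _ => Set.mem_univ _⟩
    exact ⟨Y, fun μ => hY μ ()⟩
  · exact fun k => predicted_exists (toTyped D) (Z := fun _ => Z) hs k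
  · intro Y hY k y hy
    exact forcedK (toTyped D) (Z := fun _ => Z) hZ' Y (fun μ _ => hY μ) k y hy

end

end U566.BM
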