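import Pool.Agent.U566.BMDefs

/-! Properties of Weyl characters. -/

namespace U566.BM

open MvPolynomial Finset

noncomputable section

variable {d : ℕ} {R : Type*} [CommRing R]

lemma weylChar_aux (t : Fin d → Rˣ) (μ : Fin d → ℤ) (N K : ℕ) (h : ∀ i, 0 ≤ μ i + N) :
    (((∏ k, t k)⁻¹ ^ (N + K) : Rˣ) : R) *
      aeval (fun k => (t k : R)) (schur fun i => (μ i + ((N + K : ℕ) : ℤ)).toNat)
    = (((∏ k, t k)⁻¹ ^ N : Rˣ) : R) *
      aeval (fun k => (t k : R)) (schur fun i => (μ i + (N : ℤ)).toNat) := by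
  have e : (fun i => (μ i + ((N + K : ℕ) : ℤ)).toNat) = fun i => (μ i + (N : ℤ)).toNat + K := by
    funext i
    have := h i
    push_cast
    omega
  rw [e, schur_add, map_mul, map_pow, map_prod]
  simp only [aeval_X]
  have e2 : (∏ k, (t k : R)) ^ K = (((∏ k, t k) ^ K : Rˣ) : R) := by simp
  rw [e2, ← mul_assoc, ← Units.val_mul]
  congr 2
  rw [pow_add, mul_assoc, ← mul_pow]
  simp

lemma weylChar_eq (t : Fin d → Rˣ) (μ : Fin d → ℤ) (N : ℕ) (h : ∀ i, 0 ≤ μ i + N) :
    weylChar t μ = (((∏ k, t k)⁻¹ ^ N : Rˣ) : R) *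
      aeval (fun k => (t k : R)) (schur fun i => (μ i + (N : ℤ)).toNat) := by
  set A := ∑ i, (μ i).natAbs with hA
  have hA' : ∀ i, 0 ≤ μ i + A := by
    intro i
    have h1 : (μ i).natAbs ≤ A :=
      Finset.single_le_sum (f := fun i => (μ i).natAbs) (fun _ _ => Nat.zero_le _)
        (Finset.mem_univ i)
    omega
  have h1 := weylChar_aux t μ A N hA'
  have h2 := weylChar_aux t μ N A h
  rw [add_comm N A, h1] at h2
  rw [← h2, weylChar, ← hA]
  congr 4
  funext i
  rw [hA]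
  push_cast
  rfl

lemma schur_perm (ν : Fin d → ℕ) (e : Equiv.Perm (Fin d)) :
    schur (fun i => ν (e i)) = (Equiv.Perm.sign e : ℤ) • schur ν := by
  rw [schur, schur]
  have := Matrix.det_permute e (Matrix.of fun i k : Fin d =>
    ((Polynomial.X ^ (ν i)) %ₘ univP d).coeff (k.rev : ℕ))
  rw [zsmul_eq_mul]
  exact this

lemma schur_rep (ν : Fin d → ℕ) {i k : Fin d} (hik : i ≠ k) (h : ν i = ν k) : schur ν = 0 := by
  rw [schur]
  apply Matrix.det_zero_of_row_eq hik
  funext l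
  simp [h]

lemma weylChar_perm (t : Fin d → Rˣ) (μ : Fin d → ℤ) (e : Equiv.Perm (Fin d)) :
    weylChar t (fun i => μ (e i)) = (Equiv.Perm.sign e : ℤ) • weylChar t μ := by
  rw [weylChar, weylChar]
  have h1 : ∑ i, (μ (e i)).natAbs = ∑ i, (μ i).natAbs :=
    Equiv.sum_comp e (fun i => (μ i).natAbs)
  have h2 : ∑ i, ((μ (e i)).natAbs : ℤ) = ∑ i, ((μ i).natAbs : ℤ) :=
    Equiv.sum_comp e (fun i => ((μ i).natAbs : ℤ))
  rw [h1, h2, schur_perm (fun i => (μ i + ∑ l, ((μ l).natAbs : ℤ)).toNat) e, map_zsmul,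
    mul_smul_comm]

lemma weylChar_rep (t : Fin d → Rˣ) (μ : Fin d → ℤ) {i k : Fin d} (hik : i ≠ k) (h : μ i = μ k) :
    weylChar t μ = 0 := by
  rw [weylChar, schur_rep _ hik (by rw [h]), map_zero, mul_zero]

lemma weylChar_pieri (t : Fin d → Rˣ) (μ : Fin d → ℤ) (m r : ℕ) :
    ∑ I ∈ powersetCard r (univ : Finset (Fin d)),
      weylChar t (fun i => μ i + if i ∈ I then (m : ℤ) else 0)
    = aeval (fun k => (t k : R) ^ m) (esymm (Fin d) ℤ r) * weylChar t μ := by
  set A := ∑ i, (μ i).natAbs with hA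
  have hA' : ∀ i, 0 ≤ μ i + A := by
    intro i
    have h1 : (μ i).natAbs ≤ A :=
      Finset.single_le_sum (f := fun i => (μ i).natAbs) (fun _ _ => Nat.zero_le _)
        (Finset.mem_univ i)
    omega
  rw [weylChar_eq t μ A hA']
  have h1 : ∀ I : Finset (Fin d), weylChar t (fun i => μ i + if i ∈ I then (m : ℤ) else 0)
      = (((∏ k, t k)⁻¹ ^ A : Rˣ) : R) * aeval (fun k => (t k : R))
        (schur (addOn (fun i => (μ i + (A : ℤ)).toNat) I m)) := by
    intro I
    rw [weylChar_eq t _ A]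
    · congr 3
      funext i
      have := hA' i
      simp only [addOn]
      split_ifs <;> omega
    · intro i
      have := hA' i
      split_ifs <;> omega
  simp only [h1]
  rw [← Finset.mul_sum, ← map_sum, pieri, map_mul, mul_left_comm]
  congr 1
  rw [← AlgHom.comp_apply]
  congr 1
  apply MvPolynomial.algHom_ext
  intro i
  simp

/-- at points with `(∏ t)^(q-1) = 1`, shifting by multiples of `q-1` does nothing -/
lemma weylChar_shift (t : Fin d → Rˣ) (μ : Fin d → ℤ) {q : ℕ} (ht : (∏ k, t k) ^ (q - 1) = 1)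
    (n : ℕ) (h : ∀ i, 0 ≤ μ i + ((q - 1) * n : ℕ)) :
    weylChar t μ = aeval (fun k => (t k : R)) (schur fun i => (μ i + ((q - 1) * n : ℕ)).toNat) := by
  rw [weylChar_eq t μ ((q - 1) * n) h, inv_pow, pow_mul, ht, one_pow]
  simp

end

end U566.BM
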